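import Pool.Agent.N983.RT.Stm

set_option autoImplicit false

/-! (ALG) the nonlinear term in the energy balance (helper755 for helper983) -/

namespace Pool.Agent.N983.RT

theorem alg_mem {n : ℕ} {k : Wv} : k ∈ cub n ↔ ∀ i, -(n : ℤ) ≤ k i ∧ k i ≤ n := by
  unfold cub
  rw [Fintype.mem_piFinset]
  simp only [Finset.mem_Icc]

theorem alg_neg {n : ℕ} {k : Wv} (h : k ∈ cub n) : -k ∈ cub n := by
  rw [alg_mem] at h ⊢
  intro i
  have := h i
  rw [Pi.neg_apply]
  omega

theorem alg_dt_add (a : Fin 3 → ℂ) (k l : Wv) : dt a (k + l) = dt a k + dt a l := by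
  unfold dt
  rw [← Finset.sum_add_distrib]
  refine Finset.sum_congr rfl fun i _ => ?_
  rw [Pi.add_apply]
  push_cast
  ring

theorem alg_dt_neg (a : Fin 3 → ℂ) (k : Wv) : dt a (-k) = -dt a k := by
  unfold dt
  rw [← Finset.sum_neg_distrib]
  refine Finset.sum_congr rfl fun i _ => ?_
  rw [Pi.neg_apply]
  push_cast
  ring

theorem alg_prj {u : Fld} (hu : Adm u) (m : Wv) (a : Fin 3 → ℂ) :
    ∑ j, (starRingEnd ℂ) (u m j) * prj m a j = ∑ j, (starRingEnd ℂ) (u m j) * a j := by
  have h1 : ∑ j, (starRingEnd ℂ) (u m j) * (m j : ℂ) = 0 := by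
    have h2 := congrArg (starRingEnd ℂ) (hu.div m)
    unfold dt at h2
    rw [map_sum, map_zero] at h2
    rw [← h2]
    refine Finset.sum_congr rfl fun i _ => ?_
    rw [map_mul, map_intCast]
  have h3 : ∀ j, (starRingEnd ℂ) (u m j) * prj m a j = (starRingEnd ℂ) (u m j) * a j -
      (dt a m / (nsq m : ℂ)) * ((starRingEnd ℂ) (u m j) * (m j : ℂ)) := by
    intro j
    unfold prj
    ring
  rw [Finset.sum_congr rfl fun j _ => h3 j, Finset.sum_sub_distrib, ← Finset.mul_sum, h1, mul_zero,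
    sub_zero]

theorem alg_conv {g : Wv → Wv → Wv → ℝ} {n : ℕ} {u : Fld} (hu0 : ∀ k, k ∉ cub n → u k = 0)
    {m : Wv} (hm : m ∈ cub n) (j : Fin 3) :
    conv (cutg n g) u m j =
      ∑ k ∈ cub n, (g k (m - k) (-m) : ℂ) * dt (u k) (m - k) * u (m - k) j := by
  unfold conv
  rw [tsum_eq_sum (s := cub n)]
  · refine Finset.sum_congr rfl fun k hk => ?_
    by_cases h : m - k ∈ cub n
    · have : cutg n g k (m - k) (-m) = g k (m - k) (-m) := by
        unfold cutg
        exact if_pos ⟨hk, h, alg_neg hm⟩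
      rw [this]
    · rw [hu0 _ h, Pi.zero_apply, mul_zero, mul_zero]
  · intro k hk
    have : cutg n g k (m - k) (-m) = 0 := by
      unfold cutg
      exact if_neg fun h => hk h.1
    rw [this, Complex.ofReal_zero, zero_mul, zero_mul]

/-- the summand -/
noncomputable def algF (g : Wv → Wv → Wv → ℝ) (s : ℕ) (u : Fld) (k l : Wv) : ℂ :=
  (g k l (-(k + l)) : ℂ) * (nsq (k + l) : ℂ) ^ s * dt (u k) l * ∑ j, u l j * u (-(k + l)) j

theorem alg_zero1 {g : Wv → Wv → Wv → ℝ} {s n : ℕ} {u : Fld} (hu0 : ∀ k, k ∉ cub n → u k = 0)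
    {k l : Wv} (h : l ∉ cub n) : algF g s u k l = 0 := by
  unfold algF
  rw [hu0 l h]
  simp

theorem alg_zero2 {g : Wv → Wv → Wv → ℝ} {s n : ℕ} {u : Fld} (hu0 : ∀ k, k ∉ cub n → u k = 0)
    {k l : Wv} (h : k + l ∉ cub n) : algF g s u k l = 0 := by
  unfold algF
  have h1 : -(k + l) ∉ cub n := fun h2 => h (by
    have := alg_neg h2
    rwa [neg_neg] at this)
  rw [hu0 _ h1]
  simp

theorem alg_comm (C : Finset Wv) (X : Fin 3 → Fin 3 → Wv → ℂ) :
    ∑ i, ∑ j, ∑ k ∈ C, X i j k = ∑ k ∈ C, ∑ i, ∑ j, X i j k := by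
  have h : ∀ i, ∑ j, ∑ k ∈ C, X i j k = ∑ k ∈ C, ∑ j, X i j k := fun i => Finset.sum_comm
  rw [Finset.sum_congr rfl fun i _ => h i, Finset.sum_comm]

theorem alg_form (g : Wv → Wv → Wv → ℝ) (s n : ℕ) (u : Fld) :
    form g s n u = ∑ k ∈ cub n, ∑ l ∈ cub n, algF g s u k l := by
  unfold form Tri
  rw [alg_comm]
  refine Finset.sum_congr rfl fun k _ => ?_
  rw [alg_comm]
  refine Finset.sum_congr rfl fun l _ => ?_
  unfold algF dt
  rw [mul_assoc, Finset.sum_mul_sum, Finset.mul_sum]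
  refine Finset.sum_congr rfl fun i _ => ?_
  rw [Finset.mul_sum]
  refine Finset.sum_congr rfl fun j _ => ?_
  push_cast
  ring

theorem alg_shift {g : Wv → Wv → Wv → ℝ} {s n : ℕ} {u : Fld} (hu0 : ∀ k, k ∉ cub n → u k = 0)
    (k : Wv) : ∑ m ∈ cub n, algF g s u k (m - k) = ∑ l ∈ cub n, algF g s u k l := by
  classical
  rw [← Finset.sum_filter_of_ne (s := cub n) (p := fun m => m - k ∈ cub n)
      (f := fun m => algF g s u k (m - k)) (fun m _ h => by
        by_contra hc
        exact h (alg_zero1 hu0 hc)),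
    ← Finset.sum_filter_of_ne (s := cub n) (p := fun l => k + l ∈ cub n)
      (f := fun l => algF g s u k l) (fun l _ h => by
        by_contra hc
        exact h (alg_zero2 hu0 hc))]
  refine Finset.sum_nbij' (fun m => m - k) (fun l => k + l) ?_ ?_ ?_ ?_ ?_
  · intro m hm
    rw [Finset.mem_filter] at hm ⊢
    refine ⟨hm.2, ?_⟩
    rw [add_sub_cancel]
    exact hm.1
  · intro l hl
    rw [Finset.mem_filter] at hl ⊢
    refine ⟨hl.2, ?_⟩
    rw [add_sub_cancel_left]
    exact hl.1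
  · intro m _
    exact add_sub_cancel k m
  · intro l _
    exact add_sub_cancel_left k l
  · intro m _
    rfl

theorem alg_flux {g : Wv → Wv → Wv → ℝ} {n : ℕ} {u : Fld} (hu : Adm u)
    (hu0 : ∀ k, k ∉ cub n → u k = 0) (s : ℕ) :
    flux (cutg n g) s n u = (-Complex.I * form g s n u).re := by
  unfold flux
  congr 1
  have h1 : ∀ m ∈ cub n, ∑ j, (nsq m ^ s : ℂ) * ((starRingEnd ℂ) (u m j) *
      (-Complex.I * prj m (conv (cutg n g) u m) j)) =
      -Complex.I * ∑ k ∈ cub n, algF g s u k (m - k) := by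
    intro m hm
    have h2 : ∑ j, (nsq m ^ s : ℂ) * ((starRingEnd ℂ) (u m j) *
        (-Complex.I * prj m (conv (cutg n g) u m) j)) = -Complex.I * ((nsq m : ℂ) ^ s *
          ∑ j, (starRingEnd ℂ) (u m j) * prj m (conv (cutg n g) u m) j) := by
      rw [Finset.mul_sum, Finset.mul_sum]
      exact Finset.sum_congr rfl fun j _ => by ring
    rw [h2, alg_prj hu]
    congr 1
    have h3 : ∀ j, (starRingEnd ℂ) (u m j) * conv (cutg n g) u m j = ∑ k ∈ cub n,
        u (-m) j * ((g k (m - k) (-m) : ℂ) * dt (u k) (m - k) * u (m - k) j) := by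
      intro j
      rw [← hu.real m j, alg_conv hu0 hm j, Finset.mul_sum]
    rw [Finset.sum_congr rfl fun j _ => h3 j, Finset.sum_comm, Finset.mul_sum]
    refine Finset.sum_congr rfl fun k _ => ?_
    unfold algF
    rw [add_sub_cancel, Finset.mul_sum, Finset.mul_sum]
    exact Finset.sum_congr rfl fun j _ => by ring
  rw [Finset.sum_congr rfl h1, ← Finset.mul_sum, Finset.sum_comm, alg_form]
  congr 1
  exact Finset.sum_congr rfl fun k _ => alg_shift hu0 k

theorem alg_inv {g : Wv → Wv → Wv → ℝ} {n : ℕ} {u : Fld} (hg : Arr g) (hu : Adm u)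
    (hu0 : ∀ k, k ∉ cub n → u k = 0) (k : Wv) : ∑ l ∈ cub n, algF g 0 u k l = 0 := by
  classical
  have h1 : ∑ l ∈ cub n, algF g 0 u k l = ∑ l ∈ cub n, -algF g 0 u k l := by
    rw [← Finset.sum_filter_of_ne (s := cub n) (p := fun l => k + l ∈ cub n)
        (f := fun l => algF g 0 u k l) (fun l _ h => by
          by_contra hc
          exact h (alg_zero2 hu0 hc)),
      ← Finset.sum_filter_of_ne (s := cub n) (p := fun l => k + l ∈ cub n)
        (f := fun l => -algF g 0 u k l) (fun l _ h => by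
          by_contra hc
          exact h (by rw [alg_zero2 hu0 hc, neg_zero]))]
    refine Finset.sum_nbij' (fun l => -(k + l)) (fun l => -(k + l)) ?_ ?_ ?_ ?_ ?_
    · intro l hl
      rw [Finset.mem_filter] at hl ⊢
      refine ⟨alg_neg hl.2, ?_⟩
      have e : k + -(k + l) = -l := by abel
      rw [e]
      exact alg_neg hl.1
    · intro l hl
      rw [Finset.mem_filter] at hl ⊢
      refine ⟨alg_neg hl.2, ?_⟩
      have e : k + -(k + l) = -l := by abel
      rw [e]
      exact alg_neg hl.1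
    · intro l _
      show -(k + -(k + l)) = l
      abel
    · intro l _
      show -(k + -(k + l)) = l
      abel
    · intro l _
      show algF g 0 u k l = -algF g 0 u k (-(k + l))
      unfold algF
      have e : -(k + -(k + l)) = l := by abel
      rw [e, pow_zero, pow_zero, alg_dt_neg, alg_dt_add, hu.div k, zero_add,
        hg.swap23 k (-(k + l)) l]
      have h2 : ∑ j, u (-(k + l)) j * u l j = ∑ j, u l j * u (-(k + l)) j :=
        Finset.sum_congr rfl fun j _ => mul_comm _ _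
      rw [h2]
      ring
  rw [Finset.sum_neg_distrib] at h1
  have h2 : 2 * ∑ l ∈ cub n, algF g 0 u k l = 0 := by linear_combination h1
  exact (mul_eq_zero.1 h2).resolve_left two_ne_zero

theorem t_ALG : S_ALG := by
  intro g n u hg hu hu0
  refine ⟨fun s => alg_flux hu hu0 s, ?_⟩
  rw [alg_flux hu hu0 0, alg_form, Finset.sum_congr rfl fun k _ => alg_inv hg hu hu0 k,
    Finset.sum_const_zero, mul_zero, Complex.zero_re]

end Pool.Agent.N983.RT
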