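import Pool.Agent.N983.RT.Stm

set_option autoImplicit false

/-! (APR) a priori bounds for the truncated systems. -/

namespace Pool.Agent.N983.RT

open MeasureTheory ProbabilityTheory

theorem apr_nsq_nonneg (k : Wv) : 0 ≤ nsq k := Finset.sum_nonneg fun _ _ => sq_nonneg _

theorem apr_nsq_one (k : Wv) (hk : k ≠ 0) : 1 ≤ nsq k := by
  obtain ⟨i, hi⟩ := Function.ne_iff.1 hk
  have h1 : (1 : ℝ) ≤ (k i : ℝ) ^ 2 := by
    have h2 : (1 : ℤ) ≤ (k i) ^ 2 := by
      have : 0 < (k i) ^ 2 := by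
        have h3 : k i ≠ 0 := hi
        positivity
      omega
    exact_mod_cast h2
  exact h1.trans (Finset.single_le_sum (f := fun i => (k i : ℝ) ^ 2) (fun _ _ => sq_nonneg _) (Finset.mem_univ i))

theorem apr_normsq {f : ℝ → ℂ} {f' : ℂ} {s : Set ℝ} {x : ℝ} (h : HasDerivWithinAt f f' s x) :
    HasDerivWithinAt (fun t => ‖f t‖ ^ 2) (2 * ((starRingEnd ℂ) (f x) * f').re) s x := by
  have h1 := h.norm_sq
  rw [Complex.inner, mul_comm f'] at h1
  exact h1

theorem apr_elem (b α δ : ℝ) (hb : 0 < b) (hbα : b < α) (hδ : 0 < δ) :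
    ∃ K : ℝ, 0 ≤ K ∧ ∀ x : ℝ, 1 ≤ x → x ^ b ≤ δ * x ^ α + K := by
  have h1 : Filter.Tendsto (fun x : ℝ => x ^ (α - b)) Filter.atTop Filter.atTop := tendsto_rpow_atTop (by linarith)
  obtain ⟨x0, hx0⟩ := Filter.eventually_atTop.1 (h1.eventually_ge_atTop (1 / δ))
  refine ⟨(max x0 1) ^ b, by positivity, fun x hx => ?_⟩
  have hxp : 0 < x := by linarith
  rcases le_total x0 x with h | h
  · have h2 := hx0 x h
    have h3 : x ^ α = x ^ (α - b) * x ^ b := by
      rw [← Real.rpow_add hxp]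
      congr 1
      ring
    have h4 : 0 < x ^ b := Real.rpow_pos_of_pos hxp _
    have h5 : 1 ≤ δ * x ^ (α - b) := by
      rw [div_le_iff₀ hδ] at h2
      linarith
    have h6 : 0 ≤ (max x0 1) ^ b := by positivity
    rw [h3]
    nlinarith
  · have h2 : x ^ b ≤ (max x0 1) ^ b := Real.rpow_le_rpow hxp.le (h.trans (le_max_left _ _)) hb.le
    have h3 : 0 ≤ δ * x ^ α := by positivity
    linarith

theorem apr_gron (f f' : ℝ → ℝ) (K : ℝ) (hf : ∀ t, 0 ≤ t → HasDerivWithinAt f (f' t) (Set.Ici 0) t)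
    (h : ∀ t, 0 ≤ t → f' t ≤ K * f t) : ∀ t, 0 ≤ t → f t ≤ Real.exp (K * t) * f 0 := by
  have hd : ∀ t, 0 ≤ t → HasDerivWithinAt (fun t => Real.exp (-(K * t)) * f t)
      (Real.exp (-(K * t)) * (f' t - K * f t)) (Set.Ici 0) t := by
    intro t ht
    have h1 : HasDerivAt (fun t : ℝ => -(K * t)) (-(K * 1)) t := ((hasDerivAt_id' t).const_mul K).neg
    have h2 := (h1.exp.hasDerivWithinAt (s := Set.Ici 0)).fun_mul (hf t ht)
    refine h2.congr_deriv ?_
    ring
  have hanti : AntitoneOn (fun t => Real.exp (-(K * t)) * f t) (Set.Ici 0) := by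
    refine antitoneOn_of_hasDerivWithinAt_nonpos (convex_Ici 0)
      (f' := fun t => Real.exp (-(K * t)) * (f' t - K * f t)) ?_ ?_ ?_
    · intro t ht
      exact (hd t ht).continuousWithinAt
    · intro t ht
      rw [interior_Ici] at ht
      exact (hd t (le_of_lt ht)).mono (by rw [interior_Ici]; exact Set.Ioi_subset_Ici_self)
    · intro t ht
      rw [interior_Ici] at ht
      have h1 := h t (le_of_lt ht)
      have h2 := Real.exp_pos (-(K * t))
      have h3 : f' t - K * f t ≤ 0 := by linarith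
      exact mul_nonpos_of_nonneg_of_nonpos h2.le h3
  intro t ht
  have h1 := hanti (Set.mem_Ici.2 le_rfl) (Set.mem_Ici.2 ht) ht
  simp only [mul_zero, neg_zero, Real.exp_zero, one_mul] at h1
  have h2 : f t = Real.exp (K * t) * (Real.exp (-(K * t)) * f t) := by
    rw [← mul_assoc, ← Real.exp_add]
    simp
  rw [h2]
  exact mul_le_mul_of_nonneg_left h1 (Real.exp_pos _).le

theorem apr_init (hS : S_SUM) (u₀ : Fld) (hu : Rapid u₀) (s : ℕ) :
    ∃ E : ℝ, 0 ≤ E ∧ ∀ n, En s n (cut n u₀) ≤ E := by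
  obtain ⟨C, hC⟩ := hu (s + 3)
  refine ⟨3 * C ^ 2 * ∑' k : Wv, ((1 + nsq k) ^ 3)⁻¹, ?_, fun n => ?_⟩
  · have : 0 ≤ ∑' k : Wv, ((1 + nsq k) ^ 3)⁻¹ := tsum_nonneg fun k => by
      have := apr_nsq_nonneg k
      positivity
    positivity
  · have h1 : En s n (cut n u₀) ≤ ∑ k ∈ cub n, 3 * C ^ 2 * ((1 + nsq k) ^ 3)⁻¹ := by
      unfold En
      refine Finset.sum_le_sum fun k hk => ?_
      have h0 := apr_nsq_nonneg k
      have h2 : ∀ i, ‖cut n u₀ k i‖ ^ 2 ≤ C ^ 2 * ((1 + nsq k) ^ (2 * s + 6))⁻¹ := by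
        intro i
        have h3 := hC k i
        have h4 : cut n u₀ k i = u₀ k i := by
          unfold cut
          rw [if_pos hk]
        rw [h4, ← div_eq_mul_inv, le_div_iff₀ (by positivity)]
        have h5 : ‖u₀ k i‖ ^ 2 * (1 + nsq k) ^ (2 * s + 6) = ((1 + nsq k) ^ (s + 3) * ‖u₀ k i‖) ^ 2 := by
          rw [mul_pow, ← pow_mul]
          ring_nf
        rw [h5]
        exact pow_le_pow_left₀ (by positivity) h3 2
      have h3 : nsq k ^ s * ((1 + nsq k) ^ (2 * s + 6))⁻¹ ≤ ((1 + nsq k) ^ 3)⁻¹ := by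
        rw [← div_eq_mul_inv, div_le_iff₀ (by positivity)]
        have h4 : ((1 + nsq k) ^ 3)⁻¹ * (1 + nsq k) ^ (2 * s + 6) = (1 + nsq k) ^ s * (1 + nsq k) ^ (s + 3) := by
          have h5 : (1 + nsq k) ^ (2 * s + 6) = (1 + nsq k) ^ 3 * ((1 + nsq k) ^ s * (1 + nsq k) ^ (s + 3)) := by ring
          rw [h5, ← mul_assoc, inv_mul_cancel₀ (by positivity), one_mul]
        rw [h4]
        have h6 : nsq k ^ s ≤ (1 + nsq k) ^ s := pow_le_pow_left₀ h0 (by linarith) s
        have h7 : 1 ≤ (1 + nsq k) ^ (s + 3) := one_le_pow₀ (by linarith)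
        have h8 : 0 ≤ (1 + nsq k) ^ s := by positivity
        nlinarith
      calc nsq k ^ s * ∑ i, ‖cut n u₀ k i‖ ^ 2 ≤ nsq k ^ s * ∑ i : Fin 3, C ^ 2 * ((1 + nsq k) ^ (2 * s + 6))⁻¹ := by
            refine mul_le_mul_of_nonneg_left (Finset.sum_le_sum fun i _ => h2 i) (by positivity)
        _ = 3 * C ^ 2 * (nsq k ^ s * ((1 + nsq k) ^ (2 * s + 6))⁻¹) := by
            rw [Finset.sum_const, Finset.card_univ, Fintype.card_fin]
            simp only [nsmul_eq_mul]
            push_cast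
            ring
        _ ≤ 3 * C ^ 2 * ((1 + nsq k) ^ 3)⁻¹ := mul_le_mul_of_nonneg_left h3 (by positivity)
    refine h1.trans ?_
    rw [← Finset.mul_sum]
    refine mul_le_mul_of_nonneg_left ?_ (by positivity)
    refine hS.sum_le_tsum (cub n) fun k _ => ?_
    have := apr_nsq_nonneg k
    positivity

theorem apr_deriv (g : Wv → Wv → Wv → ℝ) (ν α : ℝ) (n s : ℕ) (u : ℝ → Fld) (hu : IsSol g ν α u)
    (t : ℝ) (ht : 0 ≤ t) : HasDerivWithinAt (fun t => En s n (u t))
      (-2 * ν * Er (s + α) n (u t) + 2 * flux g s n (u t)) (Set.Ici 0) t := by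
  have h1 : ∀ k ∈ cub n, ∀ i, HasDerivWithinAt (fun t => ‖u t k i‖ ^ 2)
      (-2 * ν * (if k = 0 then 0 else nsq k ^ α * ‖u t k i‖ ^ 2) +
        2 * ((starRingEnd ℂ) (u t k i) * (-Complex.I * prj k (conv g (u t) k) i)).re) (Set.Ici 0) t := by
    intro k _ i
    by_cases hk : k = 0
    · subst hk
      have h0 : ∀ t, 0 ≤ t → u t 0 i = 0 := by
        intro t ht
        rw [(hu.adm t ht).zero]
        rfl
      rw [if_pos rfl, h0 t ht]
      have h2 : HasDerivWithinAt (fun _ : ℝ => (0 : ℝ)) 0 (Set.Ici 0) t := hasDerivWithinAt_const _ _ _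
      refine (h2.congr (fun x hx => ?_) ?_).congr_deriv ?_
      · rw [h0 x hx]; simp
      · rw [h0 t ht]; simp
      · simp
    · rw [if_neg hk]
      have h2 := apr_normsq (hu.eqn t ht k hk i)
      refine h2.congr_deriv ?_
      unfold rhs
      have h3 : (starRingEnd ℂ) (u t k i) * (-((ν * nsq k ^ α : ℝ) : ℂ) * u t k i - Complex.I * prj k (conv g (u t) k) i) =
          ((-(ν * nsq k ^ α) : ℝ) : ℂ) * (u t k i * (starRingEnd ℂ) (u t k i)) +
            (starRingEnd ℂ) (u t k i) * (-Complex.I * prj k (conv g (u t) k) i) := by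
        push_cast
        ring
      rw [h3, Complex.add_re, Complex.re_ofReal_mul, Complex.mul_conj, Complex.ofReal_re, Complex.normSq_eq_norm_sq]
      ring
  have h2 : HasDerivWithinAt (fun t => En s n (u t)) (∑ k ∈ cub n, nsq k ^ s * ∑ i,
      (-2 * ν * (if k = 0 then 0 else nsq k ^ α * ‖u t k i‖ ^ 2) +
        2 * ((starRingEnd ℂ) (u t k i) * (-Complex.I * prj k (conv g (u t) k) i)).re)) (Set.Ici 0) t := by
    unfold En
    refine HasDerivWithinAt.fun_sum fun k hk => ?_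
    refine HasDerivWithinAt.const_mul _ ?_
    exact HasDerivWithinAt.fun_sum fun i _ => h1 k hk i
  refine h2.congr_deriv ?_
  unfold Er flux
  rw [Complex.re_sum, Finset.mul_sum, Finset.mul_sum, ← Finset.sum_add_distrib]
  refine Finset.sum_congr rfl fun k _ => ?_
  rw [Complex.re_sum]
  have h3 : ∀ i, ((nsq k : ℂ) ^ s * ((starRingEnd ℂ) (u t k i) * (-Complex.I * prj k (conv g (u t) k) i))).re =
      nsq k ^ s * ((starRingEnd ℂ) (u t k i) * (-Complex.I * prj k (conv g (u t) k) i)).re := by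
    intro i
    rw [← Complex.ofReal_pow, Complex.re_ofReal_mul]
  simp only [h3]
  by_cases hk : k = 0
  · subst hk
    have h0 : ∀ i, u t 0 i = 0 := by
      intro i
      rw [(hu.adm t ht).zero]
      rfl
    simp [h0]
  · have hk1 := apr_nsq_one k hk
    simp only [if_neg hk]
    rw [Real.rpow_add (by linarith), Real.rpow_natCast, Finset.mul_sum, Finset.mul_sum, Finset.mul_sum,
      Finset.mul_sum, ← Finset.sum_add_distrib]
    refine Finset.sum_congr rfl fun i _ => ?_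
    ring

theorem apr_Er_nonneg (r : ℝ) (n : ℕ) (u : Fld) : 0 ≤ Er r n u := by
  unfold Er
  refine Finset.sum_nonneg fun k _ => ?_
  have := apr_nsq_nonneg k
  positivity

theorem apr_En_nonneg (s n : ℕ) (u : Fld) : 0 ≤ En s n u := by
  unfold En
  refine Finset.sum_nonneg fun k _ => ?_
  have := apr_nsq_nonneg k
  positivity

theorem apr_interp (s n : ℕ) (b α δ K : ℝ)
    (h : ∀ x : ℝ, 1 ≤ x → x ^ b ≤ δ * x ^ α + K) (u : Fld) (hu : u 0 = 0) :
    Er (s + b) n u ≤ δ * Er (s + α) n u + K * En s n u := by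
  unfold Er En
  rw [Finset.mul_sum, Finset.mul_sum, ← Finset.sum_add_distrib]
  refine Finset.sum_le_sum fun k _ => ?_
  by_cases hk : k = 0
  · subst hk
    simp [hu]
  · have hk1 := apr_nsq_one k hk
    rw [Real.rpow_add (by linarith), Real.rpow_add (by linarith), Real.rpow_natCast]
    have h1 := h _ hk1
    have h2 : 0 ≤ nsq k ^ s * ∑ i, ‖u k i‖ ^ 2 := by
      have := apr_nsq_nonneg k
      positivity
    have h3 := mul_le_mul_of_nonneg_left h1 h2
    have e1 : nsq k ^ s * nsq k ^ b * ∑ i, ‖u k i‖ ^ 2 = nsq k ^ s * (∑ i, ‖u k i‖ ^ 2) * nsq k ^ b := by ring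
    have e2 : δ * (nsq k ^ s * nsq k ^ α * ∑ i, ‖u k i‖ ^ 2) + K * (nsq k ^ s * ∑ i, ‖u k i‖ ^ 2) =
      nsq k ^ s * (∑ i, ‖u k i‖ ^ 2) * (δ * nsq k ^ α + K) := by ring
    rw [e1, e2]
    exact h3

theorem t_APR : S_APR := by
  intro hS hA hE g ν α κ hg hν hκ hα hTB u₀ hu₀ hR s T
  obtain ⟨E0, hE0, hE0'⟩ := apr_init hS u₀ hR 0
  obtain ⟨Es, hEs, hEs'⟩ := apr_init hS u₀ hR s
  obtain ⟨C, hC, hC'⟩ := hE g κ hκ hTB s
  set M := C * Real.sqrt E0 with hM
  have hM0 : 0 ≤ M := by positivity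
  have hb : 0 < (1 + κ) / 2 := by linarith
  have hδ : 0 < ν / (M + 1) := by positivity
  obtain ⟨K, hK, hK'⟩ := apr_elem ((1 + κ) / 2) α (ν / (M + 1)) hb hα hδ
  have hMδ : M * (ν / (M + 1)) ≤ ν := by
    rw [mul_div_assoc', div_le_iff₀ (by positivity)]
    nlinarith
  refine ⟨Real.exp (2 * M * K * T) * Es, ?_⟩
  intro n u hu hu0 hsupp t ht htT
  have hfl : ∀ t, 0 ≤ t → ∀ s' : ℕ, flux (cutg n g) s' n (u t) = (-Complex.I * form g s' n (u t)).re := fun t ht s' =>
    (hA g n (u t) hg (hu.adm t ht) (hsupp t ht)).1 s'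
  have hfl0 : ∀ t, 0 ≤ t → flux (cutg n g) 0 n (u t) = 0 := fun t ht =>
    (hA g n (u t) hg (hu.adm t ht) (hsupp t ht)).2
  have hen0 : ∀ t, 0 ≤ t → En 0 n (u t) ≤ E0 := by
    intro t ht
    have h1 := apr_gron (fun t => En 0 n (u t)) _ 0 (fun t ht => apr_deriv (cutg n g) ν α n 0 u hu t ht)
      (fun t ht => by
        rw [hfl0 t ht]
        have := apr_Er_nonneg (((0 : ℕ) : ℝ) + α) n (u t)
        nlinarith) t ht
    simp only [zero_mul, Real.exp_zero, one_mul] at h1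
    rw [hu0] at h1
    exact h1.trans (hE0' n)
  have h1 := apr_gron (fun t => En s n (u t)) _ (2 * M * K) (fun t ht => apr_deriv (cutg n g) ν α n s u hu t ht)
    (fun t ht => by
      have a1 : flux (cutg n g) s n (u t) ≤ M * Er (s + (1 + κ) / 2) n (u t) := by
        rw [hfl t ht s]
        refine (Complex.re_le_norm _).trans ?_
        rw [norm_mul, norm_neg, Complex.norm_I, one_mul]
        refine (hC' n (u t) (hu.adm t ht).zero (hsupp t ht)).trans ?_
        refine mul_le_mul_of_nonneg_right ?_ (apr_Er_nonneg _ _ _)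
        exact mul_le_mul_of_nonneg_left (Real.sqrt_le_sqrt (hen0 t ht)) hC
      have a2 := apr_interp s n ((1 + κ) / 2) α (ν / (M + 1)) K hK' (u t) (hu.adm t ht).zero
      have a3 := mul_le_mul_of_nonneg_left a2 hM0
      have a4 := mul_le_mul_of_nonneg_right hMδ (apr_Er_nonneg (s + α) n (u t))
      have a5 : M * (ν / (M + 1) * Er (s + α) n (u t) + K * En s n (u t)) =
        M * (ν / (M + 1)) * Er (s + α) n (u t) + M * K * En s n (u t) := by ring
      rw [a5] at a3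
      linarith) t ht
  refine h1.trans ?_
  show Real.exp (2 * M * K * t) * En s n (u 0) ≤ _
  rw [hu0]
  refine mul_le_mul ?_ (hEs' n) (apr_En_nonneg _ _ _) (Real.exp_pos _).le
  refine Real.exp_le_exp.2 ?_
  exact mul_le_mul_of_nonneg_left htT (by positivity)

end Pool.Agent.N983.RT
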