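import Pool.Agent.N983.RT.Stm2
import Pool.Agent.N983.RT.APR

/-! A priori bounds (after APR.lean by helper97). -/

set_option autoImplicit false

namespace Pool.Agent.N983.RT

open MeasureTheory ProbabilityTheory

theorem t_APR2 : S_APR2 := by
  intro hS hA g ν α κ hg hν hκ hα hE u₀ hu₀ hR s T
  obtain ⟨E0, hE0, hE0'⟩ := apr_init hS u₀ hR 0
  obtain ⟨Es, hEs, hEs'⟩ := apr_init hS u₀ hR s
  obtain ⟨C, hC, hC'⟩ := hE s
  set M := C * Real.sqrt E0 with hM
  have hM0 : 0 ≤ M := by positivity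
  have hb : 0 < (1 + κ) / 2 := by linarith
  have hδ : 0 < ν / (M + 1) := by positivity
  obtain ⟨K, hK, hK'⟩ := apr_elem ((1 + κ) / 2) α (ν / (M + 1)) hb hα hδ
  have hMδ : M * (ν / (M + 1)) ≤ ν := by
    rw [mul_div_assoc', div_le_iff₀ (by positivity)]
    nlinarith
  refine ⟨Real.exp (2 * M * K * T) * Es, ?_⟩
  intro n u hu hu0 hsupp t ht htT
  have hfl : ∀ t, 0 ≤ t → ∀ s' : ℕ, flux (cutg n g) s' n (u t) = (-Complex.I * form g s' n (u t)).re := fun t ht s' =>
    (hA g n (u t) hg (hu.adm t ht) (hsupp t ht)).1 s'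
  have hfl0 : ∀ t, 0 ≤ t → flux (cutg n g) 0 n (u t) = 0 := fun t ht =>
    (hA g n (u t) hg (hu.adm t ht) (hsupp t ht)).2
  have hen0 : ∀ t, 0 ≤ t → En 0 n (u t) ≤ E0 := by
    intro t ht
    have h1 := apr_gron (fun t => En 0 n (u t)) _ 0 (fun t ht => apr_deriv (cutg n g) ν α n 0 u hu t ht)
      (fun t ht => by
        rw [hfl0 t ht]
        have := apr_Er_nonneg (((0 : ℕ) : ℝ) + α) n (u t)
        nlinarith) t ht
    simp only [zero_mul, Real.exp_zero, one_mul] at h1
    rw [hu0] at h1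
    exact h1.trans (hE0' n)
  have h1 := apr_gron (fun t => En s n (u t)) _ (2 * M * K) (fun t ht => apr_deriv (cutg n g) ν α n s u hu t ht)
    (fun t ht => by
      have a1 : flux (cutg n g) s n (u t) ≤ M * Er (s + (1 + κ) / 2) n (u t) := by
        rw [hfl t ht s]
        refine (Complex.re_le_norm _).trans ?_
        rw [norm_mul, norm_neg, Complex.norm_I, one_mul]
        refine (hC' n (u t) (hu.adm t ht) (hsupp t ht)).trans ?_
        refine mul_le_mul_of_nonneg_right ?_ (apr_Er_nonneg _ _ _)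
        exact mul_le_mul_of_nonneg_left (Real.sqrt_le_sqrt (hen0 t ht)) hC
      have a2 := apr_interp s n ((1 + κ) / 2) α (ν / (M + 1)) K hK' (u t) (hu.adm t ht).zero
      have a3 := mul_le_mul_of_nonneg_left a2 hM0
      have a4 := mul_le_mul_of_nonneg_right hMδ (apr_Er_nonneg (s + α) n (u t))
      have a5 : M * (ν / (M + 1) * Er (s + α) n (u t) + K * En s n (u t)) =
        M * (ν / (M + 1)) * Er (s + α) n (u t) + M * K * En s n (u t) := by ring
      rw [a5] at a3
      linarith) t ht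
  refine h1.trans ?_
  show Real.exp (2 * M * K * t) * En s n (u 0) ≤ _
  rw [hu0]
  refine mul_le_mul ?_ (hEs' n) (apr_En_nonneg _ _ _) (Real.exp_pos _).le
  refine Real.exp_le_exp.2 ?_
  exact mul_le_mul_of_nonneg_left htT (by positivity)

end Pool.Agent.N983.RT
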