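import Pool.Agent.N983.RT.Stm

set_option autoImplicit false

/-! Assembly of the proof from its parts. -/

namespace Pool.Agent.N983.RT

open MeasureTheory ProbabilityTheory

theorem asm_nsq_nonneg (k : Wv) : 0 ≤ nsq k := by
  unfold nsq; positivity

theorem asm_nsq_neg (k : Wv) : nsq (-k) = nsq k := by
  unfold nsq; simp

/-- pointwise bounds from two Sobolev norms -/
theorem asm_pt (n s : ℕ) (u : Fld) (hu : ∀ k, k ∉ cub n → u k = 0) (C₀ C₁ : ℝ)
    (h0 : En 0 n u ≤ C₀) (h1 : En (2 * s) n u ≤ C₁) (k : Wv) (i : Fin 3) :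
    (1 + nsq k) ^ s * ‖u k i‖ ≤ Real.sqrt (2 ^ (2 * s) * (C₀ + C₁)) := by
  classical
  have hEn : ∀ r : ℕ, 0 ≤ En r n u := by
    intro r
    unfold En
    refine Finset.sum_nonneg fun k _ => mul_nonneg (pow_nonneg (asm_nsq_nonneg k) _) ?_
    exact Finset.sum_nonneg fun i _ => by positivity
  by_cases hk : k ∈ cub n
  · apply Real.le_sqrt_of_sq_le
    have hx := asm_nsq_nonneg k
    have hterm : ∀ r : ℕ, nsq k ^ r * ‖u k i‖ ^ 2 ≤ En r n u := by
      intro r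
      unfold En
      calc nsq k ^ r * ‖u k i‖ ^ 2 ≤ nsq k ^ r * ∑ i, ‖u k i‖ ^ 2 := by
            refine mul_le_mul_of_nonneg_left ?_ (pow_nonneg hx _)
            exact Finset.single_le_sum (f := fun i => ‖u k i‖ ^ 2)
              (fun i _ => by positivity) (Finset.mem_univ i)
        _ ≤ ∑ k ∈ cub n, nsq k ^ r * ∑ i, ‖u k i‖ ^ 2 := by
            refine Finset.single_le_sum (f := fun k => nsq k ^ r * ∑ i, ‖u k i‖ ^ 2)
              (fun k _ => ?_) hk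
            refine mul_nonneg (pow_nonneg (asm_nsq_nonneg k) _) ?_
            exact Finset.sum_nonneg fun i _ => by positivity
    have hpow : (1 + nsq k) ^ (2 * s) ≤ 2 ^ (2 * s) * (nsq k ^ 0 + nsq k ^ (2 * s)) := by
      rcases le_total (nsq k) 1 with h | h
      · calc (1 + nsq k) ^ (2 * s) ≤ 2 ^ (2 * s) := by
              apply pow_le_pow_left₀ (by linarith) (by linarith)
          _ ≤ 2 ^ (2 * s) * (nsq k ^ 0 + nsq k ^ (2 * s)) := by
              have : 0 ≤ nsq k ^ (2 * s) := pow_nonneg hx _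
              have h2 : (0 : ℝ) ≤ 2 ^ (2 * s) := by positivity
              rw [pow_zero]
              nlinarith
      · calc (1 + nsq k) ^ (2 * s) ≤ (2 * nsq k) ^ (2 * s) := by
              apply pow_le_pow_left₀ (by linarith) (by linarith)
          _ = 2 ^ (2 * s) * nsq k ^ (2 * s) := by rw [mul_pow]
          _ ≤ 2 ^ (2 * s) * (nsq k ^ 0 + nsq k ^ (2 * s)) := by
              have h2 : (0 : ℝ) ≤ 2 ^ (2 * s) := by positivity
              rw [pow_zero]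
              nlinarith
    calc ((1 + nsq k) ^ s * ‖u k i‖) ^ 2 = (1 + nsq k) ^ (2 * s) * ‖u k i‖ ^ 2 := by ring
      _ ≤ (2 ^ (2 * s) * (nsq k ^ 0 + nsq k ^ (2 * s))) * ‖u k i‖ ^ 2 :=
          mul_le_mul_of_nonneg_right hpow (by positivity)
      _ = 2 ^ (2 * s) * (nsq k ^ 0 * ‖u k i‖ ^ 2 + nsq k ^ (2 * s) * ‖u k i‖ ^ 2) := by ring
      _ ≤ 2 ^ (2 * s) * (C₀ + C₁) := by
          refine mul_le_mul_of_nonneg_left ?_ (by positivity)
          exact add_le_add ((hterm 0).trans h0) ((hterm (2 * s)).trans h1)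
  · rw [hu k hk]
    simp

/-- the deterministic criterion -/
theorem asm_crit (hSUM : S_SUM) (hALG : S_ALG) (hEST : S_EST) (hAPR : S_APR) (hODE : S_ODE)
    (hRHS : S_RHS) (hCMP : S_CMP) (hUNQ : S_UNQ) (g : Wv → Wv → Wv → ℝ) (ν α κ : ℝ)
    (hg : Arr g) (hν : 0 < ν) (hκ : -1 < κ) (hα : (1 + κ) / 2 < α) (hTB : TB g κ) (S : Set Wv)
    (hS : ∀ k l m, m ∉ S → g k l m = 0) : GWP g ν α S := by
  intro u₀ hA hR hsupp
  have hα0 : 0 < α := by linarith
  have h1 : ∀ n : ℕ, ∃ u : ℝ → Fld, IsSol (cutg n g) ν α u ∧ u 0 = cut n u₀ ∧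
      (∀ t, 0 ≤ t → ∀ k, k ∉ cub n → u t k = 0) ∧ ∀ t, 0 ≤ t → ∀ k, k ∉ S → u t k = 0 :=
    fun n => hODE hALG g ν α n hg hν S hS u₀ hA hsupp
  choose U hUsol hU0 hUcub hUS using h1
  have hbd : ∀ (T : ℝ) (s : ℕ), ∃ C : ℝ, ∀ n t, 0 ≤ t → t ≤ T → ∀ k i,
      (1 + nsq k) ^ s * ‖U n t k i‖ ≤ C := by
    intro T s
    obtain ⟨C₀, hC₀⟩ := hAPR hSUM hALG hEST g ν α κ hg hν hκ hα hTB u₀ hA hR 0 T
    obtain ⟨C₁, hC₁⟩ := hAPR hSUM hALG hEST g ν α κ hg hν hκ hα hTB u₀ hA hR (2 * s) T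
    refine ⟨Real.sqrt (2 ^ (2 * s) * (C₀ + C₁)), fun n t ht hT k i => ?_⟩
    exact asm_pt n s (U n t) (hUcub n t ht) C₀ C₁
      (hC₀ n (U n) (hUsol n) (hU0 n) (hUcub n) t ht hT)
      (hC₁ n (U n) (hUsol n) (hU0 n) (hUcub n) t ht hT) k i
  obtain ⟨u, hu, hu0, huS⟩ := hCMP hSUM hRHS g ν α hg hν hα0 u₀ hA hR U hUsol hU0 hbd S hUS
  refine ⟨u, hu, hu0, huS, fun v hv hv0 t ht => ?_⟩
  exact hUNQ hSUM g ν α hg hν hα0 v u hv hu (by rw [hv0, hu0]) t ht

theorem asm_arr_sgn {Ω : Type} (X : Sym2 (Finset Wv) → Ω → ℝ) (ω : Ω) (h : ∀ c, |X c ω| ≤ 1) :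
    Arr (sgn X ω) where
  swap12 k l m := by
    unfold sgn
    rw [Finset.insert_comm k l {m}, Finset.insert_comm (-k) (-l) {-m}]
  swap23 k l m := by
    unfold sgn
    rw [Finset.pair_comm l m, Finset.pair_comm (-l) (-m)]
  neg k l m := by
    unfold sgn
    rw [neg_neg, neg_neg, neg_neg, Sym2.eq_swap]
  le k l m := h _

theorem asm_kept_neg {Ω : Type} (Y : Sym2 Wv → Ω → ℝ) (ω : Ω) (k : Wv) :
    -k ∈ kept Y ω ↔ k ∈ kept Y ω := by
  unfold kept
  simp only [Set.mem_setOf_eq, ne_eq, neg_eq_zero, neg_neg]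
  rw [Sym2.eq_swap]

theorem asm_arr_dec {Ω : Type} (Y : Sym2 Wv → Ω → ℝ) (ω : Ω) : Arr (dec (kept Y ω)) where
  swap12 k l m := by
    unfold dec
    congr 1
    simp only [eq_iff_iff]
    tauto
  swap23 k l m := by
    unfold dec
    congr 1
    simp only [eq_iff_iff]
    tauto
  neg k l m := by
    unfold dec
    congr 1
    simp only [asm_kept_neg]
  le k l m := by
    unfold dec
    split_ifs <;> simp

/-- random signs -/
theorem asm_signs (hSUM : S_SUM) (hALG : S_ALG) (hEST : S_EST) (hAPR : S_APR) (hODE : S_ODE)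
    (hRHS : S_RHS) (hCMP : S_CMP) (hUNQ : S_UNQ) (hUNI : S_UNI) (hHOE : S_HOE) (hDIG : S_DIG)
    (hBCS : S_BCS)
    (Ω : Type) [MeasurableSpace Ω] (μ : Measure Ω) [IsProbabilityMeasure μ]
    (X : Sym2 (Finset Wv) → Ω → ℝ) (hX : ∀ c, Measurable (X c)) (hi : iIndepFun X μ)
    (hs : ∀ c, μ {ω | X c ω = 1} = 1 / 2 ∧ μ {ω | X c ω = -1} = 1 / 2) :
    ∀ᵐ ω ∂μ, ∀ ν α : ℝ, 0 < ν → 1 / 2 < α → GWP (sgn X ω) ν α Set.univ := by
  have hle : ∀ᵐ ω ∂μ, ∀ c, |X c ω| ≤ 1 := by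
    rw [ae_all_iff]
    intro c
    have hm1 : MeasurableSet {ω | X c ω = 1} := hX c (measurableSet_singleton 1)
    have hm2 : MeasurableSet {ω | X c ω = -1} := hX c (measurableSet_singleton (-1))
    have hd : Disjoint {ω | X c ω = 1} {ω | X c ω = -1} := by
      rw [Set.disjoint_left]
      intro ω h1 h2
      simp only [Set.mem_setOf_eq] at h1 h2
      rw [h1] at h2
      norm_num at h2
    have hU : μ ({ω | X c ω = 1} ∪ {ω | X c ω = -1}) = 1 := by
      rw [measure_union hd hm2, (hs c).1, (hs c).2]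
      exact ENNReal.add_halves 1
    have hae : ∀ᵐ ω ∂μ, ω ∈ ({ω | X c ω = 1} ∪ {ω | X c ω = -1}) := by
      rw [← prob_compl_eq_zero_iff (hm1.union hm2)] at hU
      rw [ae_iff]
      exact hU
    filter_upwards [hae] with ω hω
    rcases hω with h | h
    · simp only [Set.mem_setOf_eq] at h
      rw [h]; simp
    · simp only [Set.mem_setOf_eq] at h
      rw [h]; simp
  filter_upwards [hle, hBCS hUNI hHOE hDIG Ω μ X hX hi hs] with ω h1 h2
  intro ν α hν hα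
  refine asm_crit hSUM hALG hEST hAPR hODE hRHS hCMP hUNQ (sgn X ω) ν α ((2 * α - 1) / 2)
    (asm_arr_sgn X ω h1) hν (by linarith) (by linarith) (h2 _ (by linarith)) Set.univ ?_
  intro k l m hm
  exact absurd (Set.mem_univ m) hm

/-- random sets of wave vectors -/
theorem asm_dec (hSUM : S_SUM) (hALG : S_ALG) (hEST : S_EST) (hAPR : S_APR) (hODE : S_ODE)
    (hRHS : S_RHS) (hCMP : S_CMP) (hUNQ : S_UNQ) (hCS : S_CS) (hIND : S_IND) (hESY : S_ESY)
    (hTAIL : S_TAIL) (hLAT : S_LAT) (hBCD : S_BCD) (a : ℝ) (ha : 0 ≤ a)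
    (Ω : Type) [MeasurableSpace Ω] (μ : Measure Ω) [IsProbabilityMeasure μ]
    (Y : Sym2 Wv → Ω → ℝ) (hY : ∀ c, Measurable (Y c)) (hi : iIndepFun Y μ)
    (hs : ∀ k, k ≠ 0 → μ {ω | Y s(k, -k) ω = 1} ≤ ENNReal.ofReal (nsq k ^ (-a / 2))) :
    ∀ᵐ ω ∂μ, ∀ ν α : ℝ, 0 < ν → max (1 / 2) (5 / 4 - 3 * a / 4) < α →
      GWP (dec (kept Y ω)) ν α (kept Y ω) := by
  have hone : ∀ k : Wv, k ≠ 0 → 1 ≤ nsq k := by
    intro k hk
    have : ∃ i, k i ≠ 0 := by
      by_contra h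
      push Not at h
      exact hk (funext h)
    obtain ⟨i, hi⟩ := this
    have h1 : (1 : ℝ) ≤ (k i : ℝ) ^ 2 := by
      have : 1 ≤ (k i) ^ 2 := by
        have := sq_nonneg (k i)
        rcases this.lt_or_eq with h | h
        · omega
        · exact absurd (pow_eq_zero_iff (two_ne_zero)|>.1 h.symm) hi
      exact_mod_cast this
    calc (1 : ℝ) ≤ (k i : ℝ) ^ 2 := h1
      _ ≤ nsq k := by
        unfold nsq
        exact Finset.single_le_sum (f := fun i => (k i : ℝ) ^ 2) (fun i _ => by positivity)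
          (Finset.mem_univ i)
  -- the bound for all exponents
  have hTB : ∀ᵐ ω ∂μ, ∀ κ : ℝ, max 0 ((3 - 3 * a) / 2) < κ → TB (dec (kept Y ω)) κ := by
    have hb : ∀ n : ℕ, ∀ᵐ ω ∂μ, ∀ κ : ℝ,
        (3 - 3 * min a (1 - 1 / ((n : ℝ) + 1))) / 2 < κ → TB (dec (kept Y ω)) κ := by
      intro n
      have hn : 0 < 1 / ((n : ℝ) + 1) := by positivity
      have hn1 : 1 / ((n : ℝ) + 1) ≤ 1 := by
        rw [div_le_one (by positivity)]
        have : (0 : ℝ) ≤ n := Nat.cast_nonneg n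
        linarith
      refine hBCD hCS hIND hESY hTAIL hLAT (min a (1 - 1 / ((n : ℝ) + 1)))
        (le_min ha (by linarith)) (lt_of_le_of_lt (min_le_right _ _) (by linarith)) Ω μ Y hY hi
        fun k hk => (hs k hk).trans (ENNReal.ofReal_le_ofReal ?_)
      refine Real.rpow_le_rpow_of_exponent_le (hone k hk) ?_
      have := min_le_left a (1 - 1 / ((n : ℝ) + 1))
      linarith
    rw [← ae_all_iff] at hb
    filter_upwards [hb] with ω hω
    intro κ hκ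
    have h0 : 0 < κ := lt_of_le_of_lt (le_max_left _ _) hκ
    have h1 : (3 - 3 * a) / 2 < κ := lt_of_le_of_lt (le_max_right _ _) hκ
    obtain ⟨n, hn⟩ := exists_nat_one_div_lt (show (0 : ℝ) < κ / 2 by linarith)
    refine hω n κ ?_
    rcases le_total a (1 - 1 / ((n : ℝ) + 1)) with h | h
    · rw [min_eq_left h]; exact h1
    · rw [min_eq_right h]
      linarith
  filter_upwards [hTB] with ω h2
  intro ν α hν hα
  have hα1 : 1 / 2 < α := lt_of_le_of_lt (le_max_left _ _) hα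
  have hα2 : 5 / 4 - 3 * a / 4 < α := lt_of_le_of_lt (le_max_right _ _) hα
  have hκ : max 0 ((3 - 3 * a) / 2) < 2 * α - 1 := max_lt (by linarith) (by linarith)
  obtain ⟨κ, h3, h4⟩ := exists_between hκ
  have h5 : 0 < κ := lt_of_le_of_lt (le_max_left _ _) h3
  refine asm_crit hSUM hALG hEST hAPR hODE hRHS hCMP hUNQ (dec (kept Y ω)) ν α κ
    (asm_arr_dec Y ω) hν (by linarith) (by linarith) (h2 κ h3) (kept Y ω) ?_
  intro k l m hm
  unfold dec
  rw [if_neg]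
  exact fun h => hm h.2.2

end Pool.Agent.N983.RT
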