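import Pool.Agent.N983.RT.Stm2
import Pool.Agent.N983.RT.Asm

set_option autoImplicit false

/-! Assembly of the proof from its parts: random coefficients with a mean. -/

namespace Pool.Agent.N983.RT

open MeasureTheory ProbabilityTheory

/-- the deterministic criterion -/
theorem asm2_crit (hSUM : S_SUM) (hALG : S_ALG) (hAPR : S_APR2) (hODE : S_ODE)
    (hRHS : S_RHS) (hCMP : S_CMP) (hUNQ : S_UNQ) (g : Wv → Wv → Wv → ℝ) (ν α κ : ℝ)
    (hg : Arr g) (hν : 0 < ν) (hκ : -1 < κ) (hα : (1 + κ) / 2 < α) (hHE : HE g κ) (S : Set Wv)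
    (hS : ∀ k l m, m ∉ S → g k l m = 0) : GWP g ν α S := by
  intro u₀ hA hR hsupp
  have hα0 : 0 < α := by linarith
  have h1 : ∀ n : ℕ, ∃ u : ℝ → Fld, IsSol (cutg n g) ν α u ∧ u 0 = cut n u₀ ∧
      (∀ t, 0 ≤ t → ∀ k, k ∉ cub n → u t k = 0) ∧ ∀ t, 0 ≤ t → ∀ k, k ∉ S → u t k = 0 :=
    fun n => hODE hALG g ν α n hg hν S hS u₀ hA hsupp
  choose U hUsol hU0 hUcub hUS using h1
  have hbd : ∀ (T : ℝ) (s : ℕ), ∃ C : ℝ, ∀ n t, 0 ≤ t → t ≤ T → ∀ k i,
      (1 + nsq k) ^ s * ‖U n t k i‖ ≤ C := by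
    intro T s
    obtain ⟨C₀, hC₀⟩ := hAPR hSUM hALG g ν α κ hg hν hκ hα hHE u₀ hA hR 0 T
    obtain ⟨C₁, hC₁⟩ := hAPR hSUM hALG g ν α κ hg hν hκ hα hHE u₀ hA hR (2 * s) T
    refine ⟨Real.sqrt (2 ^ (2 * s) * (C₀ + C₁)), fun n t ht hT k i => ?_⟩
    exact asm_pt n s (U n t) (hUcub n t ht) C₀ C₁
      (hC₀ n (U n) (hUsol n) (hU0 n) (hUcub n) t ht hT)
      (hC₁ n (U n) (hUsol n) (hU0 n) (hUcub n) t ht hT) k i
  obtain ⟨u, hu, hu0, huS⟩ := hCMP hSUM hRHS g ν α hg hν hα0 u₀ hA hR U hUsol hU0 hbd S hUS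
  refine ⟨u, hu, hu0, huS, fun v hv hv0 t ht => ?_⟩
  exact hUNQ hSUM g ν α hg hν hα0 v u hv hu (by rw [hv0, hu0]) t ht

theorem asm2_form_add (g₁ g₂ : Wv → Wv → Wv → ℝ) (a : ℝ) (s n : ℕ) (u : Fld) :
    form (fun k l m => a * g₁ k l m + g₂ k l m) s n u = a * form g₁ s n u + form g₂ s n u := by
  unfold form Tri
  simp only [Finset.mul_sum, ← Finset.sum_add_distrib]
  refine Finset.sum_congr rfl fun i _ => Finset.sum_congr rfl fun j _ =>
    Finset.sum_congr rfl fun k _ => Finset.sum_congr rfl fun l _ => ?_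
  push_cast
  ring

theorem asm2_HE_add (g₁ g₂ : Wv → Wv → Wv → ℝ) (a κ : ℝ) (h₁ : HE g₁ κ) (h₂ : HE g₂ κ) :
    HE (fun k l m => a * g₁ k l m + g₂ k l m) κ := by
  intro s
  obtain ⟨C₁, hC₁, h₁⟩ := h₁ s
  obtain ⟨C₂, hC₂, h₂⟩ := h₂ s
  refine ⟨|a| * C₁ + C₂, by positivity, fun n u hu hs => ?_⟩
  rw [asm2_form_add]
  calc ‖(a : ℂ) * form g₁ s n u + form g₂ s n u‖
      ≤ |a| * ‖form g₁ s n u‖ + ‖form g₂ s n u‖ := by
        refine (norm_add_le _ _).trans ?_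
        rw [norm_mul, Complex.norm_real, Real.norm_eq_abs]
    _ ≤ |a| * (C₁ * Real.sqrt (En 0 n u) * Er ((s : ℝ) + (1 + κ) / 2) n u) +
        C₂ * Real.sqrt (En 0 n u) * Er ((s : ℝ) + (1 + κ) / 2) n u :=
        add_le_add (mul_le_mul_of_nonneg_left (h₁ n u hu hs) (abs_nonneg a)) (h₂ n u hu hs)
    _ = (|a| * C₁ + C₂) * Real.sqrt (En 0 n u) * Er ((s : ℝ) + (1 + κ) / 2) n u := by ring

theorem asm2_HE_TB (hEST : S_EST) (g : Wv → Wv → Wv → ℝ) (κ : ℝ) (hκ : -1 < κ) (h : TB g κ) :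
    HE g κ := by
  intro s
  obtain ⟨C, hC, h1⟩ := hEST g κ hκ h s
  exact ⟨C, hC, fun n u hu hs => h1 n u hu.zero hs⟩

/-- random coefficients -/
theorem asm2_rand (hSUM : S_SUM) (hALG : S_ALG) (hEST : S_EST) (hAPR : S_APR2) (hODE : S_ODE)
    (hRHS : S_RHS) (hCMP : S_CMP) (hUNQ : S_UNQ) (hUNI : S_UNI2) (hHOE : S_HOE2) (hDIG : S_DIG)
    (hBCS : S_BCS2) (hPNT : S_PNT)
    (Ω : Type) [MeasurableSpace Ω] (μ : Measure Ω) [IsProbabilityMeasure μ]
    (X : Sym2 (Finset Wv) → Ω → ℝ) (hX : ∀ c, Measurable (X c)) (hi : iIndepFun X μ)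
    (hX1 : ∀ c, ∀ᵐ ω ∂μ, |X c ω| ≤ 1) (B β : ℝ)
    (hm : ∀ k l m : Wv, k ≠ 0 → l ≠ 0 → m ≠ 0 → k + l + m = 0 →
      |∫ ω, sgn X ω k l m ∂μ| * mn k l m ^ (5 / 4 : ℝ) ≤ B * mx k l m ^ β) :
    ∀ᵐ ω ∂μ, ∀ ν α : ℝ, 0 < ν → max (1 / 2) β < α → GWP (sgn X ω) ν α Set.univ := by
  have hint : ∀ c, Integrable (X c) μ := fun c =>
    Integrable.of_mem_Icc (-1) 1 (hX c).aemeasurable (by
      filter_upwards [hX1 c] with ω hω
      exact abs_le.1 hω)
  set e : Sym2 (Finset Wv) → ℝ := fun c => ∫ ω, X c ω ∂μ with he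
  have he1 : ∀ c, |e c| ≤ 1 := by
    intro c
    have h1 : ‖∫ ω, X c ω ∂μ‖ ≤ 1 * μ.real Set.univ := norm_integral_le_of_norm_le_const (by
      filter_upwards [hX1 c] with ω hω
      exact hω)
    simpa using h1
  -- centred coefficients
  have hb := hBCS hUNI hHOE hDIG Ω μ (fun c ω => (X c ω - e c) / 2)
    (fun c => ((hX c).sub_const _).div_const _)
    (hi.comp (fun c x => (x - e c) / 2) (fun c => (measurable_id.sub_const _).div_const _))
    (fun c => ⟨by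
      filter_upwards [hX1 c] with ω hω
      have h1 := he1 c
      rw [abs_div, abs_two, div_le_one (by norm_num)]
      calc |X c ω - e c| ≤ |X c ω| + |e c| := abs_sub _ _
        _ ≤ 2 := by linarith, by
      rw [integral_div, integral_sub (hint c) (integrable_const _)]
      simp [he]⟩)
  have hB : 0 ≤ B := by
    have h1 := hm ![1, 0, 0] ![1, 0, 0] ![-2, 0, 0] (by
      intro h
      have := congrFun h 0
      simp at this) (by
      intro h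
      have := congrFun h 0
      simp at this) (by
      intro h
      have := congrFun h 0
      simp at this) (by
      ext i
      fin_cases i <;> simp)
    have h2 : 0 ≤ |∫ ω, sgn X ω ![1, 0, 0] ![1, 0, 0] ![-2, 0, 0] ∂μ| *
        mn ![1, 0, 0] ![1, 0, 0] ![-2, 0, 0] ^ (5 / 4 : ℝ) := by
      refine mul_nonneg (abs_nonneg _) (Real.rpow_nonneg ?_ _)
      unfold mn
      exact le_min (asm_nsq_nonneg _) (le_min (asm_nsq_nonneg _) (asm_nsq_nonneg _))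
    have h3 : 0 < mx ![1, 0, 0] ![1, 0, 0] ![-2, 0, 0] ^ β := by
      apply Real.rpow_pos_of_pos
      unfold mx
      apply lt_max_of_lt_left
      simp [nsq, Fin.sum_univ_three]
    by_contra h
    push Not at h
    nlinarith
  have hg2 : Arr (sgn (fun c (_ : Unit) => e c) ()) := asm_arr_sgn _ _ he1
  filter_upwards [hb, ae_all_iff.2 hX1] with ω h1 h2
  intro ν α hν hα
  have hα1 : 1 / 2 < α := lt_of_le_of_lt (le_max_left _ _) hα
  have hα2 : β < α := lt_of_le_of_lt (le_max_right _ _) hα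
  obtain ⟨b, hb1, hb2⟩ := exists_between (max_lt hα1 hα2)
  have hb3 : 1 / 2 < b := lt_of_le_of_lt (le_max_left _ _) hb1
  have hb4 : β < b := lt_of_le_of_lt (le_max_right _ _) hb1
  have hHE2 : HE (sgn (fun c (_ : Unit) => e c) ()) (2 * b - 1) := by
    refine hPNT _ B β (2 * b - 1) hg2 hB (by linarith) (by linarith) ?_
    intro k l m hk hl hm0 hs
    exact hm k l m hk hl hm0 hs
  have hHE1 := asm2_HE_TB hEST _ (2 * b - 1) (by linarith) (h1 (2 * b - 1) (by linarith))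
  have hHE : HE (sgn X ω) (2 * b - 1) := by
    have h3 := asm2_HE_add _ _ 2 (2 * b - 1) hHE1 hHE2
    have h4 : (fun k l m => 2 * sgn (fun c ω => (X c ω - e c) / 2) ω k l m +
        sgn (fun c (_ : Unit) => e c) () k l m) = sgn X ω := by
      funext k l m
      unfold sgn
      ring
    rw [h4] at h3
    exact h3
  refine asm2_crit hSUM hALG hAPR hODE hRHS hCMP hUNQ (sgn X ω) ν α (2 * b - 1)
    (asm_arr_sgn X ω h2) hν (by linarith) (by linarith) hHE Set.univ ?_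
  intro k l m hm
  exact absurd (Set.mem_univ m) hm

theorem asm2_arr_dec (K : Set Wv) (hK : ∀ k ∈ K, -k ∈ K) : Arr (dec K) where
  swap12 k l m := by
    unfold dec
    congr 1
    simp only [eq_iff_iff]
    tauto
  swap23 k l m := by
    unfold dec
    congr 1
    simp only [eq_iff_iff]
    tauto
  neg k l m := by
    have h : ∀ k, -k ∈ K ↔ k ∈ K := fun k => ⟨fun h => by simpa using hK _ h, fun h => hK k h⟩
    unfold dec
    congr 1
    simp only [h]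
  le k l m := by
    unfold dec
    split_ifs <;> simp

/-- deterministic sets -/
theorem asm2_det (hSUM : S_SUM) (hALG : S_ALG) (hEST : S_EST) (hAPR : S_APR2) (hODE : S_ODE)
    (hRHS : S_RHS) (hCMP : S_CMP) (hUNQ : S_UNQ) (hCS : S_CS) (hDET : S_DET)
    (K : Set Wv) (B γ : ℝ) (hK : ∀ k ∈ K, -k ∈ K) (h0 : (0 : Wv) ∉ K) (hB : 0 ≤ B) (hγ : 0 ≤ γ)
    (hc : ∀ R : ℕ, 1 ≤ R → ∀ p ∈ cub R, ∀ q ∈ cub R, p ≠ q → p ≠ 0 → q ≠ 0 →
      (cnt K R p q : ℝ) ≤ B * (R : ℝ) ^ γ) (ν α : ℝ) (hν : 0 < ν) (hα : 1 / 2 + γ / 4 < α) :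
    GWP (dec K) ν α K := by
  refine asm2_crit hSUM hALG hAPR hODE hRHS hCMP hUNQ (dec K) ν α (γ / 2)
    (asm2_arr_dec K hK) hν (by linarith) (by linarith)
    (asm2_HE_TB hEST _ _ (by linarith) (hDET hCS K B γ hK h0 hB hγ hc)) K ?_
  intro k l m hm
  unfold dec
  rw [if_neg]
  exact fun h => hm h.2.2

end Pool.Agent.N983.RT
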