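import Pool.Agent.N983.RT.Stm

set_option autoImplicit false

/-! The trilinear bound for random sets of wave vectors: Borel-Cantelli. -/

namespace Pool.Agent.N983.RT

open MeasureTheory ProbabilityTheory

lemma bcd_tail (m : ℝ) (hm : 0 ≤ m) (s n : ℕ) (h1 : 10 * m ≤ s) (h2 : n ≤ s) :
    m ^ s / (s.factorial : ℝ) ≤ (1 / 2 : ℝ) ^ n := by
  have hf : (0 : ℝ) < (s.factorial : ℝ) := by exact_mod_cast Nat.factorial_pos s
  have h3 : ((s : ℝ)) ^ s / (s.factorial : ℝ) ≤ Real.exp s :=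
    Real.pow_div_factorial_le_exp (s : ℝ) (Nat.cast_nonneg s) s
  have h4 : m ^ s ≤ ((s : ℝ) / 10) ^ s := pow_le_pow_left₀ hm (by linarith) s
  have h5 : Real.exp (s : ℝ) = Real.exp 1 ^ s := by
    rw [← Real.exp_nat_mul, mul_one]
  calc m ^ s / (s.factorial : ℝ) ≤ ((s : ℝ) / 10) ^ s / (s.factorial : ℝ) := by gcongr
    _ = ((1 : ℝ) / 10) ^ s * ((s : ℝ) ^ s / (s.factorial : ℝ)) := by
        rw [div_pow, one_div, inv_pow]; field_simp
    _ ≤ ((1 : ℝ) / 10) ^ s * Real.exp 1 ^ s := by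
        rw [← h5]; gcongr
    _ = (1 / 10 * Real.exp 1) ^ s := by rw [mul_pow]
    _ ≤ (1 / 2 : ℝ) ^ s := by
        refine pow_le_pow_left₀ (by positivity) ?_ s
        have := Real.exp_one_lt_d9
        linarith
    _ ≤ (1 / 2 : ℝ) ^ n := pow_le_pow_of_le_one (by norm_num) (by norm_num) h2

lemma bcd_card (R : ℕ) : (cub R).card = (2 * R + 1) ^ 3 := by
  unfold cub
  rw [Fintype.card_piFinset]
  simp only [Int.card_Icc, Finset.prod_const, Finset.card_univ, Fintype.card_fin]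
  congr 1
  omega

lemma bcd_card_le (c : ℕ) : (cub (2 ^ (c + 1))).card ≤ 2 ^ (3 * c + 9) := by
  rw [bcd_card]
  have h : 2 * 2 ^ (c + 1) + 1 ≤ 2 ^ (c + 3) := by
    have : 1 ≤ 2 ^ c := Nat.one_le_two_pow
    rw [pow_succ, pow_add 2 c 3]
    omega
  calc (2 * 2 ^ (c + 1) + 1) ^ 3 ≤ (2 ^ (c + 3)) ^ 3 := Nat.pow_le_pow_left h 3
    _ = 2 ^ (3 * c + 9) := by rw [← pow_mul]; congr 1; ring

lemma bcd_mono {R R' : ℕ} (h : R ≤ R') : (cub R).card ≤ (cub R').card := by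
  rw [bcd_card, bcd_card]
  gcongr

/-- the number of the events -/
noncomputable def bcd_s (C a : ℝ) (c : ℕ) : ℕ :=
  ⌈10 * (C * ((2 ^ (c + 1) : ℕ) : ℝ) ^ (3 - 3 * a))⌉₊ + 40 * (c + 2)

/-- the exceptional events -/
def bcd_E {Ω : Type} (Y : Sym2 Wv → Ω → ℝ) (C a : ℝ) (c : ℕ) : Set Ω :=
  ⋃ pq ∈ ((cub (2 ^ (c + 1)) ×ˢ cub (2 ^ (c + 1))).filter fun pq : Wv × Wv =>
      pq.1 ≠ pq.2 ∧ pq.1 ≠ 0 ∧ pq.2 ≠ 0),
    {ω | 19 * bcd_s C a c + 3 ≤ cnt (kept Y ω) (2 ^ (c + 1)) pq.1 pq.2}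

lemma bcd_sum (hI : S_IND) (hE : S_ESY) (hT : S_TAIL) (a : ℝ) (C : ℝ) (hC : 0 ≤ C)
    (hL : ∀ (R : ℕ), 1 ≤ R → ∀ p ∈ cub R, ∀ q ∈ cub R,
      ∑ m ∈ cub R, (if m = 0 then 0 else nsq m ^ (-a / 2)) *
      (if p - m = 0 then 0 else nsq (p - m) ^ (-a / 2)) *
      (if q - m = 0 then 0 else nsq (q - m) ^ (-a / 2)) ≤ C * (R : ℝ) ^ (3 - 3 * a))
    {Ω : Type} [MeasurableSpace Ω] (μ : Measure Ω) [IsProbabilityMeasure μ]
    (Y : Sym2 Wv → Ω → ℝ) (hY : ∀ c, Measurable (Y c)) (hi : iIndepFun Y μ)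
    (hp : ∀ k, k ≠ 0 → μ {ω | Y s(k, -k) ω = 1} ≤ ENNReal.ofReal (nsq k ^ (-a / 2))) (c : ℕ) :
    μ (bcd_E Y C a c) ≤ ENNReal.ofReal ((1 / 2 : ℝ) ^ c) := by
  have hnn : ∀ k : Wv, 0 ≤ nsq k := fun k => by unfold nsq; positivity
  set ρ : Wv → ℝ := fun k => if k = 0 then 0 else nsq k ^ (-a / 2) with hρ
  have hρ0 : ∀ k, 0 ≤ ρ k := by
    intro k
    simp only [hρ]
    split_ifs
    · exact le_rfl
    · exact Real.rpow_nonneg (hnn k) _
  have hρ1 : ∀ k, k ≠ 0 → μ {ω | Y s(k, -k) ω = 1} ≤ ENNReal.ofReal (ρ k) := by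
    intro k hk
    refine (hp k hk).trans ?_
    simp only [hρ, if_neg hk]
    exact le_rfl
  have hR1 : 1 ≤ 2 ^ (c + 1) := Nat.one_le_two_pow
  have hm0 : 0 ≤ C * ((2 ^ (c + 1) : ℕ) : ℝ) ^ (3 - 3 * a) := by positivity
  have hone : ∀ pq ∈ ((cub (2 ^ (c + 1)) ×ˢ cub (2 ^ (c + 1))).filter fun pq : Wv × Wv =>
      pq.1 ≠ pq.2 ∧ pq.1 ≠ 0 ∧ pq.2 ≠ 0),
      μ {ω | 19 * bcd_s C a c + 3 ≤ cnt (kept Y ω) (2 ^ (c + 1)) pq.1 pq.2} ≤
        ENNReal.ofReal ((1 / 2 : ℝ) ^ (40 * (c + 2))) := by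
    intro pq hpq
    rw [Finset.mem_filter, Finset.mem_product] at hpq
    obtain ⟨⟨h1, h2⟩, h3, h4, h5⟩ := hpq
    refine (hT hI hE Ω μ Y hY hi ρ hρ0 hρ1 (2 ^ (c + 1)) pq.1 pq.2 h3 h4 h5
      (bcd_s C a c)).trans ?_
    apply ENNReal.ofReal_le_ofReal
    have h6 : ∑ m ∈ cub (2 ^ (c + 1)), ρ m * ρ (pq.1 - m) * ρ (pq.2 - m) ≤
        C * ((2 ^ (c + 1) : ℕ) : ℝ) ^ (3 - 3 * a) := hL (2 ^ (c + 1)) hR1 pq.1 h1 pq.2 h2
    have h7 : 0 ≤ ∑ m ∈ cub (2 ^ (c + 1)), ρ m * ρ (pq.1 - m) * ρ (pq.2 - m) :=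
      Finset.sum_nonneg fun m _ => mul_nonneg (mul_nonneg (hρ0 _) (hρ0 _)) (hρ0 _)
    refine bcd_tail _ h7 _ _ ?_ ?_
    · calc 10 * ∑ m ∈ cub (2 ^ (c + 1)), ρ m * ρ (pq.1 - m) * ρ (pq.2 - m)
          ≤ 10 * (C * ((2 ^ (c + 1) : ℕ) : ℝ) ^ (3 - 3 * a)) := by linarith
        _ ≤ (⌈10 * (C * ((2 ^ (c + 1) : ℕ) : ℝ) ^ (3 - 3 * a))⌉₊ : ℝ) := Nat.le_ceil _
        _ ≤ ((bcd_s C a c : ℕ) : ℝ) := by
            unfold bcd_s
            exact_mod_cast Nat.le_add_right _ _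
    · unfold bcd_s
      exact Nat.le_add_left _ _
  calc μ (bcd_E Y C a c) ≤ ∑ pq ∈ ((cub (2 ^ (c + 1)) ×ˢ cub (2 ^ (c + 1))).filter
        fun pq : Wv × Wv => pq.1 ≠ pq.2 ∧ pq.1 ≠ 0 ∧ pq.2 ≠ 0),
        μ {ω | 19 * bcd_s C a c + 3 ≤ cnt (kept Y ω) (2 ^ (c + 1)) pq.1 pq.2} := by
        unfold bcd_E
        exact measure_biUnion_finset_le _ _
    _ ≤ ∑ _pq ∈ ((cub (2 ^ (c + 1)) ×ˢ cub (2 ^ (c + 1))).filter
        fun pq : Wv × Wv => pq.1 ≠ pq.2 ∧ pq.1 ≠ 0 ∧ pq.2 ≠ 0),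
        ENNReal.ofReal ((1 / 2 : ℝ) ^ (40 * (c + 2))) := Finset.sum_le_sum hone
    _ = ((((cub (2 ^ (c + 1)) ×ˢ cub (2 ^ (c + 1))).filter
        fun pq : Wv × Wv => pq.1 ≠ pq.2 ∧ pq.1 ≠ 0 ∧ pq.2 ≠ 0).card : ℕ) : ENNReal) *
        ENNReal.ofReal ((1 / 2 : ℝ) ^ (40 * (c + 2))) := by
        rw [Finset.sum_const, nsmul_eq_mul]
    _ ≤ ((2 ^ (3 * c + 9) * 2 ^ (3 * c + 9) : ℕ) : ENNReal) *
        ENNReal.ofReal ((1 / 2 : ℝ) ^ (40 * (c + 2))) := by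
        refine mul_le_mul_left ?_ _
        have : ((cub (2 ^ (c + 1)) ×ˢ cub (2 ^ (c + 1))).filter
            fun pq : Wv × Wv => pq.1 ≠ pq.2 ∧ pq.1 ≠ 0 ∧ pq.2 ≠ 0).card ≤
            2 ^ (3 * c + 9) * 2 ^ (3 * c + 9) := by
          refine (Finset.card_filter_le _ _).trans ?_
          rw [Finset.card_product]
          exact Nat.mul_le_mul (bcd_card_le c) (bcd_card_le c)
        exact_mod_cast this
    _ = ENNReal.ofReal (((2 ^ (3 * c + 9) * 2 ^ (3 * c + 9) : ℕ) : ℝ) *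
        (1 / 2 : ℝ) ^ (40 * (c + 2))) := by
        rw [ENNReal.ofReal_mul (by positivity), ENNReal.ofReal_natCast]
    _ ≤ ENNReal.ofReal ((1 / 2 : ℝ) ^ c) := by
        apply ENNReal.ofReal_le_ofReal
        push_cast
        have e1 : (2 : ℝ) ^ (3 * c + 9) * (1 / 2 : ℝ) ^ (3 * c + 9) = 1 := by
          rw [← mul_pow]; norm_num
        have e2 : (1 / 2 : ℝ) ^ (40 * (c + 2)) =
            (1 / 2 : ℝ) ^ (3 * c + 9) * (1 / 2 : ℝ) ^ (3 * c + 9) * (1 / 2 : ℝ) ^ (34 * c + 62) := by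
          rw [← pow_add, ← pow_add]; congr 1; ring
        rw [e2]
        calc (2 : ℝ) ^ (3 * c + 9) * 2 ^ (3 * c + 9) *
              ((1 / 2 : ℝ) ^ (3 * c + 9) * (1 / 2 : ℝ) ^ (3 * c + 9) * (1 / 2 : ℝ) ^ (34 * c + 62))
            = ((2 : ℝ) ^ (3 * c + 9) * (1 / 2 : ℝ) ^ (3 * c + 9)) *
              ((2 : ℝ) ^ (3 * c + 9) * (1 / 2 : ℝ) ^ (3 * c + 9)) *
              (1 / 2 : ℝ) ^ (34 * c + 62) := by ring
          _ = (1 / 2 : ℝ) ^ (34 * c + 62) := by rw [e1]; ring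
          _ ≤ (1 / 2 : ℝ) ^ c := pow_le_pow_of_le_one (by norm_num) (by norm_num) (by omega)

/-- growth of `bcd_s` -/
lemma bcd_growth (C a : ℝ) (hC : 0 ≤ C) (h0 : 0 ≤ a) (h1 : a < 1) (κ : ℝ)
    (hκ : (3 - 3 * a) / 2 < κ) :
    ∃ D : ℝ, 0 ≤ D ∧ ∀ c : ℕ, 2 + (19 * (bcd_s C a c : ℝ) + 3) ≤ D * ((2 : ℝ) ^ c) ^ (2 * κ) := by
  have hκ0 : 0 < κ := by linarith
  have hl2 : 0 < Real.log 2 := Real.log_pos (by norm_num)
  have hτ : 0 < 2 * κ * Real.log 2 := by positivity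
  refine ⟨2 + (19 * (10 * (C * 8) + 1 + 40 * (2 + 1 / (2 * κ * Real.log 2))) + 3), by positivity,
    fun c => ?_⟩
  have hc1 : (1 : ℝ) ≤ (2 : ℝ) ^ c := one_le_pow₀ (by norm_num)
  set P : ℝ := ((2 : ℝ) ^ c) ^ (2 * κ) with hP
  have hP1 : 1 ≤ P := Real.one_le_rpow hc1 (by linarith)
  have hP2 : (c : ℝ) * (2 * κ * Real.log 2) ≤ P := by
    have e : P = Real.exp (c * (2 * κ * Real.log 2)) := by
      rw [hP, Real.rpow_def_of_pos (by positivity), Real.log_pow]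
      congr 1; ring
    rw [e]
    linarith [Real.add_one_le_exp ((c : ℝ) * (2 * κ * Real.log 2))]
  have hP3 : (c : ℝ) ≤ 1 / (2 * κ * Real.log 2) * P := by
    rw [one_div, inv_mul_eq_div, le_div_iff₀ hτ]
    exact hP2
  have hP4 : ((2 ^ (c + 1) : ℕ) : ℝ) ^ (3 - 3 * a) ≤ 8 * P := by
    have e1 : ((2 ^ (c + 1) : ℕ) : ℝ) = (2 : ℝ) ^ c * 2 := by push_cast; ring
    rw [e1, Real.mul_rpow (by positivity) (by norm_num)]
    have e2 : (2 : ℝ) ^ (3 - 3 * a) ≤ 8 := by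
      calc (2 : ℝ) ^ (3 - 3 * a) ≤ (2 : ℝ) ^ (3 : ℝ) :=
            Real.rpow_le_rpow_of_exponent_le (by norm_num) (by linarith)
        _ = 8 := by norm_num
    have e3 : ((2 : ℝ) ^ c) ^ (3 - 3 * a) ≤ P :=
      Real.rpow_le_rpow_of_exponent_le hc1 (by linarith)
    calc ((2 : ℝ) ^ c) ^ (3 - 3 * a) * 2 ^ (3 - 3 * a) ≤ P * 8 := by gcongr
      _ = 8 * P := by ring
  have hs : (bcd_s C a c : ℝ) ≤ 10 * (C * ((2 ^ (c + 1) : ℕ) : ℝ) ^ (3 - 3 * a)) + 1 +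
      40 * ((c : ℝ) + 2) := by
    unfold bcd_s
    have := (Nat.ceil_lt_add_one (show 0 ≤ 10 * (C * ((2 ^ (c + 1) : ℕ) : ℝ) ^ (3 - 3 * a)) by
      positivity)).le
    push_cast at this ⊢
    linarith
  have hCP : C * ((2 ^ (c + 1) : ℕ) : ℝ) ^ (3 - 3 * a) ≤ C * (8 * P) :=
    mul_le_mul_of_nonneg_left hP4 hC
  have hfin : (bcd_s C a c : ℝ) ≤ (10 * (C * 8) + 1 + 40 * (2 + 1 / (2 * κ * Real.log 2))) * P := by
    nlinarith
  nlinarith

lemma bcd_li (l : Wv) (i : Fin 3) (R : ℝ) (hR : 0 ≤ R) (h : nsq l ≤ R ^ 2) : |(l i : ℝ)| ≤ R := by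
  have h1 : (l i : ℝ) ^ 2 ≤ nsq l := by
    unfold nsq
    exact Finset.single_le_sum (f := fun i => (l i : ℝ) ^ 2) (fun j _ => sq_nonneg _)
      (Finset.mem_univ i)
  exact abs_le_of_sq_le_sq (h1.trans h) hR |> fun h => h

lemma bcd_smul (W : ℝ) (a : Wv → Wv → ℝ) (R : ℕ) (x y z : Wv → ℂ) :
    Tri (fun k l => W * a k l) R x y z = (W : ℂ) * Tri a R x y z := by
  unfold Tri
  rw [Finset.mul_sum]
  refine Finset.sum_congr rfl fun k _ => ?_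
  rw [Finset.mul_sum]
  refine Finset.sum_congr rfl fun l _ => ?_
  push_cast
  ring

/-- the deterministic part -/
lemma bcd_det (hC : S_CS) (K : Set Wv) (hK : ∀ k ∈ K, -k ∈ K) (hK0 : (0 : Wv) ∉ K)
    (s c : ℕ) (i : Fin 3) (M : ℝ) (hM : 0 ≤ M)
    (hcnt : ∀ p ∈ cub (2 ^ (c + 1)), ∀ q ∈ cub (2 ^ (c + 1)), p ≠ q → p ≠ 0 → q ≠ 0 →
      (cnt K (2 ^ (c + 1)) p q : ℝ) ≤ M) (x y z : Wv → ℂ) :
    ‖Tri (fun k l => dec K k l (-(k + l)) * wgt s c i k l) (2 ^ (c + 1)) x y z‖ ≤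
      ((2 : ℝ) ^ (c + 1)) ^ (1 + 2 * s) * (Real.sqrt (2 + M) *
        (N2 (2 ^ (c + 1)) x * N2 (2 ^ (c + 1)) y * N2 (2 ^ (c + 1)) z)) := by
  classical
  set W : ℝ := ((2 : ℝ) ^ (c + 1)) ^ (1 + 2 * s) with hW
  have hW0 : 0 < W := by positivity
  set a : Wv → Wv → ℝ := fun k l => dec K k l (-(k + l)) * wgt s c i k l / W with ha
  have e1 : (fun k l => dec K k l (-(k + l)) * wgt s c i k l) = fun k l => W * a k l := by
    funext k l
    simp only [ha]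
    field_simp
  rw [e1, bcd_smul, norm_mul, Complex.norm_real, Real.norm_of_nonneg hW0.le]
  refine mul_le_mul_of_nonneg_left ?_ hW0.le
  have h4 : (4 : ℝ) ^ (c + 1) = ((2 : ℝ) ^ (c + 1)) ^ 2 := by
    rw [← pow_mul, mul_comm, pow_mul]; norm_num
  have hnn : ∀ k : Wv, 0 ≤ nsq k := fun k => by unfold nsq; positivity
  refine hC K (2 ^ (c + 1)) a M hM hK hK0 ?_ ?_ hcnt x y z
  · intro k l
    simp only [ha]
    rw [abs_div, abs_of_pos hW0, div_le_one hW0, abs_mul]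
    have hd : |dec K k l (-(k + l))| ≤ 1 := by
      unfold dec
      split_ifs <;> simp
    have hw : |wgt s c i k l| ≤ W := by
      unfold wgt
      split_ifs with hcond
      · obtain ⟨-, hlt⟩ := hcond
        have hl : nsq l ≤ ((2 : ℝ) ^ (c + 1)) ^ 2 := by
          rw [← h4]
          exact ((le_max_left _ _).trans (le_max_right _ _)).trans hlt.le
        have hkl : nsq (k + l) ≤ ((2 : ℝ) ^ (c + 1)) ^ 2 := by
          rw [← h4]
          exact ((le_max_right _ _).trans (le_max_right _ _)).trans hlt.le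
        rw [abs_mul, abs_of_nonneg (pow_nonneg (hnn _) s)]
        calc |(l i : ℝ)| * nsq (k + l) ^ s
            ≤ (2 : ℝ) ^ (c + 1) * (((2 : ℝ) ^ (c + 1)) ^ 2) ^ s :=
              mul_le_mul (bcd_li l i _ (by positivity) hl)
                (pow_le_pow_left₀ (hnn _) hkl s) (pow_nonneg (hnn _) s) (by positivity)
          _ = W := by
              rw [hW]
              generalize (2 : ℝ) ^ (c + 1) = T
              rw [← pow_mul, ← pow_succ', add_comm]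
      · rw [abs_zero]; exact hW0.le
    calc |dec K k l (-(k + l))| * |wgt s c i k l| ≤ 1 * W := by
          gcongr
      _ = W := one_mul _
  · intro k l hkl
    have hd : dec K k l (-(k + l)) ≠ 0 := by
      intro h
      apply hkl
      simp only [ha, h, zero_mul, zero_div]
    have hw : wgt s c i k l ≠ 0 := by
      intro h
      apply hkl
      simp only [ha, h, mul_zero, zero_div]
    have hd' : k ∈ K ∧ l ∈ K ∧ -(k + l) ∈ K := by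
      by_contra hh
      apply hd
      unfold dec
      rw [if_neg hh]
    obtain ⟨h1, h2, h3⟩ := hd'
    refine ⟨h1, h2, ?_, ?_⟩
    · have := hK _ h3
      rwa [neg_neg] at this
    · have hcond : (4 : ℝ) ^ c ≤ max (nsq k) (max (nsq l) (nsq (k + l))) ∧
          max (nsq k) (max (nsq l) (nsq (k + l))) < (4 : ℝ) ^ (c + 1) := by
        by_contra hh
        apply hw
        unfold wgt
        rw [if_neg hh]
      have hkl' : nsq (k + l) ≤ ((2 : ℝ) ^ (c + 1)) ^ 2 := by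
        rw [← h4]
        exact ((le_max_right _ _).trans (le_max_right _ _)).trans hcond.2.le
      unfold cub
      rw [Fintype.mem_piFinset]
      intro j
      have hj := bcd_li (k + l) j _ (by positivity) hkl'
      rw [Finset.mem_Icc]
      have hj' : |((k + l) j : ℤ)| ≤ (2 : ℤ) ^ (c + 1) := by
        have : ((|((k + l) j : ℤ)| : ℤ) : ℝ) ≤ (((2 : ℤ) ^ (c + 1) : ℤ) : ℝ) := by
          push_cast
          exact hj
        exact_mod_cast this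
      rw [abs_le] at hj'
      push_cast
      exact hj'

lemma bcd_cnt_le (K : Set Wv) (R : ℕ) (p q : Wv) : cnt K R p q ≤ (cub R).card := by
  classical
  unfold cnt
  exact Finset.card_le_card (Finset.filter_subset _ _)

theorem t_BCD : S_BCD := by
  intro hC hI hE hT hL a h0 h1 Ω _ μ _ Y hY hi hp
  obtain ⟨C, hC0, hLC⟩ := hL a h0 h1
  have hsum : (∑' c, μ (bcd_E Y C a c)) ≠ ⊤ := by
    have hle : (∑' c, μ (bcd_E Y C a c)) ≤ ∑' c : ℕ, ENNReal.ofReal ((1 / 2 : ℝ) ^ c) :=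
      ENNReal.tsum_le_tsum fun c => bcd_sum hI hE hT a C hC0 hLC μ Y hY hi hp c
    refine ne_top_of_le_ne_top ?_ hle
    rw [← ENNReal.ofReal_tsum_of_nonneg (fun n => by positivity)
      (summable_geometric_of_lt_one (by norm_num) (by norm_num))]
    exact ENNReal.ofReal_ne_top
  filter_upwards [ae_eventually_notMem hsum] with ω hω κ hκ
  obtain ⟨c₀, hc₀⟩ := Filter.eventually_atTop.1 hω
  have hκ0 : 0 < κ := by linarith
  set K : Set Wv := kept Y ω with hKdef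
  have hKs : ∀ k ∈ K, -k ∈ K := by
    intro k hk
    obtain ⟨h2, h3⟩ := hk
    refine ⟨neg_ne_zero.2 h2, ?_⟩
    rw [neg_neg, Sym2.eq_swap]
    exact h3
  have hK0 : (0 : Wv) ∉ K := fun h => h.1 rfl
  obtain ⟨D, hD0, hD⟩ := bcd_growth C a hC0 h0 h1 κ hκ
  set D' : ℝ := 2 + ((cub (2 ^ (c₀ + 1))).card : ℝ) with hD'
  have hD'0 : 0 ≤ D' := by positivity
  intro s i
  refine ⟨2 ^ (1 + 2 * s) * Real.sqrt (D + D'), by positivity, fun c x y z => ?_⟩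
  have hc1 : (1 : ℝ) ≤ (2 : ℝ) ^ c := one_le_pow₀ (by norm_num)
  -- the bound for the counts
  have hM : ∃ M : ℝ, 0 ≤ M ∧ 2 + M ≤ (D + D') * ((2 : ℝ) ^ c) ^ (2 * κ) ∧
      ∀ p ∈ cub (2 ^ (c + 1)), ∀ q ∈ cub (2 ^ (c + 1)), p ≠ q → p ≠ 0 → q ≠ 0 →
        (cnt K (2 ^ (c + 1)) p q : ℝ) ≤ M := by
    have hP1 : 1 ≤ ((2 : ℝ) ^ c) ^ (2 * κ) := Real.one_le_rpow hc1 (by linarith)
    by_cases hcc : c₀ ≤ c
    · refine ⟨19 * (bcd_s C a c : ℝ) + 3, by positivity, ?_, ?_⟩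
      · refine (hD c).trans ?_
        gcongr
        linarith
      · intro p hpm q hqm hpq hp0 hq0
        have hn := hc₀ c hcc
        by_contra hlt
        apply hn
        unfold bcd_E
        simp only [Set.mem_iUnion]
        refine ⟨(p, q), ?_, ?_⟩
        · rw [Finset.mem_filter, Finset.mem_product]
          exact ⟨⟨hpm, hqm⟩, hpq, hp0, hq0⟩
        · have hlt' := not_le.1 hlt
          have : 19 * bcd_s C a c + 3 < cnt K (2 ^ (c + 1)) p q := by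
            exact_mod_cast hlt'
          exact this.le
    · push Not at hcc
      refine ⟨((cub (2 ^ (c + 1))).card : ℝ), by positivity, ?_, ?_⟩
      · have hm : ((cub (2 ^ (c + 1))).card : ℝ) ≤ ((cub (2 ^ (c₀ + 1))).card : ℝ) := by
          exact_mod_cast bcd_mono (Nat.pow_le_pow_right (by norm_num) (by omega))
        have : 2 + ((cub (2 ^ (c + 1))).card : ℝ) ≤ D' := by rw [hD']; linarith
        calc 2 + ((cub (2 ^ (c + 1))).card : ℝ) ≤ D' * 1 := by linarith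
          _ ≤ (D + D') * ((2 : ℝ) ^ c) ^ (2 * κ) := by
              gcongr
              linarith
      · intro p _ q _ _ _ _
        exact_mod_cast bcd_cnt_le K (2 ^ (c + 1)) p q
  obtain ⟨M, hM0, hM1, hM2⟩ := hM
  refine (bcd_det hC K hKs hK0 s c i M hM0 hM2 x y z).trans ?_
  have hN : 0 ≤ N2 (2 ^ (c + 1)) x * N2 (2 ^ (c + 1)) y * N2 (2 ^ (c + 1)) z := by
    unfold N2; positivity
  rw [← mul_assoc]
  refine mul_le_mul_of_nonneg_right ?_ hN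
  have hsq : Real.sqrt (2 + M) ≤ Real.sqrt (D + D') * ((2 : ℝ) ^ c) ^ κ := by
    calc Real.sqrt (2 + M) ≤ Real.sqrt ((D + D') * ((2 : ℝ) ^ c) ^ (2 * κ)) :=
          Real.sqrt_le_sqrt hM1
      _ = Real.sqrt (D + D') * Real.sqrt (((2 : ℝ) ^ c) ^ (2 * κ)) :=
          Real.sqrt_mul (by positivity) _
      _ = Real.sqrt (D + D') * ((2 : ℝ) ^ c) ^ κ := by
          congr 1
          rw [show 2 * κ = κ + κ by ring, Real.rpow_add (by positivity),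
            Real.sqrt_mul_self (by positivity)]
  have hpow : ((2 : ℝ) ^ c) ^ (1 + 2 * (s : ℝ) + κ) = ((2 : ℝ) ^ c) ^ (1 + 2 * s) *
      ((2 : ℝ) ^ c) ^ κ := by
    rw [Real.rpow_add (by positivity)]
    congr 1
    rw [← Real.rpow_natCast ((2 : ℝ) ^ c) (1 + 2 * s)]
    congr 1
    push_cast
    ring
  rw [hpow]
  calc ((2 : ℝ) ^ (c + 1)) ^ (1 + 2 * s) * Real.sqrt (2 + M)
      ≤ ((2 : ℝ) ^ (c + 1)) ^ (1 + 2 * s) * (Real.sqrt (D + D') * ((2 : ℝ) ^ c) ^ κ) := by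
        gcongr
    _ = 2 ^ (1 + 2 * s) * Real.sqrt (D + D') * (((2 : ℝ) ^ c) ^ (1 + 2 * s) *
        ((2 : ℝ) ^ c) ^ κ) := by
        rw [pow_succ 2 c, mul_pow]
        ring

end Pool.Agent.N983.RT
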