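import Pool.Agent.N983.RT.Stm

set_option autoImplicit false

/-! The trilinear bound for random signs: Borel-Cantelli. -/

namespace Pool.Agent.N983.RT

open MeasureTheory ProbabilityTheory

lemma bcs_nn (k : Wv) : 0 ≤ nsq k := by unfold nsq; positivity

lemma bcs_li (l : Wv) (i : Fin 3) (R : ℝ) (hR : 0 ≤ R) (h : nsq l ≤ R ^ 2) : |(l i : ℝ)| ≤ R := by
  have h1 : (l i : ℝ) ^ 2 ≤ nsq l := by
    unfold nsq
    exact Finset.single_le_sum (f := fun i => (l i : ℝ) ^ 2) (fun j _ => sq_nonneg _)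
      (Finset.mem_univ i)
  exact abs_le_of_sq_le_sq (h1.trans h) hR

lemma bcs_smul (W : ℝ) (a : Wv → Wv → ℝ) (R : ℕ) (x y z : Wv → ℂ) :
    Tri (fun k l => W * a k l) R x y z = (W : ℂ) * Tri a R x y z := by
  unfold Tri
  rw [Finset.mul_sum]
  refine Finset.sum_congr rfl fun k _ => ?_
  rw [Finset.mul_sum]
  refine Finset.sum_congr rfl fun l _ => ?_
  push_cast
  ring

/-- the normalised symbol -/
noncomputable def bcs_w (s c : ℕ) (i : Fin 3) (k l : Wv) : ℝ :=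
  wgt s c i k l / ((2 : ℝ) ^ (c + 1)) ^ (1 + 2 * s)

lemma bcs_w_le (s c : ℕ) (i : Fin 3) (k l : Wv) : |bcs_w s c i k l| ≤ 1 := by
  have h4 : (4 : ℝ) ^ (c + 1) = ((2 : ℝ) ^ (c + 1)) ^ 2 := by
    rw [← pow_mul, mul_comm, pow_mul]; norm_num
  unfold bcs_w
  set W : ℝ := ((2 : ℝ) ^ (c + 1)) ^ (1 + 2 * s) with hW
  have hW0 : 0 < W := by positivity
  rw [abs_div, abs_of_pos hW0, div_le_one hW0]
  unfold wgt
  split_ifs with hcond
  · obtain ⟨-, hlt⟩ := hcond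
    have hl : nsq l ≤ ((2 : ℝ) ^ (c + 1)) ^ 2 := by
      rw [← h4]
      exact ((le_max_left _ _).trans (le_max_right _ _)).trans hlt.le
    have hkl : nsq (k + l) ≤ ((2 : ℝ) ^ (c + 1)) ^ 2 := by
      rw [← h4]
      exact ((le_max_right _ _).trans (le_max_right _ _)).trans hlt.le
    rw [abs_mul, abs_of_nonneg (pow_nonneg (bcs_nn _) s)]
    calc |(l i : ℝ)| * nsq (k + l) ^ s
        ≤ (2 : ℝ) ^ (c + 1) * (((2 : ℝ) ^ (c + 1)) ^ 2) ^ s :=
          mul_le_mul (bcs_li l i _ (by positivity) hl)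
            (pow_le_pow_left₀ (bcs_nn _) hkl s) (pow_nonneg (bcs_nn _) s) (by positivity)
      _ = W := by
          rw [hW]
          generalize (2 : ℝ) ^ (c + 1) = T
          rw [← pow_mul, ← pow_succ', add_comm]
  · rw [abs_zero]; exact hW0.le

lemma bcs_mem {s c : ℕ} {i : Fin 3} {k l : Wv} (h : bcs_w s c i k l ≠ 0) :
    -(k + l) ∈ cub (2 ^ (c + 1)) := by
  have h4 : (4 : ℝ) ^ (c + 1) = ((2 : ℝ) ^ (c + 1)) ^ 2 := by
    rw [← pow_mul, mul_comm, pow_mul]; norm_num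
  have hcond : (4 : ℝ) ^ c ≤ max (nsq k) (max (nsq l) (nsq (k + l))) ∧
      max (nsq k) (max (nsq l) (nsq (k + l))) < (4 : ℝ) ^ (c + 1) := by
    by_contra hh
    apply h
    unfold bcs_w wgt
    rw [if_neg hh, zero_div]
  have hkl' : nsq (k + l) ≤ ((2 : ℝ) ^ (c + 1)) ^ 2 := by
    rw [← h4]
    exact ((le_max_right _ _).trans (le_max_right _ _)).trans hcond.2.le
  unfold cub
  rw [Fintype.mem_piFinset]
  intro j
  have hj := bcs_li (k + l) j _ (by positivity) hkl'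
  rw [Finset.mem_Icc]
  have hj' : |((k + l) j : ℤ)| ≤ (2 : ℤ) ^ (c + 1) := by
    have : ((|((k + l) j : ℤ)| : ℤ) : ℝ) ≤ (((2 : ℤ) ^ (c + 1) : ℤ) : ℝ) := by
      push_cast
      exact hj
    exact_mod_cast this
  rw [abs_le] at hj'
  have e : (-(k + l)) j = -((k + l) j) := rfl
  rw [e]
  push_cast
  exact ⟨by linarith [hj'.2], by linarith [hj'.1]⟩

lemma bcs_N2 (R : ℕ) (x : Wv → ℂ) {k : Wv} (hk : k ∈ cub R) : ‖x k‖ ≤ N2 R x := by
  unfold N2
  apply Real.le_sqrt_of_sq_le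
  exact Finset.single_le_sum (f := fun k => ‖x k‖ ^ 2) (fun j _ => sq_nonneg _) hk

lemma bcs_N2_nonneg (R : ℕ) (x : Wv → ℂ) : 0 ≤ N2 R x := Real.sqrt_nonneg _

/-- the trivial bound -/
lemma bcs_triv (R : ℕ) (a : Wv → Wv → ℝ) (h1 : ∀ k l, |a k l| ≤ 1)
    (h2 : ∀ k l, a k l ≠ 0 → -(k + l) ∈ cub R) (x y z : Wv → ℂ) :
    ‖Tri a R x y z‖ ≤ ((cub R).card : ℝ) ^ 2 * (N2 R x * N2 R y * N2 R z) := by
  have hx := bcs_N2_nonneg R x
  have hy := bcs_N2_nonneg R y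
  have hz := bcs_N2_nonneg R z
  have hterm : ∀ k ∈ cub R, ∀ l ∈ cub R,
      ‖(a k l : ℂ) * x k * y l * z (-(k + l))‖ ≤ N2 R x * N2 R y * N2 R z := by
    intro k hk l hl
    by_cases h0 : a k l = 0
    · rw [h0]
      simp only [Complex.ofReal_zero, zero_mul, norm_zero]
      positivity
    · have hm := h2 k l h0
      rw [norm_mul, norm_mul, norm_mul, Complex.norm_real, Real.norm_eq_abs]
      calc |a k l| * ‖x k‖ * ‖y l‖ * ‖z (-(k + l))‖ ≤ 1 * N2 R x * N2 R y * N2 R z := by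
            gcongr
            · exact h1 k l
            · exact bcs_N2 R x hk
            · exact bcs_N2 R y hl
            · exact bcs_N2 R z hm
        _ = _ := by ring
  unfold Tri
  refine (norm_sum_le _ _).trans ?_
  refine (Finset.sum_le_sum fun k hk => (norm_sum_le _ _).trans
    (Finset.sum_le_sum fun l hl => hterm k hk l hl)).trans ?_
  rw [Finset.sum_const, Finset.sum_const, nsmul_eq_mul, nsmul_eq_mul]
  apply le_of_eq
  ring

/-- the exceptional events -/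
def bcs_E {Ω : Type} (X : Sym2 (Finset Wv) → Ω → ℝ) (s : ℕ) (i : Fin 3) (c : ℕ) : Set Ω :=
  {ω | ∃ A ⊆ cub (2 ^ (c + 1)), ∃ B ⊆ cub (2 ^ (c + 1)), ∃ C ⊆ cub (2 ^ (c + 1)),
    A.Nonempty ∧ B.Nonempty ∧ C.Nonempty ∧
      30 * Real.sqrt (Real.log (2 * ((2 ^ (c + 1) : ℕ) : ℝ) + 1)) *
          Real.sqrt ((A.card : ℝ) * B.card * C.card) <
        |Box (fun k l => sgn X ω k l (-(k + l)) * bcs_w s c i k l) A B C|}

lemma bcs_card (R : ℕ) : (cub R).card = (2 * R + 1) ^ 3 := by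
  unfold cub
  rw [Fintype.card_piFinset]
  simp only [Int.card_Icc, Finset.prod_const, Finset.card_univ, Fintype.card_fin]
  congr 1
  omega

lemma bcs_mono {R R' : ℕ} (h : R ≤ R') : (cub R).card ≤ (cub R').card := by
  rw [bcs_card, bcs_card]
  gcongr

/-- the logarithms -/
lemma bcs_log (c : ℕ) : Real.sqrt (Real.log (2 * ((2 ^ (c + 1) : ℕ) : ℝ) + 1)) *
    (1 + Real.log (2 * ((2 ^ (c + 1) : ℕ) : ℝ) + 1)) ^ 3 ≤ ((c : ℝ) + 4) ^ 4 := by
  have h2 : (0 : ℝ) < 2 ^ c := by positivity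
  have h1 : (1 : ℝ) ≤ 2 ^ c := one_le_pow₀ (by norm_num)
  have hl : Real.log (2 * ((2 ^ (c + 1) : ℕ) : ℝ) + 1) ≤ c + 3 := by
    have e1 : 2 * ((2 ^ (c + 1) : ℕ) : ℝ) + 1 ≤ (2 : ℝ) ^ (c + 3) := by
      push_cast
      rw [pow_succ, pow_add 2 c 3]
      linarith
    calc Real.log (2 * ((2 ^ (c + 1) : ℕ) : ℝ) + 1) ≤ Real.log ((2 : ℝ) ^ (c + 3)) :=
          Real.log_le_log (by positivity) e1
      _ = ((c + 3 : ℕ) : ℝ) * Real.log 2 := Real.log_pow _ _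
      _ ≤ ((c + 3 : ℕ) : ℝ) * 1 := by
          gcongr
          have := Real.log_two_lt_d9
          linarith
      _ = c + 3 := by push_cast; ring
  have hl0 : 0 ≤ Real.log (2 * ((2 ^ (c + 1) : ℕ) : ℝ) + 1) := Real.log_nonneg (by
    have : (0 : ℝ) ≤ ((2 ^ (c + 1) : ℕ) : ℝ) := Nat.cast_nonneg _
    linarith)
  have hc0 : (0 : ℝ) ≤ c := Nat.cast_nonneg c
  have hs : Real.sqrt (Real.log (2 * ((2 ^ (c + 1) : ℕ) : ℝ) + 1)) ≤ c + 4 := by
    apply Real.sqrt_le_iff.2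
    refine ⟨by linarith, hl.trans ?_⟩
    nlinarith
  calc Real.sqrt (Real.log (2 * ((2 ^ (c + 1) : ℕ) : ℝ) + 1)) *
      (1 + Real.log (2 * ((2 ^ (c + 1) : ℕ) : ℝ) + 1)) ^ 3 ≤ ((c : ℝ) + 4) * ((c : ℝ) + 4) ^ 3 :=
        mul_le_mul hs (pow_le_pow_left₀ (by linarith) (by linarith) 3) (by positivity)
          (by linarith)
    _ = _ := by ring

/-- polynomial against exponential growth -/
lemma bcs_growth (κ : ℝ) (hκ : 0 < κ) : ∃ D : ℝ, 0 ≤ D ∧ ∀ c : ℕ,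
    ((c : ℝ) + 4) ^ 4 ≤ D * ((2 : ℝ) ^ c) ^ κ := by
  have hl2 : 0 < Real.log 2 := Real.log_pos (by norm_num)
  obtain ⟨τ, hτ⟩ : ∃ τ : ℝ, τ = κ * Real.log 2 := ⟨_, rfl⟩
  have hτ0 : 0 < τ := by rw [hτ]; positivity
  refine ⟨24 * Real.exp (4 * τ) / τ ^ 4, by positivity, fun c => ?_⟩
  have hc0 : (0 : ℝ) ≤ c := Nat.cast_nonneg c
  have e : ((2 : ℝ) ^ c) ^ κ = Real.exp (c * τ) := by
    rw [Real.rpow_def_of_pos (by positivity), Real.log_pow, hτ]
    congr 1; ring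
  have h3 := Real.pow_div_factorial_le_exp (τ * (c + 4)) (by positivity) 4
  have h4 : ((Nat.factorial 4 : ℕ) : ℝ) = 24 := by norm_num [Nat.factorial]
  rw [h4, div_le_iff₀ (by norm_num)] at h3
  rw [e, div_mul_eq_mul_div, le_div_iff₀ (by positivity)]
  calc ((c : ℝ) + 4) ^ 4 * τ ^ 4 = (τ * (c + 4)) ^ 4 := by ring
    _ ≤ Real.exp (τ * (c + 4)) * 24 := h3
    _ = 24 * Real.exp (4 * τ) * Real.exp (c * τ) := by
        rw [mul_assoc, ← Real.exp_add, mul_comm]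
        congr 2
        ring

theorem t_BCS : S_BCS := by
  intro hU hH hD Ω _ μ _ X hX hi hp
  obtain ⟨C₀, hC0, hD⟩ := hD
  -- the signs are bounded
  have hb : ∀ᵐ ω ∂μ, ∀ c, |X c ω| ≤ 1 := by
    rw [ae_all_iff]
    intro c
    have hm1 : MeasurableSet {ω | X c ω = 1} := measurableSet_eq_fun (hX c) measurable_const
    have hm2 : MeasurableSet {ω | X c ω = -1} := measurableSet_eq_fun (hX c) measurable_const
    have hdis : Disjoint {ω | X c ω = 1} {ω | X c ω = -1} := by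
      rw [Set.disjoint_left]
      intro ω h1 h2
      simp only [Set.mem_ofPred_eq] at h1 h2
      linarith
    have hun : μ ({ω | X c ω = 1} ∪ {ω | X c ω = -1}) = 1 := by
      rw [measure_union hdis hm2, (hp c).1, (hp c).2]
      exact ENNReal.add_halves 1
    have hae : ∀ᵐ ω ∂μ, ω ∈ {ω | X c ω = 1} ∪ {ω | X c ω = -1} := by
      rw [← mem_ae_iff_prob_eq_one (hm1.union hm2)] at hun
      exact hun
    filter_upwards [hae] with ω hω
    rcases hω with h | h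
    · simp only [Set.mem_ofPred_eq] at h
      rw [h]; simp
    · simp only [Set.mem_ofPred_eq] at h
      rw [h]; simp
  -- Borel-Cantelli
  have hev : ∀ᵐ ω ∂μ, ∀ (s : ℕ) (i : Fin 3), ∀ᶠ c in Filter.atTop, ω ∉ bcs_E X s i c := by
    rw [ae_all_iff]
    intro s
    rw [ae_all_iff]
    intro i
    have hone : ∀ c, μ (bcs_E X s i c) ≤ ENNReal.ofReal (100 * (1 / 2 : ℝ) ^ c) := by
      intro c
      refine (hU hH Ω μ X hX hi hp (2 ^ (c + 1)) Nat.one_le_two_pow (bcs_w s c i)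
        (bcs_w_le s c i)).trans ?_
      apply ENNReal.ofReal_le_ofReal
      push_cast
      have h2 : (0 : ℝ) < 2 ^ c := by positivity
      rw [one_div, inv_pow, ← div_eq_mul_inv, pow_succ]
      gcongr
      linarith
    have hsum : (∑' c, μ (bcs_E X s i c)) ≠ ⊤ := by
      refine ne_top_of_le_ne_top ?_ (ENNReal.tsum_le_tsum hone)
      rw [← ENNReal.ofReal_tsum_of_nonneg (fun n => by positivity)
        ((summable_geometric_of_lt_one (by norm_num) (by norm_num)).mul_left _)]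
      exact ENNReal.ofReal_ne_top
    exact ae_eventually_notMem hsum
  filter_upwards [hb, hev] with ω hω1 hω2 κ hκ
  have hsg : ∀ k l m : Wv, |sgn X ω k l m| ≤ 1 := fun k l m => hω1 _
  obtain ⟨D, hD0, hDg⟩ := bcs_growth κ hκ
  intro s i
  obtain ⟨c₀, hc₀⟩ := Filter.eventually_atTop.1 (hω2 s i)
  obtain ⟨Q, hQ⟩ : ∃ Q : ℝ, Q = ((cub (2 ^ (c₀ + 1))).card : ℝ) ^ 2 := ⟨_, rfl⟩
  have hQ0 : 0 ≤ Q := by rw [hQ]; positivity
  refine ⟨2 ^ (1 + 2 * s) * (30 * C₀ * D + Q), by positivity, fun c x y z => ?_⟩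
  have hc1 : (1 : ℝ) ≤ (2 : ℝ) ^ c := one_le_pow₀ (by norm_num)
  obtain ⟨P, hP⟩ : ∃ P : ℝ, P = ((2 : ℝ) ^ c) ^ κ := ⟨_, rfl⟩
  have hP1 : 1 ≤ P := by rw [hP]; exact Real.one_le_rpow hc1 hκ.le
  obtain ⟨W, hW⟩ : ∃ W : ℝ, W = ((2 : ℝ) ^ (c + 1)) ^ (1 + 2 * s) := ⟨_, rfl⟩
  have hW0 : 0 < W := by rw [hW]; positivity
  have e1 : (fun k l => sgn X ω k l (-(k + l)) * wgt s c i k l) =
      fun k l => W * (sgn X ω k l (-(k + l)) * bcs_w s c i k l) := by
    funext k l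
    unfold bcs_w
    rw [← hW]
    field_simp
  rw [e1, bcs_smul, norm_mul, Complex.norm_real, Real.norm_of_nonneg hW0.le]
  have hN : 0 ≤ N2 (2 ^ (c + 1)) x * N2 (2 ^ (c + 1)) y * N2 (2 ^ (c + 1)) z := by
    unfold N2; positivity
  have hsupp : ∀ k l, sgn X ω k l (-(k + l)) * bcs_w s c i k l ≠ 0 →
      -(k + l) ∈ cub (2 ^ (c + 1)) := by
    intro k l h
    exact bcs_mem (right_ne_zero_of_mul h)
  have hone : ∀ k l, |sgn X ω k l (-(k + l)) * bcs_w s c i k l| ≤ 1 := by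
    intro k l
    rw [abs_mul]
    calc |sgn X ω k l (-(k + l))| * |bcs_w s c i k l| ≤ 1 * 1 :=
          mul_le_mul (hsg _ _ _) (bcs_w_le _ _ _ _ _) (abs_nonneg _) zero_le_one
      _ = 1 := one_mul _
  have hmain : ‖Tri (fun k l => sgn X ω k l (-(k + l)) * bcs_w s c i k l) (2 ^ (c + 1)) x y z‖ ≤
      (30 * C₀ * D + Q) * P *
        (N2 (2 ^ (c + 1)) x * N2 (2 ^ (c + 1)) y * N2 (2 ^ (c + 1)) z) := by
    by_cases hcc : c₀ ≤ c
    · have hn := hc₀ c hcc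
      have hbox : ∀ A ⊆ cub (2 ^ (c + 1)), ∀ B ⊆ cub (2 ^ (c + 1)), ∀ C ⊆ cub (2 ^ (c + 1)),
          A.Nonempty → B.Nonempty → C.Nonempty →
          |Box (fun k l => sgn X ω k l (-(k + l)) * bcs_w s c i k l) A B C| ≤
            30 * Real.sqrt (Real.log (2 * ((2 ^ (c + 1) : ℕ) : ℝ) + 1)) *
              Real.sqrt ((A.card : ℝ) * B.card * C.card) := by
        intro A hA B hB C hC h1 h2 h3
        by_contra hlt
        exact hn ⟨A, hA, B, hB, C, hC, h1, h2, h3, not_le.1 hlt⟩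
      refine (hD (2 ^ (c + 1)) Nat.one_le_two_pow _ _ (by positivity) hsupp hbox x y z).trans ?_
      refine mul_le_mul_of_nonneg_right ?_ hN
      have hlog := bcs_log c
      have hg := hDg c
      rw [← hP] at hg
      calc C₀ * (30 * Real.sqrt (Real.log (2 * ((2 ^ (c + 1) : ℕ) : ℝ) + 1))) *
            (1 + Real.log (2 * ((2 ^ (c + 1) : ℕ) : ℝ) + 1)) ^ 3
          = 30 * C₀ * (Real.sqrt (Real.log (2 * ((2 ^ (c + 1) : ℕ) : ℝ) + 1)) *
            (1 + Real.log (2 * ((2 ^ (c + 1) : ℕ) : ℝ) + 1)) ^ 3) := by ring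
        _ ≤ 30 * C₀ * (D * P) := by
            refine mul_le_mul_of_nonneg_left (hlog.trans hg) (by positivity)
        _ ≤ (30 * C₀ * D + Q) * P := by
            have : 0 ≤ Q * P := by positivity
            linarith
    · push Not at hcc
      refine (bcs_triv (2 ^ (c + 1)) _ hone hsupp x y z).trans ?_
      refine mul_le_mul_of_nonneg_right ?_ hN
      have hm : ((cub (2 ^ (c + 1))).card : ℝ) ≤ ((cub (2 ^ (c₀ + 1))).card : ℝ) := by
        exact_mod_cast bcs_mono (Nat.pow_le_pow_right (by norm_num) (by omega))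
      calc ((cub (2 ^ (c + 1))).card : ℝ) ^ 2 ≤ Q := by rw [hQ]; gcongr
        _ ≤ Q * P := le_mul_of_one_le_right hQ0 hP1
        _ ≤ (30 * C₀ * D + Q) * P := by
            have : 0 ≤ 30 * C₀ * D * P := by positivity
            linarith
  have hpow : ((2 : ℝ) ^ c) ^ (1 + 2 * (s : ℝ) + κ) = ((2 : ℝ) ^ c) ^ (1 + 2 * s) * P := by
    rw [Real.rpow_add (by positivity), hP]
    congr 1
    rw [← Real.rpow_natCast ((2 : ℝ) ^ c) (1 + 2 * s)]
    congr 1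
    push_cast
    ring
  rw [hpow]
  calc W * ‖Tri (fun k l => sgn X ω k l (-(k + l)) * bcs_w s c i k l) (2 ^ (c + 1)) x y z‖
      ≤ W * ((30 * C₀ * D + Q) * P *
        (N2 (2 ^ (c + 1)) x * N2 (2 ^ (c + 1)) y * N2 (2 ^ (c + 1)) z)) :=
        mul_le_mul_of_nonneg_left hmain hW0.le
    _ = _ := by
        rw [hW, pow_succ 2 c, mul_pow]
        ring

end Pool.Agent.N983.RT
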