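import Pool.Agent.N983.RT.RHS

set_option autoImplicit false

/-! Project RT (helper983), MP_6bf1e5_an: passage to the limit (CMP). -/

namespace Pool.Agent.N983.RT

open Filter Topology

theorem cmp_cub (k : Wv) : ∀ᶠ n : ℕ in atTop, k ∈ cub n := by
  filter_upwards [eventually_ge_atTop (∑ i, (k i).natAbs)] with n hn
  unfold cub
  rw [Fintype.mem_piFinset]
  intro i
  have h1 : (k i).natAbs ≤ ∑ i, (k i).natAbs :=
    Finset.single_le_sum (f := fun i => (k i).natAbs) (fun _ _ => Nat.zero_le _)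
      (Finset.mem_univ i)
  rw [Finset.mem_Icc]
  omega

theorem cmp_cutg_le (g : Wv → Wv → Wv → ℝ) (hg : Arr g) (n : ℕ) (k l m : Wv) :
    |cutg n g k l m| ≤ 1 := by
  unfold cutg
  split_ifs
  · exact hg.le k l m
  · simp

theorem cmp_cutg_ev (g : Wv → Wv → Wv → ℝ) (k l m : Wv) :
    ∀ᶠ n : ℕ in atTop, cutg n g k l m = g k l m := by
  filter_upwards [cmp_cub k, cmp_cub l, cmp_cub m] with n h1 h2 h3
  unfold cutg
  rw [if_pos ⟨h1, h2, h3⟩]

/-- bounded sequences converge along ultrafilters -/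
theorem cmp_lim (F : Ultrafilter ℕ) (x : ℕ → ℂ) (C : ℝ) (h : ∀ n, ‖x n‖ ≤ C) :
    ∃ z, Tendsto x F (𝓝 z) := by
  have h1 : Metric.closedBall (0 : ℂ) C ∈ F.map x := by
    rw [Ultrafilter.mem_map]
    refine Filter.mem_of_superset Filter.univ_mem fun n _ => ?_
    simp only [Set.mem_preimage, Metric.mem_closedBall, dist_zero_right]
    exact h n
  obtain ⟨z, _, hz⟩ := (isCompact_closedBall (0 : ℂ) C).ultrafilter_le_nhds' _ h1
  exact ⟨z, by rwa [Ultrafilter.coe_map] at hz⟩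

/-- time Lipschitz bounds -/
theorem cmp_lip (hS : S_SUM) (hR : S_RHS) (g : Wv → Wv → Wv → ℝ) (ν α : ℝ) (hg : Arr g)
    (U : ℕ → ℝ → Fld) (hU : ∀ n, IsSol (cutg n g) ν α (U n)) (T : ℝ) (Cs : ℕ → ℝ)
    (hCs : ∀ n t, 0 ≤ t → t ≤ T → Dcy Cs (U n t)) :
    ∃ D : ℝ, ∀ n, ∀ t ∈ Set.Icc 0 T, ∀ t' ∈ Set.Icc 0 T, ∀ k i,
      (1 + nsq k) ^ 3 * ‖U n t k i - U n t' k i‖ ≤ D * |t - t'| := by
  obtain ⟨D, hD⟩ := (hR hS ν α Cs).1 3
  refine ⟨D, fun n t ht t' ht' k i => ?_⟩
  have hw := rhs_w0 k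
  by_cases hk : k = 0
  · subst hk
    have h1 := ((hU n).adm t ht.1).zero
    have h2 := ((hU n).adm t' ht'.1).zero
    rw [h1, h2, Pi.zero_apply, sub_zero, norm_zero, mul_zero]
    by_cases he : t = t'
    · rw [he, sub_self, abs_zero, mul_zero]
    · have hD0 : 0 ≤ D := by
        have hne : (fun _ => 1 : Wv) ≠ 0 := fun h => by
          have := congrFun h 0
          simp at this
        refine le_trans ?_ (hD (cutg n g) (cmp_cutg_le g hg n) (U n t) (hCs n t ht.1 ht.2)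
          (fun _ => 1) hne 0)
        have := rhs_w0 (fun _ => 1)
        positivity
      positivity
  · have h := Convex.norm_image_sub_le_of_norm_hasDerivWithin_le (s := Set.Icc 0 T)
      (f := fun t => U n t k i) (f' := fun t => rhs (cutg n g) ν α (U n t) k i)
      (C := D / (1 + nsq k) ^ 3) (x := t') (y := t)
      (fun x hx => ((hU n).eqn x hx.1 k hk i).mono Set.Icc_subset_Ici_self)
      (fun x hx => by
        rw [le_div_iff₀ (by positivity), mul_comm]
        exact hD (cutg n g) (cmp_cutg_le g hg n) (U n x) (hCs n x hx.1 hx.2) k hk i)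
      (convex_Icc 0 T) ht' ht
    rw [div_mul_eq_mul_div, le_div_iff₀ (by positivity), mul_comm, Real.norm_eq_abs] at h
    exact h

/-- second order Taylor bound -/
theorem cmp_tay (hS : S_SUM) (hR : S_RHS) (g : Wv → Wv → Wv → ℝ) (ν α : ℝ) (hg : Arr g)
    (U : ℕ → ℝ → Fld) (hU : ∀ n, IsSol (cutg n g) ν α (U n)) (T : ℝ) (Cs : ℕ → ℝ)
    (hCs : ∀ n t, 0 ≤ t → t ≤ T → Dcy Cs (U n t)) (m : Wv) (hm : m ≠ 0) (j : Fin 3) :
    ∃ M : ℝ, ∀ n, ∀ t ∈ Set.Icc 0 T, ∀ t₀ ∈ Set.Icc 0 T,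
      ‖U n t m j - U n t₀ m j - ((t - t₀ : ℝ) : ℂ) * rhs (cutg n g) ν α (U n t₀) m j‖ ≤
        M * |t - t₀| ^ 2 := by
  obtain ⟨D, hD⟩ := cmp_lip hS hR g ν α hg U hU T Cs hCs
  obtain ⟨D', hD'⟩ := (hR hS ν α Cs).2 m hm
  refine ⟨|D'| * |D|, fun n t ht t₀ ht₀ => ?_⟩
  have hsub : ∀ x ∈ Set.uIcc t₀ t, x ∈ Set.Icc 0 T ∧ |x - t₀| ≤ |t - t₀| := by
    intro x hx
    have h1 : Set.uIcc t₀ t ⊆ Set.Icc 0 T := Set.uIcc_subset_Icc ht₀ ht
    refine ⟨h1 hx, ?_⟩
    rcases le_total t₀ t with h | h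
    · rw [Set.uIcc_of_le h] at hx
      rw [abs_of_nonneg (by linarith [hx.1]), abs_of_nonneg (by linarith)]
      linarith [hx.2]
    · rw [Set.uIcc_of_ge h] at hx
      rw [abs_of_nonpos (by linarith [hx.2]), abs_of_nonpos (by linarith)]
      linarith [hx.1]
  have h := Convex.norm_image_sub_le_of_norm_hasDerivWithin_le (s := Set.uIcc t₀ t)
    (f := fun x : ℝ => U n x m j - (x : ℂ) * rhs (cutg n g) ν α (U n t₀) m j)
    (f' := fun x => rhs (cutg n g) ν α (U n x) m j - rhs (cutg n g) ν α (U n t₀) m j)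
    (C := |D'| * |D| * |t - t₀|) (x := t₀) (y := t) ?_ ?_ (convex_uIcc t₀ t)
    Set.left_mem_uIcc Set.right_mem_uIcc
  · have he : U n t m j - (t : ℂ) * rhs (cutg n g) ν α (U n t₀) m j -
        (U n t₀ m j - (t₀ : ℂ) * rhs (cutg n g) ν α (U n t₀) m j) =
        U n t m j - U n t₀ m j - ((t - t₀ : ℝ) : ℂ) * rhs (cutg n g) ν α (U n t₀) m j := by
      push_cast
      ring
    rw [he, Real.norm_eq_abs] at h
    refine h.trans (le_of_eq ?_)
    ring
  · intro x hx
    obtain ⟨hx1, _⟩ := hsub x hx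
    have h1 : HasDerivWithinAt (fun x => U n x m j) (rhs (cutg n g) ν α (U n x) m j)
        (Set.uIcc t₀ t) x := ((hU n).eqn x hx1.1 m hm j).mono fun y hy => (hsub y hy).1.1
    have h2 : HasDerivWithinAt (fun x : ℝ => (x : ℂ) * rhs (cutg n g) ν α (U n t₀) m j)
        (rhs (cutg n g) ν α (U n t₀) m j) (Set.uIcc t₀ t) x := by
      have h3 : HasDerivWithinAt (fun x : ℝ => (x : ℂ)) 1 (Set.uIcc t₀ t) x :=
        Complex.ofRealCLM.hasDerivWithinAt
      have h4 := h3.mul_const (rhs (cutg n g) ν α (U n t₀) m j)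
      rwa [one_mul] at h4
    exact h1.sub h2
  · intro x hx
    obtain ⟨hx1, hx2⟩ := hsub x hx
    have h1 := hD' (cutg n g) (cmp_cutg_le g hg n) (U n x) (U n t₀) (hCs n x hx1.1 hx1.2)
      (hCs n t₀ ht₀.1 ht₀.2) (D * |x - t₀|) (fun k i => hD n x hx1 t₀ ht₀ k i) j
    refine h1.trans ?_
    calc D' * (D * |x - t₀|) ≤ |D' * (D * |x - t₀|)| := le_abs_self _
      _ = |D'| * |D| * |x - t₀| := by rw [abs_mul, abs_mul, abs_abs]; ring
      _ ≤ |D'| * |D| * |t - t₀| := mul_le_mul_of_nonneg_left hx2 (by positivity)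

/-- convergence of the right-hand sides -/
theorem cmp_rhs (hS : S_SUM) (F : Ultrafilter ℕ) (hF : (F : Filter ℕ) ≤ atTop)
    (g : Wv → Wv → Wv → ℝ) (ν α : ℝ) (hg : Arr g) (V : ℕ → Fld) (v : Fld) (Cs : ℕ → ℝ)
    (hCs : ∀ n, Dcy Cs (V n)) (hv : ∀ k i, Tendsto (fun n => V n k i) F (𝓝 (v k i)))
    (m : Wv) (j : Fin 3) :
    Tendsto (fun n => rhs (cutg n g) ν α (V n) m j) F (𝓝 (rhs g ν α v m j)) := by
  have hS' : Summable fun k : Wv => ((1 + nsq k) ^ 3)⁻¹ := hS
  have hdt : ∀ (A : ℕ → Fin 3 → ℂ) (a : Fin 3 → ℂ) (l : Wv),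
      (∀ i, Tendsto (fun n => A n i) F (𝓝 (a i))) →
      Tendsto (fun n => dt (A n) l) F (𝓝 (dt a l)) := by
    intro A a l h
    unfold dt
    exact tendsto_finsetSum _ fun i _ => (h i).mul_const _
  have hconv : ∀ j, Tendsto (fun n => conv (cutg n g) (V n) m j) F (𝓝 (conv g v m j)) := by
    intro j
    unfold conv
    refine tendsto_tsum_of_dominated_convergence
      (bound := fun k => 2 ^ 0 * 3 * Cs (0 + 3) * Cs (0 + 1) * ((1 + nsq k) ^ 3)⁻¹)
      (hS'.mul_left _) (fun k => ?_) (Eventually.of_forall fun n k => ?_)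
    · refine Tendsto.mul (Tendsto.mul ?_ (hdt _ _ _ (hv k))) (hv _ _)
      have h1 : ∀ᶠ n : ℕ in (F : Filter ℕ), (g k (m - k) (-m) : ℂ) =
          (cutg n g k (m - k) (-m) : ℂ) := by
        filter_upwards [hF (cmp_cutg_ev g k (m - k) (-m))] with n hn
        rw [hn]
      exact Tendsto.congr' h1 tendsto_const_nhds
    · have h := rhs_termu (cutg n g) (cmp_cutg_le g hg n) (hCs n) m 0 j k
      rwa [pow_zero, one_mul] at h
  unfold rhs
  refine Tendsto.sub (Tendsto.mul tendsto_const_nhds (hv m j))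
    (Tendsto.mul tendsto_const_nhds ?_)
  unfold prj
  refine Tendsto.sub (hconv j) ?_
  exact ((hdt _ _ m hconv).mul_const _).div_const _

theorem t_CMP : S_CMP := by
  intro hS hR g ν α hg hν hα u₀ hu₀ hRap U hU hU0 hdec S hsupp
  set F : Ultrafilter ℕ := hyperfilter ℕ with hFdef
  have hF : (F : Filter ℕ) ≤ atTop := Nat.hyperfilter_le_atTop
  have hlim : ∀ t, 0 ≤ t → ∃ x : Fld, ∀ k i, Tendsto (fun n => U n t k i) F (𝓝 (x k i)) := by
    intro t ht
    obtain ⟨C, hC⟩ := hdec t 0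
    have h1 : ∀ k i, ∃ z, Tendsto (fun n => U n t k i) F (𝓝 z) := fun k i =>
      cmp_lim F _ C fun n => by
        have h := hC n t ht le_rfl k i
        rwa [pow_zero, one_mul] at h
    choose x hx using h1
    exact ⟨x, hx⟩
  choose! u hu using hlim
  have huadm : ∀ t, 0 ≤ t → Adm (u t) := by
    intro t ht
    refine ⟨?_, fun k => ?_, fun k i => ?_⟩
    · ext i
      refine tendsto_nhds_unique (hu t ht 0 i) ?_
      have h1 : (fun n => U n t 0 i) = fun _ => (0 : ℂ) := by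
        funext n
        rw [((hU n).adm t ht).zero]
        rfl
      rw [h1]
      exact tendsto_const_nhds
    · have h1 : Tendsto (fun n => dt (U n t k) k) F (𝓝 (dt (u t k) k)) := by
        unfold dt
        exact tendsto_finsetSum _ fun i _ => (hu t ht k i).mul_const _
      refine tendsto_nhds_unique h1 ?_
      have h2 : (fun n => dt (U n t k) k) = fun _ => (0 : ℂ) := by
        funext n
        exact ((hU n).adm t ht).div k
      rw [h2]
      exact tendsto_const_nhds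
    · refine tendsto_nhds_unique (hu t ht (-k) i) ?_
      have h2 : (fun n => U n t (-k) i) = fun n => (starRingEnd ℂ) (U n t k i) := by
        funext n
        exact ((hU n).adm t ht).real k i
      rw [h2]
      exact (Complex.continuous_conj.tendsto _).comp (hu t ht k i)
  have hudec : ∀ (T : ℝ) (s : ℕ), ∃ C : ℝ, ∀ t, 0 ≤ t → t ≤ T → ∀ k i,
      (1 + nsq k) ^ s * ‖u t k i‖ ≤ C := by
    intro T s
    obtain ⟨C, hC⟩ := hdec T s
    refine ⟨C, fun t ht htT k i => ?_⟩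
    have h1 : Tendsto (fun n => (1 + nsq k) ^ s * ‖U n t k i‖) F
        (𝓝 ((1 + nsq k) ^ s * ‖u t k i‖)) := ((hu t ht k i).norm).const_mul _
    exact le_of_tendsto h1 (Eventually.of_forall fun n => hC n t ht htT k i)
  refine ⟨u, ⟨huadm, hudec, ?_⟩, ?_, ?_⟩
  · -- the equation
    intro t₀ ht₀ m hm j
    choose Cs hCs using hdec (t₀ + 1)
    have hD : ∀ n t, 0 ≤ t → t ≤ t₀ + 1 → Dcy Cs (U n t) :=
      fun n t h1 h2 s k i => hCs s n t h1 h2 k i
    obtain ⟨M, hM⟩ := cmp_tay hS hR g ν α hg U hU (t₀ + 1) Cs hD m hm j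
    have hr := cmp_rhs hS F hF g ν α hg (fun n => U n t₀) (u t₀) Cs
      (fun n => hD n t₀ ht₀ (by linarith)) (hu t₀ ht₀) m j
    have hlimM : ∀ t ∈ Set.Icc 0 (t₀ + 1),
        ‖u t m j - u t₀ m j - ((t - t₀ : ℝ) : ℂ) * rhs g ν α (u t₀) m j‖ ≤
          M * |t - t₀| ^ 2 := by
      intro t ht
      have h1 : Tendsto (fun n => ‖U n t m j - U n t₀ m j -
          ((t - t₀ : ℝ) : ℂ) * rhs (cutg n g) ν α (U n t₀) m j‖) F
          (𝓝 ‖u t m j - u t₀ m j - ((t - t₀ : ℝ) : ℂ) * rhs g ν α (u t₀) m j‖) :=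
        (((hu t ht.1 m j).sub (hu t₀ ht₀ m j)).sub (hr.const_mul _)).norm
      exact le_of_tendsto h1 (Eventually.of_forall fun n =>
        hM n t ht t₀ ⟨ht₀, by linarith⟩)
    rw [hasDerivWithinAt_iff_isLittleO, Asymptotics.isLittleO_iff]
    intro c hc
    have hd : 0 < min 1 (c / (|M| + 1)) := by positivity
    have h2 : ∀ᶠ t in 𝓝[Set.Ici 0] t₀, t ∈ Set.Ici (0 : ℝ) ∧
        |t - t₀| < min 1 (c / (|M| + 1)) := by
      refine (eventually_mem_nhdsWithin).and (mem_nhdsWithin_of_mem_nhds ?_)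
      have := Metric.ball_mem_nhds t₀ hd
      refine Filter.mem_of_superset this fun x hx => ?_
      rw [Metric.mem_ball, Real.dist_eq] at hx
      exact hx
    filter_upwards [h2] with t ht
    obtain ⟨ht1, ht2⟩ := ht
    have h3 : |t - t₀| < 1 := ht2.trans_le (min_le_left _ _)
    have h4 : |t - t₀| < c / (|M| + 1) := ht2.trans_le (min_le_right _ _)
    have h5 := hlimM t ⟨ht1, by have := (abs_lt.1 h3).2; linarith⟩
    rw [Complex.real_smul]
    refine h5.trans ?_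
    rw [Real.norm_eq_abs]
    rw [lt_div_iff₀ (by positivity)] at h4
    have h6 : M * |t - t₀| ≤ c := by
      have h7 := le_abs_self M
      nlinarith [abs_nonneg (t - t₀)]
    calc M * |t - t₀| ^ 2 = (M * |t - t₀|) * |t - t₀| := by ring
      _ ≤ c * |t - t₀| := mul_le_mul_of_nonneg_right h6 (abs_nonneg _)
  · funext k i
    refine tendsto_nhds_unique (hu 0 le_rfl k i) ?_
    have h1 : ∀ᶠ n : ℕ in (F : Filter ℕ), u₀ k i = U n 0 k i := by
      filter_upwards [hF (cmp_cub k)] with n hn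
      rw [hU0 n]
      unfold cut
      rw [if_pos hn]
    exact Tendsto.congr' h1 tendsto_const_nhds
  · intro t ht k hk
    funext i
    refine tendsto_nhds_unique (hu t ht k i) ?_
    have h1 : (fun n => U n t k i) = fun _ => (0 : ℂ) := by
      funext n
      rw [hsupp n t ht k hk]
      rfl
    rw [h1]
    exact tendsto_const_nhds

end Pool.Agent.N983.RT
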