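import Pool.Agent.N983.RT.Stm

set_option autoImplicit false

/-! RT/CS: the bound of Cauchy-Schwarz for sets of wave vectors (helper999). -/

namespace Pool.Agent.N983.RT

open Finset

lemma cs_mem (R : ℕ) (k : Wv) : k ∈ cub R ↔ ∀ i, -(R : ℤ) ≤ k i ∧ k i ≤ R := by
  simp [cub, Fintype.mem_piFinset]

lemma cs_neg {R : ℕ} {k : Wv} (h : k ∈ cub R) : -k ∈ cub R := by
  rw [cs_mem] at h ⊢
  intro i
  have h1 := h i
  rw [Pi.neg_apply]
  omega

/-- reflection and translation of a sum -/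
lemma cs_shift (R : ℕ) (f : Wv → ℝ) (hf : ∀ v, 0 ≤ f v) (hs : ∀ v, v ∉ cub R → f v = 0)
    (c : Wv) : ∑ m ∈ cub R, f (-m - c) ≤ ∑ v ∈ cub R, f v := by
  classical
  have hinj : Set.InjOn (fun m : Wv => -m - c) (cub R : Set Wv) := by
    intro a _ b _ h
    have h1 : -a - c = -b - c := h
    exact neg_injective (sub_left_injective h1)
  rw [← Finset.sum_image (f := f) hinj]
  rw [← Finset.sum_filter_add_sum_filter_not ((cub R).image fun m => -m - c) (fun v => v ∈ cub R)]
  have h2 : ∑ v ∈ ((cub R).image fun m => -m - c) with v ∉ cub R, f v = 0 :=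
    Finset.sum_eq_zero fun v hv => hs v (Finset.mem_filter.1 hv).2
  rw [h2, add_zero]
  exact Finset.sum_le_sum_of_subset_of_nonneg (fun v hv => (Finset.mem_filter.1 hv).2)
    fun v _ _ => hf v

open Classical in
lemma cs_main (K : Set Wv) (R : ℕ) (M : ℝ) (hM : 0 ≤ M) (h0 : (0 : Wv) ∉ K)
    (hcnt : ∀ p ∈ cub R, ∀ q ∈ cub R, p ≠ q → p ≠ 0 → q ≠ 0 → (cnt K R p q : ℝ) ≤ M)
    (ξ η : Wv → ℝ) (hξ : ∀ k, 0 ≤ ξ k) (hη : ∀ k, 0 ≤ η k)
    (sξ : ∀ k, ξ k ≠ 0 → k ∈ K ∧ k ∈ cub R) (sη : ∀ k, η k ≠ 0 → k ∈ K ∧ k ∈ cub R) :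
    ∑ m ∈ cub R, (if m ∈ K then ∑ k ∈ cub R, ξ k * η (-m - k) else 0) ^ 2 ≤
      (1 + M) * ((∑ k ∈ cub R, ξ k ^ 2) * ∑ k ∈ cub R, η k ^ 2) := by
  -- the two majorants
  obtain ⟨W1, hW1⟩ : ∃ W1 : Wv → Wv → Wv → ℝ, W1 = fun m k k' =>
    if k' = -m - k then ξ k ^ 2 * η k' ^ 2 else 0 := ⟨_, rfl⟩
  obtain ⟨W2, hW2⟩ : ∃ W2 : Wv → Wv → Wv → ℝ, W2 = fun m k k' =>
    if k' ≠ -m - k ∧ m ∈ K ∧ -m - k ∈ K ∧ k' ∈ K then ξ k ^ 2 * η (-m - k') ^ 2 else 0 := ⟨_, rfl⟩
  have hterm : ∀ m k k', (if m ∈ K then ξ k * η (-m - k) * (ξ k' * η (-m - k')) else 0) ≤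
      1 / 2 * ((W1 m k k' + W2 m k k') + (W1 m k' k + W2 m k' k)) := by
    intro m k k'
    have p1 : ∀ a b c, 0 ≤ W1 a b c := by
      intro a b c
      rw [hW1]
      dsimp only
      split_ifs
      · positivity
      · exact le_rfl
    have p2 : ∀ a b c, 0 ≤ W2 a b c := by
      intro a b c
      rw [hW2]
      dsimp only
      split_ifs
      · positivity
      · exact le_rfl
    have hpos : 0 ≤ 1 / 2 * ((W1 m k k' + W2 m k k') + (W1 m k' k + W2 m k' k)) := by
      have := p1 m k k'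
      have := p1 m k' k
      have := p2 m k k'
      have := p2 m k' k
      linarith
    by_cases hm : m ∈ K
    · rw [if_pos hm]
      by_cases hz : ξ k * η (-m - k) * (ξ k' * η (-m - k')) = 0
      · rw [hz]
        exact hpos
      · have z1 : ξ k ≠ 0 := fun h => hz (by rw [h]; ring)
        have z2 : η (-m - k) ≠ 0 := fun h => hz (by rw [h]; ring)
        have z3 : ξ k' ≠ 0 := fun h => hz (by rw [h]; ring)
        have z4 : η (-m - k') ≠ 0 := fun h => hz (by rw [h]; ring)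
        by_cases hk : k' = -m - k
        · have hk2 : k = -m - k' := by
            rw [hk]
            abel
          have e1 : W1 m k k' = ξ k ^ 2 * η k' ^ 2 := by
            rw [hW1]
            exact if_pos hk
          have e2 : W1 m k' k = ξ k' ^ 2 * η k ^ 2 := by
            rw [hW1]
            exact if_pos hk2
          have q1 := p2 m k k'
          have q2 := p2 m k' k
          rw [e1, e2, ← hk, ← hk2]
          nlinarith [sq_nonneg (ξ k * η k' - ξ k' * η k)]
        · have hk2 : k ≠ -m - k' := by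
            intro h
            apply hk
            rw [h]
            abel
          have e1 : W2 m k k' = ξ k ^ 2 * η (-m - k') ^ 2 := by
            rw [hW2]
            exact if_pos ⟨hk, hm, (sη _ z2).1, (sξ _ z3).1⟩
          have e2 : W2 m k' k = ξ k' ^ 2 * η (-m - k) ^ 2 := by
            rw [hW2]
            exact if_pos ⟨hk2, hm, (sη _ z4).1, (sξ _ z1).1⟩
          have q1 := p1 m k k'
          have q2 := p1 m k' k
          rw [e1, e2]
          nlinarith [sq_nonneg (ξ k * η (-m - k') - ξ k' * η (-m - k))]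
    · rw [if_neg hm]
      exact hpos
  have hsq : ∀ m, (if m ∈ K then ∑ k ∈ cub R, ξ k * η (-m - k) else 0) ^ 2 ≤
      ∑ k ∈ cub R, ∑ k' ∈ cub R, (W1 m k k' + W2 m k k') := by
    intro m
    have e1 : (if m ∈ K then ∑ k ∈ cub R, ξ k * η (-m - k) else 0) ^ 2 =
        ∑ k ∈ cub R, ∑ k' ∈ cub R,
          (if m ∈ K then ξ k * η (-m - k) * (ξ k' * η (-m - k')) else 0) := by
      by_cases hm : m ∈ K
      · simp only [if_pos hm]
        rw [pow_two, Finset.sum_mul_sum]
      · simp only [if_neg hm]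
        simp
    rw [e1]
    calc _ ≤ ∑ k ∈ cub R, ∑ k' ∈ cub R,
          1 / 2 * ((W1 m k k' + W2 m k k') + (W1 m k' k + W2 m k' k)) :=
          Finset.sum_le_sum fun k _ => Finset.sum_le_sum fun k' _ => hterm m k k'
      _ = ∑ k ∈ cub R, ∑ k' ∈ cub R, (W1 m k k' + W2 m k k') := by
          simp only [← Finset.mul_sum]
          have e2 : ∑ k ∈ cub R, ∑ k' ∈ cub R, (W1 m k k' + W2 m k k' + (W1 m k' k + W2 m k' k)) =
              ∑ k ∈ cub R, ∑ k' ∈ cub R, (W1 m k k' + W2 m k k') +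
              ∑ k ∈ cub R, ∑ k' ∈ cub R, (W1 m k' k + W2 m k' k) := by
            simp only [Finset.sum_add_distrib]
          rw [e2, Finset.sum_comm (s := cub R) (t := cub R) (f := fun k k' => W1 m k' k + W2 m k' k)]
          ring
  have hA : ∀ k ∈ cub R, ∑ m ∈ cub R, ∑ k' ∈ cub R, W1 m k k' ≤
      ξ k ^ 2 * ∑ k' ∈ cub R, η k' ^ 2 := by
    intro k _
    rw [Finset.sum_comm, Finset.mul_sum]
    refine Finset.sum_le_sum fun k' _ => ?_
    have e1 : ∀ m ∈ cub R, W1 m k k' = if m = -k - k' then ξ k ^ 2 * η k' ^ 2 else 0 := by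
      intro m _
      rw [hW1]
      dsimp only
      have : k' = -m - k ↔ m = -k - k' := by
        constructor
        · intro h
          rw [h]
          abel
        · intro h
          rw [h]
          abel
      simp only [this]
    rw [Finset.sum_congr rfl e1, Finset.sum_ite_eq']
    split_ifs
    · exact le_rfl
    · positivity
  have hB : ∀ k ∈ cub R, ∑ m ∈ cub R, ∑ k' ∈ cub R, W2 m k k' ≤
      ξ k ^ 2 * (M * ∑ k' ∈ cub R, η k' ^ 2) := by
    intro k hk
    obtain ⟨G, hG⟩ : ∃ G : Wv → Wv → ℝ, G = fun m l =>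
      if k ≠ l ∧ m ∈ K ∧ -k - m ∈ K ∧ -l - m ∈ K then ξ k ^ 2 * η l ^ 2 else 0 := ⟨_, rfl⟩
    have e1 : ∀ m k', W2 m k k' = G m (-k' - m) := by
      intro m k'
      rw [hW2, hG]
      dsimp only
      have a1 : -m - k' = -k' - m := by abel
      have a2 : -(-k' - m) - m = k' := by abel
      have a3 : k' ≠ -m - k ↔ k ≠ -k' - m := by
        constructor
        · intro h h'
          apply h
          rw [h']
          abel
        · intro h h'
          apply h
          rw [h']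
          abel
      have a4 : -m - k = -k - m := by abel
      rw [a1, a2, a4]
      rw [a4] at a3
      simp only [a3]
    have hGs : ∀ m, ∑ k' ∈ cub R, W2 m k k' ≤ ∑ l ∈ cub R, G m l := by
      intro m
      rw [Finset.sum_congr rfl fun k' _ => e1 m k']
      refine cs_shift R (G m) (fun l => ?_) (fun l hl => ?_) m
      · rw [hG]
        dsimp only
        split_ifs
        · positivity
        · exact le_rfl
      · rw [hG]
        dsimp only
        have : η l = 0 := by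
          by_contra h
          exact hl (sη l h).2
        rw [this]
        simp
    refine (Finset.sum_le_sum fun m _ => hGs m).trans ?_
    rw [Finset.sum_comm, Finset.mul_sum, Finset.mul_sum]
    refine Finset.sum_le_sum fun l hl => ?_
    by_cases hz : ξ k ^ 2 * η l ^ 2 = 0
    · have e2 : ∀ m ∈ cub R, G m l = 0 := by
        intro m _
        rw [hG]
        dsimp only
        rw [hz]
        simp
      rw [Finset.sum_eq_zero e2]
      have : ξ k ^ 2 * (M * η l ^ 2) = M * (ξ k ^ 2 * η l ^ 2) := by ring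
      rw [this, hz, mul_zero]
    · have z1 : ξ k ≠ 0 := fun h => hz (by rw [h]; ring)
      have z2 : η l ≠ 0 := fun h => hz (by rw [h]; ring)
      by_cases hkl : k = l
      · have e2 : ∀ m ∈ cub R, G m l = 0 := by
          intro m _
          rw [hG]
          dsimp only
          rw [if_neg]
          rintro ⟨h, -⟩
          exact h hkl
        rw [Finset.sum_eq_zero e2]
        positivity
      · have e2 : ∑ m ∈ cub R, G m l = (cnt K R (-k) (-l) : ℝ) * (ξ k ^ 2 * η l ^ 2) := by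
          rw [hG]
          dsimp only
          rw [← Finset.sum_filter, Finset.sum_const, nsmul_eq_mul]
          congr 2
          rw [cnt]
          congr 1
          refine Finset.filter_congr fun m _ => ?_
          simp only [ne_eq, hkl, not_false_eq_true, true_and]
        rw [e2]
        have hc := hcnt (-k) (cs_neg hk) (-l) (cs_neg hl) (fun h => hkl (neg_injective h))
          (fun h => h0 (by
            have : k = 0 := neg_eq_zero.1 h
            rw [← this]
            exact (sξ k z1).1))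
          (fun h => h0 (by
            have : l = 0 := neg_eq_zero.1 h
            rw [← this]
            exact (sη l z2).1))
        have : ξ k ^ 2 * (M * η l ^ 2) = M * (ξ k ^ 2 * η l ^ 2) := by ring
        rw [this]
        exact mul_le_mul_of_nonneg_right hc (by positivity)
  calc ∑ m ∈ cub R, (if m ∈ K then ∑ k ∈ cub R, ξ k * η (-m - k) else 0) ^ 2 ≤
        ∑ m ∈ cub R, ∑ k ∈ cub R, ∑ k' ∈ cub R, (W1 m k k' + W2 m k k') :=
        Finset.sum_le_sum fun m _ => hsq m
    _ = ∑ k ∈ cub R, (∑ m ∈ cub R, ∑ k' ∈ cub R, W1 m k k' +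
          ∑ m ∈ cub R, ∑ k' ∈ cub R, W2 m k k') := by
        rw [Finset.sum_comm]
        refine Finset.sum_congr rfl fun k _ => ?_
        simp only [Finset.sum_add_distrib]
    _ ≤ ∑ k ∈ cub R, (ξ k ^ 2 * ∑ k' ∈ cub R, η k' ^ 2 +
          ξ k ^ 2 * (M * ∑ k' ∈ cub R, η k' ^ 2)) :=
        Finset.sum_le_sum fun k hk => add_le_add (hA k hk) (hB k hk)
    _ = (1 + M) * ((∑ k ∈ cub R, ξ k ^ 2) * ∑ k ∈ cub R, η k ^ 2) := by
        rw [Finset.sum_add_distrib, ← Finset.sum_mul, ← Finset.sum_mul]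
        ring

theorem t_CS : S_CS := by
  classical
  intro K R a M hM hneg h0 ha ha' hcnt x y z
  obtain ⟨ρ, hρ⟩ : ∃ ρ : (Wv → ℂ) → Wv → ℝ, ρ = fun x k =>
    if k ∈ K ∧ k ∈ cub R then ‖x k‖ else 0 := ⟨_, rfl⟩
  have ρ0 : ∀ x k, 0 ≤ ρ x k := by
    intro x k
    rw [hρ]
    dsimp only
    split_ifs
    · exact norm_nonneg _
    · exact le_rfl
  have ρs : ∀ x k, ρ x k ≠ 0 → k ∈ K ∧ k ∈ cub R := by
    intro x k h
    by_contra hn
    apply h
    rw [hρ]
    exact if_neg hn
  have ρe : ∀ x k, k ∈ K → k ∈ cub R → ρ x k = ‖x k‖ := by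
    intro x k h1 h2
    rw [hρ]
    exact if_pos ⟨h1, h2⟩
  have ρN : ∀ x, ∑ k ∈ cub R, ρ x k ^ 2 ≤ (N2 R x) ^ 2 := by
    intro x
    rw [N2, Real.sq_sqrt (Finset.sum_nonneg fun k _ => by positivity)]
    refine Finset.sum_le_sum fun k _ => ?_
    refine pow_le_pow_left₀ (ρ0 x k) ?_ 2
    rw [hρ]
    dsimp only
    split_ifs
    · exact le_rfl
    · exact norm_nonneg _
  have s1 : ‖Tri a R x y z‖ ≤
      ∑ k ∈ cub R, ∑ l ∈ cub R, ρ x k * (ρ y l * ρ z (-(k + l))) := by
    rw [Tri]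
    refine (norm_sum_le _ _).trans (Finset.sum_le_sum fun k hk => ?_)
    refine (norm_sum_le _ _).trans (Finset.sum_le_sum fun l hl => ?_)
    by_cases hakl : a k l = 0
    · rw [hakl, Complex.ofReal_zero, zero_mul, zero_mul, zero_mul, norm_zero]
      exact mul_nonneg (ρ0 _ _) (mul_nonneg (ρ0 _ _) (ρ0 _ _))
    · obtain ⟨h1, h2, h3, h4⟩ := ha' k l hakl
      rw [ρe x k h1 hk, ρe y l h2 hl, ρe z (-(k + l)) (hneg _ h3) (cs_neg h4), norm_mul, norm_mul,
        norm_mul, Complex.norm_real, Real.norm_eq_abs]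
      have h5 := ha k l
      have h6 : 0 ≤ ‖x k‖ * (‖y l‖ * ‖z (-(k + l))‖) := by positivity
      calc |a k l| * ‖x k‖ * ‖y l‖ * ‖z (-(k + l))‖ =
            |a k l| * (‖x k‖ * (‖y l‖ * ‖z (-(k + l))‖)) := by ring
        _ ≤ 1 * (‖x k‖ * (‖y l‖ * ‖z (-(k + l))‖)) := mul_le_mul_of_nonneg_right h5 h6
        _ = _ := one_mul _
  obtain ⟨P, hP⟩ : ∃ P : Wv → ℝ, P = fun m =>
    if m ∈ K then ∑ k ∈ cub R, ρ x k * ρ y (-m - k) else 0 := ⟨_, rfl⟩
  have s2 : ∑ k ∈ cub R, ∑ l ∈ cub R, ρ x k * (ρ y l * ρ z (-(k + l))) ≤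
      ∑ m ∈ cub R, ρ z m * P m := by
    have e1 : ∀ m ∈ cub R, ρ z m * P m =
        ∑ k ∈ cub R, ρ x k * (ρ y (-m - k) * ρ z m) := by
      intro m _
      rw [hP]
      dsimp only
      by_cases hm : m ∈ K
      · rw [if_pos hm, Finset.mul_sum]
        refine Finset.sum_congr rfl fun k _ => ?_
        ring
      · have h1 : ρ z m = 0 := by
          by_contra h
          exact hm (ρs z m h).1
        rw [h1]
        simp
    rw [Finset.sum_congr rfl e1, Finset.sum_comm (s := cub R) (t := cub R)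
      (f := fun m k => ρ x k * (ρ y (-m - k) * ρ z m))]
    refine Finset.sum_le_sum fun k _ => ?_
    rw [← Finset.mul_sum, ← Finset.mul_sum]
    refine mul_le_mul_of_nonneg_left ?_ (ρ0 x k)
    have h1 := cs_shift R (fun m => ρ y (-m - k) * ρ z m)
      (fun v => mul_nonneg (ρ0 _ _) (ρ0 _ _)) (fun v hv => by
        have h2 : ρ z v = 0 := by
          by_contra h
          exact hv (ρs z v h).2
        show ρ y (-v - k) * ρ z v = 0
        rw [h2, mul_zero]) k
    refine le_trans (le_of_eq ?_) h1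
    refine Finset.sum_congr rfl fun l _ => ?_
    have a1 : -(-l - k) - k = l := by abel
    have a2 : -(k + l) = -l - k := by abel
    show ρ y l * ρ z (-(k + l)) = ρ y (-(-l - k) - k) * ρ z (-l - k)
    rw [a1, a2]
  have s3 : ∑ m ∈ cub R, P m ^ 2 ≤
      (1 + M) * ((∑ k ∈ cub R, ρ x k ^ 2) * ∑ k ∈ cub R, ρ y k ^ 2) := by
    rw [hP]
    have h := cs_main K R M hM h0 hcnt (ρ x) (ρ y) (ρ0 x) (ρ0 y) (ρs x) (ρs y)
    convert h using 6
  have s4 := Finset.sum_mul_sq_le_sq_mul_sq (cub R) (ρ z) P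
  have n1 : ∀ x, 0 ≤ N2 R x := fun x => Real.sqrt_nonneg _
  have s5 : ‖Tri a R x y z‖ ^ 2 ≤
      (Real.sqrt (2 + M) * (N2 R x * N2 R y * N2 R z)) ^ 2 := by
    have t1 : 0 ≤ ∑ k ∈ cub R, ρ x k ^ 2 := Finset.sum_nonneg fun k _ => by positivity
    have t2 : 0 ≤ ∑ k ∈ cub R, ρ y k ^ 2 := Finset.sum_nonneg fun k _ => by positivity
    have t3 : 0 ≤ ∑ k ∈ cub R, ρ z k ^ 2 := Finset.sum_nonneg fun k _ => by positivity
    have t4 : 0 ≤ ∑ m ∈ cub R, P m ^ 2 := Finset.sum_nonneg fun k _ => by positivity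
    calc ‖Tri a R x y z‖ ^ 2 ≤ (∑ m ∈ cub R, ρ z m * P m) ^ 2 :=
          pow_le_pow_left₀ (norm_nonneg _) (s1.trans s2) 2
      _ ≤ (∑ m ∈ cub R, ρ z m ^ 2) * ∑ m ∈ cub R, P m ^ 2 := s4
      _ ≤ (N2 R z) ^ 2 * ((2 + M) * ((N2 R x) ^ 2 * (N2 R y) ^ 2)) := by
          refine mul_le_mul (ρN z) (s3.trans ?_) t4 (by positivity)
          refine mul_le_mul (by linarith) ?_ (mul_nonneg t1 t2) (by linarith)
          exact mul_le_mul (ρN x) (ρN y) t2 (by positivity)
      _ = (Real.sqrt (2 + M) * (N2 R x * N2 R y * N2 R z)) ^ 2 := by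
          rw [mul_pow, Real.sq_sqrt (by linarith)]
          ring
  refine (pow_le_pow_iff_left₀ (norm_nonneg _) ?_ two_ne_zero).1 s5
  exact mul_nonneg (Real.sqrt_nonneg _) (mul_nonneg (mul_nonneg (n1 x) (n1 y)) (n1 z))

end Pool.Agent.N983.RT
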