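import Mathlib

set_option autoImplicit false

/-!
Navier-Stokes equations on the torus `(ℝ / 2πℤ) ^ 3` in Fourier variables, with coefficients
`g k l m` in front of the triad interactions.
-/

namespace Pool.Agent.N983.RT

/-- wave vectors -/
abbrev Wv := Fin 3 → ℤ

/-- the square of the length of a wave vector -/
def nsq (k : Wv) : ℝ := ∑ i, (k i : ℝ) ^ 2

/-- Fourier coefficients of a vector field -/
abbrev Fld := Wv → Fin 3 → ℂ

/-- the scalar product `a · k` -/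
def dt (a : Fin 3 → ℂ) (k : Wv) : ℂ := ∑ i, a i * (k i : ℂ)

/-- the orthogonal projection onto the plane `k^⊥` -/
noncomputable def prj (k : Wv) (a : Fin 3 → ℂ) : Fin 3 → ℂ :=
  fun i => a i - dt a k * (k i : ℂ) / (nsq k : ℂ)

/-- real, divergence free, mean zero -/
structure Adm (u : Fld) : Prop where
  zero : u 0 = 0
  div : ∀ k, dt (u k) k = 0
  real : ∀ k i, u (-k) i = (starRingEnd ℂ) (u k i)

/-- the field is smooth -/
def Rapid (u : Fld) : Prop := ∀ s : ℕ, ∃ C : ℝ, ∀ k i, (1 + nsq k) ^ s * ‖u k i‖ ≤ C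

/-- `∑_{k + l = m} g(k, l, -m) (u_k · l) u_l` -/
noncomputable def conv (g : Wv → Wv → Wv → ℝ) (u : Fld) (m : Wv) : Fin 3 → ℂ :=
  fun j => ∑' k, (g k (m - k) (-m) : ℂ) * dt (u k) (m - k) * u (m - k) j

/-- the right-hand side of the equation -/
noncomputable def rhs (g : Wv → Wv → Wv → ℝ) (ν α : ℝ) (u : Fld) (m : Wv) (j : Fin 3) : ℂ :=
  -((ν * nsq m ^ α : ℝ) : ℂ) * u m j - Complex.I * prj m (conv g u m) j

/-- `u` is a smooth solution for all times `t ≥ 0` -/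
structure IsSol (g : Wv → Wv → Wv → ℝ) (ν α : ℝ) (u : ℝ → Fld) : Prop where
  adm : ∀ t, 0 ≤ t → Adm (u t)
  decay : ∀ (T : ℝ) (s : ℕ), ∃ C : ℝ, ∀ t, 0 ≤ t → t ≤ T → ∀ k i, (1 + nsq k) ^ s * ‖u t k i‖ ≤ C
  eqn : ∀ t, 0 ≤ t → ∀ m, m ≠ 0 → ∀ j,
    HasDerivWithinAt (fun t => u t m j) (rhs g ν α (u t) m j) (Set.Ici 0) t

/-- global well-posedness for smooth data with wave vectors in `S` -/
def GWP (g : Wv → Wv → Wv → ℝ) (ν α : ℝ) (S : Set Wv) : Prop :=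
  ∀ u₀ : Fld, Adm u₀ → Rapid u₀ → (∀ k, k ∉ S → u₀ k = 0) →
    ∃ u : ℝ → Fld, IsSol g ν α u ∧ u 0 = u₀ ∧ (∀ t, 0 ≤ t → ∀ k, k ∉ S → u t k = 0) ∧
      ∀ v : ℝ → Fld, IsSol g ν α v → v 0 = u₀ → ∀ t, 0 ≤ t → v t = u t

/-- the sign of the triad `k, l, m`: it only depends on the set `{k, l, m}` up to a change of the
signs of the three wave vectors -/
def sgn {Ω : Type} (X : Sym2 (Finset Wv) → Ω → ℝ) (ω : Ω) (k l m : Wv) : ℝ :=
  X s(({k, l, m} : Finset Wv), ({-k, -l, -m} : Finset Wv)) ω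

end Pool.Agent.N983.RT
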