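import Pool.Agent.N983.RT.Stm2

set_option autoImplicit false

/-! The trilinear bound for deterministic sets of wave vectors. -/

namespace Pool.Agent.N983.RT

open MeasureTheory ProbabilityTheory

lemma det_li (l : Wv) (i : Fin 3) (R : ℝ) (hR : 0 ≤ R) (h : nsq l ≤ R ^ 2) : |(l i : ℝ)| ≤ R := by
  have h1 : (l i : ℝ) ^ 2 ≤ nsq l := by
    unfold nsq
    exact Finset.single_le_sum (f := fun i => (l i : ℝ) ^ 2) (fun j _ => sq_nonneg _)
      (Finset.mem_univ i)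
  exact abs_le_of_sq_le_sq (h1.trans h) hR |> fun h => h

lemma det_smul (W : ℝ) (a : Wv → Wv → ℝ) (R : ℕ) (x y z : Wv → ℂ) :
    Tri (fun k l => W * a k l) R x y z = (W : ℂ) * Tri a R x y z := by
  unfold Tri
  rw [Finset.mul_sum]
  refine Finset.sum_congr rfl fun k _ => ?_
  rw [Finset.mul_sum]
  refine Finset.sum_congr rfl fun l _ => ?_
  push_cast
  ring

/-- the deterministic part -/
lemma det_det (hC : S_CS) (K : Set Wv) (hK : ∀ k ∈ K, -k ∈ K) (hK0 : (0 : Wv) ∉ K)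
    (s c : ℕ) (i : Fin 3) (M : ℝ) (hM : 0 ≤ M)
    (hcnt : ∀ p ∈ cub (2 ^ (c + 1)), ∀ q ∈ cub (2 ^ (c + 1)), p ≠ q → p ≠ 0 → q ≠ 0 →
      (cnt K (2 ^ (c + 1)) p q : ℝ) ≤ M) (x y z : Wv → ℂ) :
    ‖Tri (fun k l => dec K k l (-(k + l)) * wgt s c i k l) (2 ^ (c + 1)) x y z‖ ≤
      ((2 : ℝ) ^ (c + 1)) ^ (1 + 2 * s) * (Real.sqrt (2 + M) *
        (N2 (2 ^ (c + 1)) x * N2 (2 ^ (c + 1)) y * N2 (2 ^ (c + 1)) z)) := by
  classical
  set W : ℝ := ((2 : ℝ) ^ (c + 1)) ^ (1 + 2 * s) with hW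
  have hW0 : 0 < W := by positivity
  set a : Wv → Wv → ℝ := fun k l => dec K k l (-(k + l)) * wgt s c i k l / W with ha
  have e1 : (fun k l => dec K k l (-(k + l)) * wgt s c i k l) = fun k l => W * a k l := by
    funext k l
    simp only [ha]
    field_simp
  rw [e1, det_smul, norm_mul, Complex.norm_real, Real.norm_of_nonneg hW0.le]
  refine mul_le_mul_of_nonneg_left ?_ hW0.le
  have h4 : (4 : ℝ) ^ (c + 1) = ((2 : ℝ) ^ (c + 1)) ^ 2 := by
    rw [← pow_mul, mul_comm, pow_mul]; norm_num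
  have hnn : ∀ k : Wv, 0 ≤ nsq k := fun k => by unfold nsq; positivity
  refine hC K (2 ^ (c + 1)) a M hM hK hK0 ?_ ?_ hcnt x y z
  · intro k l
    simp only [ha]
    rw [abs_div, abs_of_pos hW0, div_le_one hW0, abs_mul]
    have hd : |dec K k l (-(k + l))| ≤ 1 := by
      unfold dec
      split_ifs <;> simp
    have hw : |wgt s c i k l| ≤ W := by
      unfold wgt
      split_ifs with hcond
      · obtain ⟨-, hlt⟩ := hcond
        have hl : nsq l ≤ ((2 : ℝ) ^ (c + 1)) ^ 2 := by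
          rw [← h4]
          exact ((le_max_left _ _).trans (le_max_right _ _)).trans hlt.le
        have hkl : nsq (k + l) ≤ ((2 : ℝ) ^ (c + 1)) ^ 2 := by
          rw [← h4]
          exact ((le_max_right _ _).trans (le_max_right _ _)).trans hlt.le
        rw [abs_mul, abs_of_nonneg (pow_nonneg (hnn _) s)]
        calc |(l i : ℝ)| * nsq (k + l) ^ s
            ≤ (2 : ℝ) ^ (c + 1) * (((2 : ℝ) ^ (c + 1)) ^ 2) ^ s :=
              mul_le_mul (det_li l i _ (by positivity) hl)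
                (pow_le_pow_left₀ (hnn _) hkl s) (pow_nonneg (hnn _) s) (by positivity)
          _ = W := by
              rw [hW]
              generalize (2 : ℝ) ^ (c + 1) = T
              rw [← pow_mul, ← pow_succ', add_comm]
      · rw [abs_zero]; exact hW0.le
    calc |dec K k l (-(k + l))| * |wgt s c i k l| ≤ 1 * W := by
          gcongr
      _ = W := one_mul _
  · intro k l hkl
    have hd : dec K k l (-(k + l)) ≠ 0 := by
      intro h
      apply hkl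
      simp only [ha, h, zero_mul, zero_div]
    have hw : wgt s c i k l ≠ 0 := by
      intro h
      apply hkl
      simp only [ha, h, mul_zero, zero_div]
    have hd' : k ∈ K ∧ l ∈ K ∧ -(k + l) ∈ K := by
      by_contra hh
      apply hd
      unfold dec
      rw [if_neg hh]
    obtain ⟨h1, h2, h3⟩ := hd'
    refine ⟨h1, h2, ?_, ?_⟩
    · have := hK _ h3
      rwa [neg_neg] at this
    · have hcond : (4 : ℝ) ^ c ≤ max (nsq k) (max (nsq l) (nsq (k + l))) ∧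
          max (nsq k) (max (nsq l) (nsq (k + l))) < (4 : ℝ) ^ (c + 1) := by
        by_contra hh
        apply hw
        unfold wgt
        rw [if_neg hh]
      have hkl' : nsq (k + l) ≤ ((2 : ℝ) ^ (c + 1)) ^ 2 := by
        rw [← h4]
        exact ((le_max_right _ _).trans (le_max_right _ _)).trans hcond.2.le
      unfold cub
      rw [Fintype.mem_piFinset]
      intro j
      have hj := det_li (k + l) j _ (by positivity) hkl'
      rw [Finset.mem_Icc]
      have hj' : |((k + l) j : ℤ)| ≤ (2 : ℤ) ^ (c + 1) := by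
        have : ((|((k + l) j : ℤ)| : ℤ) : ℝ) ≤ (((2 : ℤ) ^ (c + 1) : ℤ) : ℝ) := by
          push_cast
          exact hj
        exact_mod_cast this
      rw [abs_le] at hj'
      push_cast
      exact hj'

theorem t_DET : S_DET := by
  intro hC K B γ hK hK0 hB hγ hcnt s i
  refine ⟨2 ^ (1 + 2 * s) * Real.sqrt (2 + B * 2 ^ γ), by positivity, fun c x y z => ?_⟩
  have hc1 : (1 : ℝ) ≤ (2 : ℝ) ^ c := one_le_pow₀ (by norm_num)
  have hP1 : 1 ≤ ((2 : ℝ) ^ c) ^ γ := Real.one_le_rpow hc1 hγ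
  have hM0 : 0 ≤ B * ((2 ^ (c + 1) : ℕ) : ℝ) ^ γ := by positivity
  have hM1 : 2 + B * ((2 ^ (c + 1) : ℕ) : ℝ) ^ γ ≤ (2 + B * 2 ^ γ) * ((2 : ℝ) ^ c) ^ γ := by
    have e1 : ((2 ^ (c + 1) : ℕ) : ℝ) = (2 : ℝ) ^ c * 2 := by push_cast; ring
    rw [e1, Real.mul_rpow (by positivity) (by norm_num)]
    nlinarith
  refine (det_det hC K hK hK0 s c i _ hM0
    (fun p hp q hq h1 h2 h3 => hcnt _ Nat.one_le_two_pow p hp q hq h1 h2 h3) x y z).trans ?_
  have hN : 0 ≤ N2 (2 ^ (c + 1)) x * N2 (2 ^ (c + 1)) y * N2 (2 ^ (c + 1)) z := by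
    unfold N2; positivity
  rw [← mul_assoc]
  refine mul_le_mul_of_nonneg_right ?_ hN
  have hsq : Real.sqrt (2 + B * ((2 ^ (c + 1) : ℕ) : ℝ) ^ γ) ≤
      Real.sqrt (2 + B * 2 ^ γ) * ((2 : ℝ) ^ c) ^ (γ / 2) := by
    calc Real.sqrt (2 + B * ((2 ^ (c + 1) : ℕ) : ℝ) ^ γ)
        ≤ Real.sqrt ((2 + B * 2 ^ γ) * ((2 : ℝ) ^ c) ^ γ) := Real.sqrt_le_sqrt hM1
      _ = Real.sqrt (2 + B * 2 ^ γ) * Real.sqrt (((2 : ℝ) ^ c) ^ γ) :=
          Real.sqrt_mul (by positivity) _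
      _ = Real.sqrt (2 + B * 2 ^ γ) * ((2 : ℝ) ^ c) ^ (γ / 2) := by
          congr 1
          rw [show γ = γ / 2 + γ / 2 by ring, Real.rpow_add (by positivity),
            Real.sqrt_mul_self (by positivity)]
          congr 1
          ring
  have hpow : ((2 : ℝ) ^ c) ^ (1 + 2 * (s : ℝ) + γ / 2) = ((2 : ℝ) ^ c) ^ (1 + 2 * s) *
      ((2 : ℝ) ^ c) ^ (γ / 2) := by
    rw [Real.rpow_add (by positivity)]
    congr 1
    rw [← Real.rpow_natCast ((2 : ℝ) ^ c) (1 + 2 * s)]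
    congr 1
    push_cast
    ring
  rw [hpow]
  calc ((2 : ℝ) ^ (c + 1)) ^ (1 + 2 * s) * Real.sqrt (2 + B * ((2 ^ (c + 1) : ℕ) : ℝ) ^ γ)
      ≤ ((2 : ℝ) ^ (c + 1)) ^ (1 + 2 * s) *
        (Real.sqrt (2 + B * 2 ^ γ) * ((2 : ℝ) ^ c) ^ (γ / 2)) := by
        gcongr
    _ = 2 ^ (1 + 2 * s) * Real.sqrt (2 + B * 2 ^ γ) * (((2 : ℝ) ^ c) ^ (1 + 2 * s) *
        ((2 : ℝ) ^ c) ^ (γ / 2)) := by
        rw [pow_succ 2 c, mul_pow]
        ring

end Pool.Agent.N983.RT
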