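import Pool.Agent.N983.RT.Stm

set_option autoImplicit false

/-! Part DIG: from boxes to arbitrary vectors (helper769).

If `|∑_{k ∈ A} c k| ≤ K √|A|` for all `A ⊆ Q`, then `∑_{k ∈ Q} |c k|^2 ≤ 4 K^2 (1 + log |Q|)` (remove the smallest
element again and again).  This is used for the three variables one after another. -/

namespace Pool.Agent.N983.RT

open Finset

theorem dig_pos {ι : Type} [DecidableEq ι] (c : ι → ℝ) (K : ℝ) : ∀ (n : ℕ) (P : Finset ι),
    P.card = n → (∀ k ∈ P, 0 ≤ c k) →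
    (∀ A ⊆ P, A.Nonempty → ∑ k ∈ A, c k ≤ K * Real.sqrt (A.card : ℝ)) →
    ∑ k ∈ P, c k ^ 2 ≤ K ^ 2 * ((harmonic n : ℚ) : ℝ) := by
  intro n
  induction n with
  | zero =>
    intro P hP _ _
    rw [card_eq_zero] at hP
    subst hP
    simp
  | succ n ih =>
    intro P hP h0 hA
    have hne : P.Nonempty := by
      rw [← card_pos]
      omega
    obtain ⟨k0, hk0, hmin⟩ := exists_min_image P c hne
    have h1 : ((n : ℝ) + 1) * c k0 ≤ K * Real.sqrt ((n : ℝ) + 1) := by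
      have h2 := card_nsmul_le_sum P c (c k0) hmin
      rw [hP, nsmul_eq_mul] at h2
      have h3 := hA P (Subset.refl _) hne
      rw [hP] at h3
      push_cast at h2 h3
      linarith
    have hn : (0 : ℝ) < (n : ℝ) + 1 := by positivity
    have hc0 := h0 k0 hk0
    have h4 : c k0 ^ 2 ≤ K ^ 2 * ((n : ℝ) + 1)⁻¹ := by
      have h5 : (((n : ℝ) + 1) * c k0) ^ 2 ≤ (K * Real.sqrt ((n : ℝ) + 1)) ^ 2 :=
        pow_le_pow_left₀ (by positivity) h1 2
      rw [mul_pow, mul_pow, Real.sq_sqrt hn.le] at h5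
      rw [← div_eq_mul_inv, le_div_iff₀ hn]
      have h6 : ((n : ℝ) + 1) * (c k0 ^ 2 * ((n : ℝ) + 1)) ≤ ((n : ℝ) + 1) * K ^ 2 := by
        linarith
      exact le_of_mul_le_mul_left h6 hn
    have h7 := ih (P.erase k0) (by rw [card_erase_of_mem hk0, hP]; omega)
      (fun k hk => h0 k (mem_of_mem_erase hk))
      (fun A hAP => hA A (hAP.trans (erase_subset _ _)))
    rw [← add_sum_erase P (fun k => c k ^ 2) hk0, harmonic_succ]
    push_cast
    linarith

theorem dig_log {m n : ℕ} (h : m ≤ n) : Real.log (m : ℝ) ≤ Real.log (n : ℝ) := by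
  rcases Nat.eq_zero_or_pos m with h0 | h0
  · rw [h0, Nat.cast_zero, Real.log_zero]
    exact Real.log_natCast_nonneg n
  · exact Real.log_le_log (by exact_mod_cast h0) (by exact_mod_cast h)

theorem dig_real {ι : Type} [DecidableEq ι] (c : ι → ℝ) (K : ℝ) (Q : Finset ι)
    (hA : ∀ A ⊆ Q, A.Nonempty → |∑ k ∈ A, c k| ≤ K * Real.sqrt (A.card : ℝ)) :
    ∑ k ∈ Q, c k ^ 2 ≤ 2 * K ^ 2 * (1 + Real.log (Q.card : ℝ)) := by
  have h1 := dig_pos c K _ (Q.filter fun k => 0 ≤ c k) rfl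
    (fun k hk => (mem_filter.1 hk).2)
    (fun A hAP hne => (le_abs_self _).trans (hA A (hAP.trans (filter_subset _ _)) hne))
  have h2 := dig_pos (fun k => -c k) K _ (Q.filter fun k => ¬ 0 ≤ c k) rfl
    (fun k hk => by
      have := (mem_filter.1 hk).2
      push Not at this
      linarith)
    (fun A hAP hne => by
      rw [sum_neg_distrib]
      exact (neg_le_abs _).trans (hA A (hAP.trans (filter_subset _ _)) hne))
  simp only [neg_sq] at h2
  have h3 : ∀ P ⊆ Q, ((harmonic P.card : ℚ) : ℝ) ≤ 1 + Real.log (Q.card : ℝ) := by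
    intro P hP
    have h4 := harmonic_le_one_add_log P.card
    have h5 := dig_log (card_le_card hP)
    linarith
  have h4 := h3 _ (filter_subset (fun k => 0 ≤ c k) Q)
  have h5 := h3 _ (filter_subset (fun k => ¬ 0 ≤ c k) Q)
  rw [← sum_filter_add_sum_filter_not Q (fun k => 0 ≤ c k)]
  have h6 := mul_le_mul_of_nonneg_left h4 (sq_nonneg K)
  have h7 := mul_le_mul_of_nonneg_left h5 (sq_nonneg K)
  linarith

theorem dig_cpx {ι : Type} [DecidableEq ι] (c : ι → ℂ) (K : ℝ) (Q : Finset ι)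
    (hA : ∀ A ⊆ Q, A.Nonempty → ‖∑ k ∈ A, c k‖ ≤ K * Real.sqrt (A.card : ℝ)) :
    ∑ k ∈ Q, ‖c k‖ ^ 2 ≤ 4 * K ^ 2 * (1 + Real.log (Q.card : ℝ)) := by
  have h1 := dig_real (fun k => (c k).re) K Q (fun A hAQ hne => by
    rw [← Complex.re_sum]
    exact (Complex.abs_re_le_norm _).trans (hA A hAQ hne))
  have h2 := dig_real (fun k => (c k).im) K Q (fun A hAQ hne => by
    rw [← Complex.im_sum]
    exact (Complex.abs_im_le_norm _).trans (hA A hAQ hne))
  have h3 : ∀ k, ‖c k‖ ^ 2 = (c k).re ^ 2 + (c k).im ^ 2 := by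
    intro k
    rw [Complex.sq_norm, Complex.normSq_apply]
    ring
  simp_rw [h3]
  rw [sum_add_distrib]
  linarith

theorem dig_card (R : ℕ) : (cub R).card = (2 * R + 1) ^ 3 := by
  unfold cub
  rw [Fintype.card_piFinset, prod_const, card_univ, Fintype.card_fin, Int.card_Icc]
  congr 1
  omega

theorem dig_lin {R : ℕ} (c x : Wv → ℂ) {K : ℝ} (hK : 0 ≤ K)
    (hA : ∀ A ⊆ cub R, A.Nonempty → ‖∑ k ∈ A, c k‖ ≤ K * Real.sqrt (A.card : ℝ)) :
    ‖∑ k ∈ cub R, x k * c k‖ ≤ 4 * (1 + Real.log (2 * R + 1)) * K * N2 R x := by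
  have h1 := dig_cpx c K (cub R) hA
  have hl : 0 ≤ Real.log (2 * (R : ℝ) + 1) := by
    have := Real.log_natCast_nonneg (2 * R + 1)
    push_cast at this
    exact this
  rw [dig_card] at h1
  push_cast at h1
  rw [Real.log_pow] at h1
  push_cast at h1
  have h2 : ∑ k ∈ cub R, ‖c k‖ ^ 2 ≤ (4 * (1 + Real.log (2 * R + 1)) * K) ^ 2 := by
    refine h1.trans ?_
    have h3 : 0 ≤ K ^ 2 * Real.log (2 * (R : ℝ) + 1) := by positivity
    have h4 : 0 ≤ K ^ 2 * Real.log (2 * (R : ℝ) + 1) ^ 2 := by positivity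
    have h5 : 0 ≤ K ^ 2 := sq_nonneg K
    nlinarith
  have h3 : ‖∑ k ∈ cub R, x k * c k‖ ≤ ∑ k ∈ cub R, ‖x k‖ * ‖c k‖ := by
    refine (norm_sum_le _ _).trans (le_of_eq ?_)
    exact sum_congr rfl fun k _ => norm_mul _ _
  have h4 := Real.sum_mul_le_sqrt_mul_sqrt (cub R) (fun k => ‖x k‖) (fun k => ‖c k‖)
  have h5 : Real.sqrt (∑ k ∈ cub R, ‖c k‖ ^ 2) ≤ 4 * (1 + Real.log (2 * R + 1)) * K :=
    Real.sqrt_le_iff.2 ⟨by positivity, h2⟩
  refine h3.trans (h4.trans ?_)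
  unfold N2
  rw [mul_comm]
  exact mul_le_mul_of_nonneg_right h5 (Real.sqrt_nonneg _)

/-- the indicator function -/
noncomputable def dig_i (A : Finset Wv) (k : Wv) : ℂ := if k ∈ A then 1 else 0

theorem dig_ind {R : ℕ} {A : Finset Wv} (hA : A ⊆ cub R) (c : Wv → ℂ) :
    ∑ k ∈ A, c k = ∑ k ∈ cub R, dig_i A k * c k := by
  unfold dig_i
  simp only [ite_mul, one_mul, zero_mul]
  rw [← sum_filter]
  refine sum_congr ?_ fun _ _ => rfl
  ext k
  rw [mem_filter]
  exact ⟨fun h => ⟨hA h, h⟩, fun h => h.2⟩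

section

variable (a : Wv → Wv → ℝ) (R : ℕ)

theorem dig_x (x y z : Wv → ℂ) : Tri a R x y z =
    ∑ k ∈ cub R, x k * ∑ l ∈ cub R, (a k l : ℂ) * y l * z (-(k + l)) := by
  unfold Tri
  refine sum_congr rfl fun k _ => ?_
  rw [mul_sum]
  refine sum_congr rfl fun l _ => ?_
  ring

theorem dig_y (x y z : Wv → ℂ) : Tri a R x y z =
    ∑ l ∈ cub R, y l * ∑ k ∈ cub R, (a k l : ℂ) * x k * z (-(k + l)) := by
  unfold Tri
  rw [sum_comm]
  refine sum_congr rfl fun l _ => ?_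
  rw [mul_sum]
  refine sum_congr rfl fun k _ => ?_
  ring

theorem dig_z (ha : ∀ k l, a k l ≠ 0 → -(k + l) ∈ cub R) (x y z : Wv → ℂ) : Tri a R x y z =
    ∑ m ∈ cub R, z m * ∑ k ∈ cub R, ∑ l ∈ cub R,
      (a k l : ℂ) * x k * y l * (if -(k + l) = m then 1 else 0) := by
  have h0 : ∑ m ∈ cub R, z m * ∑ k ∈ cub R, ∑ l ∈ cub R,
      (a k l : ℂ) * x k * y l * (if -(k + l) = m then 1 else 0) =
      ∑ k ∈ cub R, ∑ l ∈ cub R, ∑ m ∈ cub R,
      z m * ((a k l : ℂ) * x k * y l * (if -(k + l) = m then 1 else 0)) := by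
    have h1 : ∀ m ∈ cub R, z m * ∑ k ∈ cub R, ∑ l ∈ cub R,
        (a k l : ℂ) * x k * y l * (if -(k + l) = m then 1 else 0) =
        ∑ k ∈ cub R, ∑ l ∈ cub R,
        z m * ((a k l : ℂ) * x k * y l * (if -(k + l) = m then 1 else 0)) := by
      intro m _
      rw [mul_sum]
      refine sum_congr rfl fun k _ => ?_
      rw [mul_sum]
    rw [sum_congr rfl h1, sum_comm]
    refine sum_congr rfl fun k _ => ?_
    rw [sum_comm]
  rw [h0]
  unfold Tri
  refine sum_congr rfl fun k _ => sum_congr rfl fun l _ => ?_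
  by_cases h : a k l = 0
  · rw [h]
    simp
  · rw [sum_eq_single_of_mem _ (ha k l h)]
    · rw [if_pos rfl]
      ring
    · intro m _ hm
      rw [if_neg (fun h => hm h.symm)]
      ring

theorem dig_box {A B C : Finset Wv} (hA : A ⊆ cub R) (hB : B ⊆ cub R) :
    Tri a R (dig_i A) (dig_i B) (dig_i C) = ((Box a A B C : ℝ) : ℂ) := by
  rw [dig_x, ← dig_ind hA]
  unfold Box
  push_cast
  refine sum_congr rfl fun k _ => ?_
  have h : ∑ l ∈ cub R, (a k l : ℂ) * dig_i B l * dig_i C (-(k + l)) =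
      ∑ l ∈ cub R, dig_i B l * ((a k l : ℂ) * dig_i C (-(k + l))) :=
    sum_congr rfl fun l _ => by ring
  rw [h, ← dig_ind hB]
  refine sum_congr rfl fun l _ => ?_
  unfold dig_i
  split_ifs <;> simp

end

theorem dig_N2_nonneg (R : ℕ) (x : Wv → ℂ) : 0 ≤ N2 R x := Real.sqrt_nonneg _

theorem t_DIG : S_DIG := by
  refine ⟨64, by norm_num, fun R hR a L hL ha hbox x y z => ?_⟩
  have hl : 0 ≤ Real.log (2 * (R : ℝ) + 1) := by
    have := Real.log_natCast_nonneg (2 * R + 1)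
    push_cast at this
    exact this
  obtain ⟨ℓ, hℓ⟩ : ∃ ℓ : ℝ, ℓ = 1 + Real.log (2 * R + 1) := ⟨_, rfl⟩
  have hℓ0 : 0 ≤ ℓ := by rw [hℓ]; linarith
  have hx0 := dig_N2_nonneg R x
  have hy0 := dig_N2_nonneg R y
  -- first variable
  have H1 : ∀ B ⊆ cub R, B.Nonempty → ∀ C ⊆ cub R, C.Nonempty →
      ‖Tri a R x (dig_i B) (dig_i C)‖ ≤
        4 * ℓ * (L * Real.sqrt B.card * Real.sqrt C.card) * N2 R x := by
    intro B hB hBn C hC hCn
    rw [dig_x, hℓ]
    refine dig_lin _ x (by positivity) fun A hA hAn => ?_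
    rw [dig_ind hA, ← dig_x, dig_box a R hA hB, Complex.norm_real, Real.norm_eq_abs]
    refine (hbox A hA B hB C hC hAn hBn hCn).trans (le_of_eq ?_)
    rw [Real.sqrt_mul (by positivity), Real.sqrt_mul (by positivity)]
    ring
  -- second variable
  have H2 : ∀ C ⊆ cub R, C.Nonempty → ‖Tri a R x y (dig_i C)‖ ≤
      4 * ℓ * (4 * ℓ * L * Real.sqrt C.card * N2 R x) * N2 R y := by
    intro C hC hCn
    rw [dig_y]
    have h := dig_lin (R := R) (fun l => ∑ k ∈ cub R, (a k l : ℂ) * x k * dig_i C (-(k + l))) y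
      (K := 4 * ℓ * L * Real.sqrt C.card * N2 R x) (by positivity) (fun B hB hBn => by
        rw [dig_ind hB, ← dig_y]
        refine (H1 B hB hBn C hC hCn).trans (le_of_eq ?_)
        ring)
    rw [← hℓ] at h
    exact h
  -- third variable
  rw [dig_z a R ha]
  have h := dig_lin (R := R) (fun m => ∑ k ∈ cub R, ∑ l ∈ cub R,
      (a k l : ℂ) * x k * y l * (if -(k + l) = m then 1 else 0)) z
    (K := 16 * ℓ ^ 2 * L * N2 R x * N2 R y) (by positivity) (fun C hC hCn => by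
      rw [dig_ind hC, ← dig_z a R ha]
      refine (H2 C hC hCn).trans (le_of_eq ?_)
      ring)
  refine h.trans (le_of_eq ?_)
  rw [← hℓ]
  ring

end Pool.Agent.N983.RT
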