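import Pool.Agent.N983.RT.Core

set_option autoImplicit false

/-! Auxiliary definitions. -/

namespace Pool.Agent.N983.RT

open MeasureTheory ProbabilityTheory

/-- a symmetric bounded array of coefficients of the triads -/
structure Arr (g : Wv → Wv → Wv → ℝ) : Prop where
  swap12 : ∀ k l m, g k l m = g l k m
  swap23 : ∀ k l m, g k l m = g k m l
  neg : ∀ k l m, g (-k) (-l) (-m) = g k l m
  le : ∀ k l m, |g k l m| ≤ 1

/-- the set of wave vectors which are kept -/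
def kept {Ω : Type} (Y : Sym2 Wv → Ω → ℝ) (ω : Ω) : Set Wv := {k | k ≠ 0 ∧ Y s(k, -k) ω = 1}

open Classical in
/-- the interactions of wave vectors of `K` -/
noncomputable def dec (K : Set Wv) (k l m : Wv) : ℝ := if k ∈ K ∧ l ∈ K ∧ m ∈ K then 1 else 0

/-! Auxiliary definitions, used in the proof only. -/

/-- wave vectors with entries at most `R` -/
noncomputable def cub (R : ℕ) : Finset Wv := Fintype.piFinset fun _ => Finset.Icc (-(R : ℤ)) (R : ℤ)

/-- `ℓ²` norm on `cub R` -/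
noncomputable def N2 (R : ℕ) (x : Wv → ℂ) : ℝ := Real.sqrt (∑ k ∈ cub R, ‖x k‖ ^ 2)

/-- a trilinear sum over `k + l + m = 0` -/
noncomputable def Tri (a : Wv → Wv → ℝ) (R : ℕ) (x y z : Wv → ℂ) : ℂ :=
  ∑ k ∈ cub R, ∑ l ∈ cub R, (a k l : ℂ) * x k * y l * z (-(k + l))

open Classical in
/-- the symbol, restricted to the triads whose largest member has length in `[2 ^ c, 2 ^ (c+1))` -/
noncomputable def wgt (s c : ℕ) (i : Fin 3) (k l : Wv) : ℝ :=
  if (4 : ℝ) ^ c ≤ max (nsq k) (max (nsq l) (nsq (k + l))) ∧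
      max (nsq k) (max (nsq l) (nsq (k + l))) < (4 : ℝ) ^ (c + 1) then (l i : ℝ) * nsq (k + l) ^ s
  else 0

/-- the bound for the trilinear sums: `κ = 3/2` always holds -/
def TB (g : Wv → Wv → Wv → ℝ) (κ : ℝ) : Prop :=
  ∀ (s : ℕ) (i : Fin 3), ∃ C : ℝ, 0 ≤ C ∧ ∀ (c : ℕ) (x y z : Wv → ℂ),
    ‖Tri (fun k l => g k l (-(k + l)) * wgt s c i k l) (2 ^ (c + 1)) x y z‖ ≤
      C * ((2 : ℝ) ^ c) ^ (1 + 2 * (s : ℝ) + κ) *
        (N2 (2 ^ (c + 1)) x * N2 (2 ^ (c + 1)) y * N2 (2 ^ (c + 1)) z)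

open Classical in
/-- interactions inside `cub n` -/
noncomputable def cutg (n : ℕ) (g : Wv → Wv → Wv → ℝ) (k l m : Wv) : ℝ :=
  if k ∈ cub n ∧ l ∈ cub n ∧ m ∈ cub n then g k l m else 0

open Classical in
/-- truncation of a field -/
noncomputable def cut (n : ℕ) (u : Fld) : Fld := fun k => if k ∈ cub n then u k else 0

/-- Sobolev norms (squared) -/
noncomputable def En (s n : ℕ) (u : Fld) : ℝ := ∑ k ∈ cub n, nsq k ^ s * ∑ i, ‖u k i‖ ^ 2

/-- Sobolev norms (squared) with real exponents -/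
noncomputable def Er (r : ℝ) (n : ℕ) (u : Fld) : ℝ := ∑ k ∈ cub n, nsq k ^ r * ∑ i, ‖u k i‖ ^ 2

/-- contribution of the nonlinear term to half the derivative of `En s n u` -/
noncomputable def flux (g : Wv → Wv → Wv → ℝ) (s n : ℕ) (u : Fld) : ℝ :=
  (∑ m ∈ cub n, ∑ j, (nsq m ^ s : ℂ) * ((starRingEnd ℂ) (u m j) *
    (-Complex.I * prj m (conv g u m) j))).re

/-- the same as a trilinear sum -/
noncomputable def form (g : Wv → Wv → Wv → ℝ) (s n : ℕ) (u : Fld) : ℂ :=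
  ∑ i, ∑ j, Tri (fun k l => g k l (-(k + l)) * ((l i : ℝ) * nsq (k + l) ^ s)) n
    (fun k => u k i) (fun k => u k j) (fun k => u k j)

end Pool.Agent.N983.RT
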