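import Pool.Agent.N983.RT.Stm

set_option autoImplicit false

/-! The main estimate: sum over the shells (helper441). -/

namespace Pool.Agent.N983.RT

lemma est_mem {n : ℕ} {k : Wv} (hk : k ∈ cub n) (i : Fin 3) : -(n : ℤ) ≤ k i ∧ k i ≤ n := by
  unfold cub at hk
  rw [Fintype.mem_piFinset] at hk
  exact Finset.mem_Icc.1 (hk i)

lemma est_nonneg (k : Wv) : 0 ≤ nsq k := Finset.sum_nonneg fun _ _ => sq_nonneg _

lemma est_one {k : Wv} (hk : ¬ 1 ≤ nsq k) : k = 0 := by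
  by_contra h
  apply hk
  obtain ⟨i, hi⟩ := Function.ne_iff.1 h
  have h1 : (1 : ℝ) ≤ (k i : ℝ) ^ 2 := by
    have h2 : (1 : ℤ) ≤ (k i) ^ 2 := by
      have h3 : 0 < (k i) ^ 2 := by
        have : k i ≠ 0 := hi
        positivity
      omega
    exact_mod_cast h2
  exact h1.trans (Finset.single_le_sum (f := fun i => (k i : ℝ) ^ 2)
    (fun _ _ => sq_nonneg _) (Finset.mem_univ i))

lemma est_le {m : ℝ} {k : Wv} (h : ∀ i, |(k i : ℝ)| ≤ m) : nsq k ≤ 3 * m ^ 2 := by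
  unfold nsq
  have h1 : ∀ i ∈ (Finset.univ : Finset (Fin 3)), (k i : ℝ) ^ 2 ≤ m ^ 2 := by
    intro i _
    rw [← sq_abs]
    exact pow_le_pow_left₀ (abs_nonneg _) (h i) 2
  refine (Finset.sum_le_sum h1).trans (le_of_eq ?_)
  simp

lemma est_abs {n : ℕ} {k : Wv} (hk : k ∈ cub n) (i : Fin 3) : |(k i : ℝ)| ≤ n := by
  obtain ⟨h1, h2⟩ := est_mem hk i
  rw [abs_le]
  constructor
  · exact_mod_cast h1
  · exact_mod_cast h2

lemma est_uniq {t : ℝ} {c c' : ℕ} (h1 : (4 : ℝ) ^ c ≤ t) (h2 : t < (4 : ℝ) ^ (c + 1))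
    (h3 : (4 : ℝ) ^ c' ≤ t) (h4 : t < (4 : ℝ) ^ (c' + 1)) : c = c' := by
  have h5 := (pow_lt_pow_iff_right₀ (by norm_num : (1 : ℝ) < 4)).1 (h1.trans_lt h4)
  have h6 := (pow_lt_pow_iff_right₀ (by norm_num : (1 : ℝ) < 4)).1 (h3.trans_lt h2)
  omega

lemma est_split (s n : ℕ) (i : Fin 3) {k l : Wv} (hk : k ∈ cub n) (hl : l ∈ cub n) :
    (l i : ℝ) * nsq (k + l) ^ s = ∑ c ∈ Finset.range (12 * n ^ 2 + 1), wgt s c i k l := by
  obtain ⟨t, ht⟩ : ∃ t, t = max (nsq k) (max (nsq l) (nsq (k + l))) := ⟨_, rfl⟩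
  by_cases h1 : 1 ≤ t
  · obtain ⟨c, hc1, hc2⟩ := exists_nat_pow_near h1 (by norm_num : (1 : ℝ) < 4)
    have ht2 : t ≤ 12 * (n : ℝ) ^ 2 := by
      rw [ht]
      have a1 := est_le (m := n) (est_abs hk)
      have a2 := est_le (m := n) (est_abs hl)
      have a3 : nsq (k + l) ≤ 3 * (2 * (n : ℝ)) ^ 2 := by
        apply est_le
        intro i
        rw [Pi.add_apply]
        push_cast
        refine (abs_add_le _ _).trans ?_
        have := est_abs hk i
        have := est_abs hl i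
        linarith
      have a4 : 0 ≤ (n : ℝ) ^ 2 := sq_nonneg _
      refine max_le (by linarith) (max_le (by linarith) (by linarith))
    have hcM : c < 12 * n ^ 2 + 1 := by
      have h2 : 12 * n ^ 2 + 1 < 4 ^ (12 * n ^ 2 + 1) := Nat.lt_pow_self (by norm_num)
      have h3 : ((12 * n ^ 2 + 1 : ℕ) : ℝ) < (4 : ℝ) ^ (12 * n ^ 2 + 1) := by exact_mod_cast h2
      push_cast at h3
      have h4 : (4 : ℝ) ^ c < (4 : ℝ) ^ (12 * n ^ 2 + 1) := by
        refine (hc1.trans ht2).trans_lt ?_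
        linarith
      exact (pow_lt_pow_iff_right₀ (by norm_num : (1 : ℝ) < 4)).1 h4
    rw [Finset.sum_eq_single c]
    · unfold wgt
      rw [if_pos (by rw [← ht]; exact ⟨hc1, hc2⟩)]
    · intro c' _ hc'
      unfold wgt
      rw [if_neg]
      rintro ⟨h2, h3⟩
      rw [← ht] at h2 h3
      exact hc' (est_uniq h2 h3 hc1 hc2)
    · intro h2
      exact absurd (Finset.mem_range.2 hcM) h2
  · have h2 : ¬ 1 ≤ nsq l := by
      intro h2
      apply h1
      rw [ht]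
      exact h2.trans ((le_max_left _ _).trans (le_max_right _ _))
    have h3 : l = 0 := est_one h2
    have h4 : (l i : ℝ) = 0 := by rw [h3]; simp
    rw [h4, zero_mul]
    symm
    apply Finset.sum_eq_zero
    intro c _
    unfold wgt
    rw [h4, zero_mul, ite_self]

lemma est_tri (g : Wv → Wv → Wv → ℝ) (s n : ℕ) (i : Fin 3) (x y z : Wv → ℂ) :
    Tri (fun k l => g k l (-(k + l)) * ((l i : ℝ) * nsq (k + l) ^ s)) n x y z =
      ∑ c ∈ Finset.range (12 * n ^ 2 + 1),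
        Tri (fun k l => g k l (-(k + l)) * wgt s c i k l) n x y z := by
  unfold Tri
  symm
  rw [Finset.sum_comm]
  refine Finset.sum_congr rfl fun k hk => ?_
  rw [Finset.sum_comm]
  refine Finset.sum_congr rfl fun l hl => ?_
  beta_reduce
  rw [est_split s n i hk hl, Finset.mul_sum]
  push_cast
  rw [Finset.sum_mul, Finset.sum_mul, Finset.sum_mul]

open Classical in
/-- the energy of a shell -/
noncomputable def est_H (n c : ℕ) (u : Fld) : ℝ :=
  ∑ k ∈ (cub n).filter fun k => (4 : ℝ) ^ c ≤ 4 * nsq k ∧ nsq k < (4 : ℝ) ^ (c + 1),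
    ∑ i, ‖u k i‖ ^ 2

lemma est_Hc (n c : ℕ) (u : Fld) (i : Fin 3) :
    Hc n c (fun k => u k i) ≤ Real.sqrt (est_H n c u) := by
  unfold Hc est_H
  apply Real.sqrt_le_sqrt
  refine Finset.sum_le_sum fun k _ => ?_
  exact Finset.single_le_sum (f := fun i => ‖u k i‖ ^ 2) (fun _ _ => sq_nonneg _)
    (Finset.mem_univ i)

lemma est_Hc2 (n c : ℕ) (u : Fld) (i j : Fin 3) :
    Hc n c (fun k => u k i) * Hc n c (fun k => u k j) ≤ est_H n c u := by
  have h0 : 0 ≤ est_H n c u := Finset.sum_nonneg fun _ _ =>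
    Finset.sum_nonneg fun _ _ => sq_nonneg _
  have h1 : 0 ≤ Hc n c (fun k => u k j) := Real.sqrt_nonneg _
  calc _ ≤ Real.sqrt (est_H n c u) * Real.sqrt (est_H n c u) :=
        mul_le_mul (est_Hc n c u i) (est_Hc n c u j) h1 (Real.sqrt_nonneg _)
    _ = _ := Real.mul_self_sqrt h0

lemma est_N2 (n : ℕ) (u : Fld) (i : Fin 3) :
    N2 n (fun k => u k i) ≤ Real.sqrt (En 0 n u) := by
  unfold N2 En
  apply Real.sqrt_le_sqrt
  refine Finset.sum_le_sum fun k _ => ?_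
  rw [pow_zero, one_mul]
  exact Finset.single_le_sum (f := fun i => ‖u k i‖ ^ 2) (fun _ _ => sq_nonneg _)
    (Finset.mem_univ i)

lemma est_cnt {r t : ℝ} (hr : 0 ≤ r) (ht : 1 ≤ t) (M : ℕ) :
    ∑ c ∈ Finset.range M, (if (4 : ℝ) ^ c ≤ 4 * t ∧ t < (4 : ℝ) ^ (c + 1) then
      ((2 : ℝ) ^ c) ^ r else 0) ≤ 2 * ((2 : ℝ) ^ r * t ^ (r / 2)) := by
  have ht0 : 0 ≤ t := zero_le_one.trans ht
  obtain ⟨c0, hc1, hc2⟩ := exists_nat_pow_near ht (by norm_num : (1 : ℝ) < 4)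
  rw [← Finset.sum_filter]
  have h1 : ∀ c ∈ (Finset.range M).filter (fun c => (4 : ℝ) ^ c ≤ 4 * t ∧ t < (4 : ℝ) ^ (c + 1)),
      ((2 : ℝ) ^ c) ^ r ≤ (2 : ℝ) ^ r * t ^ (r / 2) := by
    intro c hc
    obtain ⟨h2, -⟩ := (Finset.mem_filter.1 hc).2
    have h3 : (2 : ℝ) ^ c ≤ 2 * Real.sqrt t := by
      have h4 : ((2 : ℝ) ^ c) ^ 2 ≤ (2 * Real.sqrt t) ^ 2 := by
        rw [mul_pow, Real.sq_sqrt ht0, ← pow_mul, mul_comm c 2, pow_mul]
        norm_num
        exact h2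
      exact le_of_sq_le_sq h4 (by positivity)
    calc ((2 : ℝ) ^ c) ^ r ≤ (2 * Real.sqrt t) ^ r := Real.rpow_le_rpow (by positivity) h3 hr
      _ = (2 : ℝ) ^ r * t ^ (r / 2) := by
        rw [Real.mul_rpow (by norm_num) (Real.sqrt_nonneg _), Real.sqrt_eq_rpow,
          ← Real.rpow_mul ht0]
        congr 2
        ring
  refine (Finset.sum_le_card_nsmul _ _ _ h1).trans ?_
  rw [nsmul_eq_mul]
  have h2 : ((Finset.range M).filter (fun c => (4 : ℝ) ^ c ≤ 4 * t ∧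
      t < (4 : ℝ) ^ (c + 1))).card ≤ 2 := by
    refine (Finset.card_le_card (t := {c0, c0 + 1}) ?_).trans Finset.card_le_two
    intro c hc
    obtain ⟨h2, h3⟩ := (Finset.mem_filter.1 hc).2
    have h4 := (pow_lt_pow_iff_right₀ (by norm_num : (1 : ℝ) < 4)).1 (hc1.trans_lt h3)
    have h5 : (4 : ℝ) ^ c < (4 : ℝ) ^ (c0 + 2) := by
      refine h2.trans_lt ?_
      rw [pow_succ _ (c0 + 1)]
      linarith
    have h6 := (pow_lt_pow_iff_right₀ (by norm_num : (1 : ℝ) < 4)).1 h5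
    rw [Finset.mem_insert, Finset.mem_singleton]
    omega
  have h3 : ((Finset.card ((Finset.range M).filter (fun c => (4 : ℝ) ^ c ≤ 4 * t ∧
      t < (4 : ℝ) ^ (c + 1))) : ℕ) : ℝ) ≤ 2 := by exact_mod_cast h2
  exact mul_le_mul_of_nonneg_right h3 (by positivity)

lemma est_sum {r : ℝ} (hr : 0 ≤ r) (n M : ℕ) (u : Fld) (hu : u 0 = 0) :
    ∑ c ∈ Finset.range M, ((2 : ℝ) ^ c) ^ r * est_H n c u ≤
      2 * (2 : ℝ) ^ r * Er (r / 2) n u := by
  classical
  have h1 : ∀ c, ((2 : ℝ) ^ c) ^ r * est_H n c u = ∑ k ∈ cub n, (∑ i, ‖u k i‖ ^ 2) *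
      (if (4 : ℝ) ^ c ≤ 4 * nsq k ∧ nsq k < (4 : ℝ) ^ (c + 1) then ((2 : ℝ) ^ c) ^ r else 0) := by
    intro c
    unfold est_H
    rw [Finset.sum_filter, Finset.mul_sum]
    refine Finset.sum_congr rfl fun k _ => ?_
    split_ifs
    · ring
    · ring
  rw [Finset.sum_congr rfl fun c _ => h1 c, Finset.sum_comm]
  unfold Er
  rw [Finset.mul_sum]
  refine Finset.sum_le_sum fun k _ => ?_
  rw [← Finset.mul_sum]
  by_cases hk : 1 ≤ nsq k
  · have h2 := est_cnt hr hk M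
    have h3 : 0 ≤ ∑ i, ‖u k i‖ ^ 2 := Finset.sum_nonneg fun _ _ => sq_nonneg _
    calc _ ≤ (∑ i, ‖u k i‖ ^ 2) * (2 * ((2 : ℝ) ^ r * nsq k ^ (r / 2))) :=
          mul_le_mul_of_nonneg_left h2 h3
      _ = _ := by ring
  · have h2 : k = 0 := est_one hk
    have h3 : ∑ i, ‖u k i‖ ^ 2 = 0 := by
      rw [h2, hu]
      simp
    rw [h3, zero_mul, mul_zero, mul_zero]

/-- (EST) the main estimate -/
theorem t_EST (h : S_SHL) : S_EST := by
  intro g κ hκ hTB s
  choose C hC0 hC using fun i : Fin 3 => hTB s i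
  obtain ⟨r, hr⟩ : ∃ r : ℝ, r = 1 + 2 * (s : ℝ) + κ := ⟨_, rfl⟩
  have hr0 : 0 ≤ r := by
    rw [hr]
    have : (0 : ℝ) ≤ s := Nat.cast_nonneg s
    linarith
  have hr2 : r / 2 = (s : ℝ) + (1 + κ) / 2 := by
    rw [hr]
    ring
  have hC1 : 0 ≤ ∑ i, C i := Finset.sum_nonneg fun i _ => hC0 i
  refine ⟨(∑ i, C i) * 9 * (2 * (2 : ℝ) ^ r), by positivity, ?_⟩
  intro n u hu0 hu
  obtain ⟨E, hE⟩ : ∃ E, E = Real.sqrt (En 0 n u) := ⟨_, rfl⟩
  have hE0 : 0 ≤ E := by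
    rw [hE]
    exact Real.sqrt_nonneg _
  have hH0 : ∀ c, 0 ≤ est_H n c u := fun c => Finset.sum_nonneg fun _ _ =>
    Finset.sum_nonneg fun _ _ => sq_nonneg _
  -- one shell
  have hshell : ∀ (i j : Fin 3) (c : ℕ),
      ‖Tri (fun k l => g k l (-(k + l)) * wgt s c i k l) n (fun k => u k i) (fun k => u k j)
        (fun k => u k j)‖ ≤ C i * (3 * E) * (((2 : ℝ) ^ c) ^ r * est_H n c u) := by
    intro i j c
    have h1 := h g κ s i (C i) (hC0 i) (hC i) c n (fun k => u k i) (fun k => u k j)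
      (fun k => u k j) (fun k hk => by
        have := hu k hk
        simp [this])
    refine h1.trans ?_
    rw [← hr]
    have p : 0 ≤ ((2 : ℝ) ^ c) ^ r := by positivity
    have a1 : N2 n (fun k => u k i) * Hc n c (fun k => u k j) * Hc n c (fun k => u k j) ≤
        E * est_H n c u := by
      rw [mul_assoc, hE]
      exact mul_le_mul (est_N2 n u i) (est_Hc2 n c u j j)
        (mul_nonneg (Real.sqrt_nonneg _) (Real.sqrt_nonneg _)) (Real.sqrt_nonneg _)
    have a2 : N2 n (fun k => u k j) * Hc n c (fun k => u k i) * Hc n c (fun k => u k j) ≤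
        E * est_H n c u := by
      rw [mul_assoc, hE]
      exact mul_le_mul (est_N2 n u j) (est_Hc2 n c u i j)
        (mul_nonneg (Real.sqrt_nonneg _) (Real.sqrt_nonneg _)) (Real.sqrt_nonneg _)
    have a3 : N2 n (fun k => u k i) * Hc n c (fun k => u k j) * Hc n c (fun k => u k j) +
        N2 n (fun k => u k j) * Hc n c (fun k => u k i) * Hc n c (fun k => u k j) +
        N2 n (fun k => u k j) * Hc n c (fun k => u k i) * Hc n c (fun k => u k j) ≤
        3 * (E * est_H n c u) := by linarith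
    calc _ ≤ C i * ((2 : ℝ) ^ c) ^ r * (3 * (E * est_H n c u)) :=
          mul_le_mul_of_nonneg_left a3 (mul_nonneg (hC0 i) p)
      _ = _ := by ring
  have hone : ∀ i j : Fin 3, ‖Tri (fun k l => g k l (-(k + l)) *
      ((l i : ℝ) * nsq (k + l) ^ s)) n (fun k => u k i) (fun k => u k j) (fun k => u k j)‖ ≤
      C i * (3 * E) * (2 * (2 : ℝ) ^ r * Er (r / 2) n u) := by
    intro i j
    rw [est_tri]
    refine (norm_sum_le _ _).trans ((Finset.sum_le_sum fun c _ => hshell i j c).trans ?_)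
    rw [← Finset.mul_sum]
    exact mul_le_mul_of_nonneg_left (est_sum hr0 n _ u hu0)
      (mul_nonneg (hC0 i) (by positivity))
  unfold form
  refine (norm_sum_le _ _).trans ?_
  have hi : ∀ i : Fin 3, ‖∑ j, Tri (fun k l => g k l (-(k + l)) *
      ((l i : ℝ) * nsq (k + l) ^ s)) n (fun k => u k i) (fun k => u k j) (fun k => u k j)‖ ≤
      C i * (9 * E * (2 * (2 : ℝ) ^ r * Er (r / 2) n u)) := by
    intro i
    refine (norm_sum_le _ _).trans ((Finset.sum_le_sum fun j _ => hone i j).trans (le_of_eq ?_))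
    rw [Finset.sum_const, Finset.card_univ, Fintype.card_fin, nsmul_eq_mul]
    push_cast
    ring
  refine (Finset.sum_le_sum fun i _ => hi i).trans (le_of_eq ?_)
  rw [← Finset.sum_mul, hr2, hE]
  ring

end Pool.Agent.N983.RT
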