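import Pool.Agent.N983.RT.Stm

/-! Elementary symmetric sums (project RT, part ESY; written by helper615). -/

set_option autoImplicit false

namespace Pool.Agent.N983.RT

open Finset

theorem esy_add_pow (x y : ℝ) (hx : 0 ≤ x) (hy : 0 ≤ y) (s : ℕ) :
    x ^ (s + 1) + (s + 1) * (y * x ^ s) ≤ (x + y) ^ (s + 1) := by
  induction s with
  | zero => simp
  | succ n ih =>
    have h1 : (x + y) ^ (n + 1 + 1) = (x + y) ^ (n + 1) * (x + y) := pow_succ _ _
    rw [h1]
    have h2 := mul_le_mul_of_nonneg_right ih (add_nonneg hx hy)
    refine le_trans ?_ h2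
    have h3 : 0 ≤ x ^ n * y * y := by positivity
    have h4 : 0 ≤ (n : ℝ) := Nat.cast_nonneg n
    push_cast
    have e : (x ^ (n + 1) + ((n : ℝ) + 1) * (y * x ^ n)) * (x + y)
        - (x ^ (n + 1 + 1) + ((n : ℝ) + 1 + 1) * (y * x ^ (n + 1))) = ((n : ℝ) + 1) * (x ^ n * y * y) := by
      ring
    have h5 : 0 ≤ ((n : ℝ) + 1) * (x ^ n * y * y) := by positivity
    linarith

theorem esy_main {W : Type} [DecidableEq W] (A : Finset W) (r : W → ℝ) (hr : ∀ m, 0 ≤ r m) :
    ∀ s : ℕ, ∑ T ∈ A.powersetCard s, ∏ m ∈ T, r m ≤ (∑ m ∈ A, r m) ^ s / s.factorial := by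
  induction A using Finset.induction_on with
  | empty =>
    intro s
    cases s with
    | zero => simp
    | succ n =>
      rw [Finset.powersetCard_eq_empty.2 (by simp)]
      simp
  | insert a A ha ih =>
    intro s
    cases s with
    | zero => simp
    | succ n =>
      rw [Finset.powersetCard_succ_insert ha, Finset.sum_union, Finset.sum_image]
      · have h1 := ih (n + 1)
        have h2 := ih n
        have h3 : ∑ T ∈ A.powersetCard n, ∏ m ∈ insert a T, r m
            = r a * ∑ T ∈ A.powersetCard n, ∏ m ∈ T, r m := by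
          rw [Finset.mul_sum]
          refine Finset.sum_congr rfl fun T hT => ?_
          rw [Finset.prod_insert]
          intro h
          exact ha ((Finset.mem_powersetCard.1 hT).1 h)
        rw [h3, Finset.sum_insert ha]
        obtain ⟨x, hx⟩ : ∃ x, x = ∑ m ∈ A, r m := ⟨_, rfl⟩
        rw [← hx] at h1 h2 ⊢
        have hx0 : 0 ≤ x := by rw [hx]; exact Finset.sum_nonneg fun m _ => hr m
        have h4 := esy_add_pow x (r a) hx0 (hr a) n
        have h5 : (0 : ℝ) < (n + 1).factorial := by positivity
        have h6 : (0 : ℝ) < n.factorial := by positivity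
        calc _ ≤ x ^ (n + 1) / (n + 1).factorial + r a * (x ^ n / n.factorial) :=
              add_le_add h1 (mul_le_mul_of_nonneg_left h2 (hr a))
          _ = (x ^ (n + 1) + (n + 1) * (r a * x ^ n)) / (n + 1).factorial := by
              rw [Nat.factorial_succ]
              push_cast
              field_simp
          _ ≤ (r a + x) ^ (n + 1) / (n + 1).factorial := by
              rw [add_comm (r a) x]
              exact div_le_div_of_nonneg_right h4 h5.le
      · intro T hT T' hT' h
        have h1 : a ∉ T := fun h => ha ((Finset.mem_powersetCard.1 hT).1 h)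
        have h2 : a ∉ T' := fun h => ha ((Finset.mem_powersetCard.1 hT').1 h)
        rw [← Finset.erase_insert h1, ← Finset.erase_insert h2, h]
      · rw [Finset.disjoint_left]
        intro T hT hT'
        obtain ⟨T', -, rfl⟩ := Finset.mem_image.1 hT'
        exact ha ((Finset.mem_powersetCard.1 hT).1 (Finset.mem_insert_self _ _))

theorem t_ESY : S_ESY := by
  classical
  intro A r hr s
  exact esy_main A r hr s

end Pool.Agent.N983.RT
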