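import Pool.Agent.N983.RT.Stm

/-! Hoeffding's inequality for random signs (project RT, part HOE; written by helper615). -/

set_option autoImplicit false

namespace Pool.Agent.N983.RT

open MeasureTheory ProbabilityTheory
open scoped NNReal

section

variable {Ω : Type} [MeasurableSpace Ω] {μ : Measure Ω} [IsProbabilityMeasure μ]

theorem hoe_ae {Y : Ω → ℝ} (hY : Measurable Y) (h1 : μ {ω | Y ω = 1} = 1 / 2)
    (h2 : μ {ω | Y ω = -1} = 1 / 2) : ∀ᵐ ω ∂μ, Y ω = 1 ∨ Y ω = -1 := by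
  have m1 : MeasurableSet {ω | Y ω = 1} := hY (measurableSet_singleton _)
  have m2 : MeasurableSet {ω | Y ω = -1} := hY (measurableSet_singleton _)
  have hd : Disjoint {ω | Y ω = 1} {ω | Y ω = -1} := by
    rw [Set.disjoint_left]
    intro ω h h'
    simp only [Set.mem_ofPred_eq] at h h'
    rw [h] at h'
    norm_num at h'
  have h3 : μ ({ω | Y ω = 1} ∪ {ω | Y ω = -1}) = 1 := by
    rw [measure_union hd m2, h1, h2, ENNReal.add_halves]
  have h4 := (prob_compl_eq_zero_iff (m1.union m2)).2 h3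
  rw [ae_iff]
  have h5 : {a | ¬(Y a = 1 ∨ Y a = -1)} = ({ω | Y ω = 1} ∪ {ω | Y ω = -1})ᶜ := by
    ext ω
    simp
  rw [h5]
  exact h4

theorem hoe_int {Y : Ω → ℝ} (hY : Measurable Y) (h1 : μ {ω | Y ω = 1} = 1 / 2)
    (h2 : μ {ω | Y ω = -1} = 1 / 2) : ∫ ω, Y ω ∂μ = 0 := by
  have m1 : MeasurableSet {ω | Y ω = 1} := hY (measurableSet_singleton _)
  have m2 : MeasurableSet {ω | Y ω = -1} := hY (measurableSet_singleton _)
  have h3 : Y =ᵐ[μ] fun ω => {ω | Y ω = 1}.indicator (fun _ => (1 : ℝ)) ω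
      - {ω | Y ω = -1}.indicator (fun _ => (1 : ℝ)) ω := by
    filter_upwards [hoe_ae hY h1 h2] with ω hω
    rcases hω with h | h
    · rw [Set.indicator_of_mem (show ω ∈ {ω | Y ω = 1} from h), Set.indicator_of_notMem, h, sub_zero]
      intro h'
      have h'' : Y ω = -1 := h'
      rw [h] at h''
      norm_num at h''
    · rw [Set.indicator_of_mem (show ω ∈ {ω | Y ω = -1} from h), Set.indicator_of_notMem, h, zero_sub]
      intro h'
      have h'' : Y ω = 1 := h'
      rw [h] at h''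
      norm_num at h''
  rw [integral_congr_ae h3, integral_sub, integral_indicator_const _ m1,
    integral_indicator_const _ m2]
  · simp [Measure.real, h1, h2]
  · exact (integrable_const _).indicator m1
  · exact (integrable_const _).indicator m2

theorem hoe_sub {Y : Ω → ℝ} (hY : Measurable Y) (h1 : μ {ω | Y ω = 1} = 1 / 2)
    (h2 : μ {ω | Y ω = -1} = 1 / 2) : HasSubgaussianMGF Y 1 μ := by
  have h3 := hasSubgaussianMGF_of_mem_Icc_of_integral_eq_zero (a := -1) (b := 1) (μ := μ)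
    hY.aemeasurable (by
      filter_upwards [hoe_ae hY h1 h2] with ω hω
      rcases hω with h | h <;> rw [h] <;> constructor <;> norm_num) (hoe_int hY h1 h2)
  convert h3 using 1
  ext
  simp
  norm_num

end

theorem t_HOE : S_HOE := by
  intro Ω _ μ _ X hX hI hd F a t V ht hV hs
  have key : ∀ b : Sym2 (Finset Wv) → ℝ, ∑ c ∈ F, b c ^ 2 ≤ V →
      μ.real {ω | t ≤ ∑ c ∈ F, b c * X c ω} ≤ Real.exp (-t ^ 2 / (2 * V)) := by
    intro b hb
    obtain ⟨cc, hcc⟩ : ∃ cc : Sym2 (Finset Wv) → ℝ≥0, ∀ c, cc c = ⟨b c ^ 2, sq_nonneg _⟩ :=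
      ⟨_, fun _ => rfl⟩
    have h1 : ∀ c, HasSubgaussianMGF (fun ω => b c * X c ω) (cc c) μ := by
      intro c
      have h := (hoe_sub (hX c) (hd c).1 (hd c).2).const_mul (b c)
      rw [mul_one] at h
      rw [hcc]
      exact h
    have h2 : iIndepFun (fun c ω => b c * X c ω) μ :=
      hI.comp (fun c x => b c * x) (fun c => measurable_const.mul measurable_id)
    have h3 := HasSubgaussianMGF.sum_of_iIndepFun h2 (s := F) (fun c _ => h1 c)
    have h4 : HasSubgaussianMGF (fun ω => ∑ c ∈ F, b c * X c ω) ⟨V, hV.le⟩ μ := by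
      refine ⟨h3.integrable_exp_mul, fun s => (h3.mgf_le s).trans ?_⟩
      apply Real.exp_le_exp.2
      have h5 : ((∑ c ∈ F, cc c : ℝ≥0) : ℝ) ≤ V := by
        rw [NNReal.coe_sum]
        refine le_trans (le_of_eq (Finset.sum_congr rfl fun c _ => ?_)) hb
        rw [hcc]
        rfl
      have h6 := mul_le_mul_of_nonneg_right h5 (sq_nonneg s)
      show _ / 2 ≤ V * s ^ 2 / 2
      linarith
    exact h4.measure_ge_le ht
  have h1 := key a hs
  have h2 := key (fun c => -a c) (by simpa using hs)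
  have h3 : {ω | t ≤ |∑ c ∈ F, a c * X c ω|} ⊆ {ω | t ≤ ∑ c ∈ F, a c * X c ω}
      ∪ {ω | t ≤ ∑ c ∈ F, -a c * X c ω} := by
    intro ω hω
    have h4 : t ≤ |∑ c ∈ F, a c * X c ω| := hω
    rcases le_abs.1 h4 with h | h
    · exact Or.inl h
    · refine Or.inr ?_
      show t ≤ ∑ c ∈ F, -a c * X c ω
      have e : ∑ c ∈ F, -a c * X c ω = -∑ c ∈ F, a c * X c ω := by
        rw [← Finset.sum_neg_distrib]
        exact Finset.sum_congr rfl fun c _ => by ring
      rw [e]
      exact h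
  have h5 : μ.real {ω | t ≤ |∑ c ∈ F, a c * X c ω|} ≤ 2 * Real.exp (-t ^ 2 / (2 * V)) := by
    refine (measureReal_mono h3).trans ((measureReal_union_le _ _).trans ?_)
    linarith
  rw [← ENNReal.ofReal_toReal (measure_ne_top μ _)]
  exact ENNReal.ofReal_le_ofReal h5

end Pool.Agent.N983.RT
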