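import Pool.Agent.N983.RT.Stm2

/-! Hoeffding's inequality for centred coefficients (after HOE.lean by helper615). -/

set_option autoImplicit false

namespace Pool.Agent.N983.RT

open MeasureTheory ProbabilityTheory
open scoped NNReal

theorem hoe2_sub {Ω : Type} [MeasurableSpace Ω] {μ : Measure Ω} [IsProbabilityMeasure μ]
    {Y : Ω → ℝ} (hY : Measurable Y) (h1 : ∀ᵐ ω ∂μ, |Y ω| ≤ 1) (h2 : ∫ ω, Y ω ∂μ = 0) :
    HasSubgaussianMGF Y 1 μ := by
  have h3 := hasSubgaussianMGF_of_mem_Icc_of_integral_eq_zero (a := -1) (b := 1) (μ := μ)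
    hY.aemeasurable (by
      filter_upwards [h1] with ω hω
      exact abs_le.1 hω) h2
  convert h3 using 1
  ext
  simp
  norm_num

theorem t_HOE2 : S_HOE2 := by
  intro Ω _ μ _ X hX hI hd F a t V ht hV hs
  have key : ∀ b : Sym2 (Finset Wv) → ℝ, ∑ c ∈ F, b c ^ 2 ≤ V →
      μ.real {ω | t ≤ ∑ c ∈ F, b c * X c ω} ≤ Real.exp (-t ^ 2 / (2 * V)) := by
    intro b hb
    obtain ⟨cc, hcc⟩ : ∃ cc : Sym2 (Finset Wv) → ℝ≥0, ∀ c, cc c = ⟨b c ^ 2, sq_nonneg _⟩ :=
      ⟨_, fun _ => rfl⟩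
    have h1 : ∀ c, HasSubgaussianMGF (fun ω => b c * X c ω) (cc c) μ := by
      intro c
      have h := (hoe2_sub (hX c) (hd c).1 (hd c).2).const_mul (b c)
      rw [mul_one] at h
      rw [hcc]
      exact h
    have h2 : iIndepFun (fun c ω => b c * X c ω) μ :=
      hI.comp (fun c x => b c * x) (fun c => measurable_const.mul measurable_id)
    have h3 := HasSubgaussianMGF.sum_of_iIndepFun h2 (s := F) (fun c _ => h1 c)
    have h4 : HasSubgaussianMGF (fun ω => ∑ c ∈ F, b c * X c ω) ⟨V, hV.le⟩ μ := by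
      refine ⟨h3.integrable_exp_mul, fun s => (h3.mgf_le s).trans ?_⟩
      apply Real.exp_le_exp.2
      have h5 : ((∑ c ∈ F, cc c : ℝ≥0) : ℝ) ≤ V := by
        rw [NNReal.coe_sum]
        refine le_trans (le_of_eq (Finset.sum_congr rfl fun c _ => ?_)) hb
        rw [hcc]
        rfl
      have h6 := mul_le_mul_of_nonneg_right h5 (sq_nonneg s)
      show _ / 2 ≤ V * s ^ 2 / 2
      linarith
    exact h4.measure_ge_le ht
  have h1 := key a hs
  have h2 := key (fun c => -a c) (by simpa using hs)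
  have h3 : {ω | t ≤ |∑ c ∈ F, a c * X c ω|} ⊆ {ω | t ≤ ∑ c ∈ F, a c * X c ω}
      ∪ {ω | t ≤ ∑ c ∈ F, -a c * X c ω} := by
    intro ω hω
    have h4 : t ≤ |∑ c ∈ F, a c * X c ω| := hω
    rcases le_abs.1 h4 with h | h
    · exact Or.inl h
    · refine Or.inr ?_
      show t ≤ ∑ c ∈ F, -a c * X c ω
      have e : ∑ c ∈ F, -a c * X c ω = -∑ c ∈ F, a c * X c ω := by
        rw [← Finset.sum_neg_distrib]
        exact Finset.sum_congr rfl fun c _ => by ring
      rw [e]
      exact h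
  have h5 : μ.real {ω | t ≤ |∑ c ∈ F, a c * X c ω|} ≤ 2 * Real.exp (-t ^ 2 / (2 * V)) := by
    refine (measureReal_mono h3).trans ((measureReal_union_le _ _).trans ?_)
    linarith
  rw [← ENNReal.ofReal_toReal (measure_ne_top μ _)]
  exact ENNReal.ofReal_le_ofReal h5

end Pool.Agent.N983.RT
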