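import Pool.Agent.N983.RT.Stm

set_option autoImplicit false

/-! Project RT (helper983): many pairwise disjoint classes. This file by helper530. -/

namespace Pool.Agent.N983.RT

theorem ind_eq {v u : Wv} : s(v, -v) = s(u, -u) ↔ v = u ∨ v = -u := by
  rw [Sym2.eq_iff]
  constructor
  · rintro (⟨h, -⟩ | ⟨h, -⟩)
    · exact Or.inl h
    · exact Or.inr h
  · rintro (h | h)
    · left
      rw [h]
      exact ⟨rfl, rfl⟩
    · right
      rw [h, neg_neg]
      exact ⟨rfl, rfl⟩

theorem ind_double {u v : Wv} (h : u + u = v + v) : u = v := by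
  funext i
  have h1 := congrFun h i
  rw [Pi.add_apply, Pi.add_apply] at h1
  omega

theorem ind_mem {p q m : Wv} {x : Sym2 Wv} :
    x ∈ cls p q m ↔ ∃ v ∈ ({m, p - m, q - m} : Finset Wv), x = s(v, -v) := by
  unfold cls
  simp only [Finset.mem_insert, Finset.mem_singleton]
  constructor
  · rintro (h | h | h)
    · exact ⟨m, Or.inl rfl, h⟩
    · exact ⟨p - m, Or.inr (Or.inl rfl), h⟩
    · exact ⟨q - m, Or.inr (Or.inr rfl), h⟩
  · rintro ⟨v, h | h | h, hx⟩
    · rw [h] at hx
      exact Or.inl hx
    · rw [h] at hx
      exact Or.inr (Or.inl hx)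
    · rw [h] at hx
      exact Or.inr (Or.inr hx)

theorem ind_card {p q m : Wv} (hpq : p ≠ q) (hp : p ≠ 0) (hq : q ≠ 0) (h1 : m + m ≠ p)
    (h2 : m + m ≠ q) (h3 : m + m ≠ p + q) : (cls p q m).card = 3 := by
  unfold cls
  rw [Finset.card_insert_of_notMem, Finset.card_insert_of_notMem, Finset.card_singleton]
  · rw [Finset.mem_singleton, ind_eq]
    rintro (h | h)
    · exact hpq (sub_left_injective h)
    · apply h3
      have e : p + q = m + m + ((p - m) - -(q - m)) := by abel
      rw [e, h, sub_self, add_zero]
  · rw [Finset.mem_insert, Finset.mem_singleton, ind_eq, ind_eq]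
    rintro ((h | h) | (h | h))
    · apply h1
      have e : m + m = p + (m - (p - m)) := by abel
      rw [e, sub_eq_zero.mpr h, add_zero]
    · apply hp
      have e2 : m - -(p - m) = p := by abel
      rw [← e2]
      exact sub_eq_zero.mpr h
    · apply h2
      have e : m + m = q + (m - (q - m)) := by abel
      rw [e, sub_eq_zero.mpr h, add_zero]
    · apply hq
      have e2 : m - -(q - m) = q := by abel
      rw [← e2]
      exact sub_eq_zero.mpr h

/-- the wave vectors whose class may meet the class of `m` -/
def ind_Z (p q m : Wv) : Finset Wv :=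
  ({m, p - m, q - m} : Finset Wv).biUnion fun v => {v, -v, p - v, p + v, q - v, q + v}

theorem ind_Z_card (p q m : Wv) : (ind_Z p q m).card ≤ 18 := by
  unfold ind_Z
  refine (Finset.card_biUnion_le_card_mul _ _ 6 fun v _ => Finset.card_le_six).trans ?_
  have h : ({m, p - m, q - m} : Finset Wv).card ≤ 3 := Finset.card_le_three
  omega

theorem ind_bad {p q m m' : Wv} (h : ¬ Disjoint (cls p q m) (cls p q m')) : m' ∈ ind_Z p q m := by
  rw [Finset.not_disjoint_iff] at h
  obtain ⟨x, hx, hx'⟩ := h
  obtain ⟨v, hv, rfl⟩ := ind_mem.mp hx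
  obtain ⟨v', hv', he⟩ := ind_mem.mp hx'
  unfold ind_Z
  rw [Finset.mem_biUnion]
  refine ⟨v, hv, ?_⟩
  have h1 := ind_eq.mp he
  simp only [Finset.mem_insert, Finset.mem_singleton] at hv' ⊢
  rcases hv' with h2 | h2 | h2
  · rcases h1 with h3 | h3
    · left
      rw [h3, h2]
    · right; left
      rw [h3, h2, neg_neg]
  · have h4 : m' = p - v' := by rw [h2]; abel
    rcases h1 with h3 | h3
    · right; right; left
      rw [h4, h3]
    · right; right; right; left
      rw [h4, h3]
      abel
  · have h4 : m' = q - v' := by rw [h2]; abel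
    rcases h1 with h3 | h3
    · right; right; right; right; left
      rw [h4, h3]
    · right; right; right; right; right
      rw [h4, h3]
      abel

theorem ind_greedy {α : Type} [DecidableEq α] (Z : α → Finset α) (hZ : ∀ m, (Z m).card ≤ 18)
    (bad : α → α → Prop) (hbad : ∀ m m', bad m m' → m' ∈ Z m)
    (hsymm : ∀ m m', bad m m' → bad m' m) : ∀ (s : ℕ) (A : Finset α), 19 * s ≤ A.card →
      ∃ T ⊆ A, T.card = s ∧ ∀ m ∈ T, ∀ m' ∈ T, m ≠ m' → ¬ bad m m' := by
  intro s
  induction s with
  | zero =>
    intro A _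
    exact ⟨∅, Finset.empty_subset _, Finset.card_empty, fun m hm => absurd hm
      (Finset.notMem_empty m)⟩
  | succ s ih =>
    intro A hA
    obtain ⟨m, hm⟩ : A.Nonempty := Finset.card_pos.mp (by omega)
    have h1 : (insert m (Z m)).card ≤ 19 := (Finset.card_insert_le _ _).trans (by
      have := hZ m
      omega)
    have h2 : A.card ≤ (A \ insert m (Z m)).card + (insert m (Z m)).card :=
      Nat.sub_le_iff_le_add.mp (Finset.le_card_sdiff _ _)
    obtain ⟨T, hT, hTc, hTd⟩ := ih (A \ insert m (Z m)) (by omega)
    have hmT : m ∉ T := by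
      intro h
      have h3 := hT h
      rw [Finset.mem_sdiff] at h3
      exact h3.2 (Finset.mem_insert_self _ _)
    have hgood : ∀ m' ∈ T, ¬ bad m m' := by
      intro m' hm' hb
      have h3 := hT hm'
      rw [Finset.mem_sdiff] at h3
      exact h3.2 (Finset.mem_insert_of_mem (hbad m m' hb))
    refine ⟨insert m T, ?_, ?_, ?_⟩
    · intro x hx
      rw [Finset.mem_insert] at hx
      rcases hx with rfl | hx
      · exact hm
      · exact (Finset.mem_sdiff.mp (hT hx)).1
    · rw [Finset.card_insert_of_notMem hmT, hTc]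
    · intro x hx y hy hxy
      rw [Finset.mem_insert] at hx hy
      rcases hx with rfl | hx
      · rcases hy with rfl | hy
        · exact absurd rfl hxy
        · exact hgood y hy
      · rcases hy with rfl | hy
        · intro hb
          exact hgood x hx (hsymm _ _ hb)
        · exact hTd x hx y hy hxy

theorem t_IND : S_IND := by
  intro A p q hpq hp hq s hs
  have hA : A.card ≤ (A.filter fun m => ¬ (m + m = p ∨ m + m = q ∨ m + m = p + q)).card + 3 := by
    rw [← Finset.card_filter_add_card_filter_not
      (fun m => m + m = p ∨ m + m = q ∨ m + m = p + q) (s := A), add_comm]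
    apply Nat.add_le_add_left
    have h1 : (A.filter fun m => m + m = p ∨ m + m = q ∨ m + m = p + q).card ≤
        ({p, q, p + q} : Finset Wv).card := by
      refine Finset.card_le_card_of_injOn (fun m => m + m) ?_ ?_
      · intro m hm
        have h2 := (Finset.mem_filter.mp hm).2
        simp only [Finset.coe_insert, Finset.coe_singleton, Set.mem_insert_iff,
          Set.mem_singleton_iff]
        exact h2
      · intro a _ b _ hab
        exact ind_double hab
    exact h1.trans Finset.card_le_three
  obtain ⟨T, hT, hTc, hTd⟩ := ind_greedy (ind_Z p q) (ind_Z_card p q)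
    (fun m m' => ¬ Disjoint (cls p q m) (cls p q m')) (fun m m' h => ind_bad h)
    (fun m m' h h' => h h'.symm) s _ (show 19 * s ≤
      (A.filter fun m => ¬ (m + m = p ∨ m + m = q ∨ m + m = p + q)).card by omega)
  refine ⟨T, fun m hm => (Finset.mem_filter.mp (hT hm)).1, hTc, ?_, ?_⟩
  · intro m hm
    have h1 := (Finset.mem_filter.mp (hT hm)).2
    push Not at h1
    exact ind_card hpq hp hq h1.1 h1.2.1 h1.2.2
  · intro m hm m' hm' hne
    by_contra h
    exact hTd m hm m' hm' hne h

end Pool.Agent.N983.RT
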