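import Pool.Agent.N983.RT.Stm

set_option autoImplicit false

/-! Part LAT: the lattice sum for the expected number (helper769). -/

namespace Pool.Agent.N983.RT

open Finset

/-- the one-dimensional factor -/
noncomputable def lat_g (a : ℝ) (j : ℤ) : ℝ := (max 1 |(j : ℝ)|) ^ (-a)

/-- the weight -/
noncomputable def lat_f (a : ℝ) (v : Wv) : ℝ := if v = 0 then 0 else nsq v ^ (-a / 2)

theorem lat_g_pos (a : ℝ) (j : ℤ) : 0 < lat_g a j := by
  unfold lat_g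
  have : 0 < max 1 |(j : ℝ)| := lt_of_lt_of_le one_pos (le_max_left _ _)
  positivity

theorem lat_nsq_nonneg (v : Wv) : 0 ≤ nsq v := by
  unfold nsq
  exact sum_nonneg fun i _ => sq_nonneg _

theorem lat_nsq_ge (v : Wv) (i : Fin 3) : (v i : ℝ) ^ 2 ≤ nsq v := by
  unfold nsq
  exact single_le_sum (f := fun i => (v i : ℝ) ^ 2) (fun j _ => sq_nonneg _) (mem_univ i)

theorem lat_nsq_one {v : Wv} (hv : v ≠ 0) : 1 ≤ nsq v := by
  obtain ⟨i, hi⟩ : ∃ i, v i ≠ 0 := by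
    by_contra hcon
    push Not at hcon
    exact hv (funext hcon)
  refine le_trans ?_ (lat_nsq_ge v i)
  have h1 : (1 : ℤ) ≤ (v i) ^ 2 := by
    have := sq_pos_of_ne_zero hi
    omega
  exact_mod_cast h1

theorem lat_f_nonneg (a : ℝ) (v : Wv) : 0 ≤ lat_f a v := by
  unfold lat_f
  split_ifs
  · exact le_rfl
  · exact Real.rpow_nonneg (lat_nsq_nonneg v) _

theorem lat_f_le {a : ℝ} (ha : 0 ≤ a) (v : Wv) : lat_f a v ^ 3 ≤ ∏ i, lat_g a (v i) := by
  unfold lat_f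
  split_ifs with hv
  · rw [zero_pow (by norm_num)]
    exact prod_nonneg fun i _ => (lat_g_pos a _).le
  · have h1 := lat_nsq_one hv
    have h2 : (nsq v ^ (-a / 2)) ^ 3 = ∏ _i : Fin 3, nsq v ^ (-a / 2) := by
      rw [prod_const, card_univ, Fintype.card_fin]
    rw [h2]
    refine prod_le_prod (fun i _ => Real.rpow_nonneg (lat_nsq_nonneg v) _) fun i _ => ?_
    unfold lat_g
    have h3 : 0 < max 1 |(v i : ℝ)| := lt_of_lt_of_le one_pos (le_max_left _ _)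
    have h4 : (max 1 |(v i : ℝ)|) ^ 2 ≤ nsq v := by
      rcases max_cases 1 |(v i : ℝ)| with h | h
      · rw [h.1, one_pow]
        exact h1
      · rw [h.1, sq_abs]
        exact lat_nsq_ge v i
    have h5 : (max 1 |(v i : ℝ)|) ^ (-a) = ((max 1 |(v i : ℝ)|) ^ 2) ^ (-a / 2) := by
      rw [← Real.rpow_natCast, ← Real.rpow_mul h3.le]
      congr 1
      push_cast
      ring
    rw [h5]
    exact Real.rpow_le_rpow_of_nonpos (by positivity) h4 (by linarith)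

/-- one step of the one-dimensional sum -/
theorem lat_step {a : ℝ} (ha : 0 ≤ a) (ha1 : a < 1) (n : ℕ) :
    ((n : ℝ) + 1) ^ (-a) ≤ 1 / (1 - a) * (((n : ℝ) + 1) ^ (1 - a) - (n : ℝ) ^ (1 - a)) := by
  have hn : (0 : ℝ) < n + 1 := by positivity
  have h1a : 0 < 1 - a := by linarith
  have hs : -1 ≤ -(1 / ((n : ℝ) + 1)) := by
    have : 1 / ((n : ℝ) + 1) ≤ 1 := by
      rw [div_le_one hn]
      have : (0 : ℝ) ≤ n := Nat.cast_nonneg n
      linarith
    linarith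
  have h1 := rpow_one_add_le_one_add_mul_self hs h1a.le (by linarith : 1 - a ≤ 1)
  have e1 : (n : ℝ) = ((n : ℝ) + 1) * (1 + -(1 / ((n : ℝ) + 1))) := by field_simp; ring
  have h2 : (n : ℝ) ^ (1 - a) ≤ ((n : ℝ) + 1) ^ (1 - a) * (1 + (1 - a) * -(1 / ((n : ℝ) + 1))) := by
    conv_lhs => rw [e1]
    rw [Real.mul_rpow hn.le (by linarith)]
    exact mul_le_mul_of_nonneg_left h1 (by positivity)
  have e2 : ((n : ℝ) + 1) ^ (1 - a) = ((n : ℝ) + 1) ^ (-a) * ((n : ℝ) + 1) := by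
    rw [show 1 - a = -a + 1 by ring, Real.rpow_add hn, Real.rpow_one]
  have h3 : (1 - a) * ((n : ℝ) + 1) ^ (-a) ≤ ((n : ℝ) + 1) ^ (1 - a) - (n : ℝ) ^ (1 - a) := by
    have e3 : ((n : ℝ) + 1) ^ (1 - a) * (1 + (1 - a) * -(1 / ((n : ℝ) + 1))) =
        ((n : ℝ) + 1) ^ (1 - a) - (1 - a) * ((n : ℝ) + 1) ^ (-a) := by
      rw [e2]
      field_simp
      ring
    rw [e3] at h2
    linarith
  rw [one_div, inv_mul_eq_div, le_div_iff₀ h1a]
  linarith

theorem lat_g_natCast (a : ℝ) {n : ℕ} (hn : 1 ≤ n) : lat_g a (n : ℤ) = (n : ℝ) ^ (-a) := by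
  unfold lat_g
  have h1 : (1 : ℝ) ≤ n := by exact_mod_cast hn
  rw [Int.cast_natCast, abs_of_nonneg (by linarith), max_eq_right h1]

theorem lat_g_neg (a : ℝ) (j : ℤ) : lat_g a (-j) = lat_g a j := by
  unfold lat_g
  rw [Int.cast_neg, abs_neg]

/-- the one-dimensional sum -/
theorem lat_one {a : ℝ} (ha : 0 ≤ a) (ha1 : a < 1) (n : ℕ) :
    ∑ j ∈ Icc (-(n : ℤ)) n, lat_g a j ≤ 1 + 2 / (1 - a) * (n : ℝ) ^ (1 - a) := by
  induction n with
  | zero =>
    have e : Icc (-((0 : ℕ) : ℤ)) ((0 : ℕ) : ℤ) = {0} := by simp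
    rw [e, sum_singleton]
    unfold lat_g
    simp only [Int.cast_zero, abs_zero]
    rw [max_eq_left zero_le_one, Real.one_rpow]
    have : 0 ≤ 2 / (1 - a) * ((0 : ℕ) : ℝ) ^ (1 - a) := by
      have : 0 < 1 - a := by linarith
      positivity
    linarith
  | succ n ih =>
    have e : Icc (-((n + 1 : ℕ) : ℤ)) ((n + 1 : ℕ) : ℤ) =
        insert ((n + 1 : ℕ) : ℤ) (insert (-((n + 1 : ℕ) : ℤ)) (Icc (-(n : ℤ)) n)) := by
      ext x
      simp only [mem_Icc, mem_insert]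
      omega
    rw [e, sum_insert, sum_insert, lat_g_neg, lat_g_natCast a (by omega : 1 ≤ n + 1)]
    · have h1 := lat_step ha ha1 n
      push_cast
      have e2 : 2 / (1 - a) * ((n : ℝ) + 1) ^ (1 - a) =
          2 / (1 - a) * (n : ℝ) ^ (1 - a) +
            2 * (1 / (1 - a) * (((n : ℝ) + 1) ^ (1 - a) - (n : ℝ) ^ (1 - a))) := by ring
      rw [e2]
      linarith
    · simp
    · simp only [mem_insert, mem_Icc]
      omega

theorem lat_cube {a : ℝ} (ha : 0 ≤ a) (ha1 : a < 1) {n : ℕ} (hn : 1 ≤ n) :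
    ∑ v ∈ cub n, lat_f a v ^ 3 ≤ (1 + 2 / (1 - a)) ^ 3 * (n : ℝ) ^ (3 - 3 * a) := by
  have h1a : 0 < 1 - a := by linarith
  have hn1 : (1 : ℝ) ≤ n := by exact_mod_cast hn
  have hp : 1 ≤ (n : ℝ) ^ (1 - a) := Real.one_le_rpow hn1 h1a.le
  have h1 : ∑ v ∈ cub n, lat_f a v ^ 3 ≤ ∑ v ∈ cub n, ∏ i, lat_g a (v i) :=
    sum_le_sum fun v _ => lat_f_le ha v
  have h2 : ∑ v ∈ cub n, ∏ i, lat_g a (v i) = (∑ j ∈ Icc (-(n : ℤ)) n, lat_g a j) ^ 3 := by
    unfold cub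
    rw [← prod_univ_sum, prod_const, card_univ, Fintype.card_fin]
  have h3 : ∑ j ∈ Icc (-(n : ℤ)) n, lat_g a j ≤ (1 + 2 / (1 - a)) * (n : ℝ) ^ (1 - a) := by
    refine (lat_one ha ha1 n).trans ?_
    rw [add_mul, one_mul]
    linarith
  have h4 : 0 ≤ ∑ j ∈ Icc (-(n : ℤ)) n, lat_g a j := sum_nonneg fun j _ => (lat_g_pos a j).le
  rw [h2] at h1
  refine h1.trans ((pow_le_pow_left₀ h4 h3 3).trans (le_of_eq ?_))
  rw [mul_pow]
  congr 1
  rw [← Real.rpow_natCast, ← Real.rpow_mul (by linarith)]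
  congr 1
  push_cast
  ring

theorem lat_shift {a : ℝ} {R : ℕ} {p : Wv} (hp : p ∈ cub R) :
    ∑ m ∈ cub R, lat_f a (p - m) ^ 3 ≤ ∑ v ∈ cub (2 * R), lat_f a v ^ 3 := by
  classical
  have hinj : Set.InjOn (fun m : Wv => p - m) (cub R : Set Wv) := fun x _ y _ h => sub_right_injective h
  rw [← sum_image (f := fun v => lat_f a v ^ 3) hinj]
  refine sum_le_sum_of_subset_of_nonneg ?_ fun v _ _ => pow_nonneg (lat_f_nonneg a v) 3
  intro v hv
  obtain ⟨m, hm, rfl⟩ := mem_image.1 hv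
  unfold cub at hp hm ⊢
  rw [Fintype.mem_piFinset] at hp hm ⊢
  intro i
  have h1 := mem_Icc.1 (hp i)
  have h2 := mem_Icc.1 (hm i)
  rw [mem_Icc, Pi.sub_apply]
  push_cast
  omega

theorem lat_amgm {x y z : ℝ} (hx : 0 ≤ x) (hy : 0 ≤ y) (hz : 0 ≤ z) :
    x * y * z ≤ x ^ 3 + y ^ 3 + z ^ 3 := by
  have h1 : x * y * z ≤ (max x (max y z)) ^ 3 := by
    have a1 : x ≤ max x (max y z) := le_max_left _ _
    have a2 : y ≤ max x (max y z) := (le_max_left _ _).trans (le_max_right _ _)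
    have a3 : z ≤ max x (max y z) := (le_max_right _ _).trans (le_max_right _ _)
    calc x * y * z ≤ max x (max y z) * max x (max y z) * max x (max y z) := by gcongr
      _ = _ := by ring
  refine h1.trans ?_
  have b1 := pow_nonneg hx 3
  have b2 := pow_nonneg hy 3
  have b3 := pow_nonneg hz 3
  rcases max_cases x (max y z) with h | h
  · rw [h.1]; linarith
  · rw [h.1]
    rcases max_cases y z with h' | h'
    · rw [h'.1]; linarith
    · rw [h'.1]; linarith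

theorem t_LAT : S_LAT := by
  intro a ha ha1
  have h1a : 0 < 1 - a := by linarith
  refine ⟨24 * (1 + 2 / (1 - a)) ^ 3, by positivity, fun R hR p hp q hq => ?_⟩
  have h0 : (0 : Wv) ∈ cub R := by
    unfold cub
    rw [Fintype.mem_piFinset]
    intro i
    rw [mem_Icc, Pi.zero_apply]
    omega
  have hR1 : (1 : ℝ) ≤ R := by exact_mod_cast hR
  have hc := lat_cube ha ha1 (n := 2 * R) (by omega)
  have e1 : ((2 * R : ℕ) : ℝ) ^ (3 - 3 * a) ≤ 8 * (R : ℝ) ^ (3 - 3 * a) := by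
    push_cast
    rw [Real.mul_rpow (by norm_num) (by linarith)]
    refine mul_le_mul_of_nonneg_right ?_ (by positivity)
    calc (2 : ℝ) ^ (3 - 3 * a) ≤ 2 ^ (3 : ℝ) :=
          Real.rpow_le_rpow_of_exponent_le (by norm_num) (by linarith)
      _ = 8 := by norm_num
  have hneg : ∀ v : Wv, lat_f a (0 - v) = lat_f a v := by
    intro v
    unfold lat_f nsq
    have e : (0 - v = 0) ↔ v = 0 := by rw [zero_sub, neg_eq_zero]
    simp only [e]
    congr 2
    refine sum_congr rfl fun i _ => ?_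
    rw [Pi.sub_apply, Pi.zero_apply]
    push_cast
    ring
  have k1 := lat_shift (a := a) h0
  simp only [hneg] at k1
  have k2 := lat_shift (a := a) hp
  have k3 := lat_shift (a := a) hq
  calc ∑ m ∈ cub R, (if m = 0 then 0 else nsq m ^ (-a / 2)) *
        (if p - m = 0 then 0 else nsq (p - m) ^ (-a / 2)) *
        (if q - m = 0 then 0 else nsq (q - m) ^ (-a / 2))
      = ∑ m ∈ cub R, lat_f a m * lat_f a (p - m) * lat_f a (q - m) := rfl
    _ ≤ ∑ m ∈ cub R, (lat_f a m ^ 3 + lat_f a (p - m) ^ 3 + lat_f a (q - m) ^ 3) :=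
        sum_le_sum fun m _ => lat_amgm (lat_f_nonneg a _) (lat_f_nonneg a _) (lat_f_nonneg a _)
    _ = ∑ m ∈ cub R, lat_f a m ^ 3 + ∑ m ∈ cub R, lat_f a (p - m) ^ 3 +
          ∑ m ∈ cub R, lat_f a (q - m) ^ 3 := by rw [sum_add_distrib, sum_add_distrib]
    _ ≤ 3 * ((1 + 2 / (1 - a)) ^ 3 * ((2 * R : ℕ) : ℝ) ^ (3 - 3 * a)) := by linarith
    _ ≤ 3 * ((1 + 2 / (1 - a)) ^ 3 * (8 * (R : ℝ) ^ (3 - 3 * a))) := by gcongr
    _ = 24 * (1 + 2 / (1 - a)) ^ 3 * (R : ℝ) ^ (3 - 3 * a) := by ring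

end Pool.Agent.N983.RT
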