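import Pool.Agent.N983.RT.Stm
import Pool.Agent.H772R2.NSR.Ode
import Pool.Agent.H839R2.Ode.Flow

set_option autoImplicit false

/-! Global solutions of the truncated systems. -/

namespace Pool.Agent.N983.RT

open Set Metric Filter Topology
open scoped InnerProductSpace NNReal
open H772R2.NSR (cut_nonneg cut_le_one cut_eq_one cut_eq_zero abs_cut_sub_le)

section gen

variable {E : Type*} [NormedAddCommGroup E] [InnerProductSpace ℝ E] [CompleteSpace E]

/-- global existence for autonomous equations -/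
theorem ode_glob (X : E → E) (hlip : ∀ R : ℝ, ∃ C : ℝ≥0, LipschitzOnWith C X (closedBall 0 R))
    (hen : ∀ x, ⟪X x, x⟫_ℝ ≤ 0) (x0 : E) :
    ∃ x : ℝ → E, x 0 = x0 ∧ (∀ t, 0 ≤ t → HasDerivAt x (X (x t)) t) ∧
      ∀ t, 0 ≤ t → ‖x t‖ ≤ ‖x0‖ := by
  set R : ℝ := ‖x0‖ + 1 with hRdef
  have hR : 0 < R := by positivity
  obtain ⟨C, hC⟩ := hlip (2 * R)
  set B : ℝ := ‖X 0‖ + C * (2 * R) with hB
  have hB0 : 0 ≤ B := by positivity
  have hXle : ∀ x : E, ‖x‖ ≤ 2 * R → ‖X x‖ ≤ B := by
    intro x hx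
    have h1 := hC.dist_le_mul x (by simpa using hx) 0 (by simp; positivity)
    rw [dist_eq_norm, dist_zero_right] at h1
    calc ‖X x‖ = ‖X 0 + (X x - X 0)‖ := by congr 1; abel
      _ ≤ ‖X 0‖ + ‖X x - X 0‖ := norm_add_le _ _
      _ ≤ ‖X 0‖ + C * ‖x‖ := by gcongr
      _ ≤ B := by rw [hB]; gcongr
  let Y : E → E := fun x => H772R2.NSR.cut R x • X x
  have hYle : ∀ x, ‖Y x‖ ≤ B := by
    intro x
    simp only [Y, norm_smul, Real.norm_eq_abs, abs_of_nonneg (cut_nonneg R x)]
    rcases le_total ‖x‖ (2 * R) with h | h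
    · calc H772R2.NSR.cut R x * ‖X x‖ ≤ 1 * ‖X x‖ := by gcongr; exact cut_le_one R x
        _ = ‖X x‖ := one_mul _
        _ ≤ B := hXle x h
    · rw [cut_eq_zero hR h, zero_mul]; exact hB0
  have hk0 : 0 ≤ B / R + C := by positivity
  have hYlip0 : ∀ x y : E, ‖x‖ ≤ 2 * R → ‖Y x - Y y‖ ≤ (B / R + C) * ‖x - y‖ := by
    intro x y hx
    rcases le_total ‖y‖ (2 * R) with hy | hy
    · have h1 := hC.dist_le_mul x (by simpa using hx) y (by simpa using hy)
      rw [dist_eq_norm, dist_eq_norm] at h1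
      have e1 : Y x - Y y = (H772R2.NSR.cut R x - H772R2.NSR.cut R y) • X x +
          H772R2.NSR.cut R y • (X x - X y) := by
        simp only [Y, sub_smul, smul_sub]; abel
      rw [e1]
      calc ‖(H772R2.NSR.cut R x - H772R2.NSR.cut R y) • X x +
            H772R2.NSR.cut R y • (X x - X y)‖
          ≤ |H772R2.NSR.cut R x - H772R2.NSR.cut R y| * ‖X x‖ +
            |H772R2.NSR.cut R y| * ‖X x - X y‖ := by
            refine (norm_add_le _ _).trans (le_of_eq ?_)
            rw [norm_smul, norm_smul]; rfl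
        _ ≤ (‖x - y‖ / R) * B + 1 * (C * ‖x - y‖) := by
            gcongr
            · exact abs_cut_sub_le hR x y
            · exact hXle x hx
            · rw [abs_of_nonneg (cut_nonneg R y)]; exact cut_le_one R y
        _ = (B / R + C) * ‖x - y‖ := by ring
    · have e2 : Y y = 0 := by simp only [Y, cut_eq_zero hR hy, zero_smul]
      have e3 : Y x - Y y = (H772R2.NSR.cut R x - H772R2.NSR.cut R y) • X x := by
        rw [e2, cut_eq_zero hR hy, sub_zero, sub_zero]
      rw [e3, norm_smul, Real.norm_eq_abs]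
      calc |H772R2.NSR.cut R x - H772R2.NSR.cut R y| * ‖X x‖ ≤ (‖x - y‖ / R) * B := by
            gcongr
            · exact abs_cut_sub_le hR x y
            · exact hXle x hx
        _ = (B / R) * ‖x - y‖ := by ring
        _ ≤ _ := by gcongr; linarith [C.2]
  have hYlip : LipschitzWith (Real.toNNReal (B / R + C)) Y := by
    refine LipschitzWith.of_dist_le_mul fun x y => ?_
    rw [Real.coe_toNNReal _ hk0, dist_eq_norm, dist_eq_norm]
    rcases le_total ‖x‖ (2 * R) with hx | hx
    · exact hYlip0 x y hx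
    · rcases le_total ‖y‖ (2 * R) with hy | hy
      · rw [norm_sub_rev, norm_sub_rev x y]; exact hYlip0 y x hy
      · have e2 : Y y = 0 := by simp only [Y, cut_eq_zero hR hy, zero_smul]
        have e3 : Y x = 0 := by simp only [Y, cut_eq_zero hR hx, zero_smul]
        rw [e2, e3, sub_zero, norm_zero]; positivity
  obtain ⟨x, hx0, hx⟩ := Pool.Agent.H839R2.Ode.exists_global_solution Y _ (Real.toNNReal B) hYlip
    (fun x => by rw [Real.coe_toNNReal _ hB0]; exact hYle x) x0
  have hq : ∀ t, HasDerivAt (fun t => ‖x t‖ ^ 2) (2 * ⟪x t, Y (x t)⟫_ℝ) t :=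
    fun t => (hx t).norm_sq
  have hanti : Antitone fun t => ‖x t‖ ^ 2 := by
    apply antitone_of_deriv_nonpos (fun t => (hq t).differentiableAt)
    intro t
    rw [(hq t).deriv]
    have h2 : ⟪x t, Y (x t)⟫_ℝ = H772R2.NSR.cut R (x t) * ⟪X (x t), x t⟫_ℝ := by
      simp only [Y, inner_smul_right, real_inner_comm]
    rw [h2]
    have := mul_nonpos_of_nonneg_of_nonpos (cut_nonneg R (x t)) (hen (x t))
    linarith
  have hle : ∀ t, 0 ≤ t → ‖x t‖ ≤ ‖x0‖ := by
    intro t ht
    have h1 := hanti ht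
    simp only [hx0] at h1
    exact (pow_le_pow_iff_left₀ (norm_nonneg _) (norm_nonneg _) (by norm_num)).mp h1
  refine ⟨x, hx0, fun t ht => ?_, hle⟩
  have h3 := hx t
  have h4 : ‖x t‖ ≤ R := (hle t ht).trans (by rw [hRdef]; linarith)
  simp only [Y, cut_eq_one hR h4, one_smul] at h3
  exact h3

end gen

/-! ### Algebra -/

theorem ode_nsq_neg (k : Wv) : nsq (-k) = nsq k := by
  simp [nsq]

theorem ode_nsq_nonneg (k : Wv) : 0 ≤ nsq k := Finset.sum_nonneg fun _ _ => sq_nonneg _

theorem ode_nsq_pos {k : Wv} (hk : k ≠ 0) : 0 < nsq k := by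
  obtain ⟨i, hi⟩ := Function.ne_iff.1 hk
  refine Finset.sum_pos' (fun _ _ => sq_nonneg _) ⟨i, Finset.mem_univ _, ?_⟩
  have : (k i : ℝ) ≠ 0 := by exact_mod_cast hi
  positivity

theorem ode_dt_neg (a : Fin 3 → ℂ) (k : Wv) : dt a (-k) = -dt a k := by
  simp [dt]

theorem ode_dt_conj (a : Fin 3 → ℂ) (k : Wv) :
    dt (fun i => (starRingEnd ℂ) (a i)) k = (starRingEnd ℂ) (dt a k) := by
  simp [dt]

theorem ode_dt_add (a b : Fin 3 → ℂ) (k : Wv) : dt (a + b) k = dt a k + dt b k := by
  simp [dt, add_mul, Finset.sum_add_distrib]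

theorem ode_dt_smul (c : ℂ) (a : Fin 3 → ℂ) (k : Wv) : dt (fun i => c * a i) k = c * dt a k := by
  simp [dt, Finset.mul_sum, mul_assoc]

theorem ode_dt_prj {k : Wv} (hk : k ≠ 0) (a : Fin 3 → ℂ) : dt (prj k a) k = 0 := by
  have h1 : (nsq k : ℂ) ≠ 0 := by exact_mod_cast (ode_nsq_pos hk).ne'
  have h2 : (nsq k : ℂ) = ∑ i, (k i : ℂ) * (k i : ℂ) := by
    rw [nsq]; push_cast
    exact Finset.sum_congr rfl fun i _ => by ring
  have h3 : dt (prj k a) k = dt a k - dt a k / (nsq k : ℂ) * ∑ i, (k i : ℂ) * (k i : ℂ) := by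
    simp only [dt, prj]
    rw [Finset.mul_sum, ← Finset.sum_sub_distrib]
    exact Finset.sum_congr rfl fun i _ => by ring
  rw [h3, ← h2]
  field_simp
  ring

theorem ode_prj_neg (k : Wv) (a : Fin 3 → ℂ) : prj (-k) a = prj k a := by
  ext i
  simp only [prj, ode_dt_neg, ode_nsq_neg, Pi.neg_apply, Int.cast_neg]
  ring

theorem ode_prj_conj (k : Wv) (a : Fin 3 → ℂ) (i : Fin 3) :
    prj k (fun i => (starRingEnd ℂ) (a i)) i = (starRingEnd ℂ) (prj k a i) := by
  simp only [prj, ode_dt_conj, map_sub, map_mul, map_div₀, map_intCast, Complex.conj_ofReal]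

theorem ode_prj_negf (k : Wv) (a : Fin 3 → ℂ) (i : Fin 3) : prj k (fun i => -a i) i = -prj k a i := by
  have : dt (fun i => -a i) k = -dt a k := by simp [dt]
  simp only [prj, this]
  ring

theorem ode_cub_neg {n : ℕ} {k : Wv} : -k ∈ cub n ↔ k ∈ cub n := by
  simp only [cub, Fintype.mem_piFinset, Finset.mem_Icc, Pi.neg_apply]
  refine forall_congr' fun i => ?_
  omega

theorem ode_zero_cub (n : ℕ) : (0 : Wv) ∈ cub n := by
  simp only [cub, Fintype.mem_piFinset, Finset.mem_Icc, Pi.zero_apply]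
  intro i
  omega

theorem ode_cutg_neg {n : ℕ} {g : Wv → Wv → Wv → ℝ} (hg : Arr g) (k l m : Wv) :
    cutg n g (-k) (-l) (-m) = cutg n g k l m := by
  simp only [cutg, ode_cub_neg, hg.neg]

theorem ode_conv_neg {G : Wv → Wv → Wv → ℝ} (hG : ∀ k l m, G (-k) (-l) (-m) = G k l m) {u : Fld}
    (hu : Adm u) (m : Wv) (j : Fin 3) : conv G u (-m) j = -(starRingEnd ℂ) (conv G u m j) := by
  unfold conv
  rw [Complex.conj_tsum, ← tsum_neg]
  rw [← (Equiv.neg Wv).tsum_eq]
  refine tsum_congr fun k => ?_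
  simp only [Equiv.neg_apply]
  have e1 : -m - -k = -(m - k) := by abel
  rw [e1, hG, ode_dt_neg, hu.real]
  have e2 : u (-k) = fun i => (starRingEnd ℂ) (u k i) := funext fun i => hu.real k i
  rw [e2, ode_dt_conj]
  simp only [map_mul, Complex.conj_ofReal]
  ring

theorem ode_rhs_neg {G : Wv → Wv → Wv → ℝ} (hG : ∀ k l m, G (-k) (-l) (-m) = G k l m) {ν α : ℝ}
    {u : Fld} (hu : Adm u) (m : Wv) (j : Fin 3) :
    rhs G ν α u (-m) j = (starRingEnd ℂ) (rhs G ν α u m j) := by
  have h1 : conv G u (-m) = fun j => -(starRingEnd ℂ) (conv G u m j) :=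
    funext fun j => ode_conv_neg hG hu m j
  unfold rhs
  rw [ode_nsq_neg, hu.real, ode_prj_neg, h1, ode_prj_negf, ode_prj_conj]
  simp only [map_sub, map_mul, map_neg, Complex.conj_ofReal, Complex.conj_I]
  ring

/-- the nonzero modes -/
noncomputable def ode_fld (G : Wv → Wv → Wv → ℝ) (ν α : ℝ) (u : Fld) : Fld :=
  fun m j => if m = 0 then 0 else rhs G ν α u m j

theorem ode_adm_cut {u : Fld} (hu : Adm u) (n : ℕ) : Adm (cut n u) := by
  constructor
  · rw [cut, if_pos (ode_zero_cub n), hu.zero]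
  · intro k
    unfold cut
    split_ifs with h
    · exact hu.div k
    · simp [dt]
  · intro k i
    unfold cut
    by_cases h : k ∈ cub n
    · rw [if_pos h, if_pos (ode_cub_neg.2 h), hu.real]
    · rw [if_neg h, if_neg (fun h' => h (ode_cub_neg.1 h'))]
      simp

theorem ode_adm_fld {G : Wv → Wv → Wv → ℝ} (hG : ∀ k l m, G (-k) (-l) (-m) = G k l m) {ν α : ℝ}
    {u : Fld} (hu : Adm u) : Adm (ode_fld G ν α u) := by
  constructor
  · ext j; simp [ode_fld]
  · intro k
    by_cases hk : k = 0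
    · simp [dt, hk]
    · have h1 : ode_fld G ν α u k = fun j => rhs G ν α u k j := by
        ext j; simp [ode_fld, hk]
      rw [h1]
      have h2 : (fun j => rhs G ν α u k j) = (fun j => -((ν * nsq k ^ α : ℝ) : ℂ) * u k j) +
          fun j => -Complex.I * prj k (conv G u k) j := by
        ext j; simp only [rhs, Pi.add_apply]; ring
      rw [h2, ode_dt_add, ode_dt_smul, ode_dt_smul, hu.div, ode_dt_prj hk]
      ring
  · intro k i
    unfold ode_fld
    by_cases hk : k = 0
    · simp [hk]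
    · rw [if_neg hk, if_neg (by simpa using hk), ode_rhs_neg hG hu]

/-! ### The phase space -/

/-- indices -/
abbrev OdeI (n : ℕ) : Type := {k : Wv // k ∈ cub n} × Fin 3

/-- coefficient vectors -/
abbrev OdeF (n : ℕ) : Type := PiLp 2 fun _ : OdeI n => ℂ

/-- extension by zero -/
noncomputable def ode_ext (n : ℕ) (u : OdeF n) : Fld :=
  open Classical in fun k i => if h : k ∈ cub n then u (⟨k, h⟩, i) else 0

/-- restriction -/
noncomputable def ode_res (n : ℕ) (v : Fld) : OdeF n := WithLp.toLp 2 fun p => v p.1 p.2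

theorem ode_ext_res (n : ℕ) (v : Fld) : ode_ext n (ode_res n v) = cut n v := by
  classical
  ext k i
  unfold ode_ext cut
  by_cases h : k ∈ cub n
  · rw [dif_pos h, if_pos h]; rfl
  · rw [dif_neg h, if_neg h]; rfl

theorem ode_ext_mem {n : ℕ} (u : OdeF n) {k : Wv} (h : k ∈ cub n) (i : Fin 3) :
    ode_ext n u k i = u (⟨k, h⟩, i) := by
  classical
  unfold ode_ext
  rw [dif_pos h]

theorem ode_ext_not {n : ℕ} (u : OdeF n) {k : Wv} (h : k ∉ cub n) : ode_ext n u k = 0 := by
  classical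
  ext i
  unfold ode_ext
  rw [dif_neg h]; rfl

theorem ode_ext_add {n : ℕ} (u v : OdeF n) : ode_ext n (u + v) = ode_ext n u + ode_ext n v := by
  ext k i
  by_cases h : k ∈ cub n
  · rw [Pi.add_apply, Pi.add_apply, ode_ext_mem _ h, ode_ext_mem _ h, ode_ext_mem _ h]; rfl
  · rw [Pi.add_apply, Pi.add_apply, ode_ext_not _ h, ode_ext_not _ h, ode_ext_not _ h]; simp

theorem ode_ext_smul {n : ℕ} (c : ℝ) (u : OdeF n) :
    ode_ext n (c • u) = fun k i => (c : ℂ) * ode_ext n u k i := by
  ext k i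
  by_cases h : k ∈ cub n
  · rw [ode_ext_mem _ h, ode_ext_mem _ h]
    simp
  · rw [ode_ext_not _ h, ode_ext_not _ h]; simp

/-- the admissible vectors -/
noncomputable def OdeA (n : ℕ) : Submodule ℝ (OdeF n) where
  carrier := {u | Adm (ode_ext n u)}
  zero_mem' := by
    have h : ode_ext n (0 : OdeF n) = 0 := by
      ext k i
      by_cases h : k ∈ cub n
      · rw [ode_ext_mem _ h]; rfl
      · rw [ode_ext_not _ h]; rfl
    change Adm (ode_ext n 0)
    rw [h]
    exact ⟨rfl, fun k => by simp [dt], fun k i => by simp⟩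
  add_mem' := by
    intro u v hu hv
    change Adm (ode_ext n (u + v))
    rw [ode_ext_add]
    exact ⟨by rw [Pi.add_apply, hu.zero, hv.zero, add_zero],
      fun k => by rw [Pi.add_apply, ode_dt_add, hu.div, hv.div, add_zero],
      fun k i => by
        rw [Pi.add_apply, Pi.add_apply, Pi.add_apply, Pi.add_apply, hu.real, hv.real, map_add]⟩
  smul_mem' := by
    intro c u hu
    change Adm (ode_ext n (c • u))
    rw [ode_ext_smul]
    exact ⟨by ext i; simp [hu.zero], fun k => by rw [ode_dt_smul, hu.div, mul_zero],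
      fun k i => by simp only [hu.real, map_mul, Complex.conj_ofReal]⟩

theorem ode_conv_sum {G : Wv → Wv → Wv → ℝ} {n : ℕ} (hz : ∀ k l m, k ∉ cub n → G k l m = 0)
    (u : Fld) (m : Wv) (j : Fin 3) :
    conv G u m j = ∑ k ∈ cub n, (G k (m - k) (-m) : ℂ) * dt (u k) (m - k) * u (m - k) j :=
  tsum_eq_sum fun k hk => by rw [hz _ _ _ hk]; simp

theorem ode_cd_ext (n : ℕ) (k : Wv) (i : Fin 3) :
    ContDiff ℝ 1 fun u : OdeA n => ode_ext n u.1 k i := by
  by_cases h : k ∈ cub n
  · have h1 : (fun u : OdeA n => ode_ext n u.1 k i) = fun u => (u.1 : OdeF n) (⟨k, h⟩, i) :=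
      funext fun u => ode_ext_mem _ h i
    rw [h1]
    exact (contDiff_piLp_apply 2).comp (OdeA n).subtypeL.contDiff
  · have h1 : (fun u : OdeA n => ode_ext n u.1 k i) = fun _ => 0 :=
      funext fun u => by rw [ode_ext_not _ h]; rfl
    rw [h1]
    exact contDiff_const

theorem ode_cd_dt (n : ℕ) (k l : Wv) :
    ContDiff ℝ 1 fun u : OdeA n => dt (ode_ext n u.1 k) l := by
  unfold dt
  exact ContDiff.sum fun i _ => (ode_cd_ext n k i).mul contDiff_const

theorem ode_cd_conv {G : Wv → Wv → Wv → ℝ} {n : ℕ} (hz : ∀ k l m, k ∉ cub n → G k l m = 0)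
    (m : Wv) (j : Fin 3) : ContDiff ℝ 1 fun u : OdeA n => conv G (ode_ext n u.1) m j := by
  simp only [ode_conv_sum hz]
  exact ContDiff.sum fun k _ => (contDiff_const.mul (ode_cd_dt n k (m - k))).mul
    (ode_cd_ext n (m - k) j)

theorem ode_cd_rhs {G : Wv → Wv → Wv → ℝ} {n : ℕ} (hz : ∀ k l m, k ∉ cub n → G k l m = 0)
    (ν α : ℝ) (m : Wv) (j : Fin 3) :
    ContDiff ℝ 1 fun u : OdeA n => rhs G ν α (ode_ext n u.1) m j := by
  have h1 : ContDiff ℝ 1 fun u : OdeA n => dt (conv G (ode_ext n u.1) m) m := by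
    unfold dt
    exact ContDiff.sum fun i _ => (ode_cd_conv hz m i).mul contDiff_const
  unfold rhs prj
  refine (contDiff_const.mul (ode_cd_ext n m j)).sub (contDiff_const.mul ?_)
  refine (ode_cd_conv hz m j).sub ?_
  simp only [div_eq_mul_inv]
  exact (h1.mul contDiff_const).mul contDiff_const

/-- the vector field -/
noncomputable def ode_X (G : Wv → Wv → Wv → ℝ) (hG : ∀ k l m, G (-k) (-l) (-m) = G k l m)
    (ν α : ℝ) (n : ℕ) (u : OdeA n) : OdeA n :=
  ⟨ode_res n (ode_fld G ν α (ode_ext n u.1)), by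
    change Adm (ode_ext n (ode_res n _))
    rw [ode_ext_res]
    exact ode_adm_cut (ode_adm_fld hG u.2) n⟩

theorem ode_lip {G : Wv → Wv → Wv → ℝ} {n : ℕ} (hz : ∀ k l m, k ∉ cub n → G k l m = 0)
    (hG : ∀ k l m, G (-k) (-l) (-m) = G k l m) (ν α R : ℝ) :
    ∃ C : ℝ≥0, LipschitzOnWith C (ode_X G hG ν α n) (closedBall 0 R) := by
  have h1 : ContDiff ℝ 1 fun u : OdeA n => (ode_X G hG ν α n u : OdeF n) := by
    rw [contDiff_piLp]
    rintro ⟨⟨m, hm⟩, j⟩
    change ContDiff ℝ 1 fun u : OdeA n => ode_fld G ν α (ode_ext n u.1) m j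
    unfold ode_fld
    split_ifs with h
    · exact contDiff_const
    · exact ode_cd_rhs hz ν α m j
  obtain ⟨K, hK⟩ := (h1.locallyLipschitz.locallyLipschitzOn
    (s := closedBall 0 R)).exists_lipschitzOnWith_of_compact (isCompact_closedBall 0 R)
  exact ⟨K, fun x hx y hy => hK hx hy⟩

theorem ode_re_comm (w z : ℂ) : ((starRingEnd ℂ) w * z).re = ((starRingEnd ℂ) z * w).re := by
  simp [Complex.mul_re]; ring

theorem ode_energy (hA : S_ALG) {g : Wv → Wv → Wv → ℝ} (hg : Arr g) {ν : ℝ} (hν : 0 < ν) (α : ℝ)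
    (n : ℕ) (u : OdeA n) : ⟪ode_X (cutg n g) (ode_cutg_neg hg) ν α n u, u⟫_ℝ ≤ 0 := by
  set U : Fld := ode_ext n u.1 with hU
  have hAdm : Adm U := u.2
  have hsup : ∀ k, k ∉ cub n → U k = 0 := fun k hk => ode_ext_not _ hk
  have hfl := (hA g n U hg hAdm hsup).2
  rw [Submodule.coe_inner, PiLp.inner_apply]
  have e1 : ∑ p : OdeI n, ⟪(ode_X (cutg n g) (ode_cutg_neg hg) ν α n u : OdeF n) p,
      (u : OdeF n) p⟫_ℝ = ∑ m ∈ cub n, ∑ j, ((starRingEnd ℂ) (U m j) *
        ode_fld (cutg n g) ν α U m j).re := by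
    rw [Fintype.sum_prod_type, ← Finset.sum_coe_sort (cub n)]
    refine Finset.sum_congr rfl fun m _ => Finset.sum_congr rfl fun j _ => ?_
    have e7 : ∀ a b : ℂ, ⟪a, b⟫_ℝ = ((starRingEnd ℂ) b * a).re := by
      intro a b
      rw [Complex.inner]
      simp [Complex.mul_re]
    have e2 : (u : OdeF n) (m, j) = U m.1 j := by
      rw [hU, ode_ext_mem _ m.2]
    rw [e7, e2]
    rfl
  have e3 : ∀ m j, ((starRingEnd ℂ) (U m j) * ode_fld (cutg n g) ν α U m j).re =
      -(ν * nsq m ^ α) * ‖U m j‖ ^ 2 + (((nsq m : ℂ) ^ 0) * ((starRingEnd ℂ) (U m j) *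
        (-Complex.I * prj m (conv (cutg n g) U m) j))).re := by
    intro m j
    unfold ode_fld
    by_cases hm : m = 0
    · have : U m j = 0 := by rw [hm, hAdm.zero]; rfl
      rw [this]
      simp
    · rw [if_neg hm, rhs]
      have e4 : (starRingEnd ℂ) (U m j) * (-((ν * nsq m ^ α : ℝ) : ℂ) * U m j -
          Complex.I * prj m (conv (cutg n g) U m) j) =
          ((-(ν * nsq m ^ α) * ‖U m j‖ ^ 2 : ℝ) : ℂ) + ((nsq m : ℂ) ^ 0) *
          ((starRingEnd ℂ) (U m j) * (-Complex.I * prj m (conv (cutg n g) U m) j)) := by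
        have e5 := Complex.conj_mul' (U m j)
        push_cast
        rw [← e5]
        ring
      rw [e4, Complex.add_re, Complex.ofReal_re]
  rw [e1]
  simp only [e3, Finset.sum_add_distrib]
  have e6 : ∑ m ∈ cub n, ∑ j, (((nsq m : ℂ) ^ 0) * ((starRingEnd ℂ) (U m j) *
        (-Complex.I * prj m (conv (cutg n g) U m) j))).re = 0 := by
    rw [← hfl, flux, Complex.re_sum]
    exact Finset.sum_congr rfl fun m _ => (Complex.re_sum _ _).symm
  rw [e6, add_zero]
  apply Finset.sum_nonpos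
  intro m _
  apply Finset.sum_nonpos
  intro j _
  have := Real.rpow_nonneg (ode_nsq_nonneg m) α
  have h5 : 0 ≤ ν * nsq m ^ α * ‖U m j‖ ^ 2 := by positivity
  linarith

theorem t_ODE : S_ODE := by
  intro hA g ν α n hg hν S hS u₀ hu₀ hu₀S
  set G := cutg n g with hGdef
  have hG := ode_cutg_neg (n := n) hg
  have hz : ∀ k l m, k ∉ cub n → G k l m = 0 := by
    intro k l m hk
    rw [hGdef, cutg, if_neg]
    exact fun h => hk h.1
  have hz3 : ∀ k l m, m ∉ cub n → G k l m = 0 := by
    intro k l m hk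
    rw [hGdef, cutg, if_neg]
    exact fun h => hk h.2.2
  let x0 : OdeA n := ⟨ode_res n u₀, by
    change Adm (ode_ext n (ode_res n u₀))
    rw [ode_ext_res]
    exact ode_adm_cut hu₀ n⟩
  obtain ⟨x, hx0, hx, hxn⟩ := ode_glob (ode_X G hG ν α n) (ode_lip hz hG ν α)
    (ode_energy hA hg hν α n) x0
  have hder : ∀ t, 0 ≤ t → ∀ m, m ∈ cub n → m ≠ 0 → ∀ j,
      HasDerivAt (fun t => ode_ext n (x t).1 m j) (rhs G ν α (ode_ext n (x t).1) m j) t := by
    intro t ht m hm hm0 j
    have h1 : HasDerivAt (fun t => ((x t : OdeA n) : OdeF n))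
        ((ode_X G hG ν α n (x t) : OdeA n) : OdeF n) t :=
      (OdeA n).subtypeL.hasFDerivAt.comp_hasDerivAt t (hx t ht)
    have h2 : HasDerivAt (fun t => ((x t : OdeA n) : OdeF n) (⟨m, hm⟩, j))
        (((ode_X G hG ν α n (x t) : OdeA n) : OdeF n) (⟨m, hm⟩, j)) t :=
      (PiLp.proj (𝕜 := ℝ) 2 (fun _ : OdeI n => ℂ) (⟨m, hm⟩, j)).hasFDerivAt.comp_hasDerivAt t h1
    have h3 : (fun t => ode_ext n (x t).1 m j) =
        fun t => ((x t : OdeA n) : OdeF n) (⟨m, hm⟩, j) := funext fun t => ode_ext_mem _ hm j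
    rw [h3]
    convert h2 using 1
    change _ = ode_fld G ν α (ode_ext n (x t).1) m j
    rw [ode_fld, if_neg hm0]
  refine ⟨fun t => ode_ext n (x t).1, ⟨fun t _ => (x t).2, ?_, ?_⟩, ?_, ?_, ?_⟩
  · -- decay
    intro T s
    refine ⟨(∑ k ∈ cub n, (1 + nsq k) ^ s) * ‖x0‖, fun t ht _ k i => ?_⟩
    have hnn : ∀ k : Wv, 0 ≤ (1 + nsq k) ^ s := fun k => by
      have := ode_nsq_nonneg k
      positivity
    by_cases hk : k ∈ cub n
    · rw [ode_ext_mem _ hk]
      have h1 : ‖((x t : OdeA n) : OdeF n) (⟨k, hk⟩, i)‖ ≤ ‖x0‖ :=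
        (PiLp.norm_apply_le _ _).trans (hxn t ht)
      exact mul_le_mul (Finset.single_le_sum (fun k _ => hnn k) hk) h1 (norm_nonneg _)
        (Finset.sum_nonneg fun k _ => hnn k)
    · rw [ode_ext_not _ hk]
      simp only [Pi.zero_apply, norm_zero, mul_zero]
      exact mul_nonneg (Finset.sum_nonneg fun k _ => hnn k) (norm_nonneg _)
  · -- equation
    intro t ht m hm j
    by_cases hmc : m ∈ cub n
    · exact (hder t ht m hmc hm j).hasDerivWithinAt
    · have h1 : (fun t => ode_ext n (x t).1 m j) = fun _ => 0 :=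
        funext fun t => by rw [ode_ext_not _ hmc]; rfl
      have h2 : rhs G ν α (ode_ext n (x t).1) m j = 0 := by
        have h3 : conv G (ode_ext n (x t).1) m = 0 := by
          ext i
          rw [ode_conv_sum hz]
          refine Finset.sum_eq_zero fun k _ => ?_
          rw [hz3 _ _ _ (fun h => hmc (ode_cub_neg.1 h))]
          simp
        rw [rhs, h3, ode_ext_not _ hmc]
        simp [prj, dt]
      rw [h2]
      change HasDerivWithinAt (fun t => ode_ext n (x t).1 m j) 0 (Ici 0) t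
      rw [h1]
      exact hasDerivWithinAt_const _ _ _
  · -- initial value
    change ode_ext n (x 0).1 = cut n u₀
    rw [hx0]
    exact ode_ext_res n u₀
  · intro t _ k hk
    exact ode_ext_not _ hk
  · -- support
    intro t ht k hk
    by_cases hkc : k ∈ cub n
    · by_cases hk0 : k = 0
      · rw [hk0]; exact (x t).2.zero
      · ext j
        have hconv : ∀ t, conv G (ode_ext n (x t).1) k = 0 := by
          intro t
          ext i
          rw [ode_conv_sum hz]
          refine Finset.sum_eq_zero fun l _ => ?_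
          have h1 : G l (k - l) (-k) = 0 := by
            rw [hGdef, cutg]
            split_ifs
            · have := hg.neg l (k - l) (-k)
              rw [neg_neg] at this
              rw [← this]
              exact hS _ _ _ hk
            · rfl
          rw [h1]
          simp
        set c : ℝ := ν * nsq k ^ α with hc
        have hd : ∀ s, 0 ≤ s → HasDerivAt (fun t => ode_ext n (x t).1 k j)
            (-(c : ℂ) * ode_ext n (x s).1 k j) s := by
          intro s hs
          have h1 := hder s hs k hkc hk0 j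
          rw [rhs, hconv] at h1
          have e : (c : ℂ) = (ν : ℂ) * ((nsq k ^ α : ℝ) : ℂ) := by rw [hc]; push_cast; rfl
          rw [e]
          simpa [prj, dt] using h1
        have he : ∀ s, 0 ≤ s → HasDerivAt
            (fun t : ℝ => Complex.exp ((c : ℂ) * t) * ode_ext n (x t).1 k j) 0 s := by
          intro s hs
          have h1 : HasDerivAt (fun t : ℝ => Complex.exp ((c : ℂ) * t))
              (Complex.exp ((c : ℂ) * s) * c) s := by
            have h2 : HasDerivAt (fun t : ℝ => (c : ℂ) * t) ((c : ℂ) * 1) s :=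
              (Complex.ofRealCLM.hasDerivAt (x := s)).const_mul (c : ℂ)
            simpa using h2.cexp
          have h3 := h1.mul (hd s hs)
          have e : Complex.exp ((c : ℂ) * s) * c * ode_ext n (x s).1 k j +
              Complex.exp ((c : ℂ) * s) * (-(c : ℂ) * ode_ext n (x s).1 k j) = 0 := by ring
          rw [e] at h3
          exact h3
        have hconst := constant_of_has_deriv_right_zero (a := 0) (b := t)
          (fun s hs => (he s hs.1).continuousAt.continuousWithinAt)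
          (fun s hs => (he s hs.1).hasDerivWithinAt) t ⟨ht, le_rfl⟩
        have hini : ode_ext n (x 0).1 k j = 0 := by
          have h1 : ode_ext n (x 0).1 = cut n u₀ := by
            rw [hx0]; exact ode_ext_res n u₀
          rw [h1, cut, if_pos hkc, hu₀S k hk]; rfl
        simp only [hini, mul_zero] at hconst
        exact (mul_eq_zero.1 hconst).resolve_left (Complex.exp_ne_zero _)
    · exact ode_ext_not _ hkc

end Pool.Agent.N983.RT
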