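import Pool.Agent.N983.RT.Stm2
import Pool.Agent.N983.RT.ALG
import Pool.Agent.N983.RT.LAT

set_option autoImplicit false

/-! (PNT) pointwise estimate of the symmetrised nonlinear term (helper353 for helper983) -/

namespace Pool.Agent.N983.RT

open Finset

/-- length of a wave vector -/
noncomputable def pnt_L (k : Wv) : ℝ := Real.sqrt (nsq k)

/-- modulus of a Fourier coefficient -/
noncomputable def pnt_U (u : Fld) (k : Wv) : ℝ := Real.sqrt (∑ i, ‖u k i‖ ^ 2)

theorem pnt_L_nonneg (k : Wv) : 0 ≤ pnt_L k := Real.sqrt_nonneg _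

theorem pnt_L_sq (k : Wv) : pnt_L k ^ 2 = nsq k := Real.sq_sqrt (lat_nsq_nonneg k)

theorem pnt_U_nonneg (u : Fld) (k : Wv) : 0 ≤ pnt_U u k := Real.sqrt_nonneg _

theorem pnt_U_sq (u : Fld) (k : Wv) : pnt_U u k ^ 2 = ∑ i, ‖u k i‖ ^ 2 :=
  Real.sq_sqrt (sum_nonneg fun i _ => sq_nonneg _)

theorem pnt_U_zero {u : Fld} {k : Wv} (h : u k = 0) : pnt_U u k = 0 := by
  unfold pnt_U
  rw [h]
  simp

theorem pnt_dt (u : Fld) (k l : Wv) : ‖dt (u k) l‖ ≤ pnt_U u k * pnt_L l := by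
  unfold dt
  refine (norm_sum_le _ _).trans ?_
  have h1 : ∀ i, ‖u k i * (l i : ℂ)‖ = ‖u k i‖ * |(l i : ℝ)| := by
    intro i
    rw [norm_mul, Complex.norm_intCast]
  rw [sum_congr rfl fun i _ => h1 i]
  refine (Real.sum_mul_le_sqrt_mul_sqrt _ _ _).trans (le_of_eq ?_)
  unfold pnt_U pnt_L nsq
  simp only [sq_abs]

theorem pnt_uu (u : Fld) (l m : Wv) : ‖∑ j, u l j * u m j‖ ≤ pnt_U u l * pnt_U u m := by
  refine (norm_sum_le _ _).trans ?_
  rw [sum_congr rfl fun i _ => norm_mul (u l i) (u m i)]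
  exact Real.sum_mul_le_sqrt_mul_sqrt _ _ _

theorem pnt_ip (k l : Wv) : |∑ i, (k i : ℝ) * (l i : ℝ)| ≤ pnt_L k * pnt_L l := by
  rw [abs_le]
  constructor
  · have h := Real.sum_mul_le_sqrt_mul_sqrt univ (fun i => -(k i : ℝ)) (fun i => (l i : ℝ))
    have e1 : ∑ i, -(k i : ℝ) * (l i : ℝ) = -∑ i, (k i : ℝ) * (l i : ℝ) := by
      rw [← sum_neg_distrib]
      exact sum_congr rfl fun i _ => by ring
    have e2 : ∑ i, (-(k i : ℝ)) ^ 2 = nsq k := by
      unfold nsq
      exact sum_congr rfl fun i _ => by ring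
    rw [e1, e2] at h
    have h2 : -∑ i, (k i : ℝ) * (l i : ℝ) ≤ pnt_L k * pnt_L l := h
    linarith
  · exact Real.sum_mul_le_sqrt_mul_sqrt univ (fun i => (k i : ℝ)) (fun i => (l i : ℝ))

theorem pnt_expand {k l m : Wv} (h : k + l + m = 0) :
    nsq m = nsq k + 2 * ∑ i, (k i : ℝ) * (l i : ℝ) + nsq l := by
  have h1 : m = -(k + l) := by
    rw [eq_neg_iff_add_eq_zero, add_comm]
    exact h
  rw [h1]
  unfold nsq
  simp only [Fin.sum_univ_three, Pi.neg_apply, Pi.add_apply]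
  push_cast
  ring

theorem pnt_tri {k l m : Wv} (h : k + l + m = 0) : pnt_L m ≤ pnt_L k + pnt_L l := by
  have h1 := pnt_expand h
  have h2 := (abs_le.1 (pnt_ip k l)).2
  have h3 := pnt_L_nonneg k
  have h4 := pnt_L_nonneg l
  unfold pnt_L at h2 h3 h4 ⊢
  rw [Real.sqrt_le_iff]
  refine ⟨by positivity, ?_⟩
  have h5 := Real.sq_sqrt (lat_nsq_nonneg k)
  have h6 := Real.sq_sqrt (lat_nsq_nonneg l)
  nlinarith

/-- differences of powers -/
theorem pnt_pow (s : ℕ) {x y M : ℝ} (hx : 0 ≤ x) (hy : 0 ≤ y) (hxM : x ≤ M) (hyM : y ≤ M) :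
    |x ^ s - y ^ s| * M ≤ s * M ^ s * |x - y| := by
  have hM : 0 ≤ M := hx.trans hxM
  induction s with
  | zero => simp
  | succ s ih =>
    have e : x ^ (s + 1) - y ^ (s + 1) = x * (x ^ s - y ^ s) + (x - y) * y ^ s := by ring
    have h1 : |x ^ (s + 1) - y ^ (s + 1)| ≤ x * |x ^ s - y ^ s| + |x - y| * y ^ s := by
      rw [e]
      refine (abs_add_le _ _).trans (le_of_eq ?_)
      rw [abs_mul, abs_mul, abs_of_nonneg hx, abs_of_nonneg (pow_nonneg hy s)]
    have h2 : y ^ s ≤ M ^ s := pow_le_pow_left₀ hy hyM s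
    have h3 : 0 ≤ |x - y| := abs_nonneg _
    calc |x ^ (s + 1) - y ^ (s + 1)| * M
        ≤ (x * |x ^ s - y ^ s| + |x - y| * y ^ s) * M := mul_le_mul_of_nonneg_right h1 hM
      _ = x * (|x ^ s - y ^ s| * M) + |x - y| * y ^ s * M := by ring
      _ ≤ M * (s * M ^ s * |x - y|) + |x - y| * M ^ s * M := by
          refine add_le_add ?_ ?_
          · exact mul_le_mul hxM ih (by positivity) hM
          · exact mul_le_mul_of_nonneg_right (mul_le_mul_of_nonneg_left h2 h3) hM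
      _ = ((s + 1 : ℕ) : ℝ) * M ^ (s + 1) * |x - y| := by
          push_cast
          ring

theorem pnt_mx_nonneg (k l m : Wv) : 0 ≤ mx k l m := le_max_of_le_left (lat_nsq_nonneg k)

theorem pnt_mn_nonneg (k l m : Wv) : 0 ≤ mn k l m :=
  le_min (lat_nsq_nonneg k) (le_min (lat_nsq_nonneg l) (lat_nsq_nonneg m))

theorem pnt_mx1 (k l m : Wv) : nsq k ≤ mx k l m := le_max_left _ _

theorem pnt_mx2 (k l m : Wv) : nsq l ≤ mx k l m := (le_max_left _ _).trans (le_max_right _ _)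

theorem pnt_mx3 (k l m : Wv) : nsq m ≤ mx k l m := (le_max_right _ _).trans (le_max_right _ _)

theorem pnt_mx12 (k l m : Wv) : mx k l m = mx l k m := max_left_comm _ _ _

theorem pnt_mx23 (k l m : Wv) : mx k l m = mx k m l := by
  unfold mx
  rw [max_comm (nsq l)]

theorem pnt_mn12 (k l m : Wv) : mn k l m = mn l k m := min_left_comm _ _ _

theorem pnt_mn23 (k l m : Wv) : mn k l m = mn k m l := by
  unfold mn
  rw [min_comm (nsq l)]

theorem pnt_L_le_mx {k l m p : Wv} (h : nsq p ≤ mx k l m) : pnt_L p ≤ Real.sqrt (mx k l m) :=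
  Real.sqrt_le_sqrt h

/-- the pointwise estimate of the symmetrised term -/
theorem pnt_diff {u : Fld} (hu : Adm u) (s : ℕ) {k l m : Wv} (h : k + l + m = 0) (hk : k ≠ 0) :
    |nsq m ^ s - nsq l ^ s| * ‖dt (u k) l‖ ≤
      3 * (s + 1) * (Real.sqrt (mn k l m) * mx k l m ^ s * pnt_U u k) := by
  have hM1 : 1 ≤ mx k l m := (lat_nsq_one hk).trans (pnt_mx1 k l m)
  have hM : 0 < mx k l m := by linarith
  have hU := pnt_U_nonneg u k
  have hs : (0 : ℝ) ≤ s := Nat.cast_nonneg s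
  have hrnn : 0 ≤ Real.sqrt (mn k l m) := Real.sqrt_nonneg _
  have hMs : 0 ≤ mx k l m ^ s := by positivity
  -- the difference is at most the maximum
  have hd : |nsq m ^ s - nsq l ^ s| ≤ mx k l m ^ s := by
    have a1 : nsq m ^ s ≤ mx k l m ^ s := pow_le_pow_left₀ (lat_nsq_nonneg m) (pnt_mx3 k l m) s
    have a2 : nsq l ^ s ≤ mx k l m ^ s := pow_le_pow_left₀ (lat_nsq_nonneg l) (pnt_mx2 k l m) s
    have a3 : 0 ≤ nsq m ^ s := pow_nonneg (lat_nsq_nonneg m) s
    have a4 : 0 ≤ nsq l ^ s := pow_nonneg (lat_nsq_nonneg l) s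
    rw [abs_le]
    constructor <;> linarith
  -- if the factor is at most `r U`
  have key : ‖dt (u k) l‖ ≤ pnt_U u k * Real.sqrt (mn k l m) →
      |nsq m ^ s - nsq l ^ s| * ‖dt (u k) l‖ ≤
        3 * (s + 1) * (Real.sqrt (mn k l m) * mx k l m ^ s * pnt_U u k) := by
    intro h1
    have h2 : |nsq m ^ s - nsq l ^ s| * ‖dt (u k) l‖ ≤
        mx k l m ^ s * (pnt_U u k * Real.sqrt (mn k l m)) :=
      mul_le_mul hd h1 (norm_nonneg _) hMs
    have h3 : 0 ≤ Real.sqrt (mn k l m) * mx k l m ^ s * pnt_U u k := by positivity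
    nlinarith
  by_cases c1 : nsq k ≤ nsq l ∧ nsq k ≤ nsq m
  · -- `k` is the shortest
    have hmn : mn k l m = nsq k := min_eq_left (le_min c1.1 c1.2)
    have hr : Real.sqrt (mn k l m) = pnt_L k := by rw [hmn]; rfl
    have hLl : pnt_L l ≤ Real.sqrt (mx k l m) := pnt_L_le_mx (pnt_mx2 k l m)
    have hLkl : pnt_L k ≤ pnt_L l := Real.sqrt_le_sqrt c1.1
    have hRR : Real.sqrt (mx k l m) * Real.sqrt (mx k l m) = mx k l m := Real.mul_self_sqrt hM.le
    have hR : 0 ≤ Real.sqrt (mx k l m) := Real.sqrt_nonneg _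
    have hLk := pnt_L_nonneg k
    have hd1 : |nsq m - nsq l| ≤ 3 * (pnt_L k * Real.sqrt (mx k l m)) := by
      have e := pnt_expand h
      have e1 : nsq m - nsq l = nsq k + 2 * ∑ i, (k i : ℝ) * (l i : ℝ) := by linarith
      rw [e1]
      refine (abs_add_le _ _).trans ?_
      rw [abs_mul, abs_of_nonneg (lat_nsq_nonneg k), abs_of_pos (by norm_num : (0 : ℝ) < 2)]
      have a1 := pnt_ip k l
      have a2 : nsq k = pnt_L k * pnt_L k := by rw [← pnt_L_sq]; ring
      have a3 : pnt_L k * pnt_L k ≤ pnt_L k * Real.sqrt (mx k l m) :=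
        mul_le_mul_of_nonneg_left (hLkl.trans hLl) hLk
      have a4 : pnt_L k * pnt_L l ≤ pnt_L k * Real.sqrt (mx k l m) :=
        mul_le_mul_of_nonneg_left hLl hLk
      linarith
    have hp := pnt_pow s (lat_nsq_nonneg m) (lat_nsq_nonneg l) (pnt_mx3 k l m) (pnt_mx2 k l m)
    have hdt : ‖dt (u k) l‖ ≤ pnt_U u k * Real.sqrt (mx k l m) :=
      (pnt_dt u k l).trans (mul_le_mul_of_nonneg_left hLl hU)
    have h1 : |nsq m ^ s - nsq l ^ s| * mx k l m ≤
        s * mx k l m ^ s * (3 * (pnt_L k * Real.sqrt (mx k l m))) :=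
      hp.trans (mul_le_mul_of_nonneg_left hd1 (by positivity))
    have h2 : (|nsq m ^ s - nsq l ^ s| * ‖dt (u k) l‖) * mx k l m ≤
        (3 * s * (pnt_L k * mx k l m ^ s * pnt_U u k)) * mx k l m := by
      calc (|nsq m ^ s - nsq l ^ s| * ‖dt (u k) l‖) * mx k l m
          = (|nsq m ^ s - nsq l ^ s| * mx k l m) * ‖dt (u k) l‖ := by ring
        _ ≤ (s * mx k l m ^ s * (3 * (pnt_L k * Real.sqrt (mx k l m)))) *
              (pnt_U u k * Real.sqrt (mx k l m)) :=
            mul_le_mul h1 hdt (norm_nonneg _) (by positivity)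
        _ = (3 * s * (pnt_L k * mx k l m ^ s * pnt_U u k)) *
              (Real.sqrt (mx k l m) * Real.sqrt (mx k l m)) := by ring
        _ = _ := by rw [hRR]
    have h3 := le_of_mul_le_mul_right h2 hM
    rw [hr]
    have h4 : 0 ≤ pnt_L k * mx k l m ^ s * pnt_U u k := by positivity
    linarith
  · by_cases c2 : nsq l ≤ nsq m
    · -- `l` is the shortest
      have hlk : nsq l ≤ nsq k := by
        by_contra hc
        push Not at hc
        exact c1 ⟨hc.le, hc.le.trans c2⟩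
      have hmn : mn k l m = nsq l := by
        rw [pnt_mn12]
        exact min_eq_left (le_min hlk c2)
      apply key
      rw [hmn]
      exact pnt_dt u k l
    · -- `m` is the shortest
      push Not at c2
      have hmk : nsq m ≤ nsq k := by
        by_contra hc
        push Not at hc
        exact c1 ⟨(hc.trans c2).le, hc.le⟩
      have hmn : mn k l m = nsq m := by
        rw [pnt_mn23, pnt_mn12]
        exact min_eq_left (le_min hmk c2.le)
      apply key
      rw [hmn]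
      have e : l = -(k + m) := by
        rw [eq_neg_iff_add_eq_zero, ← h]
        abel
      have e2 : dt (u k) l = -dt (u k) m := by
        rw [e, alg_dt_neg, alg_dt_add, hu.div k, zero_add]
      rw [e2, norm_neg]
      exact pnt_dt u k m

/-- weight for the shortest wave vector -/
noncomputable def pnt_a (γ : ℝ) (u : Fld) (k : Wv) : ℝ :=
  if k = 0 then 0 else nsq k ^ (-γ) * pnt_U u k

/-- weight for the other two -/
noncomputable def pnt_e (t : ℝ) (u : Fld) (k : Wv) : ℝ := nsq k ^ (t / 2) * pnt_U u k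

theorem pnt_a_nonneg (γ : ℝ) (u : Fld) (k : Wv) : 0 ≤ pnt_a γ u k := by
  unfold pnt_a
  split_ifs
  · exact le_rfl
  · exact mul_nonneg (Real.rpow_nonneg (lat_nsq_nonneg k) _) (pnt_U_nonneg u k)

theorem pnt_e_nonneg (t : ℝ) (u : Fld) (k : Wv) : 0 ≤ pnt_e t u k :=
  mul_nonneg (Real.rpow_nonneg (lat_nsq_nonneg k) _) (pnt_U_nonneg u k)

theorem pnt_role (u : Fld) {γ t : ℝ} (ht : 0 ≤ t) {k l m : Wv} (h : k + l + m = 0) (hk : k ≠ 0)
    (h1 : nsq k ≤ nsq l) (h2 : nsq k ≤ nsq m) :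
    mx k l m ^ t * mn k l m ^ (-γ) * (pnt_U u k * pnt_U u l * pnt_U u m) ≤
      (4 : ℝ) ^ t * (pnt_a γ u k * pnt_e t u l * pnt_e t u m) := by
  have hmn : mn k l m = nsq k := min_eq_left (le_min h1 h2)
  have g1 : pnt_L k ≤ pnt_L l := Real.sqrt_le_sqrt h1
  have g2 : pnt_L k ≤ pnt_L m := Real.sqrt_le_sqrt h2
  have t1 : pnt_L m ≤ pnt_L k + pnt_L l := pnt_tri h
  have t2 : pnt_L l ≤ pnt_L k + pnt_L m := pnt_tri (by rw [← h]; abel)
  have a1 : nsq m ≤ 4 * nsq l := by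
    rw [← pnt_L_sq, ← pnt_L_sq]
    have := pnt_L_nonneg m
    have := pnt_L_nonneg l
    nlinarith
  have a2 : nsq l ≤ 4 * nsq m := by
    rw [← pnt_L_sq, ← pnt_L_sq]
    have := pnt_L_nonneg m
    have := pnt_L_nonneg l
    nlinarith
  have n1 := lat_nsq_nonneg l
  have n2 := lat_nsq_nonneg m
  have n0 := lat_nsq_nonneg k
  have b1 : mx k l m ≤ 4 * nsq l := max_le (by linarith) (max_le (by linarith) a1)
  have b2 : mx k l m ≤ 4 * nsq m := max_le (by linarith) (max_le a2 (by linarith))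
  have hM0 := pnt_mx_nonneg k l m
  have hM1 : 1 ≤ mx k l m := (lat_nsq_one hk).trans (pnt_mx1 k l m)
  have hMp : 0 < mx k l m := by linarith
  have c1 : mx k l m ^ (t / 2) ≤ (4 : ℝ) ^ (t / 2) * nsq l ^ (t / 2) := by
    rw [← Real.mul_rpow (by norm_num) n1]
    exact Real.rpow_le_rpow hM0 b1 (by linarith)
  have c2 : mx k l m ^ (t / 2) ≤ (4 : ℝ) ^ (t / 2) * nsq m ^ (t / 2) := by
    rw [← Real.mul_rpow (by norm_num) n2]
    exact Real.rpow_le_rpow hM0 b2 (by linarith)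
  have e1 : mx k l m ^ t = mx k l m ^ (t / 2) * mx k l m ^ (t / 2) := by
    rw [← Real.rpow_add hMp, add_halves]
  have e2 : (4 : ℝ) ^ t = (4 : ℝ) ^ (t / 2) * (4 : ℝ) ^ (t / 2) := by
    rw [← Real.rpow_add (by norm_num), add_halves]
  have c3 : mx k l m ^ t ≤ (4 : ℝ) ^ t * (nsq l ^ (t / 2) * nsq m ^ (t / 2)) := by
    rw [e1, e2]
    calc mx k l m ^ (t / 2) * mx k l m ^ (t / 2)
        ≤ ((4 : ℝ) ^ (t / 2) * nsq l ^ (t / 2)) * ((4 : ℝ) ^ (t / 2) * nsq m ^ (t / 2)) :=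
          mul_le_mul c1 c2 (Real.rpow_nonneg hM0 _) (by positivity)
      _ = _ := by ring
  have hU : 0 ≤ pnt_U u k * pnt_U u l * pnt_U u m :=
    mul_nonneg (mul_nonneg (pnt_U_nonneg u k) (pnt_U_nonneg u l)) (pnt_U_nonneg u m)
  have hγ : 0 ≤ nsq k ^ (-γ) := Real.rpow_nonneg n0 _
  rw [hmn]
  unfold pnt_a pnt_e
  rw [if_neg hk]
  calc mx k l m ^ t * nsq k ^ (-γ) * (pnt_U u k * pnt_U u l * pnt_U u m)
      ≤ ((4 : ℝ) ^ t * (nsq l ^ (t / 2) * nsq m ^ (t / 2))) * nsq k ^ (-γ) *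
          (pnt_U u k * pnt_U u l * pnt_U u m) :=
        mul_le_mul_of_nonneg_right (mul_le_mul_of_nonneg_right c3 hγ) hU
    _ = _ := by ring

theorem pnt_three (u : Fld) {γ t : ℝ} (ht : 0 ≤ t) {k l m : Wv} (h : k + l + m = 0) (hk : k ≠ 0)
    (hl : l ≠ 0) (hm : m ≠ 0) :
    mx k l m ^ t * mn k l m ^ (-γ) * (pnt_U u k * pnt_U u l * pnt_U u m) ≤
      (4 : ℝ) ^ t * (pnt_a γ u k * pnt_e t u l * pnt_e t u m + pnt_e t u k * pnt_a γ u l *
        pnt_e t u m + pnt_e t u k * pnt_e t u l * pnt_a γ u m) := by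
  have ak := pnt_a_nonneg γ u k
  have al := pnt_a_nonneg γ u l
  have am := pnt_a_nonneg γ u m
  have ek := pnt_e_nonneg t u k
  have el := pnt_e_nonneg t u l
  have em := pnt_e_nonneg t u m
  have h4 : (0 : ℝ) ≤ (4 : ℝ) ^ t := by positivity
  have p1 : 0 ≤ (4 : ℝ) ^ t * (pnt_a γ u k * pnt_e t u l * pnt_e t u m) := by positivity
  have p2 : 0 ≤ (4 : ℝ) ^ t * (pnt_e t u k * pnt_a γ u l * pnt_e t u m) := by positivity
  have p3 : 0 ≤ (4 : ℝ) ^ t * (pnt_e t u k * pnt_e t u l * pnt_a γ u m) := by positivity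
  rw [mul_add, mul_add]
  by_cases c1 : nsq k ≤ nsq l ∧ nsq k ≤ nsq m
  · have := pnt_role u (γ := γ) ht h hk c1.1 c1.2
    linarith
  · by_cases c2 : nsq l ≤ nsq m
    · have hlk : nsq l ≤ nsq k := by
        by_contra hc
        push Not at hc
        exact c1 ⟨hc.le, hc.le.trans c2⟩
      have h' : l + k + m = 0 := by rw [← h]; abel
      have := pnt_role u (γ := γ) ht h' hl hlk c2
      rw [pnt_mx12, pnt_mn12, mul_comm (pnt_U u k) (pnt_U u l)]
      have e : pnt_a γ u l * pnt_e t u k * pnt_e t u m =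
        pnt_e t u k * pnt_a γ u l * pnt_e t u m := by ring
      rw [e] at this
      linarith
    · push Not at c2
      have hmk : nsq m ≤ nsq k := by
        by_contra hc
        push Not at hc
        exact c1 ⟨(hc.trans c2).le, hc.le⟩
      have h' : m + k + l = 0 := by rw [← h]; abel
      have := pnt_role u (γ := γ) ht h' hm hmk c2.le
      rw [pnt_mx23, pnt_mx12, pnt_mn23, pnt_mn12]
      have e : pnt_a γ u m * pnt_e t u k * pnt_e t u l =
        pnt_e t u k * pnt_e t u l * pnt_a γ u m := by ring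
      have e2 : pnt_U u m * pnt_U u k * pnt_U u l = pnt_U u k * pnt_U u l * pnt_U u m := by ring
      rw [e, e2] at this
      linarith

/-! ### sums -/

/-- exchange of the second and the third argument -/
theorem pnt_swap {n : ℕ} (F : Wv → Wv → ℝ) (h1 : ∀ l m, l ∉ cub n → F l m = 0)
    (h2 : ∀ l m, m ∉ cub n → F l m = 0) (k : Wv) :
    ∑ l ∈ cub n, F l (-(k + l)) = ∑ m ∈ cub n, F (-(k + m)) m := by
  classical
  rw [← Finset.sum_filter_of_ne (s := cub n) (p := fun l => -(k + l) ∈ cub n)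
      (f := fun l => F l (-(k + l))) (fun l _ h => by
        by_contra hc
        exact h (h2 _ _ hc)),
    ← Finset.sum_filter_of_ne (s := cub n) (p := fun l => -(k + l) ∈ cub n)
      (f := fun m => F (-(k + m)) m) (fun l _ h => by
        by_contra hc
        exact h (h1 _ _ hc))]
  refine Finset.sum_nbij' (fun l => -(k + l)) (fun l => -(k + l)) ?_ ?_ ?_ ?_ ?_
  · intro l hl
    rw [Finset.mem_filter] at hl ⊢
    refine ⟨hl.2, ?_⟩
    have e : -(k + -(k + l)) = l := by abel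
    rw [e]
    exact hl.1
  · intro l hl
    rw [Finset.mem_filter] at hl ⊢
    refine ⟨hl.2, ?_⟩
    have e : -(k + -(k + l)) = l := by abel
    rw [e]
    exact hl.1
  · intro l _
    show -(k + -(k + l)) = l
    abel
  · intro l _
    show -(k + -(k + l)) = l
    abel
  · intro l _
    show F l (-(k + l)) = F (-(k + -(k + l))) (-(k + l))
    have e : -(k + -(k + l)) = l := by abel
    rw [e]

/-- one convolution -/
theorem pnt_conv {n : ℕ} {e : Wv → ℝ} (h0 : ∀ k, k ∉ cub n → e k = 0) (k : Wv) :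
    ∑ l ∈ cub n, e l * e (-(k + l)) ≤ ∑ l ∈ cub n, e l ^ 2 := by
  have h1 : ∑ l ∈ cub n, e (-(k + l)) ^ 2 ≤ ∑ l ∈ cub n, e l ^ 2 := by
    classical
    have hinj : Set.InjOn (fun l : Wv => -(k + l)) (cub n : Set Wv) := by
      intro x _ y _ h
      have h' : -(k + x) = -(k + y) := h
      exact add_left_cancel (neg_injective h')
    rw [← sum_image (f := fun v => e v ^ 2) hinj]
    rw [← Finset.sum_filter_of_ne (s := (cub n).image fun l : Wv => -(k + l))
      (p := fun l => l ∈ cub n) (f := fun v => e v ^ 2) (fun v _ h => by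
        by_contra hc
        exact h (by rw [h0 v hc]; norm_num))]
    refine sum_le_sum_of_subset_of_nonneg ?_ fun v _ _ => sq_nonneg _
    intro v hv
    exact (mem_filter.1 hv).2
  have h2 : ∀ l ∈ cub n, e l * e (-(k + l)) ≤ (1 / 2) * e l ^ 2 + (1 / 2) * e (-(k + l)) ^ 2 := by
    intro l _
    nlinarith [sq_nonneg (e l - e (-(k + l)))]
  refine (sum_le_sum h2).trans ?_
  rw [sum_add_distrib, ← mul_sum, ← mul_sum]
  linarith

theorem pnt_tri_sum {n : ℕ} {a e : Wv → ℝ} (ha : ∀ k, 0 ≤ a k) (h0 : ∀ k, k ∉ cub n → e k = 0) :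
    ∑ k ∈ cub n, ∑ l ∈ cub n, a k * e l * e (-(k + l)) ≤
      (∑ k ∈ cub n, a k) * ∑ l ∈ cub n, e l ^ 2 := by
  rw [sum_mul]
  refine sum_le_sum fun k _ => ?_
  have e1 : ∑ l ∈ cub n, a k * e l * e (-(k + l)) = a k * ∑ l ∈ cub n, e l * e (-(k + l)) := by
    rw [mul_sum]
    exact sum_congr rfl fun l _ => by ring
  rw [e1]
  exact mul_le_mul_of_nonneg_left (pnt_conv h0 k) (ha k)

theorem pnt_tri_sum2 {n : ℕ} {a e : Wv → ℝ} (ha : ∀ k, 0 ≤ a k) (h0 : ∀ k, k ∉ cub n → e k = 0) :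
    ∑ k ∈ cub n, ∑ l ∈ cub n, e k * a l * e (-(k + l)) ≤
      (∑ k ∈ cub n, a k) * ∑ l ∈ cub n, e l ^ 2 := by
  rw [sum_comm]
  refine le_trans (le_of_eq ?_) (pnt_tri_sum ha h0)
  refine sum_congr rfl fun l _ => sum_congr rfl fun k _ => ?_
  rw [add_comm k l]
  ring

theorem pnt_tri_sum3 {n : ℕ} {a e : Wv → ℝ} (ha : ∀ k, 0 ≤ a k) (h0 : ∀ k, k ∉ cub n → e k = 0)
    (ha0 : ∀ k, k ∉ cub n → a k = 0) :
    ∑ k ∈ cub n, ∑ l ∈ cub n, e k * e l * a (-(k + l)) ≤
      (∑ k ∈ cub n, a k) * ∑ l ∈ cub n, e l ^ 2 := by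
  refine le_trans (le_of_eq ?_) (pnt_tri_sum2 ha h0)
  refine sum_congr rfl fun k _ => ?_
  rw [pnt_swap (fun l m => e k * e l * a m) (fun l m h => by rw [h0 l h]; ring)
    (fun l m h => by rw [ha0 m h]; ring) k]
  exact sum_congr rfl fun l _ => by ring

/-! ### the lattice sum -/

theorem pnt_summable {a : ℝ} (ha : 1 < a) : Summable (fun j : ℤ => lat_g a j) := by
  have h1 : Summable (fun n : ℕ => lat_g a (n : ℤ)) := by
    rw [← summable_nat_add_iff 1]
    have h2 : Summable (fun n : ℕ => ((n : ℝ)) ^ (-a)) := Real.summable_nat_rpow.2 (by linarith)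
    have h3 := (summable_nat_add_iff (f := fun n : ℕ => ((n : ℝ)) ^ (-a)) 1).2 h2
    refine h3.congr fun n => ?_
    exact (lat_g_natCast a (by omega : 1 ≤ n + 1)).symm
  refine Summable.of_nat_of_neg h1 ?_
  refine h1.congr fun n => ?_
  exact (lat_g_neg a _).symm

theorem pnt_f_le {a : ℝ} (ha : 0 ≤ a) (v : Wv) : lat_f a v ^ 3 ≤ ∏ i, lat_g a (v i) :=
  lat_f_le ha v

theorem pnt_cube {a : ℝ} (ha : 1 < a) : ∃ S : ℝ, 0 ≤ S ∧ ∀ n : ℕ, ∑ v ∈ cub n, lat_f a v ^ 3 ≤ S := by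
  have hs := pnt_summable ha
  refine ⟨(∑' j : ℤ, lat_g a j) ^ 3, pow_nonneg (tsum_nonneg fun j => (lat_g_pos a j).le) 3,
    fun n => ?_⟩
  have h1 : ∑ v ∈ cub n, lat_f a v ^ 3 ≤ ∑ v ∈ cub n, ∏ i, lat_g a (v i) :=
    sum_le_sum fun v _ => lat_f_le (by linarith) v
  have h2 : ∑ v ∈ cub n, ∏ i, lat_g a (v i) = (∑ j ∈ Icc (-(n : ℤ)) n, lat_g a j) ^ 3 := by
    unfold cub
    rw [← prod_univ_sum, prod_const, card_univ, Fintype.card_fin]
  rw [h2] at h1
  refine h1.trans ?_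
  exact pow_le_pow_left₀ (sum_nonneg fun j _ => (lat_g_pos a j).le)
    (hs.sum_le_tsum _ fun j _ => (lat_g_pos a j).le) 3

theorem pnt_a_sum {γ : ℝ} (hγ : 3 / 4 < γ) : ∃ S : ℝ, 0 ≤ S ∧ ∀ (n : ℕ) (u : Fld),
    ∑ k ∈ cub n, pnt_a γ u k ≤ S * Real.sqrt (En 0 n u) := by
  obtain ⟨S, hS0, hS⟩ := pnt_cube (a := 4 * γ / 3) (by linarith)
  refine ⟨Real.sqrt S, Real.sqrt_nonneg _, fun n u => ?_⟩
  have h1 : ∀ k ∈ cub n, pnt_a γ u k = (if k = 0 then 0 else nsq k ^ (-γ)) * pnt_U u k := by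
    intro k _
    unfold pnt_a
    split_ifs
    · rw [zero_mul]
    · rfl
  rw [sum_congr rfl h1]
  refine (Real.sum_mul_le_sqrt_mul_sqrt _ _ _).trans ?_
  have h2 : ∑ k ∈ cub n, (if k = 0 then 0 else nsq k ^ (-γ)) ^ 2 ≤ S := by
    refine le_trans (le_of_eq ?_) (hS n)
    refine sum_congr rfl fun k _ => ?_
    unfold lat_f
    split_ifs with hk
    · norm_num
    · have hp : 0 ≤ nsq k := lat_nsq_nonneg k
      rw [← Real.rpow_natCast, ← Real.rpow_natCast, ← Real.rpow_mul hp, ← Real.rpow_mul hp]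
      congr 1
      push_cast
      ring
  have h3 : ∑ k ∈ cub n, pnt_U u k ^ 2 = En 0 n u := by
    unfold En
    refine sum_congr rfl fun k _ => ?_
    rw [pnt_U_sq, pow_zero, one_mul]
  rw [h3]
  exact mul_le_mul_of_nonneg_right (Real.sqrt_le_sqrt h2) (Real.sqrt_nonneg _)

theorem pnt_e_sum (t : ℝ) (n : ℕ) (u : Fld) (hu : u 0 = 0) :
    ∑ k ∈ cub n, pnt_e t u k ^ 2 = Er t n u := by
  unfold Er
  refine sum_congr rfl fun k _ => ?_
  unfold pnt_e
  rw [mul_pow, pnt_U_sq]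
  by_cases hk : k = 0
  · rw [hk, hu]
    simp
  · congr 1
    have hp : 0 ≤ nsq k := lat_nsq_nonneg k
    rw [← Real.rpow_natCast, ← Real.rpow_mul hp]
    congr 1
    push_cast
    ring

/-! ### the symmetrised form -/

/-- the symmetrised summand -/
noncomputable def pntF (g : Wv → Wv → Wv → ℝ) (s : ℕ) (u : Fld) (k l : Wv) : ℂ :=
  (g k l (-(k + l)) : ℂ) * ((nsq (-(k + l)) : ℂ) ^ s - (nsq l : ℂ) ^ s) * dt (u k) l *
    ∑ j, u l j * u (-(k + l)) j

theorem pnt_nsq_neg (k : Wv) : nsq (-k) = nsq k := by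
  unfold nsq
  refine sum_congr rfl fun i _ => ?_
  rw [Pi.neg_apply]
  push_cast
  ring

theorem pnt_sym_inner {g : Wv → Wv → Wv → ℝ} {n : ℕ} {u : Fld} (hg : Arr g) (hu : Adm u)
    (hu0 : ∀ k, k ∉ cub n → u k = 0) (s : ℕ) (k : Wv) :
    2 * ∑ l ∈ cub n, algF g s u k l = ∑ l ∈ cub n, pntF g s u k l := by
  classical
  have h1 : ∑ l ∈ cub n, algF g s u k l = ∑ l ∈ cub n, algF g s u k (-(k + l)) := by
    rw [← Finset.sum_filter_of_ne (s := cub n) (p := fun l => k + l ∈ cub n)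
        (f := fun l => algF g s u k l) (fun l _ h => by
          by_contra hc
          exact h (alg_zero2 hu0 hc)),
      ← Finset.sum_filter_of_ne (s := cub n) (p := fun l => k + l ∈ cub n)
        (f := fun l => algF g s u k (-(k + l))) (fun l _ h => by
          by_contra hc
          refine h (alg_zero1 hu0 fun h2 => hc ?_)
          have := alg_neg h2
          rwa [neg_neg] at this)]
    refine Finset.sum_nbij' (fun l => -(k + l)) (fun l => -(k + l)) ?_ ?_ ?_ ?_ ?_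
    · intro l hl
      rw [Finset.mem_filter] at hl ⊢
      refine ⟨alg_neg hl.2, ?_⟩
      have e : k + -(k + l) = -l := by abel
      rw [e]
      exact alg_neg hl.1
    · intro l hl
      rw [Finset.mem_filter] at hl ⊢
      refine ⟨alg_neg hl.2, ?_⟩
      have e : k + -(k + l) = -l := by abel
      rw [e]
      exact alg_neg hl.1
    · intro l _
      show -(k + -(k + l)) = l
      abel
    · intro l _
      show -(k + -(k + l)) = l
      abel
    · intro l _
      show algF g s u k l = algF g s u k (-(k + -(k + l)))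
      have e : -(k + -(k + l)) = l := by abel
      rw [e]
  have h2 : 2 * ∑ l ∈ cub n, algF g s u k l =
      ∑ l ∈ cub n, algF g s u k l + ∑ l ∈ cub n, algF g s u k (-(k + l)) := by
    rw [← h1]
    ring
  rw [h2, ← sum_add_distrib]
  refine sum_congr rfl fun l _ => ?_
  unfold algF pntF
  have e : -(k + -(k + l)) = l := by abel
  have e3 : k + -(k + l) = -l := by abel
  rw [e, e3, alg_dt_neg, alg_dt_add, hu.div k, zero_add, hg.swap23 k (-(k + l)) l,
    pnt_nsq_neg, pnt_nsq_neg]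
  have h3 : ∑ j, u (-(k + l)) j * u l j = ∑ j, u l j * u (-(k + l)) j :=
    Finset.sum_congr rfl fun j _ => mul_comm _ _
  rw [h3]
  ring

theorem pnt_sym {g : Wv → Wv → Wv → ℝ} {n : ℕ} {u : Fld} (hg : Arr g) (hu : Adm u)
    (hu0 : ∀ k, k ∉ cub n → u k = 0) (s : ℕ) :
    2 * form g s n u = ∑ k ∈ cub n, ∑ l ∈ cub n, pntF g s u k l := by
  rw [alg_form, mul_sum]
  exact sum_congr rfl fun k _ => pnt_sym_inner hg hu hu0 s k

theorem t_PNT : S_PNT := by
  intro g B β κ hg hB hκ hβ hgb s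
  set b : ℝ := (1 + κ) / 2 with hb
  have hb0 : 0 < b := by rw [hb]; linarith
  set γ : ℝ := 3 / 4 + (b - β) with hγ
  have hγ1 : 3 / 4 < γ := by rw [hγ]; linarith
  set t : ℝ := (s : ℝ) + b with ht
  have ht0 : 0 ≤ t := by rw [ht]; positivity
  obtain ⟨S, hS0, hS⟩ := pnt_a_sum hγ1
  set C1 : ℝ := 3 * ((s : ℝ) + 1) * B * (4 : ℝ) ^ t with hC1
  have hC10 : 0 ≤ C1 := by rw [hC1]; positivity
  refine ⟨3 * C1 * S, by positivity, fun n u hu hu0 => ?_⟩
  -- the pointwise bound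
  have hpt : ∀ k l : Wv, ‖pntF g s u k l‖ ≤ C1 * (pnt_a γ u k * pnt_e t u l * pnt_e t u (-(k + l)) +
      pnt_e t u k * pnt_a γ u l * pnt_e t u (-(k + l)) +
      pnt_e t u k * pnt_e t u l * pnt_a γ u (-(k + l))) := by
    intro k l
    have hnn : 0 ≤ C1 * (pnt_a γ u k * pnt_e t u l * pnt_e t u (-(k + l)) +
        pnt_e t u k * pnt_a γ u l * pnt_e t u (-(k + l)) +
        pnt_e t u k * pnt_e t u l * pnt_a γ u (-(k + l))) := by
      have ak := pnt_a_nonneg γ u k
      have al := pnt_a_nonneg γ u l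
      have am := pnt_a_nonneg γ u (-(k + l))
      have ek := pnt_e_nonneg t u k
      have el := pnt_e_nonneg t u l
      have em := pnt_e_nonneg t u (-(k + l))
      positivity
    by_cases hk : k = 0
    · have : pntF g s u k l = 0 := by
        unfold pntF dt
        rw [hk, hu.zero]
        simp
      rw [this, norm_zero]
      exact hnn
    by_cases hl : l = 0
    · have : pntF g s u k l = 0 := by
        unfold pntF
        rw [hl, hu.zero]
        simp
      rw [this, norm_zero]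
      exact hnn
    by_cases hm : -(k + l) = 0
    · have : pntF g s u k l = 0 := by
        unfold pntF
        rw [hm, hu.zero]
        simp
      rw [this, norm_zero]
      exact hnn
    set m : Wv := -(k + l) with hmdef
    have hsum : k + l + m = 0 := by rw [hmdef]; abel
    have hmn1 : 1 ≤ mn k l m := le_min (lat_nsq_one hk) (le_min (lat_nsq_one hl) (lat_nsq_one hm))
    have hmnp : 0 < mn k l m := by linarith
    have hmnmx : mn k l m ≤ mx k l m := (min_le_left _ _).trans (le_max_left _ _)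
    have hmxp : 0 < mx k l m := by linarith
    have e1 : ‖pntF g s u k l‖ = |g k l m| * |nsq m ^ s - nsq l ^ s| * ‖dt (u k) l‖ *
        ‖∑ j, u l j * u m j‖ := by
      unfold pntF
      rw [← hmdef, norm_mul, norm_mul, norm_mul, Complex.norm_real, Real.norm_eq_abs]
      have e2 : ((nsq m : ℂ) ^ s - (nsq l : ℂ) ^ s) = ((nsq m ^ s - nsq l ^ s : ℝ) : ℂ) := by
        push_cast
        ring
      rw [e2, Complex.norm_real, Real.norm_eq_abs]
    have h1 := pnt_diff hu s hsum hk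
    have h2 := pnt_uu u l m
    have h3 := hgb k l m hk hl hm hsum
    have hUk := pnt_U_nonneg u k
    have hUl := pnt_U_nonneg u l
    have hUm := pnt_U_nonneg u m
    -- `|g| r ≤ B mx^β mn^(-3/4)`
    have h4 : |g k l m| * Real.sqrt (mn k l m) ≤ B * mx k l m ^ β * mn k l m ^ (-(3 / 4) : ℝ) := by
      have e3 : Real.sqrt (mn k l m) = mn k l m ^ (5 / 4 : ℝ) * mn k l m ^ (-(3 / 4) : ℝ) := by
        rw [← Real.rpow_add hmnp, Real.sqrt_eq_rpow]
        norm_num
      rw [e3, ← mul_assoc]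
      exact mul_le_mul_of_nonneg_right h3 (by positivity)
    -- exponents
    have h5 : mx k l m ^ β * mn k l m ^ (-(3 / 4) : ℝ) * mx k l m ^ s ≤
        mx k l m ^ t * mn k l m ^ (-γ) := by
      have e4 : mx k l m ^ β * mn k l m ^ (-(3 / 4) : ℝ) * mx k l m ^ s =
          mx k l m ^ t * mn k l m ^ (-(3 / 4) : ℝ) * mx k l m ^ (-(b - β)) := by
        have e5 : mx k l m ^ t * mx k l m ^ (-(b - β)) = mx k l m ^ β * mx k l m ^ s := by
          rw [← Real.rpow_natCast, ← Real.rpow_add hmxp, ← Real.rpow_add hmxp]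
          congr 1
          rw [ht]
          ring
        calc mx k l m ^ β * mn k l m ^ (-(3 / 4) : ℝ) * mx k l m ^ s
            = (mx k l m ^ β * mx k l m ^ s) * mn k l m ^ (-(3 / 4) : ℝ) := by ring
          _ = _ := by rw [← e5]; ring
      have e6 : mn k l m ^ (-γ) = mn k l m ^ (-(3 / 4) : ℝ) * mn k l m ^ (-(b - β)) := by
        rw [← Real.rpow_add hmnp]
        congr 1
        rw [hγ]
        ring
      rw [e4, e6, ← mul_assoc]
      refine mul_le_mul_of_nonneg_left ?_ (by positivity)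
      exact Real.rpow_le_rpow_of_nonpos hmnp hmnmx (by linarith)
    have h6 := pnt_three u (γ := γ) ht0 hsum hk hl hm
    rw [e1]
    calc |g k l m| * |nsq m ^ s - nsq l ^ s| * ‖dt (u k) l‖ * ‖∑ j, u l j * u m j‖
        = |g k l m| * (|nsq m ^ s - nsq l ^ s| * ‖dt (u k) l‖) * ‖∑ j, u l j * u m j‖ := by ring
      _ ≤ |g k l m| * (3 * (s + 1) * (Real.sqrt (mn k l m) * mx k l m ^ s * pnt_U u k)) *
            (pnt_U u l * pnt_U u m) := by
          refine mul_le_mul (mul_le_mul_of_nonneg_left h1 (abs_nonneg _)) h2 (norm_nonneg _) ?_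
          positivity
      _ = 3 * (s + 1) * (|g k l m| * Real.sqrt (mn k l m)) * mx k l m ^ s *
            (pnt_U u k * pnt_U u l * pnt_U u m) := by ring
      _ ≤ 3 * (s + 1) * (B * mx k l m ^ β * mn k l m ^ (-(3 / 4) : ℝ)) * mx k l m ^ s *
            (pnt_U u k * pnt_U u l * pnt_U u m) := by
          gcongr
      _ = 3 * (s + 1) * B * (mx k l m ^ β * mn k l m ^ (-(3 / 4) : ℝ) * mx k l m ^ s) *
            (pnt_U u k * pnt_U u l * pnt_U u m) := by ring
      _ ≤ 3 * (s + 1) * B * (mx k l m ^ t * mn k l m ^ (-γ)) *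
            (pnt_U u k * pnt_U u l * pnt_U u m) := by
          gcongr
      _ = 3 * (s + 1) * B * (mx k l m ^ t * mn k l m ^ (-γ) *
            (pnt_U u k * pnt_U u l * pnt_U u m)) := by ring
      _ ≤ 3 * (s + 1) * B * ((4 : ℝ) ^ t * (pnt_a γ u k * pnt_e t u l * pnt_e t u m +
            pnt_e t u k * pnt_a γ u l * pnt_e t u m + pnt_e t u k * pnt_e t u l * pnt_a γ u m)) := by
          gcongr
      _ = _ := by rw [hC1]; ring
  -- summation
  have he0 : ∀ k, k ∉ cub n → pnt_e t u k = 0 := by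
    intro k hk
    unfold pnt_e
    rw [pnt_U_zero (hu0 k hk), mul_zero]
  have ha0 : ∀ k, k ∉ cub n → pnt_a γ u k = 0 := by
    intro k hk
    unfold pnt_a
    rw [pnt_U_zero (hu0 k hk), mul_zero, ite_self]
  have ha := pnt_a_nonneg γ u
  have s1 := pnt_tri_sum (n := n) (a := pnt_a γ u) (e := pnt_e t u) ha he0
  have s2 := pnt_tri_sum2 (n := n) (a := pnt_a γ u) (e := pnt_e t u) ha he0
  have s3 := pnt_tri_sum3 (n := n) (a := pnt_a γ u) (e := pnt_e t u) ha he0 ha0
  have hE : 0 ≤ ∑ l ∈ cub n, pnt_e t u l ^ 2 := sum_nonneg fun l _ => sq_nonneg _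
  have s4 : (∑ k ∈ cub n, pnt_a γ u k) * ∑ l ∈ cub n, pnt_e t u l ^ 2 ≤
      S * Real.sqrt (En 0 n u) * ∑ l ∈ cub n, pnt_e t u l ^ 2 :=
    mul_le_mul_of_nonneg_right (hS n u) hE
  have s5 : ‖2 * form g s n u‖ ≤ C1 * (3 * (S * Real.sqrt (En 0 n u) *
      ∑ l ∈ cub n, pnt_e t u l ^ 2)) := by
    rw [pnt_sym hg hu hu0 s]
    refine (norm_sum_le _ _).trans ?_
    refine (sum_le_sum fun k _ => (norm_sum_le _ _).trans (sum_le_sum fun l _ => hpt k l)).trans ?_
    have e7 : ∑ k ∈ cub n, ∑ l ∈ cub n, C1 * (pnt_a γ u k * pnt_e t u l * pnt_e t u (-(k + l)) +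
        pnt_e t u k * pnt_a γ u l * pnt_e t u (-(k + l)) +
        pnt_e t u k * pnt_e t u l * pnt_a γ u (-(k + l))) =
        C1 * (∑ k ∈ cub n, ∑ l ∈ cub n, pnt_a γ u k * pnt_e t u l * pnt_e t u (-(k + l)) +
        ∑ k ∈ cub n, ∑ l ∈ cub n, pnt_e t u k * pnt_a γ u l * pnt_e t u (-(k + l)) +
        ∑ k ∈ cub n, ∑ l ∈ cub n, pnt_e t u k * pnt_e t u l * pnt_a γ u (-(k + l))) := by
      simp only [← mul_sum, sum_add_distrib]
    rw [e7]
    refine mul_le_mul_of_nonneg_left ?_ hC10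
    linarith
  rw [pnt_e_sum t n u hu.zero] at s5
  rw [norm_mul] at s5
  have e8 : ‖(2 : ℂ)‖ = 2 := by norm_num
  rw [e8] at s5
  have hEr : 0 ≤ Er t n u := by
    rw [← pnt_e_sum t n u hu.zero]
    exact hE
  have hX : 0 ≤ C1 * (3 * (S * Real.sqrt (En 0 n u) * Er t n u)) := by positivity
  have hn : 0 ≤ ‖form g s n u‖ := norm_nonneg _
  calc ‖form g s n u‖ ≤ C1 * (3 * (S * Real.sqrt (En 0 n u) * Er t n u)) := by linarith
    _ = 3 * C1 * S * Real.sqrt (En 0 n u) * Er t n u := by ring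

end Pool.Agent.N983.RT
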