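import Pool.Agent.N983.RT.Stm

set_option autoImplicit false

/-! Project RT (helper983), MP_6bf1e5_an: bounds for the right-hand side (RHS). -/

namespace Pool.Agent.N983.RT

theorem rhs_nn (k : Wv) : 0 ≤ nsq k := Finset.sum_nonneg fun i _ => sq_nonneg _

theorem rhs_w1 (k : Wv) : 1 ≤ 1 + nsq k := by
  have := rhs_nn k
  linarith

theorem rhs_w0 (k : Wv) : 0 < 1 + nsq k := by
  have := rhs_nn k
  linarith

theorem rhs_sq_le (k : Wv) (i : Fin 3) : (k i : ℝ) ^ 2 ≤ nsq k :=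
  Finset.single_le_sum (f := fun i => (k i : ℝ) ^ 2) (fun i _ => sq_nonneg _) (Finset.mem_univ i)

theorem rhs_abs_mul (k : Wv) (i j : Fin 3) : |(k i : ℝ)| * |(k j : ℝ)| ≤ nsq k := by
  have h1 := rhs_sq_le k i
  have h2 := rhs_sq_le k j
  nlinarith [sq_nonneg (|(k i : ℝ)| - |(k j : ℝ)|), sq_abs (k i : ℝ), sq_abs (k j : ℝ)]

theorem rhs_abs_le (k : Wv) (i : Fin 3) : |(k i : ℝ)| ≤ 1 + nsq k := by
  have h1 := rhs_sq_le k i
  nlinarith [sq_nonneg (|(k i : ℝ)| - 1), sq_abs (k i : ℝ), abs_nonneg (k i : ℝ)]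

theorem rhs_one_le (k : Wv) (hk : k ≠ 0) : 1 ≤ nsq k := by
  obtain ⟨i, hi⟩ : ∃ i, k i ≠ 0 := by
    by_contra h
    push Not at h
    exact hk (funext h)
  have h1 : (1 : ℤ) ≤ (k i) ^ 2 := by
    have : 0 < (k i) ^ 2 := by positivity
    omega
  have h2 : (1 : ℝ) ≤ (k i : ℝ) ^ 2 := by exact_mod_cast h1
  exact h2.trans (rhs_sq_le k i)

/-- Peetre's inequality -/
theorem rhs_peetre (k l : Wv) : 1 + nsq (k + l) ≤ 2 * (1 + nsq k) * (1 + nsq l) := by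
  have h1 : nsq (k + l) ≤ 2 * nsq k + 2 * nsq l := by
    unfold nsq
    rw [Finset.mul_sum, Finset.mul_sum, ← Finset.sum_add_distrib]
    refine Finset.sum_le_sum fun i _ => ?_
    simp only [Pi.add_apply, Int.cast_add]
    nlinarith [sq_nonneg ((k i : ℝ) - (l i : ℝ))]
  have h2 := rhs_nn k
  have h3 := rhs_nn l
  nlinarith [mul_nonneg h2 h3]

theorem rhs_dt_le (a : Fin 3 → ℂ) (l : Wv) (A : ℝ) (hA : ∀ i, ‖a i‖ ≤ A) :
    ‖dt a l‖ ≤ 3 * A * (1 + nsq l) := by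
  unfold dt
  refine (norm_sum_le _ _).trans ?_
  have h : ∀ i ∈ (Finset.univ : Finset (Fin 3)), ‖a i * (l i : ℂ)‖ ≤ A * (1 + nsq l) := by
    intro i _
    rw [norm_mul, Complex.norm_intCast]
    exact mul_le_mul (hA i) (rhs_abs_le l i) (abs_nonneg _) ((norm_nonneg _).trans (hA i))
  refine (Finset.sum_le_sum h).trans (le_of_eq ?_)
  simp
  ring

theorem rhs_prj_le (m : Wv) (hm : m ≠ 0) (a : Fin 3 → ℂ) (A : ℝ) (hA : ∀ i, ‖a i‖ ≤ A)
    (i : Fin 3) : ‖prj m a i‖ ≤ 4 * A := by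
  have h1 := rhs_one_le m hm
  have hA0 : 0 ≤ A := (norm_nonneg _).trans (hA 0)
  unfold prj
  refine (norm_sub_le _ _).trans ?_
  have h2 : ‖dt a m * (m i : ℂ) / (nsq m : ℂ)‖ ≤ 3 * A := by
    rw [norm_div, norm_mul, Complex.norm_intCast, Complex.norm_real, Real.norm_eq_abs,
      abs_of_nonneg (rhs_nn m), div_le_iff₀ (by linarith)]
    have h3 : ‖dt a m‖ ≤ ∑ j, ‖a j‖ * |(m j : ℝ)| := by
      unfold dt
      refine (norm_sum_le _ _).trans (le_of_eq ?_)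
      refine Finset.sum_congr rfl fun j _ => ?_
      rw [norm_mul, Complex.norm_intCast]
    calc ‖dt a m‖ * |(m i : ℝ)| ≤ (∑ j, ‖a j‖ * |(m j : ℝ)|) * |(m i : ℝ)| :=
          mul_le_mul_of_nonneg_right h3 (abs_nonneg _)
      _ = ∑ j, ‖a j‖ * (|(m j : ℝ)| * |(m i : ℝ)|) := by
          rw [Finset.sum_mul]
          exact Finset.sum_congr rfl fun j _ => by ring
      _ ≤ ∑ j : Fin 3, A * nsq m := Finset.sum_le_sum fun j _ =>
          mul_le_mul (hA j) (rhs_abs_mul m j i) (by positivity) hA0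
      _ = 3 * A * nsq m := by simp; ring
  have := hA i
  linarith

theorem rhs_prj_sub (m : Wv) (a b : Fin 3 → ℂ) (i : Fin 3) :
    prj m a i - prj m b i = prj m (fun j => a j - b j) i := by
  have h : dt (fun j => a j - b j) m = dt a m - dt b m := by
    unfold dt
    rw [← Finset.sum_sub_distrib]
    exact Finset.sum_congr rfl fun j _ => by ring
  unfold prj
  rw [h]
  ring

/-- one term of the convolution -/
theorem rhs_term (a : Fin 3 → ℂ) (b : ℂ) (k l : Wv) (p : ℕ) (A B : ℝ)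
    (hA : ∀ i, (1 + nsq k) ^ (p + 3) * ‖a i‖ ≤ A) (hB : (1 + nsq l) ^ (p + 1) * ‖b‖ ≤ B) :
    (1 + nsq (k + l)) ^ p * ‖dt a l * b‖ ≤ 2 ^ p * 3 * A * B * ((1 + nsq k) ^ 3)⁻¹ := by
  have hk := rhs_w0 k
  have hl := rhs_w0 l
  have hkl := rhs_w0 (k + l)
  have hA' : ∀ i, ‖a i‖ ≤ A / (1 + nsq k) ^ (p + 3) := fun i => by
    rw [le_div_iff₀ (by positivity), mul_comm]
    exact hA i
  have hB' : ‖b‖ ≤ B / (1 + nsq l) ^ (p + 1) := by
    rw [le_div_iff₀ (by positivity), mul_comm]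
    exact hB
  have hA0 : 0 ≤ A := le_trans (by positivity) (hA 0)
  have hB0 : 0 ≤ B := le_trans (by positivity) hB
  have h1 := rhs_dt_le a l _ hA'
  have h2 : (1 + nsq (k + l)) ^ p ≤ (2 * (1 + nsq k) * (1 + nsq l)) ^ p :=
    pow_le_pow_left₀ hkl.le (rhs_peetre k l) p
  rw [norm_mul]
  calc (1 + nsq (k + l)) ^ p * (‖dt a l‖ * ‖b‖)
      ≤ (2 * (1 + nsq k) * (1 + nsq l)) ^ p *
        ((3 * (A / (1 + nsq k) ^ (p + 3)) * (1 + nsq l)) * (B / (1 + nsq l) ^ (p + 1))) := by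
        refine mul_le_mul h2 ?_ (by positivity) (by positivity)
        exact mul_le_mul h1 hB' (norm_nonneg _) (by positivity)
    _ = 2 ^ p * 3 * A * B * ((1 + nsq k) ^ 3)⁻¹ := by
        have hk' := hk.ne'
        have hl' := hl.ne'
        rw [pow_add (1 + nsq k) p 3, pow_add (1 + nsq l) p 1, mul_pow, mul_pow]
        field_simp

theorem rhs_dcy_nn {Cs : ℕ → ℝ} {u : Fld} (h : Dcy Cs u) (s : ℕ) : 0 ≤ Cs s :=
  le_trans (by have := rhs_w0 0; positivity) (h s 0 0)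

/-- the terms of the convolution, with the weight -/
theorem rhs_termg (g : Wv → Wv → Wv → ℝ) (hg : ∀ k l m, |g k l m| ≤ 1) (a : Fin 3 → ℂ) (b : ℂ)
    (k m : Wv) (p : ℕ) (A B : ℝ) (hA : ∀ i, (1 + nsq k) ^ (p + 3) * ‖a i‖ ≤ A)
    (hB : (1 + nsq (m - k)) ^ (p + 1) * ‖b‖ ≤ B) :
    (1 + nsq m) ^ p * ‖(g k (m - k) (-m) : ℂ) * dt a (m - k) * b‖ ≤
      2 ^ p * 3 * A * B * ((1 + nsq k) ^ 3)⁻¹ := by
  have h1 := rhs_term a b k (m - k) p A B hA hB
  rw [add_sub_cancel] at h1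
  refine le_trans ?_ h1
  have hm := rhs_w0 m
  refine mul_le_mul_of_nonneg_left ?_ (by positivity)
  rw [mul_assoc, norm_mul, Complex.norm_real, Real.norm_eq_abs]
  exact mul_le_of_le_one_left (norm_nonneg _) (hg _ _ _)

theorem rhs_termu (g : Wv → Wv → Wv → ℝ) (hg : ∀ k l m, |g k l m| ≤ 1) {Cs : ℕ → ℝ} {u : Fld}
    (hu : Dcy Cs u) (m : Wv) (p : ℕ) (j : Fin 3) (k : Wv) :
    (1 + nsq m) ^ p * ‖(g k (m - k) (-m) : ℂ) * dt (u k) (m - k) * u (m - k) j‖ ≤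
      2 ^ p * 3 * Cs (p + 3) * Cs (p + 1) * ((1 + nsq k) ^ 3)⁻¹ :=
  rhs_termg g hg _ _ k m p _ _ (fun i => hu _ _ _) (hu _ _ _)

theorem rhs_summable (hS : S_SUM) (g : Wv → Wv → Wv → ℝ) (hg : ∀ k l m, |g k l m| ≤ 1)
    {Cs : ℕ → ℝ} {u : Fld} (hu : Dcy Cs u) (m : Wv) (j : Fin 3) :
    Summable fun k => (g k (m - k) (-m) : ℂ) * dt (u k) (m - k) * u (m - k) j := by
  have hS' : Summable fun k : Wv => ((1 + nsq k) ^ 3)⁻¹ := hS
  refine Summable.of_norm_bounded (hS'.mul_left (2 ^ 0 * 3 * Cs (0 + 3) * Cs (0 + 1)))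
    fun k => ?_
  have h := rhs_termu g hg hu m 0 j k
  rwa [pow_zero, one_mul] at h

theorem rhs_conv_le (hS : S_SUM) (g : Wv → Wv → Wv → ℝ) (hg : ∀ k l m, |g k l m| ≤ 1)
    {Cs : ℕ → ℝ} {u : Fld} (hu : Dcy Cs u) (m : Wv) (p : ℕ) (j : Fin 3) :
    (1 + nsq m) ^ p * ‖conv g u m j‖ ≤
      2 ^ p * 3 * Cs (p + 3) * Cs (p + 1) * ∑' k : Wv, ((1 + nsq k) ^ 3)⁻¹ := by
  have hS' : Summable fun k : Wv => ((1 + nsq k) ^ 3)⁻¹ := hS
  have hm := rhs_w0 m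
  rw [mul_comm, ← le_div_iff₀ (by positivity)]
  unfold conv
  refine (tsum_of_norm_bounded ((hS'.mul_left
    (2 ^ p * 3 * Cs (p + 3) * Cs (p + 1) / (1 + nsq m) ^ p)).hasSum) fun k => ?_).trans ?_
  · have h := rhs_termu g hg hu m p j k
    rw [div_mul_eq_mul_div, le_div_iff₀ (by positivity), mul_comm]
    exact h
  · rw [tsum_mul_left, div_mul_eq_mul_div]

theorem rhs_conv_sub (hS : S_SUM) (g : Wv → Wv → Wv → ℝ) (hg : ∀ k l m, |g k l m| ≤ 1)
    {Cs : ℕ → ℝ} {u v : Fld} (hu : Dcy Cs u) (hv : Dcy Cs v) (δ : ℝ)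
    (hδ : ∀ k i, (1 + nsq k) ^ 3 * ‖u k i - v k i‖ ≤ δ) (m : Wv) (j : Fin 3) :
    ‖conv g u m j - conv g v m j‖ ≤
      3 * (Cs 1 + Cs 3) * δ * ∑' k : Wv, ((1 + nsq k) ^ 3)⁻¹ := by
  have hS' : Summable fun k : Wv => ((1 + nsq k) ^ 3)⁻¹ := hS
  unfold conv
  rw [← (rhs_summable hS g hg hu m j).tsum_sub (rhs_summable hS g hg hv m j), ← tsum_mul_left]
  refine tsum_of_norm_bounded ((hS'.mul_left _).hasSum) fun k => ?_
  have h1 : (g k (m - k) (-m) : ℂ) * dt (u k) (m - k) * u (m - k) j -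
      (g k (m - k) (-m) : ℂ) * dt (v k) (m - k) * v (m - k) j =
      (g k (m - k) (-m) : ℂ) * dt (fun i => u k i - v k i) (m - k) * u (m - k) j +
      (g k (m - k) (-m) : ℂ) * dt (v k) (m - k) * (u (m - k) j - v (m - k) j) := by
    have h : dt (fun i => u k i - v k i) (m - k) = dt (u k) (m - k) - dt (v k) (m - k) := by
      unfold dt
      rw [← Finset.sum_sub_distrib]
      exact Finset.sum_congr rfl fun j _ => by ring
    rw [h]
    ring
  rw [h1]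
  refine (norm_add_le _ _).trans ?_
  have h2 := rhs_termg g hg (fun i => u k i - v k i) (u (m - k) j) k m 0 δ (Cs 1)
    (fun i => hδ k i) (hu 1 _ _)
  have h3 := rhs_termg g hg (v k) (u (m - k) j - v (m - k) j) k m 0 (Cs 3) δ
    (fun i => hv 3 _ _) (by
      refine le_trans ?_ (hδ (m - k) j)
      refine mul_le_mul_of_nonneg_right ?_ (norm_nonneg _)
      exact pow_le_pow_right₀ (rhs_w1 _) (by norm_num))
  rw [pow_zero, one_mul] at h2 h3
  refine (add_le_add h2 h3).trans (le_of_eq ?_)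
  ring

theorem rhs_rpow_le (m : Wv) (hm : m ≠ 0) (α : ℝ) : nsq m ^ α ≤ (1 + nsq m) ^ ⌈|α|⌉₊ := by
  have h1 := rhs_one_le m hm
  calc nsq m ^ α ≤ nsq m ^ ((⌈|α|⌉₊ : ℕ) : ℝ) := by
        refine Real.rpow_le_rpow_of_exponent_le h1 ?_
        exact (le_abs_self α).trans (Nat.le_ceil _)
    _ = nsq m ^ ⌈|α|⌉₊ := Real.rpow_natCast _ _
    _ ≤ _ := pow_le_pow_left₀ (rhs_nn m) (by linarith) _

theorem t_RHS : S_RHS := by
  intro hS ν α Cs
  constructor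
  · intro p
    refine ⟨|ν| * Cs (p + ⌈|α|⌉₊) + 4 * (2 ^ p * 3 * Cs (p + 3) * Cs (p + 1) *
      ∑' k : Wv, ((1 + nsq k) ^ 3)⁻¹), fun g hg u hu m hm j => ?_⟩
    have hw := rhs_w0 m
    have hn := rhs_nn m
    set K : ℝ := 2 ^ p * 3 * Cs (p + 3) * Cs (p + 1) * ∑' k : Wv, ((1 + nsq k) ^ 3)⁻¹ with hK
    have h1 : ‖prj m (conv g u m) j‖ ≤ 4 * (K / (1 + nsq m) ^ p) := by
      refine rhs_prj_le m hm _ _ (fun i => ?_) j
      rw [le_div_iff₀ (by positivity), mul_comm]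
      exact rhs_conv_le hS g hg hu m p i
    have h2 : (1 + nsq m) ^ p * ‖Complex.I * prj m (conv g u m) j‖ ≤ 4 * K := by
      rw [norm_mul, Complex.norm_I, one_mul]
      calc (1 + nsq m) ^ p * ‖prj m (conv g u m) j‖
          ≤ (1 + nsq m) ^ p * (4 * (K / (1 + nsq m) ^ p)) :=
            mul_le_mul_of_nonneg_left h1 (by positivity)
        _ = 4 * K := by
            have := hw.ne'
            field_simp
    have h3 : (1 + nsq m) ^ p * ‖-((ν * nsq m ^ α : ℝ) : ℂ) * u m j‖ ≤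
        |ν| * Cs (p + ⌈|α|⌉₊) := by
      rw [norm_mul, norm_neg, Complex.norm_real, Real.norm_eq_abs, abs_mul,
        abs_of_nonneg (Real.rpow_nonneg hn α)]
      calc (1 + nsq m) ^ p * (|ν| * nsq m ^ α * ‖u m j‖)
          = |ν| * ((1 + nsq m) ^ p * nsq m ^ α * ‖u m j‖) := by ring
        _ ≤ |ν| * ((1 + nsq m) ^ p * (1 + nsq m) ^ ⌈|α|⌉₊ * ‖u m j‖) := by
            refine mul_le_mul_of_nonneg_left ?_ (abs_nonneg _)
            refine mul_le_mul_of_nonneg_right ?_ (norm_nonneg _)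
            exact mul_le_mul_of_nonneg_left (rhs_rpow_le m hm α) (by positivity)
        _ = |ν| * ((1 + nsq m) ^ (p + ⌈|α|⌉₊) * ‖u m j‖) := by rw [pow_add]
        _ ≤ |ν| * Cs (p + ⌈|α|⌉₊) := mul_le_mul_of_nonneg_left (hu _ _ _) (abs_nonneg _)
    unfold rhs
    calc (1 + nsq m) ^ p * ‖-((ν * nsq m ^ α : ℝ) : ℂ) * u m j -
          Complex.I * prj m (conv g u m) j‖
        ≤ (1 + nsq m) ^ p * (‖-((ν * nsq m ^ α : ℝ) : ℂ) * u m j‖ +
          ‖Complex.I * prj m (conv g u m) j‖) :=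
          mul_le_mul_of_nonneg_left (norm_sub_le _ _) (by positivity)
      _ = (1 + nsq m) ^ p * ‖-((ν * nsq m ^ α : ℝ) : ℂ) * u m j‖ +
          (1 + nsq m) ^ p * ‖Complex.I * prj m (conv g u m) j‖ := by ring
      _ ≤ _ := add_le_add h3 h2
  · intro m hm
    refine ⟨|ν * nsq m ^ α| + 4 * (3 * (Cs 1 + Cs 3) * ∑' k : Wv, ((1 + nsq k) ^ 3)⁻¹),
      fun g hg u v hu hv δ hδ j => ?_⟩
    have hw := rhs_w0 m
    have h1 : ‖prj m (conv g u m) j - prj m (conv g v m) j‖ ≤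
        4 * (3 * (Cs 1 + Cs 3) * δ * ∑' k : Wv, ((1 + nsq k) ^ 3)⁻¹) := by
      rw [rhs_prj_sub]
      exact rhs_prj_le m hm _ _ (fun i => rhs_conv_sub hS g hg hu hv δ hδ m i) j
    have h2 : ‖u m j - v m j‖ ≤ δ := by
      refine le_trans ?_ (hδ m j)
      exact le_mul_of_one_le_left (norm_nonneg _) (one_le_pow₀ (rhs_w1 m))
    have h3 : rhs g ν α u m j - rhs g ν α v m j =
        -((ν * nsq m ^ α : ℝ) : ℂ) * (u m j - v m j) -
          Complex.I * (prj m (conv g u m) j - prj m (conv g v m) j) := by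
      unfold rhs
      ring
    rw [h3]
    refine (norm_sub_le _ _).trans ?_
    rw [norm_mul, norm_neg, Complex.norm_real, Real.norm_eq_abs, norm_mul, Complex.norm_I, one_mul]
    have h4 := mul_le_mul_of_nonneg_left h2 (abs_nonneg (ν * nsq m ^ α))
    refine (add_le_add h4 h1).trans (le_of_eq ?_)
    ring

end Pool.Agent.N983.RT
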