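import Pool.Agent.N983.RT.Stm

set_option autoImplicit false

/-! Part SHL of the project RT: one dyadic shell of the trilinear sum (helper136). -/

namespace Pool.Agent.N983.RT

lemma shl_nsq_nonneg (k : Wv) : 0 ≤ nsq k := Finset.sum_nonneg fun _ _ => sq_nonneg _

lemma shl_nsq_neg (k : Wv) : nsq (-k) = nsq k := by
  unfold nsq
  refine Finset.sum_congr rfl fun i _ => ?_
  rw [Pi.neg_apply]
  push_cast
  ring

lemma shl_nsq_add (k l : Wv) : nsq (k + l) ≤ 2 * nsq k + 2 * nsq l := by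
  unfold nsq
  rw [Finset.mul_sum, Finset.mul_sum, ← Finset.sum_add_distrib]
  refine Finset.sum_le_sum fun i _ => ?_
  rw [Pi.add_apply]
  push_cast
  nlinarith [sq_nonneg ((k i : ℝ) - l i)]

lemma shl_nsq_sub (k l : Wv) : nsq l ≤ 2 * nsq (k + l) + 2 * nsq k := by
  have h1 := shl_nsq_add (k + l) (-k)
  rw [shl_nsq_neg] at h1
  have e : k + l + -k = l := by abel
  rwa [e] at h1

lemma shl_nsq_sub' (k l : Wv) : nsq k ≤ 2 * nsq (k + l) + 2 * nsq l := by
  have h1 := shl_nsq_sub l k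
  rwa [add_comm l k] at h1

lemma shl_mem_cub {R : ℕ} {k : Wv} : k ∈ cub R ↔ ∀ i, -(R : ℤ) ≤ k i ∧ k i ≤ R := by
  unfold cub
  rw [Fintype.mem_piFinset]
  simp only [Finset.mem_Icc]

lemma shl_cub_mono {R S : ℕ} (h : R ≤ S) : cub R ⊆ cub S := by
  intro k hk
  rw [shl_mem_cub] at hk ⊢
  intro i
  have h1 := hk i
  have h2 : (R : ℤ) ≤ S := by exact_mod_cast h
  exact ⟨by linarith [h1.1], by linarith [h1.2]⟩

lemma shl_big {c : ℕ} {k : Wv} (h : k ∉ cub (2 ^ (c + 1))) : (4 : ℝ) ^ (c + 1) ≤ nsq k := by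
  rw [shl_mem_cub] at h
  push Not at h
  obtain ⟨i, hi⟩ := h
  have h1 : ((2 : ℝ) ^ (c + 1)) ^ 2 ≤ (k i : ℝ) ^ 2 := by
    apply sq_le_sq.2
    rw [abs_of_pos (by positivity : (0 : ℝ) < 2 ^ (c + 1))]
    by_cases h2 : -((2 ^ (c + 1) : ℕ) : ℤ) ≤ k i
    · have h3 := hi h2
      have h4 : ((2 : ℝ) ^ (c + 1)) < (k i : ℝ) := by
        have : (((2 ^ (c + 1) : ℕ) : ℤ) : ℝ) < (k i : ℝ) := by exact_mod_cast h3
        push_cast at this
        exact this
      exact h4.le.trans (le_abs_self _)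
    · push Not at h2
      have h4 : (k i : ℝ) < -((2 : ℝ) ^ (c + 1)) := by
        have : (k i : ℝ) < ((-((2 ^ (c + 1) : ℕ) : ℤ) : ℤ) : ℝ) := by exact_mod_cast h2
        push_cast at this
        exact this
      have h5 := neg_le_abs (k i : ℝ)
      linarith
  have h2 : ((2 : ℝ) ^ (c + 1)) ^ 2 = 4 ^ (c + 1) := by
    rw [← pow_mul, mul_comm, pow_mul]
    norm_num
  rw [h2] at h1
  refine h1.trans ?_
  unfold nsq
  exact Finset.single_le_sum (f := fun i => (k i : ℝ) ^ 2) (fun i _ => sq_nonneg _)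
    (Finset.mem_univ i)

lemma shl_wgt_ne {s c : ℕ} {i : Fin 3} {k l : Wv} (h : wgt s c i k l ≠ 0) :
    nsq k < (4 : ℝ) ^ (c + 1) ∧ nsq l < (4 : ℝ) ^ (c + 1) ∧ nsq (k + l) < (4 : ℝ) ^ (c + 1) ∧
      ((4 : ℝ) ^ c ≤ nsq k ∨ (4 : ℝ) ^ c ≤ nsq l ∨ (4 : ℝ) ^ c ≤ nsq (k + l)) := by
  unfold wgt at h
  split_ifs at h with h1
  · obtain ⟨h2, h3⟩ := h1
    rw [max_lt_iff, max_lt_iff] at h3
    rw [le_max_iff, le_max_iff] at h2
    exact ⟨h3.1, h3.2.1, h3.2.2, h2⟩
  · exact absurd rfl h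

lemma shl_sum {S T : Finset Wv} {f g : Wv → ℝ} (hg : ∀ k, 0 ≤ g k) (hfg : ∀ k, f k ≤ g k)
    (h0 : ∀ k, k ∉ T → f k = 0) : ∑ k ∈ S, f k ≤ ∑ k ∈ T, g k := by
  classical
  have h1 : ∑ k ∈ S, f k = ∑ k ∈ S.filter (fun k => k ∈ T), f k := by
    symm
    apply Finset.sum_filter_of_ne
    intro k _ hk
    by_contra h2
    exact hk (h0 k h2)
  rw [h1]
  refine (Finset.sum_le_sum fun k _ => hfg k).trans ?_
  apply Finset.sum_le_sum_of_subset_of_nonneg
  · intro k hk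
    exact (Finset.mem_filter.1 hk).2
  · intro k _ _
    exact hg k

/-- the size of the cube does not matter -/
lemma shl_tri_big (a : Wv → Wv → ℝ) {R M : ℕ} (h : R ≤ M) (x y z : Wv → ℂ)
    (h0 : ∀ k l, k ∉ cub R ∨ l ∉ cub R → (a k l : ℂ) * x k * y l * z (-(k + l)) = 0) :
    Tri a R x y z = Tri a M x y z := by
  unfold Tri
  have h1 : ∀ k, ∑ l ∈ cub R, (a k l : ℂ) * x k * y l * z (-(k + l)) =
      ∑ l ∈ cub M, (a k l : ℂ) * x k * y l * z (-(k + l)) := fun k =>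
    Finset.sum_subset (shl_cub_mono h) fun l _ hl => h0 k l (Or.inr hl)
  rw [Finset.sum_congr rfl fun k _ => h1 k]
  exact Finset.sum_subset (shl_cub_mono h) fun k _ hk =>
    Finset.sum_eq_zero fun l _ => h0 k l (Or.inl hk)

theorem t_SHL : S_SHL := by
  classical
  intro g κ s i C hC hyp c n x y z h0
  have hyp' := hyp c
  obtain ⟨a, ha⟩ : ∃ a : Wv → Wv → ℝ, a = fun k l => g k l (-(k + l)) * wgt s c i k l := ⟨_, rfl⟩
  obtain ⟨R, hR⟩ : ∃ R : ℕ, R = 2 ^ (c + 1) := ⟨_, rfl⟩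
  obtain ⟨B, hB⟩ : ∃ B : ℝ, B = C * ((2 : ℝ) ^ c) ^ (1 + 2 * (s : ℝ) + κ) := ⟨_, rfl⟩
  have hB0 : 0 ≤ B := by rw [hB]; positivity
  simp only [← ha, ← hR, ← hB] at hyp' ⊢
  have ha0 : ∀ k l, wgt s c i k l = 0 → a k l = 0 := by
    intro k l h
    rw [ha]
    show g k l (-(k + l)) * wgt s c i k l = 0
    rw [h, mul_zero]
  obtain ⟨P, hP⟩ : ∃ P : ℝ, P = 4 ^ c := ⟨_, rfl⟩
  have hP4 : (4 : ℝ) ^ (c + 1) = 4 * P := by rw [hP, pow_succ]; ring
  obtain ⟨wl, hwl⟩ : ∃ wl : (Wv → ℂ) → Wv → ℂ, ∀ w k, wl w k =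
      if 4 * nsq k < P then w k else 0 := ⟨fun w k => if 4 * nsq k < P then w k else 0,
        fun _ _ => rfl⟩
  obtain ⟨wh, hwh⟩ : ∃ wh : (Wv → ℂ) → Wv → ℂ, ∀ w k, wh w k =
      if P ≤ 4 * nsq k ∧ nsq k < 4 * P then w k else 0 :=
    ⟨fun w k => if P ≤ 4 * nsq k ∧ nsq k < 4 * P then w k else 0, fun _ _ => rfl⟩
  obtain ⟨wz, hwz⟩ : ∃ wz : (Wv → ℂ) → Wv → ℂ, ∀ w k, wz w k =
      if nsq k < 4 * P then w k else 0 :=
    ⟨fun w k => if nsq k < 4 * P then w k else 0, fun _ _ => rfl⟩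
  have hterm : ∀ k l, (a k l : ℂ) * x k * y l * z (-(k + l)) =
      (a k l : ℂ) * wl x k * wh y l * wh z (-(k + l)) +
      (a k l : ℂ) * wh x k * wl y l * wh z (-(k + l)) +
      (a k l : ℂ) * wh x k * wh y l * wz z (-(k + l)) := by
    intro k l
    by_cases hw : wgt s c i k l = 0
    · rw [ha0 k l hw]
      simp
    · obtain ⟨h1, h2, h3, h4⟩ := shl_wgt_ne hw
      rw [hP4] at h1 h2 h3
      rw [← hP] at h4
      have t1 := shl_nsq_add k l
      have t2 := shl_nsq_sub k l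
      have t3 := shl_nsq_sub' k l
      have n1 := shl_nsq_nonneg k
      have n2 := shl_nsq_nonneg l
      have n3 := shl_nsq_nonneg (k + l)
      rw [hwl, hwl, hwh, hwh, hwh, hwz, shl_nsq_neg]
      by_cases c1 : 4 * nsq k < P
      · by_cases c2 : 4 * nsq l < P
        · exfalso
          rcases h4 with h4 | h4 | h4 <;> linarith
        · by_cases c3 : 4 * nsq (k + l) < P
          · exfalso
            rcases h4 with h4 | h4 | h4 <;> linarith
          · have k1 : ¬(P ≤ 4 * nsq k ∧ nsq k < 4 * P) := fun h => absurd c1 (not_lt.2 h.1)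
            have k2 : P ≤ 4 * nsq l ∧ nsq l < 4 * P := ⟨not_lt.1 c2, h2⟩
            have k3 : P ≤ 4 * nsq (k + l) ∧ nsq (k + l) < 4 * P := ⟨not_lt.1 c3, h3⟩
            simp only [if_pos c1, if_neg k1, if_pos k2, if_pos k3, if_neg c2, if_pos h3]
            ring
      · by_cases c2 : 4 * nsq l < P
        · by_cases c3 : 4 * nsq (k + l) < P
          · exfalso
            rcases h4 with h4 | h4 | h4 <;> linarith
          · have k1 : P ≤ 4 * nsq k ∧ nsq k < 4 * P := ⟨not_lt.1 c1, h1⟩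
            have k2 : ¬(P ≤ 4 * nsq l ∧ nsq l < 4 * P) := fun h => absurd c2 (not_lt.2 h.1)
            have k3 : P ≤ 4 * nsq (k + l) ∧ nsq (k + l) < 4 * P := ⟨not_lt.1 c3, h3⟩
            simp only [if_neg c1, if_pos k1, if_neg k2, if_pos k3, if_pos c2, if_pos h3]
            ring
        · have k1 : P ≤ 4 * nsq k ∧ nsq k < 4 * P := ⟨not_lt.1 c1, h1⟩
          have k2 : P ≤ 4 * nsq l ∧ nsq l < 4 * P := ⟨not_lt.1 c2, h2⟩
          simp only [if_neg c1, if_pos k1, if_pos k2, if_neg c2, if_pos h3]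
          ring
  -- the sum over the cube of radius `R`
  have hTR : Tri a n x y z = Tri a R x y z := by
    rw [shl_tri_big a (le_max_left n R) x y z (by
      intro k l h
      rcases h with h | h
      · rw [(h0 k h).1]; ring
      · rw [(h0 l h).2.1]; ring)]
    rw [shl_tri_big a (le_max_right n R) x y z (by
      intro k l h
      have h1 : wgt s c i k l = 0 := by
        by_contra hne
        obtain ⟨h1, h2, -, -⟩ := shl_wgt_ne hne
        rw [hR] at h
        rcases h with h | h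
        · exact absurd (shl_big h) (not_le.2 h1)
        · exact absurd (shl_big h) (not_le.2 h2)
      rw [ha0 k l h1]
      simp)]
  have hsplit : Tri a R x y z = Tri a R (wl x) (wh y) (wh z) + Tri a R (wh x) (wl y) (wh z) +
      Tri a R (wh x) (wh y) (wz z) := by
    unfold Tri
    rw [← Finset.sum_add_distrib, ← Finset.sum_add_distrib]
    refine Finset.sum_congr rfl fun k _ => ?_
    rw [← Finset.sum_add_distrib, ← Finset.sum_add_distrib]
    exact Finset.sum_congr rfl fun l _ => hterm k l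
  have hNl : ∀ w : Wv → ℂ, (∀ k, k ∉ cub n → w k = 0) → N2 R (wl w) ≤ N2 n w := by
    intro w hw
    unfold N2
    apply Real.sqrt_le_sqrt
    apply shl_sum (fun k => sq_nonneg _)
    · intro k
      rw [hwl]
      split_ifs
      · exact le_rfl
      · rw [norm_zero, zero_pow two_ne_zero]
        exact sq_nonneg _
    · intro k hk
      rw [hwl, hw k hk]
      simp
  have hNz : ∀ w : Wv → ℂ, (∀ k, k ∉ cub n → w k = 0) → N2 R (wz w) ≤ N2 n w := by
    intro w hw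
    unfold N2
    apply Real.sqrt_le_sqrt
    apply shl_sum (fun k => sq_nonneg _)
    · intro k
      rw [hwz]
      split_ifs
      · exact le_rfl
      · rw [norm_zero, zero_pow two_ne_zero]
        exact sq_nonneg _
    · intro k hk
      rw [hwz, hw k hk]
      simp
  have hNh : ∀ w : Wv → ℂ, (∀ k, k ∉ cub n → w k = 0) → N2 R (wh w) ≤ Hc n c w := by
    intro w hw
    unfold N2 Hc
    apply Real.sqrt_le_sqrt
    apply shl_sum (fun k => sq_nonneg _)
    · intro k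
      rw [hwh]
      split_ifs
      · exact le_rfl
      · rw [norm_zero, zero_pow two_ne_zero]
        exact sq_nonneg _
    · intro k hk
      rw [hwh]
      by_cases hkn : k ∈ cub n
      · rw [if_neg]
        · simp
        · intro h
          apply hk
          rw [Finset.mem_filter, hP4, ← hP]
          exact ⟨hkn, h⟩
      · rw [hw k hkn]
        simp
  have hx : ∀ k, k ∉ cub n → x k = 0 := fun k hk => (h0 k hk).1
  have hy : ∀ k, k ∉ cub n → y k = 0 := fun k hk => (h0 k hk).2.1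
  have hz : ∀ k, k ∉ cub n → z k = 0 := fun k hk => (h0 k hk).2.2
  have N0 : ∀ (R : ℕ) (w : Wv → ℂ), 0 ≤ N2 R w := fun R w => Real.sqrt_nonneg _
  have H0 : ∀ w : Wv → ℂ, 0 ≤ Hc n c w := fun w => Real.sqrt_nonneg _
  have e1 : ‖Tri a R (wl x) (wh y) (wh z)‖ ≤ B * (N2 n x * Hc n c y * Hc n c z) := by
    refine (hyp' _ _ _).trans (mul_le_mul_of_nonneg_left ?_ hB0)
    exact mul_le_mul (mul_le_mul (hNl x hx) (hNh y hy) (N0 _ _) (N0 _ _)) (hNh z hz) (N0 _ _)
      (mul_nonneg (N0 _ _) (H0 _))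
  have e2 : ‖Tri a R (wh x) (wl y) (wh z)‖ ≤ B * (N2 n y * Hc n c x * Hc n c z) := by
    refine (hyp' _ _ _).trans (mul_le_mul_of_nonneg_left ?_ hB0)
    rw [mul_comm (N2 n y)]
    exact mul_le_mul (mul_le_mul (hNh x hx) (hNl y hy) (N0 _ _) (H0 _)) (hNh z hz) (N0 _ _)
      (mul_nonneg (H0 _) (N0 _ _))
  have e3 : ‖Tri a R (wh x) (wh y) (wz z)‖ ≤ B * (N2 n z * Hc n c x * Hc n c y) := by
    refine (hyp' _ _ _).trans (mul_le_mul_of_nonneg_left ?_ hB0)
    have e : N2 n z * Hc n c x * Hc n c y = Hc n c x * Hc n c y * N2 n z := by ring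
    rw [e]
    exact mul_le_mul (mul_le_mul (hNh x hx) (hNh y hy) (N0 _ _) (H0 _)) (hNz z hz) (N0 _ _)
      (mul_nonneg (H0 _) (H0 _))
  rw [hTR, hsplit]
  refine (norm_add₃_le).trans ?_
  rw [mul_add, mul_add]
  exact add_le_add (add_le_add e1 e2) e3

end Pool.Agent.N983.RT
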