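import Pool.Agent.N983.RT.Stm

set_option autoImplicit false

/-!
Summability of `(1 + |k|²)⁻³` over the lattice.
-/

namespace Pool.Agent.N983.RT

open Finset

lemma sum_one : Summable fun n : ℤ => (1 + (n : ℝ) ^ 2)⁻¹ := by
  have h1 : Summable fun n : ℤ => 1 / (n : ℝ) ^ 2 :=
    Real.summable_one_div_int_pow.mpr (by norm_num)
  have h2 : Summable fun n : ℤ => if n = 0 then (1 : ℝ) else 0 :=
    summable_of_ne_finset_zero (s := {0}) (by
      intro b hb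
      rw [Finset.mem_singleton] at hb
      simp [hb])
  refine Summable.of_nonneg_of_le (fun n => by positivity) (fun n => ?_) (h1.add h2)
  by_cases hn : n = 0
  · subst hn; simp
  · rw [if_neg hn, add_zero, one_div]
    have : (0 : ℝ) < (n : ℝ) ^ 2 := by positivity
    exact inv_anti₀ this (by linarith)

lemma sum_nsq_ge (k : Wv) (i : Fin 3) : (k i : ℝ) ^ 2 ≤ nsq k :=
  Finset.single_le_sum (f := fun i => (k i : ℝ) ^ 2) (fun _ _ => sq_nonneg _) (Finset.mem_univ i)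

lemma sum_term (k : Wv) : ((1 + nsq k) ^ 3)⁻¹ ≤ ∏ i, (1 + (k i : ℝ) ^ 2)⁻¹ := by
  rw [Finset.prod_inv_distrib]
  have hp : 0 < ∏ i, (1 + (k i : ℝ) ^ 2) := Finset.prod_pos fun i _ => by positivity
  refine inv_anti₀ hp ?_
  calc ∏ i, (1 + (k i : ℝ) ^ 2) ≤ ∏ _i : Fin 3, (1 + nsq k) :=
        Finset.prod_le_prod (fun i _ => by positivity) fun i _ => by linarith [sum_nsq_ge k i]
    _ = (1 + nsq k) ^ 3 := by simp

theorem t_SUM : S_SUM := by
  unfold S_SUM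
  have hn : ∀ k : Wv, 0 ≤ nsq k := fun k => Finset.sum_nonneg fun i _ => sq_nonneg _
  have hf : ∀ n : ℤ, 0 ≤ (1 + (n : ℝ) ^ 2)⁻¹ := fun n => by positivity
  refine summable_of_sum_le (c := (∑' n : ℤ, (1 + (n : ℝ) ^ 2)⁻¹) ^ 3)
    (fun k => by have := hn k; positivity) fun s => ?_
  have hsub : s ⊆ Fintype.piFinset (fun i : Fin 3 => (s.image (fun k : Wv => k i) : Finset ℤ)) := by
    intro k hk
    rw [Fintype.mem_piFinset]
    intro i
    exact Finset.mem_image_of_mem _ hk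
  calc ∑ k ∈ s, ((1 + nsq k) ^ 3)⁻¹ ≤ ∑ k ∈ s, ∏ i, (1 + (k i : ℝ) ^ 2)⁻¹ :=
        Finset.sum_le_sum fun k _ => sum_term k
    _ ≤ ∑ k ∈ Fintype.piFinset (fun i : Fin 3 => (s.image (fun k : Wv => k i) : Finset ℤ)),
          ∏ i, (1 + (((k i : ℤ)) : ℝ) ^ 2)⁻¹ :=
        Finset.sum_le_sum_of_subset_of_nonneg hsub fun k _ _ =>
          Finset.prod_nonneg fun i _ => hf _
    _ = ∏ i : Fin 3, ∑ n ∈ (s.image (fun k : Wv => k i) : Finset ℤ), (1 + ((n : ℤ) : ℝ) ^ 2)⁻¹ := by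
        rw [Finset.prod_univ_sum]
    _ ≤ ∏ _i : Fin 3, ∑' n : ℤ, (1 + (n : ℝ) ^ 2)⁻¹ :=
        Finset.prod_le_prod (fun i _ => Finset.sum_nonneg fun n _ => hf n) fun i _ =>
          sum_one.sum_le_tsum _ fun n _ => hf n
    _ = (∑' n : ℤ, (1 + (n : ℝ) ^ 2)⁻¹) ^ 3 := by simp

end Pool.Agent.N983.RT
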