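import Pool.Agent.N983.RT.Def

set_option autoImplicit false

/-! Statements of the parts of the proof. -/

namespace Pool.Agent.N983.RT

open MeasureTheory ProbabilityTheory

/-! Deterministic part. -/

/-- (ALG) the nonlinear term in the energy balance -/
def S_ALG : Prop := ∀ (g : Wv → Wv → Wv → ℝ) (n : ℕ) (u : Fld), Arr g → Adm u →
  (∀ k, k ∉ cub n → u k = 0) →
    (∀ s : ℕ, flux (cutg n g) s n u = (-Complex.I * form g s n u).re) ∧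
    flux (cutg n g) 0 n u = 0

/-- `ℓ²` norm on the wave vectors with length in `[2 ^ (c-1), 2 ^ (c+1))` -/
noncomputable def Hc (n c : ℕ) (w : Wv → ℂ) : ℝ :=
  open Classical in
  Real.sqrt (∑ k ∈ (cub n).filter fun k => (4 : ℝ) ^ c ≤ 4 * nsq k ∧ nsq k < (4 : ℝ) ^ (c + 1),
    ‖w k‖ ^ 2)

/-- (SUM) summability -/
def S_SUM : Prop := Summable fun k : Wv => ((1 + nsq k) ^ 3)⁻¹

/-- (SHL) one dyadic shell: at least two of the three wave vectors are large -/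
def S_SHL : Prop := ∀ (g : Wv → Wv → Wv → ℝ) (κ : ℝ) (s : ℕ) (i : Fin 3) (C : ℝ), 0 ≤ C →
  (∀ (c : ℕ) (x y z : Wv → ℂ),
    ‖Tri (fun k l => g k l (-(k + l)) * wgt s c i k l) (2 ^ (c + 1)) x y z‖ ≤
      C * ((2 : ℝ) ^ c) ^ (1 + 2 * (s : ℝ) + κ) *
        (N2 (2 ^ (c + 1)) x * N2 (2 ^ (c + 1)) y * N2 (2 ^ (c + 1)) z)) →
  ∀ (c n : ℕ) (x y z : Wv → ℂ), (∀ k, k ∉ cub n → x k = 0 ∧ y k = 0 ∧ z k = 0) →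
    ‖Tri (fun k l => g k l (-(k + l)) * wgt s c i k l) n x y z‖ ≤
      C * ((2 : ℝ) ^ c) ^ (1 + 2 * (s : ℝ) + κ) *
        (N2 n x * Hc n c y * Hc n c z + N2 n y * Hc n c x * Hc n c z +
          N2 n z * Hc n c x * Hc n c y)

/-- (EST) the main estimate -/
def S_EST : Prop := ∀ (g : Wv → Wv → Wv → ℝ) (κ : ℝ), -1 < κ → TB g κ → ∀ s : ℕ, ∃ C : ℝ, 0 ≤ C ∧
  ∀ (n : ℕ) (u : Fld), u 0 = 0 → (∀ k, k ∉ cub n → u k = 0) →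
    ‖form g s n u‖ ≤ C * Real.sqrt (En 0 n u) * Er ((s : ℝ) + (1 + κ) / 2) n u

/-- (APR) a priori bounds for the truncated systems -/
def S_APR : Prop := S_SUM → S_ALG → S_EST → ∀ (g : Wv → Wv → Wv → ℝ) (ν α κ : ℝ), Arr g → 0 < ν →
  -1 < κ → (1 + κ) / 2 < α → TB g κ → ∀ u₀ : Fld, Adm u₀ → Rapid u₀ → ∀ (s : ℕ) (T : ℝ),
    ∃ C : ℝ, ∀ (n : ℕ) (u : ℝ → Fld), IsSol (cutg n g) ν α u → u 0 = cut n u₀ →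
      (∀ t, 0 ≤ t → ∀ k, k ∉ cub n → u t k = 0) → ∀ t, 0 ≤ t → t ≤ T → En s n (u t) ≤ C

/-- (ODE) the truncated systems have global solutions -/
def S_ODE : Prop := S_ALG → ∀ (g : Wv → Wv → Wv → ℝ) (ν α : ℝ) (n : ℕ), Arr g → 0 < ν →
  ∀ S : Set Wv, (∀ k l m, m ∉ S → g k l m = 0) →
  ∀ u₀ : Fld, Adm u₀ → (∀ k, k ∉ S → u₀ k = 0) →
    ∃ u : ℝ → Fld, IsSol (cutg n g) ν α u ∧ u 0 = cut n u₀ ∧
      (∀ t, 0 ≤ t → ∀ k, k ∉ cub n → u t k = 0) ∧ ∀ t, 0 ≤ t → ∀ k, k ∉ S → u t k = 0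

/-- rapid decay with given constants -/
def Dcy (Cs : ℕ → ℝ) (u : Fld) : Prop := ∀ (s : ℕ) (k : Wv) (i : Fin 3),
  (1 + nsq k) ^ s * ‖u k i‖ ≤ Cs s

/-- (RHS) bounds for the right-hand side -/
def S_RHS : Prop := S_SUM → ∀ (ν α : ℝ) (Cs : ℕ → ℝ),
  (∀ p : ℕ, ∃ D : ℝ, ∀ g : Wv → Wv → Wv → ℝ, (∀ k l m, |g k l m| ≤ 1) → ∀ u : Fld, Dcy Cs u →
    ∀ m, m ≠ 0 → ∀ j, (1 + nsq m) ^ p * ‖rhs g ν α u m j‖ ≤ D) ∧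
  ∀ m, m ≠ 0 → ∃ D : ℝ, ∀ g : Wv → Wv → Wv → ℝ, (∀ k l m, |g k l m| ≤ 1) → ∀ u v : Fld,
    Dcy Cs u → Dcy Cs v → ∀ δ : ℝ, (∀ k i, (1 + nsq k) ^ 3 * ‖u k i - v k i‖ ≤ δ) →
      ∀ j, ‖rhs g ν α u m j - rhs g ν α v m j‖ ≤ D * δ

/-- (CMP) passage to the limit -/
def S_CMP : Prop := S_SUM → S_RHS → ∀ (g : Wv → Wv → Wv → ℝ) (ν α : ℝ), Arr g → 0 < ν → 0 < α →
  ∀ u₀ : Fld, Adm u₀ → Rapid u₀ → ∀ U : ℕ → ℝ → Fld, (∀ n, IsSol (cutg n g) ν α (U n)) →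
  (∀ n, U n 0 = cut n u₀) →
  (∀ (T : ℝ) (s : ℕ), ∃ C : ℝ, ∀ n t, 0 ≤ t → t ≤ T → ∀ k i, (1 + nsq k) ^ s * ‖U n t k i‖ ≤ C) →
  ∀ S : Set Wv, (∀ n t, 0 ≤ t → ∀ k, k ∉ S → U n t k = 0) →
    ∃ u : ℝ → Fld, IsSol g ν α u ∧ u 0 = u₀ ∧ ∀ t, 0 ≤ t → ∀ k, k ∉ S → u t k = 0

/-- (UNQ) uniqueness -/
def S_UNQ : Prop := S_SUM → ∀ (g : Wv → Wv → Wv → ℝ) (ν α : ℝ), Arr g → 0 < ν → 0 < α →
  ∀ u v : ℝ → Fld, IsSol g ν α u → IsSol g ν α v → u 0 = v 0 → ∀ t, 0 ≤ t → u t = v t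

/-! Random signs. -/

/-- (HOE) Hoeffding's inequality -/
def S_HOE : Prop := ∀ (Ω : Type) [MeasurableSpace Ω] (μ : Measure Ω) [IsProbabilityMeasure μ]
  (X : Sym2 (Finset Wv) → Ω → ℝ), (∀ c, Measurable (X c)) → iIndepFun X μ →
  (∀ c, μ {ω | X c ω = 1} = 1 / 2 ∧ μ {ω | X c ω = -1} = 1 / 2) →
  ∀ (F : Finset (Sym2 (Finset Wv))) (a : Sym2 (Finset Wv) → ℝ) (t V : ℝ), 0 ≤ t → 0 < V →
    ∑ c ∈ F, a c ^ 2 ≤ V →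
    μ {ω | t ≤ |∑ c ∈ F, a c * X c ω|} ≤ ENNReal.ofReal (2 * Real.exp (-t ^ 2 / (2 * V)))

/-- the sum over a box -/
noncomputable def Box (a : Wv → Wv → ℝ) (A B C : Finset Wv) : ℝ :=
  ∑ k ∈ A, ∑ l ∈ B, if -(k + l) ∈ C then a k l else 0

/-- (UNI) all boxes at once -/
def S_UNI : Prop := S_HOE → ∀ (Ω : Type) [MeasurableSpace Ω] (μ : Measure Ω)
  [IsProbabilityMeasure μ] (X : Sym2 (Finset Wv) → Ω → ℝ), (∀ c, Measurable (X c)) →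
  iIndepFun X μ → (∀ c, μ {ω | X c ω = 1} = 1 / 2 ∧ μ {ω | X c ω = -1} = 1 / 2) →
  ∀ (R : ℕ), 1 ≤ R → ∀ w : Wv → Wv → ℝ, (∀ k l, |w k l| ≤ 1) →
    μ {ω | ∃ A ⊆ cub R, ∃ B ⊆ cub R, ∃ C ⊆ cub R, A.Nonempty ∧ B.Nonempty ∧ C.Nonempty ∧
      30 * Real.sqrt (Real.log (2 * R + 1)) * Real.sqrt ((A.card : ℝ) * B.card * C.card) <
        |Box (fun k l => sgn X ω k l (-(k + l)) * w k l) A B C|} ≤
      ENNReal.ofReal (100 / (R : ℝ))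

/-- (DIG) from boxes to vectors -/
def S_DIG : Prop := ∃ C₀ : ℝ, 0 ≤ C₀ ∧ ∀ (R : ℕ), 1 ≤ R → ∀ (a : Wv → Wv → ℝ) (L : ℝ), 0 ≤ L →
  (∀ k l, a k l ≠ 0 → -(k + l) ∈ cub R) →
  (∀ A ⊆ cub R, ∀ B ⊆ cub R, ∀ C ⊆ cub R, A.Nonempty → B.Nonempty → C.Nonempty →
    |Box a A B C| ≤ L * Real.sqrt ((A.card : ℝ) * B.card * C.card)) →
  ∀ x y z : Wv → ℂ, ‖Tri a R x y z‖ ≤
    C₀ * L * (1 + Real.log (2 * R + 1)) ^ 3 * (N2 R x * N2 R y * N2 R z)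

/-- (BCS) the bound for random signs -/
def S_BCS : Prop := S_UNI → S_HOE → S_DIG → ∀ (Ω : Type) [MeasurableSpace Ω] (μ : Measure Ω)
  [IsProbabilityMeasure μ] (X : Sym2 (Finset Wv) → Ω → ℝ), (∀ c, Measurable (X c)) →
  iIndepFun X μ → (∀ c, μ {ω | X c ω = 1} = 1 / 2 ∧ μ {ω | X c ω = -1} = 1 / 2) →
  ∀ᵐ ω ∂μ, ∀ κ : ℝ, 0 < κ → TB (sgn X ω) κ

/-! Random sets of wave vectors. -/

open Classical in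
/-- the number of the `m` with `m`, `p - m`, `q - m` in `K` -/
noncomputable def cnt (K : Set Wv) (R : ℕ) (p q : Wv) : ℕ :=
  ((cub R).filter fun m => m ∈ K ∧ p - m ∈ K ∧ q - m ∈ K).card

/-- (CS) Cauchy-Schwarz -/
def S_CS : Prop := ∀ (K : Set Wv) (R : ℕ) (a : Wv → Wv → ℝ) (M : ℝ), 0 ≤ M → (∀ k ∈ K, -k ∈ K) →
  (0 : Wv) ∉ K → (∀ k l, |a k l| ≤ 1) →
  (∀ k l, a k l ≠ 0 → k ∈ K ∧ l ∈ K ∧ k + l ∈ K ∧ k + l ∈ cub R) →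
  (∀ p ∈ cub R, ∀ q ∈ cub R, p ≠ q → p ≠ 0 → q ≠ 0 → (cnt K R p q : ℝ) ≤ M) →
  ∀ x y z : Wv → ℂ, ‖Tri a R x y z‖ ≤ Real.sqrt (2 + M) * (N2 R x * N2 R y * N2 R z)

/-- the variables which decide whether `m`, `p - m`, `q - m` are kept -/
def cls (p q m : Wv) : Finset (Sym2 Wv) := {s(m, -m), s(p - m, -(p - m)), s(q - m, -(q - m))}

/-- (IND) many independent events -/
def S_IND : Prop := ∀ (A : Finset Wv) (p q : Wv), p ≠ q → p ≠ 0 → q ≠ 0 → ∀ s : ℕ,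
  19 * s + 3 ≤ A.card → ∃ T ⊆ A, T.card = s ∧ (∀ m ∈ T, (cls p q m).card = 3) ∧
    ∀ m ∈ T, ∀ m' ∈ T, m ≠ m' → Disjoint (cls p q m) (cls p q m')

/-- (ESY) elementary symmetric functions -/
def S_ESY : Prop := ∀ (A : Finset Wv) (r : Wv → ℝ), (∀ m, 0 ≤ r m) → ∀ s : ℕ,
  ∑ T ∈ A.powersetCard s, ∏ m ∈ T, r m ≤ (∑ m ∈ A, r m) ^ s / s.factorial

/-- (TAIL) the distribution of the number of the `m` -/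
def S_TAIL : Prop := S_IND → S_ESY → ∀ (Ω : Type) [MeasurableSpace Ω] (μ : Measure Ω) [IsProbabilityMeasure μ]
  (Y : Sym2 Wv → Ω → ℝ), (∀ c, Measurable (Y c)) → iIndepFun Y μ →
  ∀ ρ : Wv → ℝ, (∀ k, 0 ≤ ρ k) →
  (∀ k, k ≠ 0 → μ {ω | Y s(k, -k) ω = 1} ≤ ENNReal.ofReal (ρ k)) →
  ∀ (R : ℕ) (p q : Wv), p ≠ q → p ≠ 0 → q ≠ 0 → ∀ s : ℕ,
    μ {ω | 19 * s + 3 ≤ cnt (kept Y ω) R p q} ≤
      ENNReal.ofReal ((∑ m ∈ cub R, ρ m * ρ (p - m) * ρ (q - m)) ^ s / s.factorial)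

/-- (LAT) the expected number -/
def S_LAT : Prop := ∀ a : ℝ, 0 ≤ a → a < 1 → ∃ C : ℝ, 0 ≤ C ∧ ∀ (R : ℕ), 1 ≤ R →
  ∀ p ∈ cub R, ∀ q ∈ cub R,
    ∑ m ∈ cub R, (if m = 0 then 0 else nsq m ^ (-a / 2)) *
      (if p - m = 0 then 0 else nsq (p - m) ^ (-a / 2)) *
      (if q - m = 0 then 0 else nsq (q - m) ^ (-a / 2)) ≤ C * (R : ℝ) ^ (3 - 3 * a)

/-- (BCD) the bound for random sets -/
def S_BCD : Prop := S_CS → S_IND → S_ESY → S_TAIL → S_LAT → ∀ a : ℝ, 0 ≤ a → a < 1 →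
  ∀ (Ω : Type) [MeasurableSpace Ω] (μ : Measure Ω) [IsProbabilityMeasure μ]
  (Y : Sym2 Wv → Ω → ℝ), (∀ c, Measurable (Y c)) → iIndepFun Y μ →
  (∀ k, k ≠ 0 → μ {ω | Y s(k, -k) ω = 1} ≤ ENNReal.ofReal (nsq k ^ (-a / 2))) →
  ∀ᵐ ω ∂μ, ∀ κ : ℝ, (3 - 3 * a) / 2 < κ → TB (dec (kept Y ω)) κ

end Pool.Agent.N983.RT
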