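import Pool.Agent.N983.RT.Stm

set_option autoImplicit false

/-! Statements for random coefficients with a mean. -/

namespace Pool.Agent.N983.RT

open MeasureTheory ProbabilityTheory

/-- square of the length of the longest wave vector -/
noncomputable def mx (k l m : Wv) : ℝ := max (nsq k) (max (nsq l) (nsq m))

/-- square of the length of the shortest wave vector -/
noncomputable def mn (k l m : Wv) : ℝ := min (nsq k) (min (nsq l) (nsq m))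

/-- the estimate of the nonlinear term in the energy balance -/
def HE (g : Wv → Wv → Wv → ℝ) (κ : ℝ) : Prop := ∀ s : ℕ, ∃ C : ℝ, 0 ≤ C ∧
  ∀ (n : ℕ) (u : Fld), Adm u → (∀ k, k ∉ cub n → u k = 0) →
    ‖form g s n u‖ ≤ C * Real.sqrt (En 0 n u) * Er ((s : ℝ) + (1 + κ) / 2) n u

/-- (APR2) a priori bounds for the truncated systems -/
def S_APR2 : Prop := S_SUM → S_ALG → ∀ (g : Wv → Wv → Wv → ℝ) (ν α κ : ℝ), Arr g → 0 < ν →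
  -1 < κ → (1 + κ) / 2 < α → HE g κ → ∀ u₀ : Fld, Adm u₀ → Rapid u₀ → ∀ (s : ℕ) (T : ℝ),
    ∃ C : ℝ, ∀ (n : ℕ) (u : ℝ → Fld), IsSol (cutg n g) ν α u → u 0 = cut n u₀ →
      (∀ t, 0 ≤ t → ∀ k, k ∉ cub n → u t k = 0) → ∀ t, 0 ≤ t → t ≤ T → En s n (u t) ≤ C

/-- (PNT) deterministic coefficients which are small if all three wave vectors are long -/
def S_PNT : Prop := ∀ (g : Wv → Wv → Wv → ℝ) (B β κ : ℝ), Arr g → 0 ≤ B → -1 < κ →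
  β < (1 + κ) / 2 → (∀ k l m, k ≠ 0 → l ≠ 0 → m ≠ 0 → k + l + m = 0 →
    |g k l m| * mn k l m ^ (5 / 4 : ℝ) ≤ B * mx k l m ^ β) → HE g κ

/-- (HOE2) Hoeffding's inequality -/
def S_HOE2 : Prop := ∀ (Ω : Type) [MeasurableSpace Ω] (μ : Measure Ω) [IsProbabilityMeasure μ]
  (X : Sym2 (Finset Wv) → Ω → ℝ), (∀ c, Measurable (X c)) → iIndepFun X μ →
  (∀ c, (∀ᵐ ω ∂μ, |X c ω| ≤ 1) ∧ ∫ ω, X c ω ∂μ = 0) →
  ∀ (F : Finset (Sym2 (Finset Wv))) (a : Sym2 (Finset Wv) → ℝ) (t V : ℝ), 0 ≤ t → 0 < V →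
    ∑ c ∈ F, a c ^ 2 ≤ V →
    μ {ω | t ≤ |∑ c ∈ F, a c * X c ω|} ≤ ENNReal.ofReal (2 * Real.exp (-t ^ 2 / (2 * V)))

/-- (UNI2) all boxes at once -/
def S_UNI2 : Prop := S_HOE2 → ∀ (Ω : Type) [MeasurableSpace Ω] (μ : Measure Ω)
  [IsProbabilityMeasure μ] (X : Sym2 (Finset Wv) → Ω → ℝ), (∀ c, Measurable (X c)) →
  iIndepFun X μ → (∀ c, (∀ᵐ ω ∂μ, |X c ω| ≤ 1) ∧ ∫ ω, X c ω ∂μ = 0) →
  ∀ (R : ℕ), 1 ≤ R → ∀ w : Wv → Wv → ℝ, (∀ k l, |w k l| ≤ 1) →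
    μ {ω | ∃ A ⊆ cub R, ∃ B ⊆ cub R, ∃ C ⊆ cub R, A.Nonempty ∧ B.Nonempty ∧ C.Nonempty ∧
      30 * Real.sqrt (Real.log (2 * R + 1)) * Real.sqrt ((A.card : ℝ) * B.card * C.card) <
        |Box (fun k l => sgn X ω k l (-(k + l)) * w k l) A B C|} ≤
      ENNReal.ofReal (100 / (R : ℝ))

/-- (BCS2) the bound for random centred coefficients -/
def S_BCS2 : Prop := S_UNI2 → S_HOE2 → S_DIG → ∀ (Ω : Type) [MeasurableSpace Ω] (μ : Measure Ω)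
  [IsProbabilityMeasure μ] (X : Sym2 (Finset Wv) → Ω → ℝ), (∀ c, Measurable (X c)) →
  iIndepFun X μ → (∀ c, (∀ᵐ ω ∂μ, |X c ω| ≤ 1) ∧ ∫ ω, X c ω ∂μ = 0) →
  ∀ᵐ ω ∂μ, ∀ κ : ℝ, 0 < κ → TB (sgn X ω) κ

/-- (DET) deterministic sets of wave vectors -/
def S_DET : Prop := S_CS → ∀ (K : Set Wv) (B γ : ℝ), (∀ k ∈ K, -k ∈ K) → (0 : Wv) ∉ K →
  0 ≤ B → 0 ≤ γ → (∀ R : ℕ, 1 ≤ R → ∀ p ∈ cub R, ∀ q ∈ cub R, p ≠ q → p ≠ 0 → q ≠ 0 →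
    (cnt K R p q : ℝ) ≤ B * (R : ℝ) ^ γ) → TB (dec K) (γ / 2)

end Pool.Agent.N983.RT
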