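import Pool.Agent.N983.RT.Stm

set_option autoImplicit false

/-! (TAIL): the distribution of the number of the `m`. -/

namespace Pool.Agent.N983.RT

open MeasureTheory ProbabilityTheory

theorem tail_cls_ne (p q m : Wv) (h : (cls p q m).card = 3) :
    s(m, -m) ≠ s(p - m, -(p - m)) ∧ s(m, -m) ≠ s(q - m, -(q - m)) ∧
      s(p - m, -(p - m)) ≠ s(q - m, -(q - m)) := by
  unfold cls at h
  refine ⟨?_, ?_, ?_⟩
  · intro he
    rw [he] at h
    have : ({s(p - m, -(p - m)), s(p - m, -(p - m)), s(q - m, -(q - m))} : Finset (Sym2 Wv)).card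
        ≤ 2 := by
      rw [Finset.insert_eq_of_mem (Finset.mem_insert_self _ _)]
      exact Finset.card_le_two
    omega
  · intro he
    rw [he] at h
    have : ({s(q - m, -(q - m)), s(p - m, -(p - m)), s(q - m, -(q - m))} : Finset (Sym2 Wv)).card
        ≤ 2 := by
      rw [Finset.insert_eq_of_mem (Finset.mem_insert_of_mem (Finset.mem_singleton_self _))]
      exact Finset.card_le_two
    omega
  · intro he
    rw [he] at h
    have : ({s(m, -m), s(q - m, -(q - m)), s(q - m, -(q - m))} : Finset (Sym2 Wv)).card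
        ≤ 2 := by
      rw [Finset.insert_eq_of_mem (Finset.mem_singleton_self (s(q - m, -(q - m))))]
      exact Finset.card_le_two
    omega

theorem tail_prod_cls (p q m : Wv) (h : (cls p q m).card = 3) (f : Sym2 Wv → ENNReal) :
    ∏ c ∈ cls p q m, f c =
      f s(m, -m) * f s(p - m, -(p - m)) * f s(q - m, -(q - m)) := by
  obtain ⟨h1, h2, h3⟩ := tail_cls_ne p q m h
  unfold cls
  rw [Finset.prod_insert (by simp only [Finset.mem_insert, Finset.mem_singleton]; tauto),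
    Finset.prod_insert (by simpa only [Finset.mem_singleton] using h3), Finset.prod_singleton,
    mul_assoc]

/-- the event that all `m ∈ T` are counted -/
def tail_G {Ω : Type} (Y : Sym2 Wv → Ω → ℝ) (p q : Wv) (T : Finset Wv) : Set Ω :=
  {ω | ∀ m ∈ T, m ∈ kept Y ω ∧ p - m ∈ kept Y ω ∧ q - m ∈ kept Y ω}

theorem tail_one {Ω : Type} [MeasurableSpace Ω] (μ : Measure Ω) [IsProbabilityMeasure μ]
    (Y : Sym2 Wv → Ω → ℝ) (hI : iIndepFun Y μ)
    (ρ : Wv → ℝ) (hρ : ∀ k, 0 ≤ ρ k)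
    (hY : ∀ k, k ≠ 0 → μ {ω | Y s(k, -k) ω = 1} ≤ ENNReal.ofReal (ρ k)) (p q : Wv)
    (T : Finset Wv) (h3 : ∀ m ∈ T, (cls p q m).card = 3)
    (hd : ∀ m ∈ T, ∀ m' ∈ T, m ≠ m' → Disjoint (cls p q m) (cls p q m')) :
    μ (tail_G Y p q T) ≤ ENNReal.ofReal (∏ m ∈ T, ρ m * ρ (p - m) * ρ (q - m)) := by
  classical
  by_cases hz : ∀ m ∈ T, m ≠ 0 ∧ p - m ≠ 0 ∧ q - m ≠ 0
  · have hsub : tail_G Y p q T ⊆ ⋂ c ∈ T.biUnion (cls p q), Y c ⁻¹' {1} := by
      intro ω hω
      simp only [Set.mem_iInter]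
      intro c hc
      obtain ⟨m, hm, hcm⟩ := Finset.mem_biUnion.1 hc
      obtain ⟨w1, w2, w3⟩ := hω m hm
      unfold cls at hcm
      simp only [Finset.mem_insert, Finset.mem_singleton] at hcm
      rcases hcm with rfl | rfl | rfl
      · exact w1.2
      · exact w2.2
      · exact w3.2
    refine (measure_mono hsub).trans ?_
    rw [hI.measure_inter_preimage_eq_mul (T.biUnion (cls p q)) (sets := fun _ => {1})
      (fun _ _ => MeasurableSet.singleton 1)]
    rw [Finset.prod_biUnion (by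
      intro m hm m' hm' hmm
      exact hd m hm m' hm' hmm)]
    rw [ENNReal.ofReal_prod_of_nonneg (fun m _ =>
      mul_nonneg (mul_nonneg (hρ m) (hρ _)) (hρ _))]
    refine Finset.prod_le_prod' fun m hm => ?_
    rw [tail_prod_cls p q m (h3 m hm), ENNReal.ofReal_mul (mul_nonneg (hρ m) (hρ _)),
      ENNReal.ofReal_mul (hρ m)]
    obtain ⟨z1, z2, z3⟩ := hz m hm
    exact mul_le_mul' (mul_le_mul' (hY m z1) (hY _ z2)) (hY _ z3)
  · have he : tail_G Y p q T = ∅ := by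
      push Not at hz
      obtain ⟨m, hm, hz⟩ := hz
      refine Set.eq_empty_of_forall_notMem fun ω hω => ?_
      obtain ⟨w1, w2, w3⟩ := hω m hm
      exact w3.1 (hz w1.1 w2.1)
    rw [he, measure_empty]
    exact zero_le

theorem t_TAIL : S_TAIL := by
  classical
  intro hI hE Ω _ μ _ Y hYm hYi ρ hρ hY R p q hpq hp hq s
  set r : Wv → ℝ := fun m => ρ m * ρ (p - m) * ρ (q - m) with hr
  have hr0 : ∀ m, 0 ≤ r m := fun m => mul_nonneg (mul_nonneg (hρ m) (hρ _)) (hρ _)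
  set 𝒯 : Finset (Finset Wv) := ((cub R).powersetCard s).filter fun T =>
    (∀ m ∈ T, (cls p q m).card = 3) ∧
      ∀ m ∈ T, ∀ m' ∈ T, m ≠ m' → Disjoint (cls p q m) (cls p q m') with h𝒯
  have hsub : {ω | 19 * s + 3 ≤ cnt (kept Y ω) R p q} ⊆ ⋃ T ∈ 𝒯, tail_G Y p q T := by
    intro ω hω
    have hω' : 19 * s + 3 ≤ ((cub R).filter fun m =>
        m ∈ kept Y ω ∧ p - m ∈ kept Y ω ∧ q - m ∈ kept Y ω).card := by
      have h1 : 19 * s + 3 ≤ cnt (kept Y ω) R p q := hω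
      unfold cnt at h1
      convert h1
    obtain ⟨T, hT, hTc, h3, hd⟩ := hI _ p q hpq hp hq s hω'
    simp only [Set.mem_iUnion]
    refine ⟨T, ?_, ?_⟩
    · rw [h𝒯, Finset.mem_filter, Finset.mem_powersetCard]
      exact ⟨⟨hT.trans (Finset.filter_subset _ _), hTc⟩, h3, hd⟩
    · intro m hm
      exact (Finset.mem_filter.1 (hT hm)).2
  calc μ {ω | 19 * s + 3 ≤ cnt (kept Y ω) R p q} ≤ μ (⋃ T ∈ 𝒯, tail_G Y p q T) :=
        measure_mono hsub
    _ ≤ ∑ T ∈ 𝒯, μ (tail_G Y p q T) := measure_biUnion_finset_le _ _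
    _ ≤ ∑ T ∈ 𝒯, ENNReal.ofReal (∏ m ∈ T, r m) := by
        refine Finset.sum_le_sum fun T hT => ?_
        obtain ⟨-, h3, hd⟩ := Finset.mem_filter.1 hT
        exact tail_one μ Y hYi ρ hρ hY p q T h3 hd
    _ ≤ ∑ T ∈ (cub R).powersetCard s, ENNReal.ofReal (∏ m ∈ T, r m) :=
        Finset.sum_le_sum_of_subset (Finset.filter_subset _ _)
    _ = ENNReal.ofReal (∑ T ∈ (cub R).powersetCard s, ∏ m ∈ T, r m) :=
        (ENNReal.ofReal_sum_of_nonneg fun T _ => Finset.prod_nonneg fun m _ => hr0 m).symm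
    _ ≤ ENNReal.ofReal ((∑ m ∈ cub R, r m) ^ s / s.factorial) :=
        ENNReal.ofReal_le_ofReal (hE (cub R) r hr0 s)

end Pool.Agent.N983.RT
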