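import Pool.Agent.N983.RT.Stm

set_option autoImplicit false

/-! (UNI): the union bound over all boxes. -/

namespace Pool.Agent.N983.RT

open MeasureTheory ProbabilityTheory

/-- the class of a pair of wave vectors -/
def uni_cl (p : Wv × Wv) : Sym2 (Finset Wv) :=
  s(({p.1, p.2, -(p.1 + p.2)} : Finset Wv), ({-p.1, -p.2, -(-(p.1 + p.2))} : Finset Wv))

lemma uni_mem_sq {p : Wv × Wv} {S : Finset Wv}
    (h : ({p.1, p.2, -(p.1 + p.2)} : Finset Wv) = S) : p ∈ S ×ˢ S := by
  rw [Finset.mem_product, ← h]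
  simp

open Classical in
lemma uni_fib (P : Finset (Wv × Wv)) (p0 : Wv × Wv) :
    (P.filter fun p => uni_cl p = uni_cl p0).card ≤ 18 := by
  let S : Finset Wv := {p0.1, p0.2, -(p0.1 + p0.2)}
  let T : Finset Wv := {-p0.1, -p0.2, -(-(p0.1 + p0.2))}
  have h1 : (P.filter fun p => uni_cl p = uni_cl p0) ⊆ S ×ˢ S ∪ T ×ˢ T := by
    intro p hp
    have h2 := (Finset.mem_filter.1 hp).2
    rw [uni_cl, uni_cl, Sym2.eq_iff] at h2
    rw [Finset.mem_union]
    rcases h2 with ⟨h2, -⟩ | ⟨h2, -⟩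
    · exact Or.inl (uni_mem_sq h2)
    · exact Or.inr (uni_mem_sq h2)
  have hS : S.card ≤ 3 := Finset.card_le_three
  have hT : T.card ≤ 3 := Finset.card_le_three
  calc (P.filter fun p => uni_cl p = uni_cl p0).card ≤ (S ×ˢ S ∪ T ×ˢ T).card :=
        Finset.card_le_card h1
    _ ≤ (S ×ˢ S).card + (T ×ˢ T).card := Finset.card_union_le _ _
    _ = S.card * S.card + T.card * T.card := by rw [Finset.card_product, Finset.card_product]
    _ ≤ 3 * 3 + 3 * 3 := Nat.add_le_add (Nat.mul_le_mul hS hS) (Nat.mul_le_mul hT hT)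
    _ = 18 := by norm_num

/-- the pairs of a box -/
def uni_P (A B C : Finset Wv) : Finset (Wv × Wv) := (A ×ˢ B).filter fun p => -(p.1 + p.2) ∈ C

lemma uni_P1 (A B C : Finset Wv) : (uni_P A B C).card ≤ A.card * B.card := by
  rw [← Finset.card_product]
  exact Finset.card_filter_le _ _

lemma uni_P2 (A B C : Finset Wv) : (uni_P A B C).card ≤ A.card * C.card := by
  rw [← Finset.card_product]
  refine Finset.card_le_card_of_injOn (fun p => (p.1, -(p.1 + p.2))) ?_ ?_
  · intro p hp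
    have h1 := Finset.mem_filter.1 hp
    exact Finset.mem_product.2 ⟨(Finset.mem_product.1 h1.1).1, h1.2⟩
  · intro p _ p' _ h
    have h' : (p.1, -(p.1 + p.2)) = (p'.1, -(p'.1 + p'.2)) := h
    obtain ⟨h1, h2⟩ := Prod.mk.inj h'
    rw [h1] at h2
    exact Prod.ext h1 (add_left_cancel (neg_injective h2))

lemma uni_P3 (A B C : Finset Wv) : (uni_P A B C).card ≤ B.card * C.card := by
  rw [← Finset.card_product]
  refine Finset.card_le_card_of_injOn (fun p => (p.2, -(p.1 + p.2))) ?_ ?_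
  · intro p hp
    have h1 := Finset.mem_filter.1 hp
    exact Finset.mem_product.2 ⟨(Finset.mem_product.1 h1.1).2, h1.2⟩
  · intro p _ p' _ h
    have h' : (p.2, -(p.1 + p.2)) = (p'.2, -(p'.1 + p'.2)) := h
    obtain ⟨h1, h2⟩ := Prod.mk.inj h'
    rw [h1] at h2
    exact Prod.ext (add_right_cancel (neg_injective h2)) h1

lemma uni_P4 (A B C : Finset Wv) : ((uni_P A B C).card : ℝ) * (A.card + B.card + C.card) ≤
    3 * ((A.card : ℝ) * B.card * C.card) := by
  have h1 : ((uni_P A B C).card : ℝ) ≤ (A.card : ℝ) * B.card := by exact_mod_cast uni_P1 A B C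
  have h2 : ((uni_P A B C).card : ℝ) ≤ (A.card : ℝ) * C.card := by exact_mod_cast uni_P2 A B C
  have h3 : ((uni_P A B C).card : ℝ) ≤ (B.card : ℝ) * C.card := by exact_mod_cast uni_P3 A B C
  have ha : (0 : ℝ) ≤ A.card := Nat.cast_nonneg _
  have hb : (0 : ℝ) ≤ B.card := Nat.cast_nonneg _
  have hc : (0 : ℝ) ≤ C.card := Nat.cast_nonneg _
  nlinarith [mul_le_mul_of_nonneg_right h1 hc, mul_le_mul_of_nonneg_right h2 hb,
    mul_le_mul_of_nonneg_right h3 ha]

open Classical in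
/-- the coefficients of the classes -/
noncomputable def uni_al (w : Wv → Wv → ℝ) (P : Finset (Wv × Wv)) (c : Sym2 (Finset Wv)) : ℝ :=
  ∑ p ∈ P.filter (fun p => uni_cl p = c), w p.1 p.2

open Classical in
lemma uni_sum (w : Wv → Wv → ℝ) (P : Finset (Wv × Wv)) (Z : Sym2 (Finset Wv) → ℝ) :
    ∑ c ∈ P.image uni_cl, uni_al w P c * Z c = ∑ p ∈ P, Z (uni_cl p) * w p.1 p.2 := by
  rw [← Finset.sum_fiberwise_of_maps_to (fun p hp => Finset.mem_image_of_mem uni_cl hp)
    (fun p => Z (uni_cl p) * w p.1 p.2)]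
  refine Finset.sum_congr rfl fun c _ => ?_
  rw [uni_al, Finset.sum_mul]
  refine Finset.sum_congr rfl fun p hp => ?_
  rw [(Finset.mem_filter.1 hp).2, mul_comm]

open Classical in
lemma uni_sq (w : Wv → Wv → ℝ) (hw : ∀ k l, |w k l| ≤ 1) (P : Finset (Wv × Wv)) :
    ∑ c ∈ P.image uni_cl, uni_al w P c ^ 2 ≤ 18 * (P.card : ℝ) := by
  have h1 : (P.card : ℝ) = ∑ c ∈ P.image uni_cl, ((P.filter fun p => uni_cl p = c).card : ℝ) := by
    rw [Finset.card_eq_sum_card_image uni_cl P]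
    push_cast
    rfl
  rw [h1, Finset.mul_sum]
  refine Finset.sum_le_sum fun c hc => ?_
  obtain ⟨p0, -, rfl⟩ := Finset.mem_image.1 hc
  have h2 : uni_al w P (uni_cl p0) ^ 2 ≤ ((P.filter fun p => uni_cl p = uni_cl p0).card : ℝ) *
      ∑ p ∈ P.filter (fun p => uni_cl p = uni_cl p0), w p.1 p.2 ^ 2 := sq_sum_le_card_mul_sum_sq
  have h3 : ∑ p ∈ P.filter (fun p => uni_cl p = uni_cl p0), w p.1 p.2 ^ 2 ≤
      ((P.filter fun p => uni_cl p = uni_cl p0).card : ℝ) := by
    calc ∑ p ∈ P.filter (fun p => uni_cl p = uni_cl p0), w p.1 p.2 ^ 2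
        ≤ ∑ p ∈ P.filter (fun p => uni_cl p = uni_cl p0), (1 : ℝ) := by
          refine Finset.sum_le_sum fun p _ => ?_
          rw [← sq_abs]
          exact pow_le_one₀ (abs_nonneg _) (hw _ _)
      _ = _ := by rw [Finset.sum_const, nsmul_eq_mul, mul_one]
  have h4 : ((P.filter fun p => uni_cl p = uni_cl p0).card : ℝ) ≤ 18 := by
    exact_mod_cast uni_fib P p0
  have h5 : (0 : ℝ) ≤ ((P.filter fun p => uni_cl p = uni_cl p0).card : ℝ) := Nat.cast_nonneg _
  calc uni_al w P (uni_cl p0) ^ 2 ≤ _ := h2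
    _ ≤ ((P.filter fun p => uni_cl p = uni_cl p0).card : ℝ) *
        ((P.filter fun p => uni_cl p = uni_cl p0).card : ℝ) :=
        mul_le_mul_of_nonneg_left h3 h5
    _ ≤ 18 * ((P.filter fun p => uni_cl p = uni_cl p0).card : ℝ) :=
        mul_le_mul_of_nonneg_right h4 h5

lemma uni_box {Ω : Type} (X : Sym2 (Finset Wv) → Ω → ℝ) (ω : Ω) (w : Wv → Wv → ℝ)
    (A B C : Finset Wv) : Box (fun k l => sgn X ω k l (-(k + l)) * w k l) A B C =
      ∑ p ∈ uni_P A B C, X (uni_cl p) ω * w p.1 p.2 := by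
  rw [Box, uni_P, Finset.sum_filter, Finset.sum_product]
  rfl

/-- one box -/
lemma uni_one (hH : S_HOE) (Ω : Type) [MeasurableSpace Ω] (μ : Measure Ω)
    [IsProbabilityMeasure μ] (X : Sym2 (Finset Wv) → Ω → ℝ) (hXm : ∀ c, Measurable (X c))
    (hXi : iIndepFun X μ) (hX : ∀ c, μ {ω | X c ω = 1} = 1 / 2 ∧ μ {ω | X c ω = -1} = 1 / 2)
    (q : ℝ) (hq : 0 ≤ q) (w : Wv → Wv → ℝ) (hw : ∀ k l, |w k l| ≤ 1) (A B C : Finset Wv)
    (hA : A.Nonempty) (hB : B.Nonempty) (hC : C.Nonempty) :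
    μ {ω | 30 * Real.sqrt q * Real.sqrt ((A.card : ℝ) * B.card * C.card) <
        |Box (fun k l => sgn X ω k l (-(k + l)) * w k l) A B C|} ≤
      ENNReal.ofReal (2 * Real.exp (-(8 * q * (A.card + B.card + C.card)))) := by
  classical
  have ha : (0 : ℝ) < A.card := by exact_mod_cast hA.card_pos
  have hb : (0 : ℝ) < B.card := by exact_mod_cast hB.card_pos
  have hc : (0 : ℝ) < C.card := by exact_mod_cast hC.card_pos
  set a : ℝ := (A.card : ℝ)
  set b : ℝ := (B.card : ℝ)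
  set c : ℝ := (C.card : ℝ)
  have habc : 0 < a * b * c := by positivity
  have hs : 0 < a + b + c := by positivity
  have h1 := hH Ω μ X hXm hXi hX ((uni_P A B C).image uni_cl) (uni_al w (uni_P A B C))
    (30 * Real.sqrt q * Real.sqrt (a * b * c)) (54 * (a * b * c) / (a + b + c)) (by positivity)
    (by positivity) (by
      refine (uni_sq w hw _).trans ?_
      rw [le_div_iff₀ hs]
      have := uni_P4 A B C
      nlinarith)
  refine (measure_mono ?_).trans (h1.trans (ENNReal.ofReal_le_ofReal ?_))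
  · intro ω hω
    change 30 * Real.sqrt q * Real.sqrt (a * b * c) ≤ |_|
    have h2 : 30 * Real.sqrt q * Real.sqrt (a * b * c) <
      |Box (fun k l => sgn X ω k l (-(k + l)) * w k l) A B C| := hω
    rw [uni_sum w (uni_P A B C) (fun c => X c ω), ← uni_box]
    exact h2.le
  · refine mul_le_mul_of_nonneg_left (Real.exp_le_exp.2 ?_) (by norm_num)
    have h2 : (30 * Real.sqrt q * Real.sqrt (a * b * c)) ^ 2 = 900 * q * (a * b * c) := by
      rw [mul_pow, mul_pow, Real.sq_sqrt hq, Real.sq_sqrt habc.le]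
      ring
    rw [h2]
    have h3 : -(900 * q * (a * b * c)) / (2 * (54 * (a * b * c) / (a + b + c))) =
        -(25 / 3 * q * (a + b + c)) := by
      field_simp
      ring
    rw [h3]
    have h4 : 0 ≤ q * (a + b + c) := by positivity
    nlinarith

lemma uni_card (R : ℕ) : (cub R).card = (2 * R + 1) ^ 3 := by
  rw [cub, Fintype.card_piFinset]
  simp only [Int.card_Icc, Finset.prod_const, Finset.card_univ, Fintype.card_fin]
  congr 1
  omega

open Classical in
/-- the generating function of the nonempty subsets -/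
lemma uni_gen (s : Finset Wv) (x : ℝ) :
    ∑ A ∈ s.powerset.filter (fun A => A.Nonempty), x ^ A.card = (1 + x) ^ s.card - 1 := by
  have h1 : ∑ A ∈ s.powerset, x ^ A.card = (1 + x) ^ s.card := by
    have := Finset.sum_pow_mul_eq_add_pow x 1 s
    simp only [one_pow, mul_one] at this
    rw [this, add_comm]
  have h2 : s.powerset.filter (fun A => A.Nonempty) = s.powerset.erase ∅ := by
    ext A
    rw [Finset.mem_filter, Finset.mem_erase, Finset.nonempty_iff_ne_empty, and_comm]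
  rw [h2, Finset.sum_erase_eq_sub (Finset.empty_mem_powerset s), h1, Finset.card_empty, pow_zero]

/-- an elementary inequality -/
lemma uni_num (R : ℕ) (hR : 1 ≤ R) (x : ℝ) (hx : x = Real.exp (-(8 * Real.log (2 * R + 1)))) :
    0 ≤ (1 + x) ^ (cub R).card - 1 ∧ (1 + x) ^ (cub R).card - 1 ≤ 2 / (2 * R + 1) := by
  have hR' : (1 : ℝ) ≤ R := by exact_mod_cast hR
  set m : ℝ := 2 * R + 1 with hm
  have hm3 : 3 ≤ m := by rw [hm]; linarith
  have hm0 : 0 < m := by linarith
  have hx' : x = (m ^ 8)⁻¹ := by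
    rw [hx, Real.exp_neg]
    congr 1
    rw [show (8 : ℝ) * Real.log m = ((8 : ℕ) : ℝ) * Real.log m by norm_num, ← Real.log_pow,
      Real.exp_log (by positivity)]
  have hx0 : 0 < x := by rw [hx']; positivity
  constructor
  · have : 1 ≤ (1 + x) ^ (cub R).card := one_le_pow₀ (by linarith)
    linarith
  have hN : ((cub R).card : ℝ) = m ^ 3 := by
    rw [uni_card, hm]
    push_cast
    ring
  set y : ℝ := ((cub R).card : ℝ) * x with hy
  have hy' : y = (m ^ 5)⁻¹ := by
    rw [hy, hN, hx']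
    field_simp
  have hy0 : 0 < y := by rw [hy']; positivity
  have hy1 : y ≤ 1 / m / 2 := by
    rw [hy', div_div, inv_eq_one_div]
    apply one_div_le_one_div_of_le (by positivity)
    have : (3 : ℝ) ^ 4 ≤ m ^ 4 := pow_le_pow_left₀ (by norm_num) hm3 4
    nlinarith
  have hy2 : y ≤ 1 / 2 := by
    have : 1 / m ≤ 1 := by
      rw [div_le_one hm0]
      linarith
    linarith
  have h1 : (1 + x) ^ (cub R).card ≤ Real.exp y := by
    have h2 : 1 + x ≤ Real.exp x := by
      have := Real.add_one_le_exp x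
      linarith
    calc (1 + x) ^ (cub R).card ≤ Real.exp x ^ (cub R).card :=
          pow_le_pow_left₀ (by positivity) h2 _
      _ = Real.exp y := by rw [hy, Real.exp_nat_mul]
  have h2 : Real.exp y * (1 - y) ≤ 1 := by
    have h3 := Real.add_one_le_exp (-y)
    calc Real.exp y * (1 - y) ≤ Real.exp y * Real.exp (-y) :=
          mul_le_mul_of_nonneg_left (by linarith) (Real.exp_pos _).le
      _ = 1 := by rw [← Real.exp_add, add_neg_cancel, Real.exp_zero]
  have h3 : Real.exp y ≤ 1 + 2 * y := by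
    by_contra h4
    push Not at h4
    have h5 : (1 + 2 * y) * (1 - y) < Real.exp y * (1 - y) :=
      mul_lt_mul_of_pos_right h4 (by linarith)
    nlinarith
  have h4 : 2 / m = 2 * (1 / m) := by ring
  rw [h4]
  linarith

theorem t_UNI : S_UNI := by
  classical
  intro hH Ω _ μ _ X hXm hXi hX R hR w hw
  have hR' : (1 : ℝ) ≤ R := by exact_mod_cast hR
  have hq : 0 ≤ Real.log (2 * R + 1) := Real.log_nonneg (by linarith)
  set q : ℝ := Real.log (2 * R + 1)
  set N : Finset (Finset Wv) := (cub R).powerset.filter (fun A => A.Nonempty) with hN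
  have hN' : ∀ A, A ∈ N ↔ A ⊆ cub R ∧ A.Nonempty := fun A => by
    rw [hN, Finset.mem_filter, Finset.mem_powerset]
  set x : ℝ := Real.exp (-(8 * q)) with hx
  let E : Finset Wv × Finset Wv × Finset Wv → Set Ω := fun T =>
    {ω | 30 * Real.sqrt q * Real.sqrt ((T.1.card : ℝ) * T.2.1.card * T.2.2.card) <
      |Box (fun k l => sgn X ω k l (-(k + l)) * w k l) T.1 T.2.1 T.2.2|}
  have h1 : {ω | ∃ A ⊆ cub R, ∃ B ⊆ cub R, ∃ C ⊆ cub R, A.Nonempty ∧ B.Nonempty ∧ C.Nonempty ∧
      30 * Real.sqrt q * Real.sqrt ((A.card : ℝ) * B.card * C.card) <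
        |Box (fun k l => sgn X ω k l (-(k + l)) * w k l) A B C|} ⊆
      ⋃ T ∈ N ×ˢ N ×ˢ N, E T := by
    rintro ω ⟨A, hA, B, hB, C, hC, hA', hB', hC', h⟩
    simp only [Set.mem_iUnion]
    refine ⟨(A, B, C), ?_, h⟩
    rw [Finset.mem_product, Finset.mem_product]
    exact ⟨(hN' A).2 ⟨hA, hA'⟩, (hN' B).2 ⟨hB, hB'⟩, (hN' C).2 ⟨hC, hC'⟩⟩
  have h2 : ∀ T ∈ N ×ˢ N ×ˢ N, μ (E T) ≤
      ENNReal.ofReal (2 * (x ^ T.1.card * (x ^ T.2.1.card * x ^ T.2.2.card))) := by
    rintro ⟨A, B, C⟩ hT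
    rw [Finset.mem_product, Finset.mem_product] at hT
    obtain ⟨hA, hB, hC⟩ := hT
    refine (uni_one hH Ω μ X hXm hXi hX q hq w hw A B C ((hN' A).1 hA).2 ((hN' B).1 hB).2
      ((hN' C).1 hC).2).trans (le_of_eq ?_)
    congr 2
    rw [hx, ← Real.exp_nat_mul, ← Real.exp_nat_mul, ← Real.exp_nat_mul, ← Real.exp_add,
      ← Real.exp_add]
    congr 1
    change -(8 * q * ((A.card : ℝ) + B.card + C.card)) =
      (A.card : ℝ) * -(8 * q) + ((B.card : ℝ) * -(8 * q) + (C.card : ℝ) * -(8 * q))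
    ring
  have hx0 : 0 ≤ x := (Real.exp_pos _).le
  obtain ⟨h3, h4⟩ := uni_num R hR x hx
  have h5 : ∑ A ∈ N, x ^ A.card = (1 + x) ^ (cub R).card - 1 := uni_gen _ _
  refine (measure_mono h1).trans ((measure_biUnion_finset_le _ _).trans
    ((Finset.sum_le_sum h2).trans ?_))
  rw [← ENNReal.ofReal_sum_of_nonneg (fun T _ => by positivity)]
  apply ENNReal.ofReal_le_ofReal
  rw [← Finset.mul_sum, Finset.sum_product]
  simp only [Finset.sum_product, ← Finset.mul_sum, ← Finset.sum_mul]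
  rw [h5]
  set z : ℝ := (1 + x) ^ (cub R).card - 1
  have hR0 : (0 : ℝ) < R := by linarith
  have h6 : z ≤ 1 / R := by
    refine h4.trans ?_
    rw [div_le_div_iff₀ (by positivity) hR0]
    linarith
  have h7 : z ≤ 1 := h6.trans (by rw [div_le_one hR0]; exact hR')
  have h8 : 2 * (z * (z * z)) ≤ 2 * z := by nlinarith [mul_nonneg h3 h3]
  have h9 : 2 * z ≤ 100 / R := by
    have h10 : (100 : ℝ) / R = 100 * (1 / R) := by ring
    have h11 : 0 ≤ 1 / (R : ℝ) := by positivity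
    rw [h10]
    linarith
  exact h8.trans h9

end Pool.Agent.N983.RT
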