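import Pool.Agent.N983.RT.Stm2
import Pool.Agent.N983.RT.UNI

/-! Union bound over all boxes for centred coefficients (after UNI.lean by helper262). -/

set_option autoImplicit false

namespace Pool.Agent.N983.RT

open MeasureTheory ProbabilityTheory

/-- one box -/
lemma uni2_one (hH : S_HOE2) (Ω : Type) [MeasurableSpace Ω] (μ : Measure Ω)
    [IsProbabilityMeasure μ] (X : Sym2 (Finset Wv) → Ω → ℝ) (hXm : ∀ c, Measurable (X c))
    (hXi : iIndepFun X μ) (hX : ∀ c, (∀ᵐ ω ∂μ, |X c ω| ≤ 1) ∧ ∫ ω, X c ω ∂μ = 0)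
    (q : ℝ) (hq : 0 ≤ q) (w : Wv → Wv → ℝ) (hw : ∀ k l, |w k l| ≤ 1) (A B C : Finset Wv)
    (hA : A.Nonempty) (hB : B.Nonempty) (hC : C.Nonempty) :
    μ {ω | 30 * Real.sqrt q * Real.sqrt ((A.card : ℝ) * B.card * C.card) <
        |Box (fun k l => sgn X ω k l (-(k + l)) * w k l) A B C|} ≤
      ENNReal.ofReal (2 * Real.exp (-(8 * q * (A.card + B.card + C.card)))) := by
  classical
  have ha : (0 : ℝ) < A.card := by exact_mod_cast hA.card_pos
  have hb : (0 : ℝ) < B.card := by exact_mod_cast hB.card_pos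
  have hc : (0 : ℝ) < C.card := by exact_mod_cast hC.card_pos
  set a : ℝ := (A.card : ℝ)
  set b : ℝ := (B.card : ℝ)
  set c : ℝ := (C.card : ℝ)
  have habc : 0 < a * b * c := by positivity
  have hs : 0 < a + b + c := by positivity
  have h1 := hH Ω μ X hXm hXi hX ((uni_P A B C).image uni_cl) (uni_al w (uni_P A B C))
    (30 * Real.sqrt q * Real.sqrt (a * b * c)) (54 * (a * b * c) / (a + b + c)) (by positivity)
    (by positivity) (by
      refine (uni_sq w hw _).trans ?_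
      rw [le_div_iff₀ hs]
      have := uni_P4 A B C
      nlinarith)
  refine (measure_mono ?_).trans (h1.trans (ENNReal.ofReal_le_ofReal ?_))
  · intro ω hω
    change 30 * Real.sqrt q * Real.sqrt (a * b * c) ≤ |_|
    have h2 : 30 * Real.sqrt q * Real.sqrt (a * b * c) <
      |Box (fun k l => sgn X ω k l (-(k + l)) * w k l) A B C| := hω
    rw [uni_sum w (uni_P A B C) (fun c => X c ω), ← uni_box]
    exact h2.le
  · refine mul_le_mul_of_nonneg_left (Real.exp_le_exp.2 ?_) (by norm_num)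
    have h2 : (30 * Real.sqrt q * Real.sqrt (a * b * c)) ^ 2 = 900 * q * (a * b * c) := by
      rw [mul_pow, mul_pow, Real.sq_sqrt hq, Real.sq_sqrt habc.le]
      ring
    rw [h2]
    have h3 : -(900 * q * (a * b * c)) / (2 * (54 * (a * b * c) / (a + b + c))) =
        -(25 / 3 * q * (a + b + c)) := by
      field_simp
      ring
    rw [h3]
    have h4 : 0 ≤ q * (a + b + c) := by positivity
    nlinarith

theorem t_UNI2 : S_UNI2 := by
  classical
  intro hH Ω _ μ _ X hXm hXi hX R hR w hw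
  have hR' : (1 : ℝ) ≤ R := by exact_mod_cast hR
  have hq : 0 ≤ Real.log (2 * R + 1) := Real.log_nonneg (by linarith)
  set q : ℝ := Real.log (2 * R + 1)
  set N : Finset (Finset Wv) := (cub R).powerset.filter (fun A => A.Nonempty) with hN
  have hN' : ∀ A, A ∈ N ↔ A ⊆ cub R ∧ A.Nonempty := fun A => by
    rw [hN, Finset.mem_filter, Finset.mem_powerset]
  set x : ℝ := Real.exp (-(8 * q)) with hx
  let E : Finset Wv × Finset Wv × Finset Wv → Set Ω := fun T =>
    {ω | 30 * Real.sqrt q * Real.sqrt ((T.1.card : ℝ) * T.2.1.card * T.2.2.card) <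
      |Box (fun k l => sgn X ω k l (-(k + l)) * w k l) T.1 T.2.1 T.2.2|}
  have h1 : {ω | ∃ A ⊆ cub R, ∃ B ⊆ cub R, ∃ C ⊆ cub R, A.Nonempty ∧ B.Nonempty ∧ C.Nonempty ∧
      30 * Real.sqrt q * Real.sqrt ((A.card : ℝ) * B.card * C.card) <
        |Box (fun k l => sgn X ω k l (-(k + l)) * w k l) A B C|} ⊆
      ⋃ T ∈ N ×ˢ N ×ˢ N, E T := by
    rintro ω ⟨A, hA, B, hB, C, hC, hA', hB', hC', h⟩
    simp only [Set.mem_iUnion]
    refine ⟨(A, B, C), ?_, h⟩
    rw [Finset.mem_product, Finset.mem_product]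
    exact ⟨(hN' A).2 ⟨hA, hA'⟩, (hN' B).2 ⟨hB, hB'⟩, (hN' C).2 ⟨hC, hC'⟩⟩
  have h2 : ∀ T ∈ N ×ˢ N ×ˢ N, μ (E T) ≤
      ENNReal.ofReal (2 * (x ^ T.1.card * (x ^ T.2.1.card * x ^ T.2.2.card))) := by
    rintro ⟨A, B, C⟩ hT
    rw [Finset.mem_product, Finset.mem_product] at hT
    obtain ⟨hA, hB, hC⟩ := hT
    refine (uni2_one hH Ω μ X hXm hXi hX q hq w hw A B C ((hN' A).1 hA).2 ((hN' B).1 hB).2
      ((hN' C).1 hC).2).trans (le_of_eq ?_)
    congr 2
    rw [hx, ← Real.exp_nat_mul, ← Real.exp_nat_mul, ← Real.exp_nat_mul, ← Real.exp_add,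
      ← Real.exp_add]
    congr 1
    change -(8 * q * ((A.card : ℝ) + B.card + C.card)) =
      (A.card : ℝ) * -(8 * q) + ((B.card : ℝ) * -(8 * q) + (C.card : ℝ) * -(8 * q))
    ring
  have hx0 : 0 ≤ x := (Real.exp_pos _).le
  obtain ⟨h3, h4⟩ := uni_num R hR x hx
  have h5 : ∑ A ∈ N, x ^ A.card = (1 + x) ^ (cub R).card - 1 := uni_gen _ _
  refine (measure_mono h1).trans ((measure_biUnion_finset_le _ _).trans
    ((Finset.sum_le_sum h2).trans ?_))
  rw [← ENNReal.ofReal_sum_of_nonneg (fun T _ => by positivity)]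
  apply ENNReal.ofReal_le_ofReal
  rw [← Finset.mul_sum, Finset.sum_product]
  simp only [Finset.sum_product, ← Finset.mul_sum, ← Finset.sum_mul]
  rw [h5]
  set z : ℝ := (1 + x) ^ (cub R).card - 1
  have hR0 : (0 : ℝ) < R := by linarith
  have h6 : z ≤ 1 / R := by
    refine h4.trans ?_
    rw [div_le_div_iff₀ (by positivity) hR0]
    linarith
  have h7 : z ≤ 1 := h6.trans (by rw [div_le_one hR0]; exact hR')
  have h8 : 2 * (z * (z * z)) ≤ 2 * z := by nlinarith [mul_nonneg h3 h3]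
  have h9 : 2 * z ≤ 100 / R := by
    have h10 : (100 : ℝ) / R = 100 * (1 / R) := by ring
    have h11 : 0 ≤ 1 / (R : ℝ) := by positivity
    rw [h10]
    linarith
  exact h8.trans h9

end Pool.Agent.N983.RT
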