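import Pool.Agent.N983.RT.Stm

set_option autoImplicit false

/-! Part UNQ: uniqueness of smooth solutions (worker: helper477). -/

namespace Pool.Agent.N983.RT

open Filter Topology Finset
open scoped ComplexConjugate

noncomputable section

/-- the summable majorant -/
def unq_q (k : Wv) : ℝ := ((1 + nsq k) ^ 3)⁻¹

/-- the `ℓ¹` norm -/
def unq_a (x : Fin 3 → ℂ) : ℝ := ∑ j, ‖x j‖

theorem unq_nsq (k : Wv) : 0 ≤ nsq k := Finset.sum_nonneg fun _ _ => sq_nonneg _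

theorem unq_W (k : Wv) : 1 ≤ 1 + nsq k := by linarith [unq_nsq k]

theorem unq_q_nonneg (k : Wv) : 0 ≤ unq_q k :=
  inv_nonneg.2 (pow_nonneg (by linarith [unq_W k]) 3)

theorem unq_q_le_one (k : Wv) : unq_q k ≤ 1 := inv_le_one_of_one_le₀ (one_le_pow₀ (unq_W k))

theorem unq_a_nonneg (x : Fin 3 → ℂ) : 0 ≤ unq_a x := Finset.sum_nonneg fun _ _ => norm_nonneg _

theorem unq_le_a (x : Fin 3 → ℂ) (j : Fin 3) : ‖x j‖ ≤ unq_a x :=
  Finset.single_le_sum (f := fun j => ‖x j‖) (fun _ _ => norm_nonneg _) (Finset.mem_univ j)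

theorem unq_a_sq (x : Fin 3 → ℂ) : unq_a x ^ 2 ≤ 3 * ∑ j, ‖x j‖ ^ 2 := by
  have h := sq_sum_le_card_mul_sum_sq (s := (Finset.univ : Finset (Fin 3))) (f := fun j => ‖x j‖)
  simpa [unq_a] using h

theorem unq_coord (k : Wv) (i : Fin 3) : ‖(k i : ℂ)‖ ≤ 1 + nsq k := by
  rw [Complex.norm_intCast]
  have h1 : ((k i : ℝ)) ^ 2 ≤ nsq k :=
    Finset.single_le_sum (f := fun i => ((k i : ℝ)) ^ 2) (fun _ _ => sq_nonneg _)
      (Finset.mem_univ i)
  nlinarith [sq_abs (k i : ℝ), abs_nonneg (k i : ℝ), sq_nonneg (|(k i : ℝ)| - 1)]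

theorem unq_dt (x : Fin 3 → ℂ) (k : Wv) : ‖dt x k‖ ≤ unq_a x * (1 + nsq k) := by
  unfold dt unq_a
  rw [Finset.sum_mul]
  refine (norm_sum_le _ _).trans (Finset.sum_le_sum fun i _ => ?_)
  rw [norm_mul]
  exact mul_le_mul_of_nonneg_left (unq_coord k i) (norm_nonneg _)

theorem unq_mem_cub (k : Wv) (n : ℕ) : k ∈ cub n ↔ ∀ i, -(n : ℤ) ≤ k i ∧ k i ≤ n := by
  simp [cub, Fintype.mem_piFinset, Finset.mem_Icc]

theorem unq_cub : Tendsto cub atTop atTop := by
  refine tendsto_atTop_finset_of_monotone ?_ ?_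
  · intro n m hnm k hk
    rw [unq_mem_cub] at hk ⊢
    intro i
    have h1 := hk i
    have h2 : (n : ℤ) ≤ m := by exact_mod_cast hnm
    constructor <;> linarith [h1.1, h1.2]
  · intro k
    refine ⟨∑ i, (k i).natAbs, ?_⟩
    rw [unq_mem_cub]
    intro i
    have h1 : (k i).natAbs ≤ ∑ i, (k i).natAbs :=
      Finset.single_le_sum (f := fun i => (k i).natAbs) (fun _ _ => Nat.zero_le _)
        (Finset.mem_univ i)
    omega

theorem unq_summable (hS : Summable unq_q) {F : Wv → ℂ} {C : ℝ}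
    (hF : ∀ k, ‖F k‖ ≤ C * unq_q k) : Summable F :=
  Summable.of_norm_bounded (hS.mul_left C) hF

theorem unq_tail (hS : Summable unq_q) {F : Wv → ℂ} {C : ℝ} (hF : ∀ k, ‖F k‖ ≤ C * unq_q k)
    (s : Finset Wv) :
    ‖∑' k, F k - ∑ k ∈ s, F k‖ ≤ C * (∑' k, unq_q k - ∑ k ∈ s, unq_q k) := by
  have hFs : Summable F := unq_summable hS hF
  have h1 := hFs.sum_add_tsum_compl (s := s)
  have h2 := hS.sum_add_tsum_compl (s := s)
  rw [← h1, ← h2, add_sub_cancel_left, add_sub_cancel_left, ← tsum_mul_left]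
  exact tsum_of_norm_bounded ((hS.mul_left C).subtype _).hasSum (fun k => hF k)

/-- the terms of the convolution -/
def unq_B (g : Wv → Wv → Wv → ℝ) (x y : Fld) (m : Wv) (j : Fin 3) (k : Wv) : ℂ :=
  (g k (m - k) (-m) : ℂ) * dt (x k) (m - k) * y (m - k) j

theorem unq_B_le {g : Wv → Wv → Wv → ℝ} (hg : ∀ k l m, |g k l m| ≤ 1) (x y : Fld) (m : Wv)
    (j : Fin 3) (k : Wv) :
    ‖unq_B g x y m j k‖ ≤ unq_a (x k) * (1 + nsq (m - k)) * ‖y (m - k) j‖ := by
  unfold unq_B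
  rw [norm_mul, norm_mul]
  refine mul_le_mul_of_nonneg_right ?_ (norm_nonneg _)
  have h1 : ‖(g k (m - k) (-m) : ℂ)‖ ≤ 1 := by
    rw [Complex.norm_real]
    exact hg _ _ _
  calc ‖(g k (m - k) (-m) : ℂ)‖ * ‖dt (x k) (m - k)‖ ≤ 1 * ‖dt (x k) (m - k)‖ :=
        mul_le_mul_of_nonneg_right h1 (norm_nonneg _)
    _ ≤ _ := by rw [one_mul]; exact unq_dt _ _

/-- a strongly decaying field -/
def unq_G (D : ℝ) (x : Fld) : Prop := ∀ k, (1 + nsq k) ^ 4 * unq_a (x k) ≤ D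

theorem unq_G_W {D : ℝ} {x : Fld} (h : unq_G D x) (k : Wv) :
    (1 + nsq k) * unq_a (x k) ≤ D * unq_q k := by
  have h1 := h k
  have h2 : 0 < (1 + nsq k) ^ 3 := pow_pos (by linarith [unq_W k]) 3
  unfold unq_q
  rw [← div_eq_mul_inv, le_div_iff₀ h2]
  calc (1 + nsq k) * unq_a (x k) * (1 + nsq k) ^ 3 = (1 + nsq k) ^ 4 * unq_a (x k) := by ring
    _ ≤ D := h1

theorem unq_G_a {D : ℝ} {x : Fld} (h : unq_G D x) (k : Wv) : unq_a (x k) ≤ D * unq_q k := by
  refine le_trans ?_ (unq_G_W h k)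
  have h1 := unq_W k
  have h2 := unq_a_nonneg (x k)
  nlinarith

theorem unq_G_D {D : ℝ} {x : Fld} (h : unq_G D x) : 0 ≤ D :=
  le_trans (mul_nonneg (pow_nonneg (by linarith [unq_W 0]) 4) (unq_a_nonneg _)) (h 0)

theorem unq_G_W1 {D : ℝ} {x : Fld} (h : unq_G D x) (k : Wv) :
    (1 + nsq k) * unq_a (x k) ≤ D :=
  (unq_G_W h k).trans (mul_le_of_le_one_right (unq_G_D h) (unq_q_le_one k))

theorem unq_G_a1 {D : ℝ} {x : Fld} (h : unq_G D x) (k : Wv) : unq_a (x k) ≤ D :=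
  (unq_G_a h k).trans (mul_le_of_le_one_right (unq_G_D h) (unq_q_le_one k))

theorem unq_B1 {g : Wv → Wv → Wv → ℝ} (hg : ∀ k l m, |g k l m| ≤ 1) {D : ℝ} {x y : Fld}
    (hx : unq_G D x) (hy : unq_G D y) (m : Wv) (j : Fin 3) (k : Wv) :
    ‖unq_B g x y m j k‖ ≤ D ^ 2 * unq_q k := by
  refine (unq_B_le hg x y m j k).trans ?_
  have h1 := unq_G_a hx k
  have h2 : (1 + nsq (m - k)) * ‖y (m - k) j‖ ≤ D :=
    le_trans (mul_le_mul_of_nonneg_left (unq_le_a _ j) (by linarith [unq_W (m - k)]))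
      (unq_G_W1 hy (m - k))
  calc unq_a (x k) * (1 + nsq (m - k)) * ‖y (m - k) j‖
      = unq_a (x k) * ((1 + nsq (m - k)) * ‖y (m - k) j‖) := by ring
    _ ≤ (D * unq_q k) * D :=
        mul_le_mul h1 h2 (mul_nonneg (by linarith [unq_W (m - k)]) (norm_nonneg _))
          (mul_nonneg (unq_G_D hx) (unq_q_nonneg k))
    _ = _ := by ring

theorem unq_B2 {g : Wv → Wv → Wv → ℝ} (hg : ∀ k l m, |g k l m| ≤ 1) {D : ℝ} {x y : Fld}
    (hx : unq_G D x) (hy : unq_G D y) (m : Wv) (j : Fin 3) (l : Wv) :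
    ‖unq_B g x y m j (m - l)‖ ≤ D ^ 2 * unq_q l := by
  refine (unq_B_le hg x y m j (m - l)).trans ?_
  rw [sub_sub_cancel]
  have h1 := unq_G_a1 hx (m - l)
  have h2 : (1 + nsq l) * ‖y l j‖ ≤ D * unq_q l :=
    le_trans (mul_le_mul_of_nonneg_left (unq_le_a _ j) (by linarith [unq_W l]))
      (unq_G_W hy l)
  calc unq_a (x (m - l)) * (1 + nsq l) * ‖y l j‖
      = unq_a (x (m - l)) * ((1 + nsq l) * ‖y l j‖) := by ring
    _ ≤ D * (D * unq_q l) :=
        mul_le_mul h1 h2 (mul_nonneg (by linarith [unq_W l]) (norm_nonneg _)) (unq_G_D hx)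
    _ = _ := by ring

theorem unq_conv_sub (hS : Summable unq_q) {g : Wv → Wv → Wv → ℝ}
    (hg : ∀ k l m, |g k l m| ≤ 1) {D : ℝ} {u v : Fld}
    (hu : unq_G D u) (hv : unq_G D v) (hw : unq_G D (u - v)) (m : Wv) (j : Fin 3) :
    conv g u m j - conv g v m j =
      ∑' l, unq_B g u (u - v) m j (m - l) + ∑' k, unq_B g (u - v) v m j k := by
  have h1 : Summable (unq_B g u u m j) := unq_summable hS (unq_B1 hg hu hu m j)
  have h2 : Summable (unq_B g v v m j) := unq_summable hS (unq_B1 hg hv hv m j)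
  have h3 : Summable (unq_B g u (u - v) m j) := unq_summable hS (unq_B1 hg hu hw m j)
  have h4 : Summable (unq_B g (u - v) v m j) := unq_summable hS (unq_B1 hg hw hv m j)
  have h5 : ∑' l, unq_B g u (u - v) m j (m - l) = ∑' k, unq_B g u (u - v) m j k :=
    (Equiv.subLeft m).tsum_eq (unq_B g u (u - v) m j)
  have h6 : conv g u m j = ∑' k, unq_B g u u m j k := rfl
  have h7 : conv g v m j = ∑' k, unq_B g v v m j k := rfl
  rw [h5, h6, h7, ← h1.tsum_sub h2, ← h3.tsum_add h4]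
  refine tsum_congr fun k => ?_
  unfold unq_B
  have h8 : dt ((u - v) k) (m - k) = dt (u k) (m - k) - dt (v k) (m - k) := by
    unfold dt
    rw [← Finset.sum_sub_distrib]
    refine Finset.sum_congr rfl fun i _ => ?_
    show (u k i - v k i) * _ = _
    ring
  have h9 : (u - v) (m - k) j = u (m - k) j - v (m - k) j := rfl
  rw [h8, h9]
  ring

theorem unq_conj_dt {u : Fld} (hu : Adm u) (k l : Wv) : conj (dt (u k) l) = dt (u (-k)) l := by
  unfold dt
  rw [map_sum]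
  refine Finset.sum_congr rfl fun i _ => ?_
  rw [map_mul, ← hu.real k i]
  congr 1
  exact map_intCast (starRingEnd ℂ) (l i)

theorem unq_dt_sub (x : Fin 3 → ℂ) (k l : Wv) : dt x (k - l) = dt x k - dt x l := by
  unfold dt
  rw [← Finset.sum_sub_distrib]
  refine Finset.sum_congr rfl fun i _ => ?_
  rw [Pi.sub_apply]
  push_cast
  ring

/-- the main part is antisymmetric -/
theorem unq_anti {g : Wv → Wv → Wv → ℝ} (hg : Arr g) {u : Fld} (hu : Adm u) (w : Fld)
    (s : Finset Wv) :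
    (-Complex.I * ∑ m ∈ s, ∑ j, conj (w m j) * ∑ l ∈ s, unq_B g u w m j (m - l)).re = 0 := by
  obtain ⟨G, hG⟩ : ∃ G : Wv → Wv → ℂ, ∀ m l, G m l = (g (m - l) l (-m) : ℂ) *
    dt (u (m - l)) l * ∑ j, conj (w m j) * w l j := ⟨_, fun _ _ => rfl⟩
  have h1 : ∑ m ∈ s, ∑ j, conj (w m j) * ∑ l ∈ s, unq_B g u w m j (m - l) =
      ∑ m ∈ s, ∑ l ∈ s, G m l := by
    refine Finset.sum_congr rfl fun m _ => ?_
    simp only [Finset.mul_sum]
    rw [Finset.sum_comm]
    refine Finset.sum_congr rfl fun l _ => ?_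
    rw [hG, Finset.mul_sum]
    refine Finset.sum_congr rfl fun j _ => ?_
    unfold unq_B
    rw [sub_sub_cancel]
    ring
  have h2 : ∀ m l, conj (G m l) = G l m := by
    intro m l
    rw [hG, hG, map_mul, map_mul, unq_conj_dt hu, map_sum, Complex.conj_ofReal, neg_sub]
    have e1 : g (l - m) m (-l) = g (m - l) l (-m) := by
      rw [← hg.neg (l - m) m (-l), neg_sub, neg_neg, hg.swap23]
    have e2 : dt (u (l - m)) m = dt (u (l - m)) l := by
      have e3 := unq_dt_sub (u (l - m)) l (l - m)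
      rw [hu.div, sub_zero, sub_sub_cancel] at e3
      exact e3
    rw [e1, e2]
    congr 1
    refine Finset.sum_congr rfl fun j _ => ?_
    rw [map_mul, Complex.conj_conj]
    ring
  have h3 : conj (∑ m ∈ s, ∑ l ∈ s, G m l) = ∑ m ∈ s, ∑ l ∈ s, G m l := by
    rw [map_sum]
    simp only [map_sum, h2]
    exact Finset.sum_comm
  rw [h1]
  have h4 : (∑ m ∈ s, ∑ l ∈ s, G m l).im = 0 := Complex.conj_eq_iff_im.1 h3
  simp [h4]

theorem unq_sum_q (hS : Summable unq_q) (s : Finset Wv) (m : Wv) :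
    ∑ k ∈ s, unq_q (m - k) ≤ ∑' k, unq_q k := by
  have h1 : Summable fun k => unq_q (m - k) := (Equiv.subLeft m).summable_iff.2 hS
  have h2 : ∑' k, unq_q (m - k) = ∑' k, unq_q k := (Equiv.subLeft m).tsum_eq unq_q
  rw [← h2]
  exact h1.sum_le_tsum s fun k _ => unq_q_nonneg _

theorem unq_sum_q' (hS : Summable unq_q) (s : Finset Wv) (k : Wv) :
    ∑ m ∈ s, unq_q (m - k) ≤ ∑' k, unq_q k := by
  have h1 : Summable fun m => unq_q (m - k) := (Equiv.subRight k).summable_iff.2 hS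
  have h2 : ∑' m, unq_q (m - k) = ∑' k, unq_q k := (Equiv.subRight k).tsum_eq unq_q
  rw [← h2]
  exact h1.sum_le_tsum s fun k _ => unq_q_nonneg _

/-- Schur's test -/
theorem unq_schur (hS : Summable unq_q) (s : Finset Wv) (a : Wv → ℝ) :
    ∑ m ∈ s, ∑ k ∈ s, a m * a k * unq_q (m - k) ≤ (∑' k, unq_q k) * ∑ m ∈ s, a m ^ 2 := by
  have h1 : ∑ m ∈ s, ∑ k ∈ s, a m * a k * unq_q (m - k) ≤
      ∑ m ∈ s, ∑ k ∈ s, (a m ^ 2 * unq_q (m - k) / 2 + a k ^ 2 * unq_q (m - k) / 2) := by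
    refine Finset.sum_le_sum fun m _ => Finset.sum_le_sum fun k _ => ?_
    have h2 := unq_q_nonneg (m - k)
    nlinarith [mul_nonneg h2 (sq_nonneg (a m - a k))]
  refine h1.trans ?_
  simp only [Finset.sum_add_distrib]
  have h3 : ∑ m ∈ s, ∑ k ∈ s, a m ^ 2 * unq_q (m - k) / 2 ≤
      ∑ m ∈ s, a m ^ 2 / 2 * ∑' k, unq_q k := by
    refine Finset.sum_le_sum fun m _ => ?_
    have h4 : ∑ k ∈ s, a m ^ 2 * unq_q (m - k) / 2 = a m ^ 2 / 2 * ∑ k ∈ s, unq_q (m - k) := by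
      rw [Finset.mul_sum]
      refine Finset.sum_congr rfl fun k _ => ?_
      ring
    rw [h4]
    exact mul_le_mul_of_nonneg_left (unq_sum_q hS s m) (by positivity)
  have h5 : ∑ m ∈ s, ∑ k ∈ s, a k ^ 2 * unq_q (m - k) / 2 ≤
      ∑ m ∈ s, a m ^ 2 / 2 * ∑' k, unq_q k := by
    rw [Finset.sum_comm]
    refine Finset.sum_le_sum fun k _ => ?_
    have h4 : ∑ m ∈ s, a k ^ 2 * unq_q (m - k) / 2 = a k ^ 2 / 2 * ∑ m ∈ s, unq_q (m - k) := by
      rw [Finset.mul_sum]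
      refine Finset.sum_congr rfl fun k _ => ?_
      ring
    rw [h4]
    exact mul_le_mul_of_nonneg_left (unq_sum_q' hS s k) (by positivity)
  have h6 : ∑ m ∈ s, a m ^ 2 / 2 * ∑' k, unq_q k = (∑' k, unq_q k) * (∑ m ∈ s, a m ^ 2) / 2 := by
    rw [Finset.mul_sum, Finset.sum_div]
    refine Finset.sum_congr rfl fun k _ => ?_
    ring
  rw [h6] at h3 h5
  linarith

/-- the energy of the difference -/
def unq_E (n : ℕ) (w : Fld) : ℝ := ∑ m ∈ cub n, ∑ j, ‖w m j‖ ^ 2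

theorem unq_second (hS : Summable unq_q) {g : Wv → Wv → Wv → ℝ}
    (hg : ∀ k l m, |g k l m| ≤ 1) {D : ℝ} {w v : Fld} (hv : unq_G D v) (n : ℕ) :
    ‖∑ m ∈ cub n, ∑ j, conj (w m j) * ∑ k ∈ cub n, unq_B g w v m j k‖ ≤
      3 * D * (∑' k, unq_q k) * unq_E n w := by
  have hD := unq_G_D hv
  have hσ : 0 ≤ ∑' k, unq_q k := tsum_nonneg unq_q_nonneg
  have h1 : ‖∑ m ∈ cub n, ∑ j, conj (w m j) * ∑ k ∈ cub n, unq_B g w v m j k‖ ≤
      ∑ m ∈ cub n, ∑ k ∈ cub n, D * (unq_a (w m) * unq_a (w k) * unq_q (m - k)) := by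
    refine (norm_sum_le _ _).trans (Finset.sum_le_sum fun m _ => ?_)
    simp only [Finset.mul_sum]
    rw [Finset.sum_comm]
    refine (norm_sum_le _ _).trans (Finset.sum_le_sum fun k _ => ?_)
    have h2 : ∀ j, ‖conj (w m j) * unq_B g w v m j k‖ ≤
        ‖w m j‖ * (unq_a (w k) * (D * unq_q (m - k))) := by
      intro j
      rw [norm_mul, RCLike.norm_conj]
      refine mul_le_mul_of_nonneg_left ((unq_B_le hg w v m j k).trans ?_) (norm_nonneg _)
      rw [mul_assoc]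
      refine mul_le_mul_of_nonneg_left ?_ (unq_a_nonneg _)
      exact le_trans (mul_le_mul_of_nonneg_left (unq_le_a _ j) (by linarith [unq_W (m - k)]))
        (unq_G_W hv (m - k))
    refine (norm_sum_le _ _).trans ((Finset.sum_le_sum fun j _ => h2 j).trans ?_)
    rw [← Finset.sum_mul]
    apply le_of_eq
    unfold unq_a
    ring
  refine h1.trans ?_
  have h3 : ∑ m ∈ cub n, ∑ k ∈ cub n, D * (unq_a (w m) * unq_a (w k) * unq_q (m - k)) =
      D * ∑ m ∈ cub n, ∑ k ∈ cub n, unq_a (w m) * unq_a (w k) * unq_q (m - k) := by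
    simp only [Finset.mul_sum]
  rw [h3]
  have h4 := unq_schur hS (cub n) fun m => unq_a (w m)
  have h5 : ∑ m ∈ cub n, unq_a (w m) ^ 2 ≤ 3 * unq_E n w := by
    unfold unq_E
    rw [Finset.mul_sum]
    exact Finset.sum_le_sum fun m _ => unq_a_sq _
  calc D * ∑ m ∈ cub n, ∑ k ∈ cub n, unq_a (w m) * unq_a (w k) * unq_q (m - k)
      ≤ D * ((∑' k, unq_q k) * ∑ m ∈ cub n, unq_a (w m) ^ 2) := mul_le_mul_of_nonneg_left h4 hD
    _ ≤ D * ((∑' k, unq_q k) * (3 * unq_E n w)) :=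
        mul_le_mul_of_nonneg_left (mul_le_mul_of_nonneg_left h5 hσ) hD
    _ = _ := by ring

/-- the estimate for a fixed time -/
theorem unq_static (hS : Summable unq_q) {g : Wv → Wv → Wv → ℝ} (hg : Arr g) {D : ℝ} {u v : Fld}
    (hu0 : Adm u) (hu : unq_G D u) (hv : unq_G D v) (hw : unq_G D (u - v)) (n : ℕ) :
    (-Complex.I * ∑ m ∈ cub n, ∑ j, conj ((u - v) m j) *
      (conv g u m j - conv g v m j)).re ≤
      3 * D * (∑' k, unq_q k) * unq_E n (u - v) +
        2 * D ^ 3 * (∑' k, unq_q k) * (∑' k, unq_q k - ∑ k ∈ cub n, unq_q k) := by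
  have hD := unq_G_D hv
  have hσ : 0 ≤ ∑' k, unq_q k := tsum_nonneg unq_q_nonneg
  have hτ : 0 ≤ ∑' k, unq_q k - ∑ k ∈ cub n, unq_q k :=
    sub_nonneg.2 (hS.sum_le_tsum _ fun k _ => unq_q_nonneg k)
  set σ := ∑' k, unq_q k with hσd
  set τ := σ - ∑ k ∈ cub n, unq_q k with hτd
  obtain ⟨R1, hR1⟩ : ∃ R1 : Wv → Fin 3 → ℂ, ∀ m j, R1 m j =
    ∑' l, unq_B g u (u - v) m j (m - l) - ∑ l ∈ cub n, unq_B g u (u - v) m j (m - l) :=
    ⟨_, fun _ _ => rfl⟩
  obtain ⟨R2, hR2⟩ : ∃ R2 : Wv → Fin 3 → ℂ, ∀ m j, R2 m j =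
    ∑' k, unq_B g (u - v) v m j k - ∑ k ∈ cub n, unq_B g (u - v) v m j k :=
    ⟨_, fun _ _ => rfl⟩
  have hR1' : ∀ m j, ‖R1 m j‖ ≤ D ^ 2 * τ := by
    intro m j
    rw [hR1]
    exact unq_tail hS (unq_B2 hg.le hu hw m j) (cub n)
  have hR2' : ∀ m j, ‖R2 m j‖ ≤ D ^ 2 * τ := by
    intro m j
    rw [hR2]
    exact unq_tail hS (unq_B1 hg.le hw hv m j) (cub n)
  have h1 : ∑ m ∈ cub n, ∑ j, conj ((u - v) m j) * (conv g u m j - conv g v m j) =
      ∑ m ∈ cub n, ∑ j, conj ((u - v) m j) * ∑ l ∈ cub n, unq_B g u (u - v) m j (m - l) +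
      ∑ m ∈ cub n, ∑ j, conj ((u - v) m j) * ∑ k ∈ cub n, unq_B g (u - v) v m j k +
      ∑ m ∈ cub n, ∑ j, conj ((u - v) m j) * (R1 m j + R2 m j) := by
    rw [← Finset.sum_add_distrib, ← Finset.sum_add_distrib]
    refine Finset.sum_congr rfl fun m _ => ?_
    rw [← Finset.sum_add_distrib, ← Finset.sum_add_distrib]
    refine Finset.sum_congr rfl fun j _ => ?_
    rw [unq_conv_sub hS hg.le hu hv hw m j, hR1, hR2]
    ring
  rw [h1, mul_add, mul_add, Complex.add_re, Complex.add_re, unq_anti hg hu0, zero_add]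
  have h2 : ∀ z : ℂ, (-Complex.I * z).re ≤ ‖z‖ := by
    intro z
    refine (Complex.re_le_norm _).trans ?_
    rw [norm_mul, norm_neg, Complex.norm_I, one_mul]
  have h3 := (h2 _).trans (unq_second hS hg.le (w := u - v) hv n)
  have h4 : ‖∑ m ∈ cub n, ∑ j, conj ((u - v) m j) * (R1 m j + R2 m j)‖ ≤ 2 * D ^ 3 * σ * τ := by
    have h5 : ∀ m j, ‖conj ((u - v) m j) * (R1 m j + R2 m j)‖ ≤
        ‖(u - v) m j‖ * (2 * D ^ 2 * τ) := by
      intro m j
      rw [norm_mul, RCLike.norm_conj]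
      refine mul_le_mul_of_nonneg_left ((norm_add_le _ _).trans ?_) (norm_nonneg _)
      linarith [hR1' m j, hR2' m j]
    have h6 : ‖∑ m ∈ cub n, ∑ j, conj ((u - v) m j) * (R1 m j + R2 m j)‖ ≤
        ∑ m ∈ cub n, unq_a ((u - v) m) * (2 * D ^ 2 * τ) := by
      refine (norm_sum_le _ _).trans (Finset.sum_le_sum fun m _ => ?_)
      refine (norm_sum_le _ _).trans ((Finset.sum_le_sum fun j _ => h5 m j).trans ?_)
      rw [← Finset.sum_mul]
      exact le_refl _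
    have h7 : ∑ m ∈ cub n, unq_a ((u - v) m) ≤ D * σ := by
      refine (Finset.sum_le_sum fun m _ => unq_G_a hw m).trans ?_
      rw [← Finset.mul_sum]
      exact mul_le_mul_of_nonneg_left (hS.sum_le_tsum _ fun k _ => unq_q_nonneg k) hD
    rw [← Finset.sum_mul] at h6
    refine h6.trans ?_
    calc (∑ m ∈ cub n, unq_a ((u - v) m)) * (2 * D ^ 2 * τ) ≤ (D * σ) * (2 * D ^ 2 * τ) :=
          mul_le_mul_of_nonneg_right h7 (by positivity)
      _ = _ := by ring
  have h8 := (h2 _).trans h4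
  linarith

theorem unq_prj (m : Wv) (w a b : Fin 3 → ℂ) (hw : dt w m = 0) :
    ∑ j, conj (w j) * (prj m a j - prj m b j) = ∑ j, conj (w j) * (a j - b j) := by
  have h1 : ∑ j, conj (w j) * (m j : ℂ) = 0 := by
    have h := congrArg conj hw
    unfold dt at h
    rw [map_sum, map_zero] at h
    rw [← h]
    refine Finset.sum_congr rfl fun i _ => ?_
    rw [map_mul, map_intCast]
  have h2 : ∀ j, conj (w j) * (prj m a j - prj m b j) =
      conj (w j) * (a j - b j) - ((dt a m - dt b m) / (nsq m : ℂ)) * (conj (w j) * (m j : ℂ)) := by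
    intro j
    unfold prj
    ring
  simp only [h2, Finset.sum_sub_distrib, ← Finset.mul_sum, h1, mul_zero, sub_zero]

/-- the time derivative of the difference -/
def unq_d (g : Wv → Wv → Wv → ℝ) (ν α : ℝ) (u v : Fld) (m : Wv) (j : Fin 3) : ℂ :=
  open Classical in if m = 0 then 0 else rhs g ν α u m j - rhs g ν α v m j

theorem unq_deriv {g : Wv → Wv → Wv → ℝ} {ν α : ℝ} {u v : ℝ → Fld} (hu : IsSol g ν α u)
    (hv : IsSol g ν α v) (t : ℝ) (ht : 0 ≤ t) (m : Wv) (j : Fin 3) :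
    HasDerivWithinAt (fun t => (u t - v t) m j) (unq_d g ν α (u t) (v t) m j) (Set.Ici 0) t := by
  unfold unq_d
  split_ifs with hm
  · subst hm
    have h1 : ∀ s ∈ Set.Ici (0 : ℝ), (u s - v s) 0 j = 0 := by
      intro s hs
      show u s 0 j - v s 0 j = 0
      rw [(hu.adm s hs).zero, (hv.adm s hs).zero]
      simp
    exact (hasDerivWithinAt_const t (Set.Ici (0 : ℝ)) (0 : ℂ)).congr h1 (h1 t ht)
  · exact (hu.eqn t ht m hm j).sub (hv.eqn t ht m hm j)

theorem unq_energy {g : Wv → Wv → Wv → ℝ} {ν α : ℝ} (hν : 0 < ν) {u v : Fld} (hu : Adm u)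
    (hv : Adm v) (m : Wv) :
    ∑ j, (conj ((u - v) m j) * unq_d g ν α u v m j).re ≤
      (-Complex.I * ∑ j, conj ((u - v) m j) * (conv g u m j - conv g v m j)).re := by
  unfold unq_d
  split_ifs with hm
  · subst hm
    have h1 : ∀ j, (u - v) 0 j = 0 := by
      intro j
      show u 0 j - v 0 j = 0
      rw [hu.zero, hv.zero]
      simp
    simp [h1]
  · have hdiv : dt ((u - v) m) m = 0 := by
      have h8 : dt ((u - v) m) m = dt (u m) m - dt (v m) m := by
        unfold dt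
        rw [← Finset.sum_sub_distrib]
        refine Finset.sum_congr rfl fun i _ => ?_
        show (u m i - v m i) * _ = _
        ring
      rw [h8, hu.div, hv.div, sub_zero]
    have h1 := unq_prj m ((u - v) m) (conv g u m) (conv g v m) hdiv
    rw [← h1, Finset.mul_sum, Complex.re_sum]
    refine Finset.sum_le_sum fun j _ => ?_
    obtain ⟨c, hc, hc0⟩ : ∃ c : ℝ, c = ν * nsq m ^ α ∧ 0 ≤ c :=
      ⟨_, rfl, mul_nonneg hν.le (Real.rpow_nonneg (unq_nsq m) _)⟩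
    have h2 : rhs g ν α u m j - rhs g ν α v m j = -((c : ℂ) * (u - v) m j) +
        -Complex.I * (prj m (conv g u m) j - prj m (conv g v m) j) := by
      unfold rhs
      rw [← hc]
      show _ = -((c : ℂ) * (u m j - v m j)) + _
      ring
    rw [h2]
    have h3 : conj ((u - v) m j) * (-((c : ℂ) * (u - v) m j) +
        -Complex.I * (prj m (conv g u m) j - prj m (conv g v m) j)) =
        -((c * ‖(u - v) m j‖ ^ 2 : ℝ) : ℂ) + -Complex.I * (conj ((u - v) m j) *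
          (prj m (conv g u m) j - prj m (conv g v m) j)) := by
      have h4 : conj ((u - v) m j) * (u - v) m j = ((‖(u - v) m j‖ ^ 2 : ℝ) : ℂ) := by
        rw [← Complex.normSq_eq_conj_mul_self, Complex.normSq_eq_norm_sq]
      push_cast at h4 ⊢
      linear_combination (-(c : ℂ)) * h4
    rw [h3, Complex.add_re, Complex.neg_re, Complex.ofReal_re]
    have h5 : 0 ≤ c * ‖(u - v) m j‖ ^ 2 := by positivity
    linarith

theorem unq_deriv_E {g : Wv → Wv → Wv → ℝ} {ν α : ℝ} {u v : ℝ → Fld} (hu : IsSol g ν α u)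
    (hv : IsSol g ν α v) (n : ℕ) (t : ℝ) (ht : 0 ≤ t) :
    HasDerivWithinAt (fun t => unq_E n (u t - v t))
      (∑ m ∈ cub n, ∑ j, 2 * (conj ((u t - v t) m j) * unq_d g ν α (u t) (v t) m j).re)
      (Set.Ici 0) t := by
  unfold unq_E
  refine HasDerivWithinAt.fun_sum fun m _ => HasDerivWithinAt.fun_sum fun j _ => ?_
  have h1 := (unq_deriv hu hv t ht m j).norm_sq
  rw [Complex.inner] at h1
  simpa only [mul_comm] using h1

theorem t_UNQ : S_UNQ := by
  intro hS g ν α hg hν _ u v hu hv h0 T hT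
  have hS' : Summable unq_q := hS
  obtain ⟨C1, hC1⟩ := hu.decay T 4
  obtain ⟨C2, hC2⟩ := hv.decay T 4
  obtain ⟨D, hD⟩ : ∃ D : ℝ, D = 3 * C1 + 3 * C2 := ⟨_, rfl⟩
  have hC10 : 0 ≤ C1 :=
    le_trans (mul_nonneg (pow_nonneg (by linarith [unq_W 0]) 4) (norm_nonneg _))
      (hC1 0 le_rfl hT 0 0)
  have hC20 : 0 ≤ C2 :=
    le_trans (mul_nonneg (pow_nonneg (by linarith [unq_W 0]) 4) (norm_nonneg _))
      (hC2 0 le_rfl hT 0 0)
  have hGu : ∀ t, 0 ≤ t → t ≤ T → unq_G D (u t) := by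
    intro t h1 h2 k
    unfold unq_a
    rw [Finset.mul_sum]
    refine (Finset.sum_le_sum fun j _ => hC1 t h1 h2 k j).trans ?_
    simp
    linarith
  have hGv : ∀ t, 0 ≤ t → t ≤ T → unq_G D (v t) := by
    intro t h1 h2 k
    unfold unq_a
    rw [Finset.mul_sum]
    refine (Finset.sum_le_sum fun j _ => hC2 t h1 h2 k j).trans ?_
    simp
    linarith
  have hGw : ∀ t, 0 ≤ t → t ≤ T → unq_G D (u t - v t) := by
    intro t h1 h2 k
    unfold unq_a
    rw [Finset.mul_sum]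
    have h3 : ∀ j, (1 + nsq k) ^ 4 * ‖(u t - v t) k j‖ ≤ C1 + C2 := by
      intro j
      have h4 : ‖(u t - v t) k j‖ ≤ ‖u t k j‖ + ‖v t k j‖ := norm_sub_le _ _
      have h5 := hC1 t h1 h2 k j
      have h6 := hC2 t h1 h2 k j
      have h7 : 0 ≤ (1 + nsq k) ^ 4 := pow_nonneg (by linarith [unq_W k]) 4
      nlinarith
    refine (Finset.sum_le_sum fun j _ => h3 j).trans ?_
    simp
    linarith
  have hD0 : 0 ≤ D := by linarith
  have hσ : 0 ≤ ∑' k, unq_q k := tsum_nonneg unq_q_nonneg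
  obtain ⟨σ, hσd⟩ : ∃ σ : ℝ, σ = ∑' k, unq_q k := ⟨_, rfl⟩
  rw [← hσd] at hσ
  obtain ⟨K, hK⟩ : ∃ K : ℝ, K = 6 * D * σ + 4 * D ^ 3 * σ := ⟨_, rfl⟩
  have hK1 : 0 ≤ 6 * D * σ := by positivity
  have hK2 : 0 ≤ 4 * D ^ 3 * σ := by positivity
  -- the energy estimate
  have key : ∀ n : ℕ, unq_E n (u T - v T) ≤ (σ - ∑ k ∈ cub n, unq_q k) * Real.exp (K * T) := by
    intro n
    have hτ : 0 ≤ σ - ∑ k ∈ cub n, unq_q k := by
      rw [hσd]
      exact sub_nonneg.2 (hS'.sum_le_tsum _ fun k _ => unq_q_nonneg k)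
    obtain ⟨τ, hτd⟩ : ∃ τ : ℝ, τ = σ - ∑ k ∈ cub n, unq_q k := ⟨_, rfl⟩
    rw [← hτd] at hτ ⊢
    obtain ⟨E', hE'⟩ : ∃ E' : ℝ → ℝ, ∀ t, E' t = ∑ m ∈ cub n, ∑ j,
      2 * (conj ((u t - v t) m j) * unq_d g ν α (u t) (v t) m j).re := ⟨_, fun _ => rfl⟩
    have hder : ∀ t, 0 ≤ t → HasDerivWithinAt (fun t => unq_E n (u t - v t)) (E' t)
        (Set.Ici 0) t := by
      intro t ht
      rw [hE']
      exact unq_deriv_E hu hv n t ht
    have hbd : ∀ t, 0 ≤ t → t ≤ T → E' t ≤ K * (unq_E n (u t - v t) + τ) := by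
      intro t h1 h2
      have hE0 : 0 ≤ unq_E n (u t - v t) :=
        Finset.sum_nonneg fun _ _ => Finset.sum_nonneg fun _ _ => sq_nonneg _
      have h3 := unq_static hS' hg (hu.adm t h1) (hGu t h1 h2) (hGv t h1 h2) (hGw t h1 h2) n
      rw [← hσd, ← hτd] at h3
      have h4 : E' t ≤ 2 * (-Complex.I * ∑ m ∈ cub n, ∑ j, conj ((u t - v t) m j) *
          (conv g (u t) m j - conv g (v t) m j)).re := by
        rw [hE', Finset.mul_sum (cub n), Complex.re_sum, Finset.mul_sum]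
        refine Finset.sum_le_sum fun m _ => ?_
        rw [← Finset.mul_sum]
        exact mul_le_mul_of_nonneg_left (unq_energy hν (hu.adm t h1) (hv.adm t h1) m) zero_le_two
      rw [hK]
      nlinarith [mul_nonneg hK2 hE0, mul_nonneg hK1 hτ]
    have hh : ∀ t, 0 ≤ t → HasDerivWithinAt
        (fun t => (unq_E n (u t - v t) + τ) * Real.exp (-(K * t)))
        (E' t * Real.exp (-(K * t)) + (unq_E n (u t - v t) + τ) *
          (Real.exp (-(K * t)) * (-(K * 1)))) (Set.Ici 0) t := by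
      intro t ht
      have h1 : HasDerivWithinAt (fun t : ℝ => Real.exp (-(K * t)))
          (Real.exp (-(K * t)) * (-(K * 1))) (Set.Ici 0) t :=
        (((hasDerivAt_id t).const_mul K).fun_neg.exp).hasDerivWithinAt
      exact ((hder t ht).add_const τ).mul h1
    have hanti : AntitoneOn (fun t => (unq_E n (u t - v t) + τ) * Real.exp (-(K * t)))
        (Set.Icc 0 T) := by
      refine antitoneOn_of_deriv_nonpos (convex_Icc 0 T) ?_ ?_ ?_
      · intro t ht
        exact ((hh t ht.1).continuousWithinAt).mono Set.Icc_subset_Ici_self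
      · intro t ht
        rw [interior_Icc] at ht
        exact ((hh t ht.1.le).hasDerivAt (Ici_mem_nhds ht.1)).differentiableAt.differentiableWithinAt
      · intro t ht
        rw [interior_Icc] at ht
        rw [((hh t ht.1.le).hasDerivAt (Ici_mem_nhds ht.1)).deriv]
        have h1 := hbd t ht.1.le ht.2.le
        have h2 := Real.exp_pos (-(K * t))
        nlinarith
    have h1 := hanti (Set.left_mem_Icc.2 hT) (Set.right_mem_Icc.2 hT) hT
    have h2 : unq_E n (u 0 - v 0) = 0 := by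
      rw [h0, sub_self]
      simp [unq_E]
    have h3 : (unq_E n (u T - v T) + τ) * Real.exp (-(K * T)) ≤
        (unq_E n (u 0 - v 0) + τ) * Real.exp (-(K * 0)) := h1
    rw [h2, mul_zero, neg_zero, Real.exp_zero, mul_one, zero_add] at h3
    have h4 := Real.exp_pos (K * T)
    have h5 : Real.exp (-(K * T)) * Real.exp (K * T) = 1 := by
      rw [← Real.exp_add]
      simp
    have h6 : unq_E n (u T - v T) + τ ≤ τ * Real.exp (K * T) := by
      have h7 := mul_le_mul_of_nonneg_right h3 h4.le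
      rwa [mul_assoc, h5, mul_one] at h7
    linarith
  -- the limit
  have hlim : Tendsto (fun n : ℕ => (σ - ∑ k ∈ cub n, unq_q k) * Real.exp (K * T)) atTop
      (𝓝 ((σ - σ) * Real.exp (K * T))) := by
    refine Tendsto.mul_const _ (Tendsto.const_sub _ ?_)
    rw [hσd]
    exact hS'.hasSum.comp unq_cub
  rw [sub_self, zero_mul] at hlim
  funext m j
  have h1 : ∀ᶠ n : ℕ in atTop, m ∈ cub n := by
    have h2 := unq_cub.eventually (eventually_ge_atTop ({m} : Finset Wv))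
    refine h2.mono fun n hn => ?_
    exact hn (Finset.mem_singleton_self m)
  have h3 : ‖(u T - v T) m j‖ ^ 2 ≤ 0 := by
    refine ge_of_tendsto hlim (h1.mono fun n hn => le_trans ?_ (key n))
    unfold unq_E
    refine le_trans ?_ (Finset.single_le_sum (f := fun m => ∑ j, ‖(u T - v T) m j‖ ^ 2)
      (fun _ _ => Finset.sum_nonneg fun _ _ => sq_nonneg _) hn)
    exact Finset.single_le_sum (f := fun j => ‖(u T - v T) m j‖ ^ 2)
      (fun _ _ => sq_nonneg _) (Finset.mem_univ j)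
  have h4 : (u T - v T) m j = 0 := by
    have h5 : ‖(u T - v T) m j‖ = 0 := by
      have := norm_nonneg ((u T - v T) m j)
      nlinarith
    exact norm_eq_zero.1 h5
  have h6 : u T m j - v T m j = 0 := h4
  exact sub_eq_zero.1 h6

end

end Pool.Agent.N983.RT
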